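import Pool.Agent.H4.JKw

/-! The necessary condition: assembly. -/

namespace Pool.Agent.H4.JK

open Module MvPolynomial

set_option linter.unusedSectionVars false

variable {I : Type} [Fintype I] [DecidableEq I]

theorem count_le_card_filter (s : Multiset ℕ) (m : ℕ) :
    s.count m ≤ (s.filter (m ≤ ·)).card := by
  rw [Multiset.count_eq_card_filter_eq]
  apply Multiset.card_le_card
  apply Multiset.monotone_filter_right
  intro x hx
  exact hx.le

theorem card_filter_succ (s : Multiset ℕ) (m : ℕ) :
    (s.filter (m ≤ ·)).card = s.count m + (s.filter (m + 1 ≤ ·)).card := by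
  induction s using Multiset.induction_on with
  | empty => simp
  | cons a s ih =>
    rw [Multiset.filter_cons, Multiset.filter_cons, Multiset.count_cons, Multiset.card_add,
      Multiset.card_add, ih]
    split_ifs with h1 h2 h3 h3 h2 h3
    all_goals first | omega | (simp; omega)

/-- a multiset of positive numbers is determined by the numbers of large elements. -/
theorem multiset_ext_card (s s' : Multiset ℕ) (Q : ℕ) (hs : ∀ m ∈ s, 1 ≤ m ∧ m < Q)
    (hs' : ∀ m ∈ s', 1 ≤ m ∧ m < Q)
    (h : ∀ q < Q, (s.filter (q + 1 ≤ ·)).card = (s'.filter (q + 1 ≤ ·)).card) : s = s' := by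
  have hz : ∀ (s : Multiset ℕ), (∀ m ∈ s, 1 ≤ m ∧ m < Q) → ∀ n, Q ≤ n →
      (s.filter (n ≤ ·)).card = 0 := by
    intro s hs n hn
    rw [Multiset.card_eq_zero, Multiset.filter_eq_nil]
    intro m hm
    have := hs m hm
    omega
  ext m
  rcases m with _ | m
  · rw [Multiset.count_eq_zero_of_notMem, Multiset.count_eq_zero_of_notMem]
    · intro h0; have := hs' 0 h0; omega
    · intro h0; have := hs 0 h0; omega
  · have h1 := card_filter_succ s (m + 1)
    have h2 := card_filter_succ s' (m + 1)
    have h3 : (s.filter (m + 1 ≤ ·)).card = (s'.filter (m + 1 ≤ ·)).card := by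
      by_cases hm : m < Q
      · exact h m hm
      · rw [hz s hs _ (by omega), hz s' hs' _ (by omega)]
    have h4 : (s.filter (m + 1 + 1 ≤ ·)).card = (s'.filter (m + 1 + 1 ≤ ·)).card := by
      by_cases hm : m + 1 < Q
      · exact h (m + 1) hm
      · rw [hz s hs _ (by omega), hz s' hs' _ (by omega)]
    omega

open Classical in
theorem necessary_at {𝒜 : Matrix I I (MvPolynomial I ℂ)} (hA : 𝒜.transpose = -𝒜)
    (hlin : Lin 𝒜) {p : (I → ℂ) × (I → ℂ)} (T : Multiset ℕ × Multiset (Multiset ℕ))
    (Q : ℕ) (hQ : ∀ s ∈ T.2, ∀ m ∈ s, m < Q)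
    (hfact : ∀ f ∈ UniqueFactorizationMonoid.factors (GG 𝒜), Fact 𝒜 f Q p)
    (hrank : ∀ y : I → ℂ, (𝒜.map (eval y)).rank ≤ (𝒜.map (eval p.2)).rank)
    (hT : HasType (mform (𝒜.map (eval p.1))) (mform (𝒜.map (eval p.2))) T) :
    1 ∈ T.1 ∨ 2 ≤ T.1.count 0 ∨
      ((T.2.filter fun s => Bad s ∧ T.2.count s = 1).card ≤ (T.1.map (· + 1)).sum ∧
      (T.1 ≤ {0} → (T.2.filter Bad).card ≤ (T.1.map (· + 1)).sum)) := by
  obtain ⟨ι, hι, bl, hpos, hty, hdec⟩ := hT
  have hdec' := hdec
  obtain ⟨φ, hφ⟩ := hdec
  set A := 𝒜.map (eval p.1) with hAdef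
  set B := 𝒜.map (eval p.2) with hBdef
  set S := (Finset.univ : Finset ι).val.map bl with hS
  have hL : LL 𝒜 p = pen A B := line_lin hlin p
  have hT1 : T.1 = kronPart S := by rw [← hty]; rfl
  have hT2 : T.2 = (eigs S).val.map (sizesAt S) := by rw [← hty]; rfl
  -- sizes are positive and bounded
  have hsz : ∀ μ, ∀ m ∈ sizesAt S μ, 1 ≤ m ∧ m < Q := by
    intro μ m hm
    have hμ : μ ∈ eigs S := by
      by_contra h
      rw [sizesAt_of_notMem S μ h] at hm
      simp at hm
    constructor
    · simp only [sizesAt, Multiset.mem_filterMap] at hm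
      obtain ⟨b, hb, hb2⟩ := hm
      obtain ⟨i, -, rfl⟩ := Multiset.mem_map.1 hb
      rcases hbi : bl i with k | ⟨ν, m'⟩
      · rw [hbi] at hb2; simp at hb2
      · rw [hbi] at hb2
        simp only at hb2
        split_ifs at hb2
        simp only [Option.some.injEq] at hb2
        subst hb2
        have := hpos i
        rw [hbi] at this
        exact this
    · apply hQ (sizesAt S μ) _ m hm
      rw [hT2]
      exact Multiset.mem_map_of_mem _ hμ
  have hfE : ∀ r q, 1 ≤ q → finrank ℂ (Es (LL 𝒜 p) r q) = (kronPart S).card +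
      2 * ((sizesAt S (some (-r))).filter (q ≤ ·)).card := by
    intro r q hq
    rw [hL]
    exact finrank_Es φ hφ hpos r q hq
  have hfZ : ∀ r, finrank ℂ (Zs (LL 𝒜 p) r) = (kronPart S).card := by
    intro r
    rw [hL]
    exact finrank_Zs φ hφ hpos r
  -- a value which is not an eigenvalue
  obtain ⟨t0, ht0⟩ : ∃ t : ℂ, some (-t) ∉ eigs S := by
    have h1 : (((eigs S).preimage (fun t : ℂ => some (-t))
      (by intro x _ y _ hxy; simpa using hxy) : Finset ℂ) : Set ℂ) ≠ Set.univ := by
      intro h2
      exact Set.infinite_univ (h2 ▸ Finset.finite_toSet _)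
    obtain ⟨t, ht⟩ := (Set.ne_univ_iff_exists_notMem _).1 h1
    exact ⟨t, fun h3 => ht (Finset.mem_coe.2 (Finset.mem_preimage.2 h3))⟩
  have hEt0 : finrank ℂ (Es (LL 𝒜 p) t0 1) = (kronPart S).card := by
    rw [hfE t0 1 le_rfl, sizesAt_of_notMem S _ ht0]
    simp
  -- infinity is not an eigenvalue
  have hinf : none ∉ eigs S := by
    intro h
    have h1 := finrank_inf hdec' hpos h
    have h2 : Es (LL 𝒜 p) t0 1 = LinearMap.ker (𝒜.map (eval (pt p t0))).mulVecLin := by
      ext v
      rw [LinearMap.mem_ker, Matrix.mulVecLin_apply]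
      constructor
      · intro hv
        funext j
        exact Es_one hv j
      · intro hv
        apply mem_Es_one
        intro j
        exact congrFun hv j
    rw [h2] at hEt0
    have h3 := LinearMap.finrank_range_add_finrank_ker B.mulVecLin
    have h4 := LinearMap.finrank_range_add_finrank_ker (𝒜.map (eval (pt p t0))).mulVecLin
    have h5 := hrank (pt p t0)
    have h6 : B.rank = finrank ℂ (LinearMap.range B.mulVecLin) := rfl
    rw [← hS] at h1
    have h7 : (𝒜.map (eval (pt p t0))).rank =
      finrank ℂ (LinearMap.range (𝒜.map (eval (pt p t0))).mulVecLin) := rfl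
    rw [h6, h7] at h5
    omega
  -- bad eigenvalues
  have hbad : ∀ r, Bad (sizesAt S (some (-r))) → some (-r) ∈ eigs S →
      ∃ f ∈ UniqueFactorizationMonoid.factors (GG 𝒜), eval (pt p r) f = 0 ∧
        (fun i => eval (pt p r) (pderiv i f)) ∈ Zs (LL 𝒜 p) r := by
    rintro r ⟨m, hm1, hm2⟩ -
    have hm0 : 1 ≤ m := by
      have : m ∈ sizesAt S (some (-r)) := Multiset.one_le_count_iff_mem.1 (by omega)
      exact (hsz _ m this).1
    have h1 := hfE r m hm0
    have h2 := hfZ r
    have h3 := count_le_card_filter (sizesAt S (some (-r))) m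
    have h4 : Es (LL 𝒜 p) r (m + 1) ≤ Zs (LL 𝒜 p) r := by
      rw [hL]
      exact Es_le_Zs φ hφ r (m + 1) (by omega) (fun m' hm' => Nat.lt_succ_of_le (hm2 m' hm'))
    have h5 : finrank ℂ (Zs (LL 𝒜 p) r) + 3 ≤ finrank ℂ (Es (LL 𝒜 p) r m) := by
      rw [h1, h2]
      omega
    have h6 : ¬ Es (LL 𝒜 p) r 1 ≤ Zs (LL 𝒜 p) r := by
      intro h
      have h7 := Submodule.finrank_mono ((Es_anti (LL 𝒜 p) r hm0).trans h)
      omega
    obtain ⟨f, hf, hfr⟩ := root_of_Es hA p r h6
    exact ⟨f, hf, hfr, (hfact f hf).F1 r hfr m hm0 h4 h5⟩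
  have hEr : ∀ μ ∈ eigs S, ∃ r : ℂ, μ = some (-r) := by
    intro μ hμ
    rcases μ with _ | μ
    · exact absurd hμ hinf
    · exact ⟨-μ, by rw [neg_neg]⟩
  by_cases hc1 : 1 ∈ T.1
  · exact Or.inl hc1
  by_cases hc2 : 2 ≤ T.1.count 0
  · exact Or.inr (Or.inl hc2)
  refine Or.inr (Or.inr ⟨?_, fun hK => ?_⟩)
  · -- bad groups which occur once
    set E := (eigs S).filter (fun μ => Bad (sizesAt S μ) ∧ T.2.count (sizesAt S μ) = 1) with hE
    have hcard : (T.2.filter fun s => Bad s ∧ T.2.count s = 1).card = E.card := by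
      have h1 : T.2.filter (fun s => Bad s ∧ T.2.count s = 1) =
          ((eigs S).val.map (sizesAt S)).filter (fun s => Bad s ∧ T.2.count s = 1) := by
        rw [← hT2]
      rw [h1, Multiset.filter_map, Multiset.card_map]
      rfl
    rw [hcard]
    by_contra hc3
    push Not at hc2 hc3
    rw [hT1] at hc1 hc2 hc3
    have hdata : ∀ x : E, ∃ (r : ℂ) (ℓ χ : I → ℂ), (x : Option ℂ) = some (-r) ∧
        ∑ i, ℓ i * pt p r i = 0 ∧ ∑ i, ℓ i * p.2 i ≠ 0 ∧ ℓ ∈ Zs (LL 𝒜 p) r ∧
        ∀ j y, ∑ i, ℓ i * eval y (𝒜 i j) = χ j * ∑ i, ℓ i * y i := by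
      rintro ⟨μ, hμ⟩
      obtain ⟨r, rfl⟩ := hEr μ (Finset.mem_filter.1 hμ).1
      obtain ⟨hμ1, hμ2, hμ3⟩ := Finset.mem_filter.1 hμ
      obtain ⟨f, hf, hfr, hfz⟩ := hbad r hμ2 hμ1
      have huniq : ∀ r', eval (pt p r') f = 0 → r' = r := by
        intro r' hr'
        have h1 : sizesAt S (some (-r')) = sizesAt S (some (-r)) := by
          apply multiset_ext_card _ _ Q (hsz _) (hsz _)
          intro q hq
          have h2 := (hfact f hf).F2 r' r hr' hfr q hq
          rw [hfE r' (q + 1) (by omega), hfE r (q + 1) (by omega)] at h2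
          omega
        have h2 : some (-r') ∈ eigs S := by
          by_contra h3
          rw [sizesAt_of_notMem S _ h3] at h1
          rw [← h1] at hμ2
          obtain ⟨m, hm, -⟩ := hμ2
          simp at hm
        by_contra hne
        have h4 : ({some (-r), some (-r')} : Finset (Option ℂ)) ⊆ eigs S := by
          intro ν hν
          rw [Finset.mem_insert, Finset.mem_singleton] at hν
          rcases hν with rfl | rfl
          · exact hμ1
          · exact h2
        have h5 : ({some (-r), some (-r')} : Finset (Option ℂ)).val.map (sizesAt S) ≤ T.2 := by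
          rw [hT2]
          exact Multiset.map_le_map (Finset.val_le_iff.2 h4)
        have h6 : ({some (-r), some (-r')} : Finset (Option ℂ)).val.map (sizesAt S) =
            {sizesAt S (some (-r)), sizesAt S (some (-r))} := by
          rw [Finset.insert_val_of_notMem]
          · simp [h1]
          · rw [Finset.mem_singleton]
            intro h7
            apply hne
            simpa using h7.symm
        rw [h6] at h5
        have h7 := Multiset.count_le_of_le (sizesAt S (some (-r))) h5
        rw [hμ3] at h7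
        simp at h7
      obtain ⟨ℓ, χ, h1, h2, h3, h4⟩ := linear_root hA hf hlin (hfact f hf) hfr huniq hfz
      exact ⟨r, ℓ, χ, rfl, h1, h2, h3, h4⟩
    choose r ℓ χ d0 d1 d2 d3 d4 using hdata
    have hrinj : Function.Injective r := by
      intro x y hxy
      apply Subtype.ext
      rw [d0 x, d0 y, hxy]
    have hχ : Function.Injective χ := by
      intro x y hxy
      by_contra hne
      have hr : r x ≠ r y := fun h => hne (hrinj h)
      have e1 : ∀ x, ∑ i, ℓ x i * p.1 i = - (r x * ∑ i, ℓ x i * p.2 i) := by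
        intro x
        have := d1 x
        simp only [pt, mul_add, Finset.sum_add_distrib] at this
        have e2 : ∑ i, ℓ x i * (r x * p.2 i) = r x * ∑ i, ℓ x i * p.2 i := by
          rw [Finset.mul_sum]
          apply Finset.sum_congr rfl
          intro i _
          ring
        rw [e2] at this
        linear_combination this
      have e2 : ∀ x t, ∑ i, ℓ x i * pt p t i = (t - r x) * ∑ i, ℓ x i * p.2 i := by
        intro x t
        simp only [pt, mul_add, Finset.sum_add_distrib]
        have e3 : ∑ i, ℓ x i * (t * p.2 i) = t * ∑ i, ℓ x i * p.2 i := by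
          rw [Finset.mul_sum]
          apply Finset.sum_congr rfl
          intro i _
          ring
        rw [e3, e1]
        ring
      obtain ⟨sx, hsx⟩ : ∃ s, s = ∑ i, ℓ x i * p.2 i := ⟨_, rfl⟩
      obtain ⟨sy, hsy⟩ : ∃ s, s = ∑ i, ℓ y i * p.2 i := ⟨_, rfl⟩
      have hsx0 : sx ≠ 0 := by rw [hsx]; exact d2 x
      have hsy0 : sy ≠ 0 := by rw [hsy]; exact d2 y
      -- the kernel curve of degree one
      have h1 : ∀ t : ℂ, ((-(r x) * sx) • ℓ y - (-(r y) * sy) • ℓ x) + t • (sx • ℓ y - sy • ℓ x) ∈
          Zs (pen A B) t := by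
        intro t
        rw [← hL]
        refine ⟨fun i => (Polynomial.X - Polynomial.C (r x)) * Polynomial.C (sx * ℓ y i) -
          (Polynomial.X - Polynomial.C (r y)) * Polynomial.C (sy * ℓ x i), ?_, ?_⟩
        · funext j
          apply Polynomial.funext
          intro u
          rw [Matrix.mulVec, dotProduct, Polynomial.eval_finsetSum, Pi.zero_apply,
            Polynomial.eval_zero]
          simp only [Polynomial.eval_mul, Polynomial.eval_sub, Polynomial.eval_X,
            Polynomial.eval_C, LL, Matrix.map_apply, eval_line]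
          have e3 : ∀ i, eval (pt p u) (𝒜 j i) = - eval (pt p u) (𝒜 i j) := by
            intro i
            have := congrFun (congrFun hA i) j
            simp only [Matrix.transpose_apply, Matrix.neg_apply] at this
            rw [this, map_neg]
          have e4 := d4 x j (pt p u)
          have e5 := d4 y j (pt p u)
          rw [e2, ← hsx] at e4
          rw [e2, ← hsy] at e5
          have e6 : ∑ i, eval (pt p u) (𝒜 j i) * ((u - r x) * (sx * ℓ y i) -
              (u - r y) * (sy * ℓ x i)) =
              -((u - r x) * sx * ∑ i, ℓ y i * eval (pt p u) (𝒜 i j)) +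
              (u - r y) * sy * ∑ i, ℓ x i * eval (pt p u) (𝒜 i j) := by
            rw [Finset.mul_sum, Finset.mul_sum, ← Finset.sum_neg_distrib, ← Finset.sum_add_distrib]
            apply Finset.sum_congr rfl
            intro i _
            rw [e3]
            ring
          rw [e6, e4, e5, hxy]
          ring
        · intro i
          simp only [Polynomial.eval_mul, Polynomial.eval_sub, Polynomial.eval_X,
            Polynomial.eval_C, Pi.add_apply, Pi.sub_apply, Pi.smul_apply, smul_eq_mul]
          ring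
      obtain ⟨α, β, h2, h3⟩ := deg_one φ hφ hc1 (Nat.le_of_lt_succ hc2) _ _ h1
      -- independence
      have h4 : ∀ a c : ℂ, a • ℓ y + c • ℓ x = 0 → a = 0 ∧ c = 0 := by
        intro a c hac
        have e3 : ∀ v : I → ℂ, a * ∑ i, ℓ y i * v i + c * ∑ i, ℓ x i * v i = 0 := by
          intro v
          have : ∑ i, (a • ℓ y + c • ℓ x) i * v i = 0 := by rw [hac]; simp
          rw [← this, Finset.mul_sum, Finset.mul_sum, ← Finset.sum_add_distrib]
          apply Finset.sum_congr rfl
          intro i _
          simp only [Pi.add_apply, Pi.smul_apply, smul_eq_mul]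
          ring
        have e4 := e3 (pt p (r x))
        have e5 := e3 (pt p (r y))
        rw [e2, e2, sub_self, zero_mul, mul_zero, add_zero] at e4
        rw [e2, e2, sub_self, zero_mul, mul_zero, zero_add] at e5
        constructor
        · exact (mul_eq_zero.1 e4).resolve_right (mul_ne_zero (sub_ne_zero.2 hr) (d2 y))
        · exact (mul_eq_zero.1 e5).resolve_right (mul_ne_zero (sub_ne_zero.2 hr.symm) (d2 x))
      have h5 : ((β - α * r x) * sx) • ℓ y + (-((β - α * r y) * sy)) • ℓ x = 0 := by
        rw [← h3]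
        funext i
        simp only [Pi.add_apply, Pi.smul_apply, Pi.sub_apply, smul_eq_mul]
        ring
      obtain ⟨h6, h7⟩ := h4 _ _ h5
      have h8 := (mul_eq_zero.1 h6).resolve_right hsx0
      have h9 := (mul_eq_zero.1 (neg_eq_zero.1 h7)).resolve_right hsy0
      have h10 : α * (r y - r x) = 0 := by linear_combination h8 - h9
      have h11 := (mul_eq_zero.1 h10).resolve_right (sub_ne_zero.2 hr.symm)
      rw [h11, zero_mul, sub_zero] at h8
      rcases h2 with h2 | h2
      · exact h2 h11
      · exact h2 h8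
    -- linear independence
    have hli : LinearIndependent ℂ ℓ := by
      apply eigen_li (fun j => Matrix.of fun k i => eval (Pi.single k 1) (𝒜 i j)) ℓ χ
      · intro x h0
        apply d2 x
        rw [h0]
        simp
      · intro x j
        funext k
        have := d4 x j (Pi.single k 1)
        simp only [Matrix.mulVec, dotProduct, Matrix.of_apply, Pi.smul_apply, smul_eq_mul]
        rw [show ∑ i, ℓ x i * (Pi.single k 1 : I → ℂ) i = ℓ x k by simp [Pi.single_apply]] at this
        rw [← this]
        apply Finset.sum_congr rfl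
        intro i _
        ring
      · exact hχ
    have hZt : ∀ x, ℓ x ∈ pull φ (fun i => KZ (bl i)) := by
      intro x
      have := d3 x
      rw [hL] at this
      exact Zs_le_Zt φ hφ _ this
    let w : E → pull φ (fun i => KZ (bl i)) := fun x => ⟨ℓ x, hZt x⟩
    have hw : LinearIndependent ℂ w := by
      apply LinearIndependent.of_comp (pull φ (fun i => KZ (bl i))).subtype
      exact hli
    have h1 := hw.fintype_card_le_finrank
    rw [finrank_Zt, Fintype.card_coe] at h1
    exact absurd h1 (not_le.2 hc3)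
  · -- at most one trivial Kronecker block
    set E := (eigs S).filter (fun μ => Bad (sizesAt S μ)) with hE
    have hcard : (T.2.filter Bad).card = E.card := by
      rw [hT2, Multiset.filter_map, Multiset.card_map]
      rfl
    rw [hcard]
    by_contra hc3
    push Not at hc3
    rcases Multiset.le_singleton.1 hK with hK0 | hK1
    · rw [hK0] at hc3
      simp only [Multiset.map_zero, Multiset.sum_zero] at hc3
      obtain ⟨μ, hμ⟩ := Finset.card_pos.1 hc3
      obtain ⟨r, rfl⟩ := hEr μ (Finset.mem_filter.1 hμ).1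
      obtain ⟨hμ1, hμ2⟩ := Finset.mem_filter.1 hμ
      obtain ⟨f, hf, hfr, hfz⟩ := hbad r hμ2 hμ1
      have h1 : finrank ℂ (Zs (LL 𝒜 p) r) = 0 := by
        rw [hfZ, ← hT1, hK0]; rfl
      have h2 : Zs (LL 𝒜 p) r = ⊥ := Submodule.finrank_eq_zero.1 h1
      rw [h2, Submodule.mem_bot] at hfz
      apply (hfact f hf).F3 r hfr
      rw [deriv_eval]
      apply Finset.sum_eq_zero
      intro i _
      rw [congrFun hfz i]
      simp
    · rw [hK1] at hc3
      simp only [Multiset.map_singleton, Multiset.sum_singleton, zero_add] at hc3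
      obtain ⟨μ1, hμ1, μ2, hμ2, hne⟩ := Finset.one_lt_card.1 hc3
      obtain ⟨r1, rfl⟩ := hEr μ1 (Finset.mem_filter.1 hμ1).1
      obtain ⟨r2, rfl⟩ := hEr μ2 (Finset.mem_filter.1 hμ2).1
      obtain ⟨f1, hf1, hfr1, hfz1⟩ := hbad r1 (Finset.mem_filter.1 hμ1).2 (Finset.mem_filter.1 hμ1).1
      obtain ⟨f2, hf2, hfr2, hfz2⟩ := hbad r2 (Finset.mem_filter.1 hμ2).2 (Finset.mem_filter.1 hμ2).1
      set Zt := pull φ (fun i => KZ (bl i)) with hZtdef
      have hZt1 : finrank ℂ Zt = 1 := by
        rw [finrank_Zt, ← hS, ← hT1, hK1]; rfl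
      have hK2 : (kronPart S).card = 1 := by rw [← hT1, hK1]; rfl
      have hZt : ∀ t, Zs (LL 𝒜 p) t = Zt := by
        intro t
        apply Submodule.eq_of_le_of_finrank_eq
        · rw [hL]; exact Zs_le_Zt φ hφ t
        · rw [hfZ, hZt1, hK2]
      have hEt : Es (LL 𝒜 p) t0 1 = Zt := by
        symm
        apply Submodule.eq_of_le_of_finrank_eq
        · rw [← hZt t0]; exact Zs_le_Es _ _ _
        · rw [hEt0, hZt1, hK2]
      rw [hZt] at hfz1 hfz2
      have hi1 := UniqueFactorizationMonoid.irreducible_of_factor f1 hf1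
      have hi2 := UniqueFactorizationMonoid.irreducible_of_factor f2 hf2
      have e1 := center_root hi1 hf1 hlin (hfact f1 hf1) hfr1 hZt1 hZt hEt hfz1
      have e2 := center_root hi2 hf2 hlin (hfact f2 hf2) hfr2 hZt1 hZt hEt hfz2
      have a1 := (hfact f1 hf1).F3 r1 hfr1
      have a2 := (hfact f2 hf2).F3 r2 hfr2
      rw [deriv_eval] at a1 a2
      set z1 : I → ℂ := fun i => eval (pt p r1) (pderiv i f1) with hz1
      set z2 : I → ℂ := fun i => eval (pt p r2) (pderiv i f2) with hz2
      obtain ⟨w, hw0, hw⟩ := finrank_eq_one_iff'.1 hZt1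
      obtain ⟨c1, hc1'⟩ := hw ⟨z1, hfz1⟩
      obtain ⟨c2, hc2'⟩ := hw ⟨z2, hfz2⟩
      have b1 : c1 • (w : I → ℂ) = z1 := congrArg Subtype.val hc1'
      have b2 : c2 • (w : I → ℂ) = z2 := congrArg Subtype.val hc2'
      have hc20 : c2 ≠ 0 := by
        rintro rfl
        apply a2
        apply Finset.sum_eq_zero
        intro i _
        have : z2 i = 0 := by rw [← b2]; simp
        show p.2 i * z2 i = 0
        rw [this, mul_zero]
      have h1 : ∀ i, z1 i = (c1 / c2) * z2 i := by
        intro i
        rw [← b1, ← b2]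
        simp only [Pi.smul_apply, smul_eq_mul]
        field_simp
      -- both points annihilate z1
      have e3 : ∑ i, z1 i * pt p r1 i = 0 := e1
      have e4 : ∑ i, z1 i * pt p r2 i = 0 := by
        have e5 : ∑ i, z2 i * pt p r2 i = 0 := e2
        simp only [h1, mul_assoc]
        rw [← Finset.mul_sum, e5, mul_zero]
      have e5 : (r1 - r2) * ∑ i, p.2 i * z1 i = 0 := by
        have e6 : ∑ i, z1 i * pt p r1 i - ∑ i, z1 i * pt p r2 i = 0 := by rw [e3, e4, sub_zero]
        rw [← e6, ← Finset.sum_sub_distrib, Finset.mul_sum]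
        apply Finset.sum_congr rfl
        intro i _
        simp only [pt]
        ring
      rcases mul_eq_zero.1 e5 with h | h
      · apply hne
        rw [sub_eq_zero.1 h]
      · exact a1 h

open Classical in
theorem necessary (T : Multiset ℕ × Multiset (Multiset ℕ)) (hR : Realisable T) :
    1 ∈ T.1 ∨ 2 ≤ T.1.count 0 ∨
      ((T.2.filter fun s => Bad s ∧ T.2.count s = 1).card ≤ (T.1.map (· + 1)).sum ∧
      (T.1 ≤ {0} → (T.2.filter Bad).card ≤ (T.1.map (· + 1)).sum)) := by
  obtain ⟨g, _, _, hfd, hinv⟩ := hR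
  let b := Module.finBasis ℂ g
  let Q := (T.2.map Multiset.sum).sum + 1
  have hQ : ∀ s ∈ T.2, ∀ m ∈ s, m < Q := by
    intro s hs m hm
    have h1 := Multiset.single_le_sum (fun x _ => Nat.zero_le x) m hm
    have h2 := Multiset.single_le_sum (fun x _ => Nat.zero_le x) s.sum
      (Multiset.mem_map_of_mem Multiset.sum hs)
    show m < (T.2.map Multiset.sum).sum + 1
    omega
  have h1 : ∀ᶠ p in gen _, ∀ f ∈ (UniqueFactorizationMonoid.factors (GG (SM b))).toFinset,
      Fact (SM b) f Q p := by
    rw [Filter.eventually_all_finset]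
    intro f hf
    rw [Multiset.mem_toFinset] at hf
    exact gen_fact (SM_skew b) (SM_jac b) (SM_lin b)
      (UniqueFactorizationMonoid.irreducible_of_factor f hf) Q
  obtain ⟨p, h2, h3, h4⟩ := (h1.and ((gen_rank (SM b)).and (gen_hasType b hinv))).exists
  exact necessary_at (SM_skew b) (SM_lin b) T Q hQ
    (fun f hf => h2 f (Multiset.mem_toFinset.2 hf)) h3 h4

end Pool.Agent.H4.JK
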