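import Mathlib

/-! Bidiagonal matrices and the Moebius lemma for Kronecker and Jordan blocks. -/

namespace Pool.Agent.H4.JK

open Polynomial

/-- The `r × c` matrix with `s` on the main diagonal and `s'` on the diagonal just above it. -/
def bidiag (r c : ℕ) (s s' : ℂ) : Matrix (Fin r) (Fin c) ℂ :=
  Matrix.of fun i j => (if (j : ℕ) = i then s else 0) + (if (j : ℕ) = (i : ℕ) + 1 then s' else 0)

theorem bidiag_comb (r c : ℕ) (s s' t t' α β : ℂ) :
    α • bidiag r c s s' + β • bidiag r c t t' =
      bidiag r c (α * s + β * t) (α * s' + β * t') := by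
  ext i j
  simp only [bidiag, Matrix.add_apply, Matrix.smul_apply, Matrix.of_apply, smul_eq_mul]
  split_ifs <;> ring

/-- independence of the products `w^(n-1-i) u^i`. -/
theorem indep (s s' t t' : ℂ) (hD : s * t' - s' * t ≠ 0) :
    ∀ (n : ℕ) (c : ℕ → ℂ),
      (∑ i ∈ Finset.range n, C (c i) * ((C s + C s' * X) ^ (n - 1 - i) * (C t + C t' * X) ^ i) = 0) →
      ∀ i < n, c i = 0 := by
  intro n
  induction n with
  | zero => intro c _ i hi; omega
  | succ n ih =>
    intro c hc
    by_cases hs' : s' = 0
    · have hs : s ≠ 0 := by rintro rfl; apply hD; rw [hs']; ring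
      have ht' : t' ≠ 0 := by rintro rfl; apply hD; rw [hs']; ring
      -- evaluate at the root of u
      have h0 : c 0 = 0 := by
        have h1 := congrArg (Polynomial.eval (-t / t')) hc
        rw [Finset.sum_range_succ'] at h1
        simp only [Polynomial.eval_add, Polynomial.eval_finsetSum, Polynomial.eval_mul,
          Polynomial.eval_pow, Polynomial.eval_C, Polynomial.eval_X, Polynomial.eval_zero] at h1
        have h2 : t + t' * (-t / t') = 0 := by field_simp; ring
        rw [h2, hs'] at h1
        simp only [zero_mul, add_zero, pow_succ, mul_zero, pow_zero, mul_one, Finset.sum_const_zero,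
          zero_add] at h1
        rcases mul_eq_zero.1 h1 with h | h
        · exact h
        · exact absurd h (pow_ne_zero _ hs)
      have hu : (C t + C t' * X : ℂ[X]) ≠ 0 := by
        intro h
        have := congrArg (fun p => Polynomial.coeff p 1) h
        simp at this
        exact ht' this
      have h3 : ∑ i ∈ Finset.range n, C (c (i + 1)) *
          ((C s + C s' * X) ^ (n - 1 - i) * (C t + C t' * X) ^ i) = 0 := by
        have h4 : (C t + C t' * X) * (∑ i ∈ Finset.range n, C (c (i + 1)) *
          ((C s + C s' * X) ^ (n - 1 - i) * (C t + C t' * X) ^ i)) = 0 := by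
          rw [← hc, Finset.sum_range_succ', h0, Finset.mul_sum]
          simp only [C_0, zero_mul, add_zero]
          apply Finset.sum_congr rfl
          intro i hi
          have : n + 1 - 1 - (i + 1) = n - 1 - i := by omega
          rw [this, pow_succ]
          ring
        exact (mul_eq_zero.1 h4).resolve_left hu
      have h5 := ih (fun i => c (i + 1)) h3
      intro i hi
      rcases Nat.eq_zero_or_pos i with rfl | hpos
      · exact h0
      · have := h5 (i - 1) (by omega)
        simpa [Nat.sub_add_cancel hpos] using this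
    · have hn : c n = 0 := by
        have h1 := congrArg (Polynomial.eval (-s / s')) hc
        rw [Finset.sum_range_succ] at h1
        simp only [Polynomial.eval_add, Polynomial.eval_finsetSum, Polynomial.eval_mul,
          Polynomial.eval_pow, Polynomial.eval_C, Polynomial.eval_X, Polynomial.eval_zero] at h1
        have h2 : s + s' * (-s / s') = 0 := by field_simp; ring
        rw [h2] at h1
        have h3 : ∑ x ∈ Finset.range n, c x * (0 ^ (n + 1 - 1 - x) * (t + t' * (-s / s')) ^ x) = 0 := by
          apply Finset.sum_eq_zero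
          intro i hi
          rw [Finset.mem_range] at hi
          rw [zero_pow (by omega)]
          ring
        rw [h3] at h1
        simp only [zero_add, Nat.add_sub_cancel, Nat.sub_self, pow_zero, one_mul] at h1
        rcases mul_eq_zero.1 h1 with h | h
        · exact h
        · exfalso
          have h6 : t + t' * (-s / s') = 0 := by
            by_contra h7
            exact pow_ne_zero _ h7 h
          apply hD
          field_simp at h6
          linear_combination -h6
      have hw : (C s + C s' * X : ℂ[X]) ≠ 0 := by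
        intro h
        have := congrArg (fun p => Polynomial.coeff p 1) h
        simp at this
        exact hs' this
      have h3 : ∑ i ∈ Finset.range n, C (c i) *
          ((C s + C s' * X) ^ (n - 1 - i) * (C t + C t' * X) ^ i) = 0 := by
        have h4 : (C s + C s' * X) * (∑ i ∈ Finset.range n, C (c i) *
          ((C s + C s' * X) ^ (n - 1 - i) * (C t + C t' * X) ^ i)) = 0 := by
          rw [← hc, Finset.sum_range_succ, hn, Finset.mul_sum]
          simp only [C_0, zero_mul, add_zero]
          apply Finset.sum_congr rfl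
          intro i hi
          rw [Finset.mem_range] at hi
          have : n + 1 - 1 - i = (n - 1 - i) + 1 := by omega
          rw [this, pow_succ]
          ring
        exact (mul_eq_zero.1 h4).resolve_left hw
      have h5 := ih c h3
      intro i hi
      rcases Nat.lt_succ_iff_lt_or_eq.1 hi with h | h
      · exact h5 i h
      · rw [h]; exact hn

/-- The matrix whose `i`-th row lists the coefficients of `w^(n-1-i) u^i`. -/
noncomputable def Y (n : ℕ) (s s' t t' : ℂ) : Matrix (Fin n) (Fin n) ℂ :=
  Matrix.of fun i j => ((C s + C s' * X : ℂ[X]) ^ (n - 1 - (i : ℕ)) * (C t + C t' * X) ^ (i : ℕ)).coeff j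

theorem natDegree_lin (s s' : ℂ) : (C s + C s' * X : ℂ[X]).natDegree ≤ 1 := by
  compute_degree

theorem natDegree_prod (n : ℕ) (s s' t t' : ℂ) (i : ℕ) (hi : i < n) :
    ((C s + C s' * X : ℂ[X]) ^ (n - 1 - i) * (C t + C t' * X) ^ i).natDegree < n := by
  have h1 : ((C s + C s' * X : ℂ[X]) ^ (n - 1 - i)).natDegree ≤ (n - 1 - i) * 1 :=
    (Polynomial.natDegree_pow_le).trans (Nat.mul_le_mul_left _ (natDegree_lin s s'))
  have h2 : ((C t + C t' * X : ℂ[X]) ^ i).natDegree ≤ i * 1 :=
    (Polynomial.natDegree_pow_le).trans (Nat.mul_le_mul_left _ (natDegree_lin t t'))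
  have h3 := Polynomial.natDegree_mul_le (p := (C s + C s' * X : ℂ[X]) ^ (n - 1 - i))
    (q := (C t + C t' * X : ℂ[X]) ^ i)
  omega

theorem Y_isUnit (n : ℕ) (s s' t t' : ℂ) (hD : s * t' - s' * t ≠ 0) : IsUnit (Y n s s' t t') := by
  rw [← Matrix.linearIndependent_rows_iff_isUnit, Fintype.linearIndependent_iff]
  intro g hg i
  -- extend g to ℕ
  set c : ℕ → ℂ := fun i => if h : i < n then g ⟨i, h⟩ else 0 with hc
  have h1 : ∑ i ∈ Finset.range n, C (c i) *
      ((C s + C s' * X) ^ (n - 1 - i) * (C t + C t' * X) ^ i) = 0 := by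
    rw [Finset.sum_range]
    ext j
    by_cases hj : j < n
    · have h2 := congrFun hg ⟨j, hj⟩
      simp only [Finset.sum_apply, Pi.smul_apply, smul_eq_mul, Pi.zero_apply] at h2
      rw [Polynomial.finsetSum_coeff, Polynomial.coeff_zero, ← h2]
      apply Finset.sum_congr rfl
      intro k _
      rw [Polynomial.coeff_C_mul]
      simp [hc, Y, Matrix.row]
    · rw [Polynomial.finsetSum_coeff, Polynomial.coeff_zero]
      apply Finset.sum_eq_zero
      intro k _
      rw [Polynomial.coeff_C_mul, Polynomial.coeff_eq_zero_of_natDegree_lt, mul_zero]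
      exact lt_of_lt_of_le (natDegree_prod n s s' t t' k k.2) (by omega)
  have h2 := indep s s' t t' hD n c h1 i i.2
  simpa [hc] using h2

/-- multiplication by `C s + C s' * X` in coordinates. -/
theorem row_mul (r c : ℕ) (s s' : ℂ) (p : ℂ[X]) (hp : p.natDegree < r ∨ (r = 0 ∧ p = 0)) (hrc : c ≤ r + 1)
    (j : Fin c) :
    ∑ i : Fin r, p.coeff i * bidiag r c s s' i j = ((C s + C s' * X) * p).coeff j := by
  have h1 : ((C s + C s' * X) * p).coeff j = s * p.coeff j + (if (j : ℕ) = 0 then 0 else s' * p.coeff (j - 1)) := by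
    rw [add_mul, Polynomial.coeff_add, Polynomial.coeff_C_mul, mul_assoc, Polynomial.coeff_C_mul]
    congr 1
    split_ifs with h
    · rw [h, Polynomial.coeff_X_mul_zero, mul_zero]
    · obtain ⟨k, hk⟩ : ∃ k, (j : ℕ) = k + 1 := ⟨j - 1, by omega⟩
      rw [hk, Polynomial.coeff_X_mul, Nat.add_sub_cancel]
  have hcoeff : ∀ k, r ≤ k → p.coeff k = 0 := by
    intro k hk
    rcases hp with hp | ⟨_, hp⟩
    · exact Polynomial.coeff_eq_zero_of_natDegree_lt (lt_of_lt_of_le hp hk)
    · rw [hp, Polynomial.coeff_zero]
  rw [h1]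
  simp only [bidiag, Matrix.of_apply, mul_add, Finset.sum_add_distrib]
  congr 1
  · by_cases hj : (j : ℕ) < r
    · rw [Finset.sum_eq_single (⟨j, hj⟩ : Fin r)]
      · simp [mul_comm]
      · intro b _ hb
        have : (j : ℕ) ≠ b := fun h => hb (by ext; exact h.symm)
        simp [this]
      · intro h; exact absurd (Finset.mem_univ _) h
    · rw [hcoeff j (by omega), mul_zero]
      apply Finset.sum_eq_zero
      intro b _
      have : (j : ℕ) ≠ b := by have := b.2; omega
      simp [this]
  · split_ifs with h
    · apply Finset.sum_eq_zero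
      intro b _
      have : (j : ℕ) ≠ (b : ℕ) + 1 := by omega
      simp [this]
    · have hj : (j : ℕ) - 1 < r := by have := j.2; omega
      rw [Finset.sum_eq_single (⟨(j : ℕ) - 1, hj⟩ : Fin r)]
      · have : (j : ℕ) = (j : ℕ) - 1 + 1 := by omega
        simp [← this, mul_comm]
      · intro b _ hb
        have : (j : ℕ) ≠ (b : ℕ) + 1 := fun h' => hb (by ext; simp; omega)
        simp [this]
      · intro h; exact absurd (Finset.mem_univ _) h

/-- Kronecker blocks: any nondegenerate change of the pencil parameters can be undone. -/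
theorem kron_moebius (k : ℕ) (s s' t t' : ℂ) (hD : s * t' - s' * t ≠ 0) :
    ∃ (S : Matrix (Fin k) (Fin k) ℂ) (T : Matrix (Fin (k + 1)) (Fin (k + 1)) ℂ),
      IsUnit S ∧ IsUnit T ∧ S * bidiag k (k + 1) s s' * T = bidiag k (k + 1) 1 0 ∧
        S * bidiag k (k + 1) t t' * T = bidiag k (k + 1) 0 1 := by
  have hY := Y_isUnit (k + 1) s s' t t' hD
  refine ⟨Y k s s' t t', (Y (k + 1) s s' t t')⁻¹, Y_isUnit k s s' t t' hD, ?_, ?_, ?_⟩
  · rwa [Matrix.isUnit_nonsing_inv_iff]
  · have h1 : Y k s s' t t' * bidiag k (k + 1) s s' = bidiag k (k + 1) 1 0 * Y (k + 1) s s' t t' := by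
      ext i j
      rw [Matrix.mul_apply, Matrix.mul_apply]
      have hk : 0 < k := lt_of_le_of_lt (Nat.zero_le _) i.2
      have h2 := row_mul k (k + 1) s s'
        ((C s + C s' * X : ℂ[X]) ^ (k - 1 - (i : ℕ)) * (C t + C t' * X) ^ (i : ℕ))
        (Or.inl (natDegree_prod k s s' t t' i i.2)) le_rfl j
      simp only [Y, Matrix.of_apply]
      rw [h2, Finset.sum_eq_single (i.castSucc)]
      · simp only [bidiag, Matrix.of_apply, Fin.val_castSucc, if_true]
        rw [if_neg (by omega), add_zero, one_mul, ← mul_assoc, ← pow_succ']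
        have : k - 1 - (i : ℕ) + 1 = k + 1 - 1 - (i : ℕ) := by have := i.2; omega
        rw [this]
      · intro b _ hb
        have : (b : ℕ) ≠ i := fun h => hb (by ext; exact h)
        simp [bidiag, this]
      · intro h; exact absurd (Finset.mem_univ _) h
    rw [h1, Matrix.mul_assoc, Matrix.mul_nonsing_inv _ ((Matrix.isUnit_iff_isUnit_det _).1 hY), Matrix.mul_one]
  · have h1 : Y k s s' t t' * bidiag k (k + 1) t t' = bidiag k (k + 1) 0 1 * Y (k + 1) s s' t t' := by
      ext i j
      rw [Matrix.mul_apply, Matrix.mul_apply]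
      have h2 := row_mul k (k + 1) t t'
        ((C s + C s' * X : ℂ[X]) ^ (k - 1 - (i : ℕ)) * (C t + C t' * X) ^ (i : ℕ))
        (Or.inl (natDegree_prod k s s' t t' i i.2)) le_rfl j
      simp only [Y, Matrix.of_apply]
      rw [h2, Finset.sum_eq_single (i.succ)]
      · simp only [bidiag, Matrix.of_apply, Fin.val_succ, if_true]
        rw [if_neg (by omega), zero_add, one_mul, mul_left_comm, ← pow_succ']
        have : k - 1 - (i : ℕ) = k + 1 - 1 - ((i : ℕ) + 1) := by have := i.2; omega
        rw [this]
      · intro b _ hb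
        have : (b : ℕ) ≠ (i : ℕ) + 1 := fun h => hb (by ext; simp [h])
        simp [bidiag, this]
      · intro h; exact absurd (Finset.mem_univ _) h
    rw [h1, Matrix.mul_assoc, Matrix.mul_nonsing_inv _ ((Matrix.isUnit_iff_isUnit_det _).1 hY), Matrix.mul_one]

/-- Jordan blocks: any nondegenerate change of the pencil parameters for which the second form
stays nondegenerate gives again a Jordan block, with eigenvalue `s / t`. -/
theorem jordan_moebius (m : ℕ) (s s' t t' : ℂ) (hD : s * t' - s' * t ≠ 0) (ht : t ≠ 0) :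
    ∃ (S : Matrix (Fin m) (Fin m) ℂ) (T : Matrix (Fin m) (Fin m) ℂ),
      IsUnit S ∧ IsUnit T ∧ S * bidiag m m s s' * T = bidiag m m (s / t) 1 ∧
        S * bidiag m m t t' * T = bidiag m m 1 0 := by
  set e : ℂ := s' - s * t' / t with he
  have he0 : e ≠ 0 := by
    intro h
    apply hD
    rw [he] at h
    field_simp at h
    linear_combination -h
  have hD2 : t * e - t' * 0 ≠ 0 := by
    rw [mul_zero, sub_zero]; exact mul_ne_zero ht he0
  have hS := Y_isUnit m t t' 0 e hD2
  have hQ : IsUnit (bidiag m m t t') := by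
    rw [Matrix.isUnit_iff_isUnit_det, Matrix.det_of_isUpperTriangular]
    · rw [isUnit_iff_ne_zero, Finset.prod_ne_zero_iff]
      intro i _
      simpa [bidiag] using ht
    · intro i j hij
      simp only [id] at hij
      have hij' : (j : ℕ) < i := hij
      simp only [bidiag, Matrix.of_apply]
      rw [if_neg (by omega), if_neg (by omega), add_zero]
  have hV : IsUnit (Y m t t' 0 e * bidiag m m t t') := hS.mul hQ
  refine ⟨Y m t t' 0 e, (Y m t t' 0 e * bidiag m m t t')⁻¹, hS, ?_, ?_, ?_⟩
  · rwa [Matrix.isUnit_nonsing_inv_iff]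
  · have h1 : Y m t t' 0 e * bidiag m m s s' =
        bidiag m m (s / t) 1 * (Y m t t' 0 e * bidiag m m t t') := by
      have hPQ : bidiag m m s s' = (s / t) • bidiag m m t t' + bidiag m m 0 e := by
        have h2 := bidiag_comb m m t t' 0 e (s / t) 1
        rw [one_smul] at h2
        rw [h2]
        have h3 : s / t * t + 1 * 0 = s := by field_simp; ring
        have h4 : s / t * t' + 1 * e = s' := by rw [he]; field_simp; ring
        rw [h3, h4]
      have hN : bidiag m m (s / t) 1 = (s / t) • (1 : Matrix (Fin m) (Fin m) ℂ) + bidiag m m 0 1 := by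
        ext i j
        simp only [bidiag, Matrix.add_apply, Matrix.smul_apply, Matrix.of_apply, smul_eq_mul,
          Matrix.one_apply, ite_self, zero_add]
        by_cases hij : i = j
        · simp [hij]
        · have : (j : ℕ) ≠ i := fun h => hij (by ext; exact h.symm)
          simp [hij, this]
      rw [hPQ, Matrix.mul_add, Matrix.mul_smul, hN, Matrix.add_mul, Matrix.smul_mul, Matrix.one_mul]
      congr 1
      -- the shift part
      ext i j
      have h2 := row_mul m m 0 e
        ((C t + C t' * X : ℂ[X]) ^ (m - 1 - (i : ℕ)) * (C 0 + C e * X) ^ (i : ℕ))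
        (Or.inl (natDegree_prod m t t' 0 e i i.2)) (by omega) j
      rw [Matrix.mul_apply]
      have h2' : ∑ k, Y m t t' 0 e i k * bidiag m m 0 e k j = ((C 0 + C e * X) *
        ((C t + C t' * X : ℂ[X]) ^ (m - 1 - (i : ℕ)) * (C 0 + C e * X) ^ (i : ℕ))).coeff j := by
        rw [← h2]; rfl
      rw [h2', Matrix.mul_apply]
      by_cases hi : (i : ℕ) + 1 < m
      · rw [Finset.sum_eq_single (⟨(i : ℕ) + 1, hi⟩ : Fin m)]
        · have h3 := row_mul m m t t'
            ((C t + C t' * X : ℂ[X]) ^ (m - 1 - ((i : ℕ) + 1)) * (C 0 + C e * X) ^ ((i : ℕ) + 1))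
            (Or.inl (natDegree_prod m t t' 0 e _ hi)) (by omega) j
          have h4 : (Y m t t' 0 e * bidiag m m t t') ⟨(i : ℕ) + 1, hi⟩ j =
              ((C t + C t' * X) * ((C t + C t' * X : ℂ[X]) ^ (m - 1 - ((i : ℕ) + 1)) *
                (C 0 + C e * X) ^ ((i : ℕ) + 1))).coeff j := by
            rw [← h3, Matrix.mul_apply]; rfl
          rw [h4]
          simp only [bidiag, Matrix.of_apply, ite_self, if_true, zero_add, one_mul]
          congr 1
          have h5 : m - 1 - (i : ℕ) = m - 1 - ((i : ℕ) + 1) + 1 := by omega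
          rw [h5, pow_succ, pow_succ]
          ring
        · intro b _ hb
          have : (b : ℕ) ≠ (i : ℕ) + 1 := fun h => hb (by ext; exact h)
          simp [bidiag, this]
        · intro h; exact absurd (Finset.mem_univ _) h
      · have hi' : (i : ℕ) + 1 = m := by have := i.2; omega
        rw [Finset.sum_eq_zero]
        · have h6 : (C 0 + C e * X : ℂ[X]) * ((C t + C t' * X : ℂ[X]) ^ (m - 1 - (i : ℕ)) *
              (C 0 + C e * X) ^ (i : ℕ)) =
              (C (e ^ m) * (C t + C t' * X : ℂ[X]) ^ (m - 1 - (i : ℕ))) * X ^ m := by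
            rw [C_0, zero_add, mul_left_comm, ← pow_succ', hi', mul_pow, ← C_pow]
            ring
          rw [h6, Polynomial.coeff_mul_X_pow', if_neg (by have := j.2; omega)]
        · intro b _
          have : (b : ℕ) ≠ (i : ℕ) + 1 := by have := b.2; omega
          simp [bidiag, this]
    rw [h1, Matrix.mul_assoc, Matrix.mul_nonsing_inv _ ((Matrix.isUnit_iff_isUnit_det _).1 hV),
      Matrix.mul_one]
  · rw [Matrix.mul_nonsing_inv _ ((Matrix.isUnit_iff_isUnit_det _).1 hV)]
    ext i j
    simp only [bidiag, Matrix.of_apply, Matrix.one_apply, ite_self, add_zero]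
    by_cases hij : i = j
    · simp [hij]
    · have : (j : ℕ) ≠ i := fun h => hij (by ext; exact h.symm)
      simp [hij, this]

end Pool.Agent.H4.JK
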