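import Pool.Agent.H4.JKa

/-! Definitions: standard blocks of pencils of skew forms, algebraic types, Jordan-Kronecker
invariants of Lie algebras. -/

namespace Pool.Agent.H4.JK

/-- A standard block of a pencil of skew forms: a Kronecker block of size `(2k+1) × (2k+1)`,
or a Jordan block of size `2m × 2m` with an eigenvalue in `ℂ ∪ {∞}` (`none` stands for `∞`). -/
inductive Block where
  | kron (k : ℕ) : Block
  | jordan (μ : Option ℂ) (m : ℕ) : Block

/-- Number of rows of the pairing matrices of a block. -/
def Block.rows : Block → ℕ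
  | .kron k => k
  | .jordan _ m => m

/-- Number of columns of the pairing matrices of a block. -/
def Block.cols : Block → ℕ
  | .kron k => k + 1
  | .jordan _ m => m

/-- Pairing matrix of the first form of the pencil on a standard block: `(I 0)` for Kronecker
blocks, the Jordan matrix `J(μ)` for Jordan blocks with finite eigenvalue `μ`, and `I` for the
eigenvalue `∞`. -/
def Block.PA : (b : Block) → Matrix (Fin b.rows) (Fin b.cols) ℂ
  | .kron k => bidiag k (k + 1) 1 0
  | .jordan (some μ) m => bidiag m m μ 1
  | .jordan none m => bidiag m m 1 0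

/-- Pairing matrix of the second form of the pencil on a standard block: `(0 I)` for Kronecker
blocks, `I` for Jordan blocks with finite eigenvalue, and the nilpotent Jordan matrix `J(0)` for
the eigenvalue `∞`. -/
def Block.PB : (b : Block) → Matrix (Fin b.rows) (Fin b.cols) ℂ
  | .kron k => bidiag k (k + 1) 0 1
  | .jordan (some _) m => bidiag m m 1 0
  | .jordan none m => bidiag m m 0 1

/-- The skew form on `ℂ^r × ℂ^c` with matrix `[[0, M], [-Mᵀ, 0]]`. -/
def skewForm {r c : ℕ} (M : Matrix (Fin r) (Fin c) ℂ)
    (w w' : (Fin r → ℂ) × (Fin c → ℂ)) : ℂ :=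
  w.1 ⬝ᵥ (M.mulVec w'.2) - w'.1 ⬝ᵥ (M.mulVec w.2)

/-- The coordinate space `ℂ^r × ℂ^c` of a standard block. -/
def W (b : Block) : Type := (Fin b.rows → ℂ) × (Fin b.cols → ℂ)

instance (b : Block) : AddCommGroup (W b) :=
  inferInstanceAs (AddCommGroup ((Fin b.rows → ℂ) × (Fin b.cols → ℂ)))

instance (b : Block) : Module ℂ (W b) :=
  inferInstanceAs (Module ℂ ((Fin b.rows → ℂ) × (Fin b.cols → ℂ)))

instance (b : Block) : FiniteDimensional ℂ (W b) :=
  inferInstanceAs (FiniteDimensional ℂ ((Fin b.rows → ℂ) × (Fin b.cols → ℂ)))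

/-- The orthogonal direct sum, over a family of standard blocks `bl i`, of the skew forms with
pairing matrices `P (bl i)`. -/
def sumForm {ι : Type} [Fintype ι] (bl : ι → Block)
    (P : (b : Block) → Matrix (Fin b.rows) (Fin b.cols) ℂ) (v w : (i : ι) → W (bl i)) : ℂ :=
  ∑ i, skewForm (P (bl i)) (v i) (w i)

/-- The pair of forms `(A, B)` on `V` is, in suitable coordinates, simultaneously block-diagonal,
with the standard blocks `bl i` on the diagonal. -/
def Decomposes {V : Type} [AddCommGroup V] [Module ℂ V] (A B : V → V → ℂ) {ι : Type} [Fintype ι]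
    (bl : ι → Block) : Prop :=
  ∃ φ : V ≃ₗ[ℂ] ((i : ι) → W (bl i)),
    ∀ v w, A v w = sumForm bl Block.PA (φ v) (φ w) ∧ B v w = sumForm bl Block.PB (φ v) (φ w)

/-- The multiset of the parameters `k` of the Kronecker blocks. -/
def kronPart (S : Multiset Block) : Multiset ℕ :=
  S.filterMap fun b => match b with
    | .kron k => some k
    | .jordan _ _ => none

/-- The finite set of the distinct eigenvalues of the Jordan blocks. -/
noncomputable def eigs (S : Multiset Block) : Finset (Option ℂ) :=
  (S.filterMap fun b => match b with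
    | .kron _ => none
    | .jordan μ _ => some μ).toFinset

/-- The multiset of the parameters `m` of the Jordan blocks with eigenvalue `μ`. -/
noncomputable def sizesAt (S : Multiset Block) (μ : Option ℂ) : Multiset ℕ :=
  S.filterMap fun b => match b with
    | .kron _ => none
    | .jordan ν m => if ν = μ then some m else none

/-- The algebraic type of a family of blocks: the multiset of the parameters of the Kronecker
blocks and, for each distinct eigenvalue, the multiset of the parameters of the Jordan blocks
with this eigenvalue. The eigenvalues themselves are forgotten. -/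
noncomputable def algType (S : Multiset Block) : Multiset ℕ × Multiset (Multiset ℕ) :=
  (kronPart S, (eigs S).val.map (sizesAt S))

/-- The algebraic types: each eigenvalue carries at least one Jordan block, and the parameters of
Jordan blocks are positive. -/
def IsType (T : Multiset ℕ × Multiset (Multiset ℕ)) : Prop :=
  ∀ s ∈ T.2, s ≠ 0 ∧ ∀ m ∈ s, 0 < m

/-- A block is genuine if it is a Kronecker block or a Jordan block of positive size. -/
def Block.Pos : Block → Prop
  | .kron _ => True
  | .jordan _ m => 0 < m

/-- The pencil spanned by the forms `A`, `B` on `V` has algebraic type `T`. -/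
def HasType {V : Type} [AddCommGroup V] [Module ℂ V] (A B : V → V → ℂ)
    (T : Multiset ℕ × Multiset (Multiset ℕ)) : Prop :=
  ∃ (ι : Type) (_ : Fintype ι) (bl : ι → Block), (∀ i, (bl i).Pos) ∧
    algType (Finset.univ.val.map bl) = T ∧ Decomposes A B bl

/-- Zariski-open subsets of `g* × g*`: every point of `U` has a neighbourhood inside `U` of the
form `P ≠ 0`, where `P` is a polynomial in the values `x ξ`, `a η` with `ξ, η ∈ g`. -/
def ZariskiOpen {g : Type} [AddCommGroup g] [Module ℂ g]
    (U : Set (Module.Dual ℂ g × Module.Dual ℂ g)) : Prop :=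
  ∀ p ∈ U, ∃ P : MvPolynomial (g ⊕ g) ℂ,
    MvPolynomial.eval (Sum.elim (fun ξ => p.1 ξ) (fun η => p.2 η)) P ≠ 0 ∧
    ∀ q : Module.Dual ℂ g × Module.Dual ℂ g,
      MvPolynomial.eval (Sum.elim (fun ξ => q.1 ξ) (fun η => q.2 η)) P ≠ 0 → q ∈ U

/-- `T` is the Jordan-Kronecker invariant of the Lie algebra `g`: the pencil spanned by the forms
`(ξ, η) ↦ x [ξ, η]` and `(ξ, η) ↦ a [ξ, η]` has algebraic type `T` for all `(x, a)` in some
nonempty Zariski-open subset of `g* × g*`. -/
def HasInvariant (g : Type) [LieRing g] [LieAlgebra ℂ g]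
    (T : Multiset ℕ × Multiset (Multiset ℕ)) : Prop :=
  ∃ U : Set (Module.Dual ℂ g × Module.Dual ℂ g), ZariskiOpen U ∧ U.Nonempty ∧
    ∀ p ∈ U, HasType (fun ξ η => p.1 ⁅ξ, η⁆) (fun ξ η => p.2 ⁅ξ, η⁆) T

/-- `T` is the Jordan-Kronecker invariant of some finite-dimensional complex Lie algebra. -/
def Realisable (T : Multiset ℕ × Multiset (Multiset ℕ)) : Prop :=
  ∃ (g : Type) (_ : LieRing g) (_ : LieAlgebra ℂ g), FiniteDimensional ℂ g ∧ HasInvariant g T

/-! ### Types of multisets of blocks -/

/-- change the eigenvalues of the Jordan blocks. -/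
def relabel (φ : Option ℂ → Option ℂ) : Block → Block
  | .kron k => .kron k
  | .jordan μ m => .jordan (φ μ) m

theorem relabel_pos (φ : Option ℂ → Option ℂ) (b : Block) : (relabel φ b).Pos ↔ b.Pos := by
  cases b <;> rfl

theorem kronPart_relabel (φ : Option ℂ → Option ℂ) (S : Multiset Block) :
    kronPart (S.map (relabel φ)) = kronPart S := by
  unfold kronPart
  rw [Multiset.filterMap_map]
  congr 1
  funext b
  cases b <;> rfl

theorem eigs_relabel (φ : Option ℂ → Option ℂ) (S : Multiset Block) :
    eigs (S.map (relabel φ)) = (eigs S).image φ := by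
  classical
  ext ν
  simp only [eigs, Multiset.mem_toFinset, Multiset.mem_filterMap, Multiset.mem_map, Finset.mem_image]
  constructor
  · rintro ⟨b, ⟨b', hb', rfl⟩, h⟩
    cases b' with
    | kron k => simp [relabel] at h
    | jordan μ m =>
      simp only [relabel, Option.some.injEq] at h
      exact ⟨μ, ⟨.jordan μ m, hb', rfl⟩, h⟩
  · rintro ⟨μ, ⟨b', hb', h⟩, rfl⟩
    cases b' with
    | kron k => simp at h
    | jordan μ' m =>
      simp only [Option.some.injEq] at h
      subst h
      exact ⟨_, ⟨_, hb', rfl⟩, rfl⟩

theorem mem_eigs {S : Multiset Block} {μ : Option ℂ} {m : ℕ} (h : Block.jordan μ m ∈ S) :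
    μ ∈ eigs S := by
  simp only [eigs, Multiset.mem_toFinset, Multiset.mem_filterMap]
  exact ⟨_, h, rfl⟩

theorem filterMap_congr' {α β : Type} {f g : α → Option β} {s : Multiset α}
    (h : ∀ a ∈ s, f a = g a) : s.filterMap f = s.filterMap g := by
  induction s using Multiset.induction_on with
  | empty => simp
  | cons a s ih =>
    have h1 := h a (Multiset.mem_cons_self a s)
    have h2 := ih (fun b hb => h b (Multiset.mem_cons_of_mem hb))
    cases hf : f a with
    | none => rw [Multiset.filterMap_cons_none _ _ hf, Multiset.filterMap_cons_none _ _ (h1 ▸ hf), h2]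
    | some b => rw [Multiset.filterMap_cons_some _ _ _ hf, Multiset.filterMap_cons_some _ _ _ (h1 ▸ hf), h2]

theorem sizesAt_relabel (φ : Option ℂ → Option ℂ) (S : Multiset Block)
    (hφ : Set.InjOn φ (eigs S : Set (Option ℂ))) (μ : Option ℂ) (hμ : μ ∈ eigs S) :
    sizesAt (S.map (relabel φ)) (φ μ) = sizesAt S μ := by
  unfold sizesAt
  rw [Multiset.filterMap_map]
  apply filterMap_congr'
  intro b hb
  cases b with
  | kron k => rfl
  | jordan ν m =>
    simp only [Function.comp, relabel]
    have hν := mem_eigs hb
    by_cases h : ν = μ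
    · rw [if_pos (by rw [h]), if_pos h]
    · rw [if_neg (fun h' => h (hφ hν hμ h')), if_neg h]

/-- changing the eigenvalues injectively does not change the algebraic type. -/
theorem algType_relabel (φ : Option ℂ → Option ℂ) (S : Multiset Block)
    (hφ : Set.InjOn φ (eigs S : Set (Option ℂ))) :
    algType (S.map (relabel φ)) = algType S := by
  classical
  unfold algType
  rw [kronPart_relabel, eigs_relabel]
  congr 1
  rw [Finset.image_val_of_injOn hφ, Multiset.map_map]
  apply Multiset.map_congr rfl
  intro μ hμ
  exact sizesAt_relabel φ S hφ μ hμ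

/-- adding Kronecker blocks. -/
theorem algType_cons_kron (k : ℕ) (S : Multiset Block) :
    algType (Block.kron k ::ₘ S) = (k ::ₘ (algType S).1, (algType S).2) := by
  have h1 : kronPart (Block.kron k ::ₘ S) = k ::ₘ kronPart S := by
    unfold kronPart
    exact Multiset.filterMap_cons_some _ (Block.kron k) S rfl
  have h2 : eigs (Block.kron k ::ₘ S) = eigs S := by
    unfold eigs
    rw [Multiset.filterMap_cons_none _ _ rfl]
  have h3 : sizesAt (Block.kron k ::ₘ S) = sizesAt S := by
    funext μ
    unfold sizesAt
    rw [Multiset.filterMap_cons_none _ _ rfl]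
  unfold algType
  rw [h1, h2, h3]

theorem kronPart_jordans (μ : Option ℂ) (s : Multiset ℕ) :
    kronPart (s.map (Block.jordan μ)) = 0 := by
  unfold kronPart
  rw [Multiset.filterMap_map]
  induction s using Multiset.induction_on with
  | empty => rfl
  | cons a s ih => rw [Multiset.filterMap_cons_none _ _ rfl]; exact ih

theorem sizesAt_jordans_self (μ : Option ℂ) (s : Multiset ℕ) :
    sizesAt (s.map (Block.jordan μ)) μ = s := by
  unfold sizesAt
  rw [Multiset.filterMap_map]
  induction s using Multiset.induction_on with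
  | empty => rfl
  | cons a s ih => rw [Multiset.filterMap_cons_some (b := a) _ _ _ (by simp)]; rw [ih]

theorem sizesAt_jordans_ne (μ ν : Option ℂ) (h : μ ≠ ν) (s : Multiset ℕ) :
    sizesAt (s.map (Block.jordan μ)) ν = 0 := by
  unfold sizesAt
  rw [Multiset.filterMap_map]
  induction s using Multiset.induction_on with
  | empty => rfl
  | cons a s ih => rw [Multiset.filterMap_cons_none _ _ (by simp [h])]; rw [ih]

theorem eigs_add (S S' : Multiset Block) : eigs (S + S') = eigs S ∪ eigs S' := by
  classical
  ext μ
  simp only [eigs, Multiset.filterMap_add, Multiset.mem_toFinset, Multiset.mem_add, Finset.mem_union]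

theorem eigs_jordans (μ : Option ℂ) (s : Multiset ℕ) (hs : s ≠ 0) :
    eigs (s.map (Block.jordan μ)) = {μ} := by
  classical
  ext ν
  simp only [eigs, Multiset.mem_toFinset, Multiset.mem_filterMap, Multiset.mem_map, Finset.mem_singleton]
  constructor
  · rintro ⟨b, ⟨m, hm, rfl⟩, h⟩
    simpa using h.symm
  · rintro rfl
    obtain ⟨m, hm⟩ := Multiset.exists_mem_of_ne_zero hs
    exact ⟨_, ⟨m, hm, rfl⟩, rfl⟩

theorem sizesAt_add (S S' : Multiset Block) (μ : Option ℂ) :
    sizesAt (S + S') μ = sizesAt S μ + sizesAt S' μ := by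
  simp only [sizesAt, Multiset.filterMap_add]

theorem sizesAt_of_notMem (S : Multiset Block) (μ : Option ℂ) (h : μ ∉ eigs S) :
    sizesAt S μ = 0 := by
  by_contra hne
  obtain ⟨m, hm⟩ := Multiset.exists_mem_of_ne_zero hne
  simp only [sizesAt, Multiset.mem_filterMap] at hm
  obtain ⟨b, hb, hb'⟩ := hm
  cases b with
  | kron k => simp at hb'
  | jordan ν m' =>
    simp only at hb'
    split_ifs at hb' with h1
    subst h1
    exact h (mem_eigs hb)

/-- adding a new eigenvalue. -/
theorem algType_add_jordans (S : Multiset Block) (μ : Option ℂ) (s : Multiset ℕ) (hs : s ≠ 0)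
    (hμ : μ ∉ eigs S) :
    algType (s.map (Block.jordan μ) + S) = ((algType S).1, s ::ₘ (algType S).2) := by
  classical
  have h1 : kronPart (s.map (Block.jordan μ) + S) = kronPart S := by
    have := kronPart_jordans μ s
    unfold kronPart at this ⊢
    rw [Multiset.filterMap_add, this, zero_add]
  have h2 : (eigs (s.map (Block.jordan μ) + S)).val = μ ::ₘ (eigs S).val := by
    rw [eigs_add, eigs_jordans μ s hs, ← Finset.insert_eq, Finset.insert_val_of_notMem hμ]
  unfold algType
  rw [h1, h2, Multiset.map_cons]
  congr 2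
  · rw [sizesAt_add, sizesAt_jordans_self, sizesAt_of_notMem S μ hμ, add_zero]
  · apply Multiset.map_congr rfl
    intro ν hν
    have : μ ≠ ν := by rintro rfl; exact hμ hν
    rw [sizesAt_add, sizesAt_jordans_ne μ ν this, zero_add]

/-- every algebraic type is the type of a family of genuine blocks. -/
theorem exists_blocks (T : Multiset ℕ × Multiset (Multiset ℕ)) (hT : IsType T) :
    ∃ S : Multiset Block, (∀ b ∈ S, b.Pos) ∧ algType S = T := by
  classical
  obtain ⟨K, G⟩ := T
  induction G using Multiset.induction_on with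
  | empty =>
    clear hT
    induction K using Multiset.induction_on with
    | empty => exact ⟨0, by simp, rfl⟩
    | cons k K ih =>
      obtain ⟨S, hS, hST⟩ := ih
      refine ⟨Block.kron k ::ₘ S, ?_, ?_⟩
      · intro b hb
        rcases Multiset.mem_cons.1 hb with rfl | hb
        · trivial
        · exact hS b hb
      · rw [algType_cons_kron, hST]
  | cons s G ih =>
    obtain ⟨S, hS, hST⟩ := ih (fun s' hs' => hT s' (Multiset.mem_cons_of_mem hs'))
    have hs := hT s (Multiset.mem_cons_self s G)
    obtain ⟨μ, hμ⟩ := Infinite.exists_notMem_finset (eigs S)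
    refine ⟨s.map (Block.jordan μ) + S, ?_, ?_⟩
    · intro b hb
      rcases Multiset.mem_add.1 hb with hb | hb
      · obtain ⟨m, hm, rfl⟩ := Multiset.mem_map.1 hb
        exact hs.2 m hm
      · exact hS b hb
    · rw [algType_add_jordans S μ s hs.1 hμ, hST]

end Pool.Agent.H4.JK
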