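import Pool.Agent.H4.JKb

/-! Moebius invariance of the decomposition, direct sums, and two Lie algebras attached to a
pencil of skew forms. -/

namespace Pool.Agent.H4.JK

open Matrix

theorem skewForm_add_left {r c : ℕ} (M : Matrix (Fin r) (Fin c) ℂ) (u v w : (Fin r → ℂ) × (Fin c → ℂ)) :
    skewForm M (u + v) w = skewForm M u w + skewForm M v w := by
  simp only [skewForm, Prod.fst_add, Prod.snd_add, add_dotProduct, mulVec_add, dotProduct_add]
  ring

theorem skewForm_add_right {r c : ℕ} (M : Matrix (Fin r) (Fin c) ℂ) (u v w : (Fin r → ℂ) × (Fin c → ℂ)) :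
    skewForm M u (v + w) = skewForm M u v + skewForm M u w := by
  simp only [skewForm, Prod.fst_add, Prod.snd_add, add_dotProduct, mulVec_add, dotProduct_add]
  ring

theorem skewForm_smul_left {r c : ℕ} (M : Matrix (Fin r) (Fin c) ℂ) (z : ℂ) (u v : (Fin r → ℂ) × (Fin c → ℂ)) :
    skewForm M (z • u) v = z * skewForm M u v := by
  simp only [skewForm, Prod.smul_fst, Prod.smul_snd, smul_dotProduct, mulVec_smul, dotProduct_smul,
    smul_eq_mul]
  ring

theorem skewForm_smul_right {r c : ℕ} (M : Matrix (Fin r) (Fin c) ℂ) (z : ℂ) (u v : (Fin r → ℂ) × (Fin c → ℂ)) :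
    skewForm M u (z • v) = z * skewForm M u v := by
  simp only [skewForm, Prod.smul_fst, Prod.smul_snd, smul_dotProduct, mulVec_smul, dotProduct_smul,
    smul_eq_mul]
  ring

theorem skewForm_self {r c : ℕ} (M : Matrix (Fin r) (Fin c) ℂ) (u : (Fin r → ℂ) × (Fin c → ℂ)) :
    skewForm M u u = 0 := by
  simp only [skewForm, sub_self]

theorem skewForm_comb {r c : ℕ} (M N : Matrix (Fin r) (Fin c) ℂ) (α β : ℂ)
    (u v : (Fin r → ℂ) × (Fin c → ℂ)) :
    skewForm (α • M + β • N) u v = α * skewForm M u v + β * skewForm N u v := by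
  simp only [skewForm, Matrix.add_mulVec, Matrix.smul_mulVec, dotProduct_add, dotProduct_smul, smul_eq_mul]
  ring

theorem skewForm_change {r c : ℕ} (S : Matrix (Fin r) (Fin r) ℂ) (T : Matrix (Fin c) (Fin c) ℂ)
    (M : Matrix (Fin r) (Fin c) ℂ) (w w' : (Fin r → ℂ) × (Fin c → ℂ)) :
    skewForm M (Sᵀ *ᵥ w.1, T *ᵥ w.2) (Sᵀ *ᵥ w'.1, T *ᵥ w'.2) = skewForm (S * M * T) w w' := by
  simp only [skewForm, Matrix.mulVec_transpose]
  rw [← Matrix.dotProduct_mulVec, ← Matrix.dotProduct_mulVec]
  simp only [Matrix.mulVec_mulVec, Matrix.mul_assoc]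

/-- the change of coordinates `(p, q) ↦ (Sᵀ p, T q)`. -/
noncomputable def changeEquiv {r c : ℕ} (S : Matrix (Fin r) (Fin r) ℂ) (T : Matrix (Fin c) (Fin c) ℂ)
    (hS : IsUnit S) (hT : IsUnit T) :
    ((Fin r → ℂ) × (Fin c → ℂ)) ≃ₗ[ℂ] ((Fin r → ℂ) × (Fin c → ℂ)) :=
  LinearEquiv.prodCongr
    (LinearEquiv.ofLinearMap (Matrix.mulVecLin Sᵀ) (Matrix.mulVecLin (S⁻¹)ᵀ)
      (by
        rw [← Matrix.mulVecLin_mul, ← Matrix.transpose_mul,
          Matrix.nonsing_inv_mul _ ((Matrix.isUnit_iff_isUnit_det _).1 hS), Matrix.transpose_one,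
          Matrix.mulVecLin_one])
      (by
        rw [← Matrix.mulVecLin_mul, ← Matrix.transpose_mul,
          Matrix.mul_nonsing_inv _ ((Matrix.isUnit_iff_isUnit_det _).1 hS), Matrix.transpose_one,
          Matrix.mulVecLin_one]))
    (LinearEquiv.ofLinearMap (Matrix.mulVecLin T) (Matrix.mulVecLin T⁻¹)
      (by
        rw [← Matrix.mulVecLin_mul, Matrix.mul_nonsing_inv _ ((Matrix.isUnit_iff_isUnit_det _).1 hT),
          Matrix.mulVecLin_one])
      (by
        rw [← Matrix.mulVecLin_mul, Matrix.nonsing_inv_mul _ ((Matrix.isUnit_iff_isUnit_det _).1 hT),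
          Matrix.mulVecLin_one]))

theorem changeEquiv_apply {r c : ℕ} (S : Matrix (Fin r) (Fin r) ℂ) (T : Matrix (Fin c) (Fin c) ℂ)
    (hS : IsUnit S) (hT : IsUnit T) (w : (Fin r → ℂ) × (Fin c → ℂ)) :
    changeEquiv S T hS hT w = (Sᵀ *ᵥ w.1, T *ᵥ w.2) := rfl

theorem exists_change {r c : ℕ} (M N M' N' : Matrix (Fin r) (Fin c) ℂ) (α β γ δ : ℂ)
    (h : ∃ (S : Matrix (Fin r) (Fin r) ℂ) (T : Matrix (Fin c) (Fin c) ℂ), IsUnit S ∧ IsUnit T ∧
      S * (α • M + β • N) * T = M' ∧ S * (γ • M + δ • N) * T = N') :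
    ∃ ψ : ((Fin r → ℂ) × (Fin c → ℂ)) ≃ₗ[ℂ] ((Fin r → ℂ) × (Fin c → ℂ)), ∀ w w',
      α * skewForm M (ψ w) (ψ w') + β * skewForm N (ψ w) (ψ w') = skewForm M' w w' ∧
      γ * skewForm M (ψ w) (ψ w') + δ * skewForm N (ψ w) (ψ w') = skewForm N' w w' := by
  obtain ⟨S, T, hS, hT, h1, h2⟩ := h
  refine ⟨changeEquiv S T hS hT, fun w w' => ?_⟩
  rw [← skewForm_comb, ← skewForm_comb, changeEquiv_apply, changeEquiv_apply, skewForm_change,
    skewForm_change, h1, h2]
  exact ⟨rfl, rfl⟩

/-- the Moebius map on eigenvalues. -/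
noncomputable def moeb (α β γ δ : ℂ) : Option ℂ → Option ℂ
  | some μ => some ((α * μ + β) / (γ * μ + δ))
  | none => some (α / γ)

/-- denominators of the Moebius map. -/
def den (γ δ : ℂ) : Option ℂ → ℂ
  | some μ => γ * μ + δ
  | none => γ

theorem moeb_injOn (α β γ δ : ℂ) (hD : α * δ - β * γ ≠ 0) (E : Set (Option ℂ))
    (hE : ∀ μ ∈ E, den γ δ μ ≠ 0) : Set.InjOn (moeb α β γ δ) E := by
  intro μ hμ ν hν h
  have h1 := hE μ hμ
  have h2 := hE ν hν
  cases μ with
  | none =>
    cases ν with
    | none => rfl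
    | some ν =>
      exfalso
      simp only [den] at h1 h2
      simp only [moeb, Option.some.injEq] at h
      rw [div_eq_div_iff h1 h2] at h
      apply hD
      linear_combination h
  | some μ =>
    cases ν with
    | none =>
      exfalso
      simp only [den] at h1 h2
      simp only [moeb, Option.some.injEq] at h
      rw [div_eq_div_iff h1 h2] at h
      apply hD
      linear_combination -h
    | some ν =>
      simp only [den] at h1 h2
      simp only [moeb, Option.some.injEq] at h
      rw [div_eq_div_iff h1 h2] at h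
      have h3 : (α * δ - β * γ) * (μ - ν) = 0 := by linear_combination h
      rcases mul_eq_zero.1 h3 with h4 | h4
      · exact absurd h4 hD
      · rw [sub_eq_zero.1 h4]

theorem block_moebius (α β γ δ : ℂ) (hD : α * δ - β * γ ≠ 0) (b : Block)
    (hden : ∀ μ m, b = .jordan μ m → den γ δ μ ≠ 0) :
    ∃ ψ : W (relabel (moeb α β γ δ) b) ≃ₗ[ℂ] W b, ∀ w w',
      α * skewForm b.PA (ψ w) (ψ w') + β * skewForm b.PB (ψ w) (ψ w') =
        skewForm (relabel (moeb α β γ δ) b).PA w w' ∧
      γ * skewForm b.PA (ψ w) (ψ w') + δ * skewForm b.PB (ψ w) (ψ w') =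
        skewForm (relabel (moeb α β γ δ) b).PB w w' := by
  cases b with
  | kron k =>
    have h := kron_moebius k (α * 1 + β * 0) (α * 0 + β * 1) (γ * 1 + δ * 0) (γ * 0 + δ * 1)
      (by convert hD using 1; ring)
    rw [← bidiag_comb, ← bidiag_comb] at h
    exact exists_change _ _ _ _ α β γ δ h
  | jordan μ m =>
    have h0 := hden μ m rfl
    cases μ with
    | some μ =>
      have h := jordan_moebius m (α * μ + β * 1) (α * 1 + β * 0) (γ * μ + δ * 1) (γ * 1 + δ * 0)
        (by intro h; apply hD; linear_combination -h) (by simpa [den] using h0)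
      rw [← bidiag_comb, ← bidiag_comb] at h
      rw [show (α * μ + β * 1) / (γ * μ + δ * 1) = (α * μ + β) / (γ * μ + δ) by
        rw [mul_one, mul_one]] at h
      exact exists_change _ _ _ _ α β γ δ h
    | none =>
      have h := jordan_moebius m (α * 1 + β * 0) (α * 0 + β * 1) (γ * 1 + δ * 0) (γ * 0 + δ * 1)
        (by intro h; apply hD; linear_combination h) (by simpa [den] using h0)
      rw [← bidiag_comb, ← bidiag_comb] at h
      rw [show (α * 1 + β * 0) / (γ * 1 + δ * 0) = α / γ by
        rw [mul_one, mul_one, mul_zero, mul_zero, add_zero, add_zero]] at h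
      exact exists_change _ _ _ _ α β γ δ h

section
variable {V : Type} [AddCommGroup V] [Module ℂ V]

/-- Moebius invariance of block decompositions. -/
theorem Decomposes.moebius {A B : V → V → ℂ} {ι : Type} [Fintype ι] {bl : ι → Block}
    (h : Decomposes A B bl) (α β γ δ : ℂ) (hD : α * δ - β * γ ≠ 0)
    (hden : ∀ i μ m, bl i = .jordan μ m → den γ δ μ ≠ 0) :
    Decomposes (fun v w => α * A v w + β * B v w) (fun v w => γ * A v w + δ * B v w)
      (fun i => relabel (moeb α β γ δ) (bl i)) := by
  obtain ⟨φ, hφ⟩ := h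
  choose ψ hψ using fun i => block_moebius α β γ δ hD (bl i) (hden i)
  refine ⟨φ ≪≫ₗ LinearEquiv.piCongrRight (fun i => (ψ i).symm), fun v w => ?_⟩
  constructor
  · beta_reduce
    rw [(hφ v w).1, (hφ v w).2]
    unfold sumForm
    rw [Finset.mul_sum, Finset.mul_sum, ← Finset.sum_add_distrib]
    apply Finset.sum_congr rfl
    intro i _
    rw [← (hψ i _ _).1]
    simp
  · beta_reduce
    rw [(hφ v w).1, (hφ v w).2]
    unfold sumForm
    rw [Finset.mul_sum, Finset.mul_sum, ← Finset.sum_add_distrib]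
    apply Finset.sum_congr rfl
    intro i _
    rw [← (hψ i _ _).2]
    simp

/-- transport of a decomposition along an isometry. -/
theorem Decomposes.transport {V' : Type} [AddCommGroup V'] [Module ℂ V'] {A B : V → V → ℂ}
    {A' B' : V' → V' → ℂ} {ι : Type} [Fintype ι] {bl : ι → Block} (h : Decomposes A B bl)
    (e : V' ≃ₗ[ℂ] V) (hA : ∀ v w, A' v w = A (e v) (e w)) (hB : ∀ v w, B' v w = B (e v) (e w)) :
    Decomposes A' B' bl := by
  obtain ⟨φ, hφ⟩ := h
  refine ⟨e ≪≫ₗ φ, fun v w => ⟨?_, ?_⟩⟩
  · rw [hA, (hφ _ _).1]; rfl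
  · rw [hB, (hφ _ _).2]; rfl

/-- add a block to a family of blocks. -/
def addBlock {ι : Type} (b : Block) (bl : ι → Block) : Option ι → Block
  | none => b
  | some i => bl i

theorem addBlock_multiset {ι : Type} [Fintype ι] (b : Block) (bl : ι → Block) :
    Finset.univ.val.map (addBlock b bl) = b ::ₘ Finset.univ.val.map bl := by
  have h : (Finset.univ : Finset (Option ι)).val = none ::ₘ (Finset.univ : Finset ι).val.map some := rfl
  rw [h, Multiset.map_cons, Multiset.map_map]
  rfl

/-- Direct sum with one more block. -/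
theorem Decomposes.add {A B : V → V → ℂ} {ι : Type} [Fintype ι] {bl : ι → Block}
    (h : Decomposes A B bl) (b : Block) :
    Decomposes (V := V × W b) (fun v w => A v.1 w.1 + skewForm b.PA v.2 w.2)
      (fun v w => B v.1 w.1 + skewForm b.PB v.2 w.2) (addBlock b bl) := by
  obtain ⟨φ, hφ⟩ := h
  let e : (V × W b) ≃ₗ[ℂ] ((o : Option ι) → W (addBlock b bl o)) :=
    { toFun := fun v o => match o with
        | none => v.2
        | some i => φ v.1 i
      invFun := fun f => (φ.symm (fun i => f (some i)), f none)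
      left_inv := by
        intro v
        ext1
        · simp
        · rfl
      right_inv := by
        intro f
        funext o
        cases o with
        | none => rfl
        | some i => exact congrFun (φ.apply_symm_apply (fun i => f (some i))) i
      map_add' := by
        intro v w
        funext o
        cases o with
        | none => rfl
        | some i => exact congrFun (φ.map_add v.1 w.1) i
      map_smul' := by
        intro z v
        funext o
        cases o with
        | none => rfl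
        | some i => exact congrFun (φ.map_smul z v.1) i }
  refine ⟨e, fun v w => ⟨?_, ?_⟩⟩
  · beta_reduce
    rw [(hφ _ _).1]
    unfold sumForm
    rw [Fintype.sum_option, add_comm]
    rfl
  · beta_reduce
    rw [(hφ _ _).2]
    unfold sumForm
    rw [Fintype.sum_option, add_comm]
    rfl

end

/-- The direct sum of the spaces of a family of blocks. -/
abbrev Sp {ι : Type} (bl : ι → Block) : Type := (i : ι) → W (bl i)

/-- The bilinear form attached to a family of pairing matrices. -/
noncomputable def bilForm {ι : Type} [Fintype ι] (bl : ι → Block)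
    (P : (b : Block) → Matrix (Fin b.rows) (Fin b.cols) ℂ) : Sp bl →ₗ[ℂ] Sp bl →ₗ[ℂ] ℂ :=
  LinearMap.mk₂ ℂ (fun v w => ∑ i, skewForm (P (bl i)) (v i) (w i))
    (by
      intro u v w
      rw [← Finset.sum_add_distrib]
      exact Finset.sum_congr rfl fun i _ => skewForm_add_left _ _ _ _)
    (by
      intro z v w
      rw [smul_eq_mul, Finset.mul_sum]
      exact Finset.sum_congr rfl fun i _ => skewForm_smul_left _ _ _ _)
    (by
      intro u v w
      rw [← Finset.sum_add_distrib]
      exact Finset.sum_congr rfl fun i _ => skewForm_add_right _ _ _ _)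
    (by
      intro z v w
      rw [smul_eq_mul, Finset.mul_sum]
      exact Finset.sum_congr rfl fun i _ => skewForm_smul_right _ _ _ _)

theorem bilForm_apply {ι : Type} [Fintype ι] (bl : ι → Block)
    (P : (b : Block) → Matrix (Fin b.rows) (Fin b.cols) ℂ) (v w : Sp bl) :
    bilForm bl P v w = ∑ i, skewForm (P (bl i)) (v i) (w i) := rfl

theorem bilForm_self {ι : Type} [Fintype ι] (bl : ι → Block)
    (P : (b : Block) → Matrix (Fin b.rows) (Fin b.cols) ℂ) (v : Sp bl) :
    bilForm bl P v v = 0 := by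
  rw [bilForm_apply]
  exact Finset.sum_eq_zero fun i _ => skewForm_self _ _

theorem decomposes_bilForm {ι : Type} [Fintype ι] (bl : ι → Block) :
    Decomposes (fun v w => bilForm bl Block.PA v w) (fun v w => bilForm bl Block.PB v w) bl :=
  ⟨LinearEquiv.refl ℂ _, fun _ _ => ⟨rfl, rfl⟩⟩

end Pool.Agent.H4.JK
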