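import Pool.Agent.H4.JKc

/-! Two Lie algebras attached to a pencil of skew forms, and their Jordan-Kronecker invariants. -/

namespace Pool.Agent.H4.JK

open Matrix

section Ext3

variable {V : Type} [AddCommGroup V] [Module ℂ V]

/-- The Lie algebra `V ⊕ ⟨e, f, h⟩` with `[v, w] = A(v,w) e + B(v,w) f`, `[h, v] = v/2`,
`[h, e] = e`, `[h, f] = f`. -/
@[nolint unusedArguments]
def Ext3 (A B : V →ₗ[ℂ] V →ₗ[ℂ] ℂ) (_ : ∀ v, A v v = 0) (_ : ∀ v, B v v = 0) : Type :=
  V × ℂ × ℂ × ℂ

variable {A B : V →ₗ[ℂ] V →ₗ[ℂ] ℂ} {hA : ∀ v, A v v = 0} {hB : ∀ v, B v v = 0}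

instance : AddCommGroup (Ext3 A B hA hB) := inferInstanceAs (AddCommGroup (V × ℂ × ℂ × ℂ))
instance : Module ℂ (Ext3 A B hA hB) := inferInstanceAs (Module ℂ (V × ℂ × ℂ × ℂ))

/-- the bracket of `Ext3`. -/
noncomputable def br3 (A B : V →ₗ[ℂ] V →ₗ[ℂ] ℂ) (x y : V × ℂ × ℂ × ℂ) : V × ℂ × ℂ × ℂ :=
  ((1 / 2 * x.2.2.2) • y.1 - (1 / 2 * y.2.2.2) • x.1,
    A x.1 y.1 + x.2.2.2 * y.2.1 - y.2.2.2 * x.2.1,
    B x.1 y.1 + x.2.2.2 * y.2.2.1 - y.2.2.2 * x.2.2.1, 0)

theorem skew_of_alt {A : V →ₗ[ℂ] V →ₗ[ℂ] ℂ} (hA : ∀ v, A v v = 0) (v w : V) : A v w = - A w v := by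
  have h := hA (v + w)
  simp only [map_add, LinearMap.add_apply, hA] at h
  linear_combination h

noncomputable instance : LieRing (Ext3 A B hA hB) where
  bracket := br3 A B
  add_lie x y z := by
    change br3 A B (x + y) z = br3 A B x z + br3 A B y z
    obtain ⟨x1, x2, x3, x4⟩ := x
    obtain ⟨y1, y2, y3, y4⟩ := y
    obtain ⟨z1, z2, z3, z4⟩ := z
    change br3 A B (x1 + y1, x2 + y2, x3 + y3, x4 + y4) (z1, z2, z3, z4) =
      br3 A B (x1, x2, x3, x4) (z1, z2, z3, z4) + br3 A B (y1, y2, y3, y4) (z1, z2, z3, z4)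
    simp only [br3, Prod.mk_add_mk, map_add, LinearMap.add_apply]
    refine Prod.ext ?_ (Prod.ext ?_ (Prod.ext ?_ ?_))
    · simp only; module
    · simp only; ring
    · simp only; ring
    · simp only; ring
  lie_add x y z := by
    change br3 A B x (y + z) = br3 A B x y + br3 A B x z
    obtain ⟨x1, x2, x3, x4⟩ := x
    obtain ⟨y1, y2, y3, y4⟩ := y
    obtain ⟨z1, z2, z3, z4⟩ := z
    change br3 A B (x1, x2, x3, x4) (y1 + z1, y2 + z2, y3 + z3, y4 + z4) =
      br3 A B (x1, x2, x3, x4) (y1, y2, y3, y4) + br3 A B (x1, x2, x3, x4) (z1, z2, z3, z4)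
    simp only [br3, Prod.mk_add_mk, map_add]
    refine Prod.ext ?_ (Prod.ext ?_ (Prod.ext ?_ ?_))
    · simp only; module
    · simp only; ring
    · simp only; ring
    · simp only; ring
  lie_self x := by
    change br3 A B x x = 0
    obtain ⟨x1, x2, x3, x4⟩ := x
    simp only [br3, hA, hB]
    refine Prod.ext ?_ (Prod.ext ?_ (Prod.ext ?_ ?_))
    · simp
    · simp
    · simp
    · simp
  leibniz_lie x y z := by
    change br3 A B x (br3 A B y z) = br3 A B (br3 A B x y) z + br3 A B y (br3 A B x z)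
    obtain ⟨x1, x2, x3, x4⟩ := x
    obtain ⟨y1, y2, y3, y4⟩ := y
    obtain ⟨z1, z2, z3, z4⟩ := z
    simp only [br3, map_sub, map_smul, LinearMap.sub_apply, LinearMap.smul_apply, smul_eq_mul,
      Prod.mk_add_mk]
    have e1 := skew_of_alt hA x1 y1
    have e2 := skew_of_alt hB x1 y1
    refine Prod.ext ?_ (Prod.ext ?_ (Prod.ext ?_ ?_))
    · simp only; module
    · simp only; linear_combination (1 / 2 * z4) * e1
    · simp only; linear_combination (1 / 2 * z4) * e2
    · simp only; ring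

noncomputable instance : LieAlgebra ℂ (Ext3 A B hA hB) where
  lie_smul c x y := by
    change br3 A B x (c • y) = c • br3 A B x y
    obtain ⟨x1, x2, x3, x4⟩ := x
    obtain ⟨y1, y2, y3, y4⟩ := y
    change br3 A B (x1, x2, x3, x4) (c • y1, c • y2, c • y3, c • y4) =
      c • br3 A B (x1, x2, x3, x4) (y1, y2, y3, y4)
    simp only [br3, Prod.smul_mk, map_smul, smul_eq_mul]
    refine Prod.ext ?_ (Prod.ext ?_ (Prod.ext ?_ ?_))
    · simp only; module
    · simp only; ring
    · simp only; ring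
    · simp only; ring

instance [FiniteDimensional ℂ V] : FiniteDimensional ℂ (Ext3 A B hA hB) :=
  inferInstanceAs (FiniteDimensional ℂ (V × ℂ × ℂ × ℂ))

end Ext3

section Ext2

variable {V : Type} [AddCommGroup V] [Module ℂ V]

/-- The two-step nilpotent Lie algebra `V ⊕ ⟨e, f⟩` with `[v, w] = A(v,w) e + B(v,w) f`. -/
@[nolint unusedArguments]
def Ext2 (A B : V →ₗ[ℂ] V →ₗ[ℂ] ℂ) (_ : ∀ v, A v v = 0) (_ : ∀ v, B v v = 0) : Type :=
  V × ℂ × ℂ

variable {A B : V →ₗ[ℂ] V →ₗ[ℂ] ℂ} {hA : ∀ v, A v v = 0} {hB : ∀ v, B v v = 0}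

instance : AddCommGroup (Ext2 A B hA hB) := inferInstanceAs (AddCommGroup (V × ℂ × ℂ))
instance : Module ℂ (Ext2 A B hA hB) := inferInstanceAs (Module ℂ (V × ℂ × ℂ))

/-- the bracket of `Ext2`. -/
noncomputable def br2 (A B : V →ₗ[ℂ] V →ₗ[ℂ] ℂ) (x y : V × ℂ × ℂ) : V × ℂ × ℂ :=
  (0, A x.1 y.1, B x.1 y.1)

noncomputable instance : LieRing (Ext2 A B hA hB) where
  bracket := br2 A B
  add_lie x y z := by
    change br2 A B (x + y) z = br2 A B x z + br2 A B y z
    obtain ⟨x1, x2, x3⟩ := x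
    obtain ⟨y1, y2, y3⟩ := y
    obtain ⟨z1, z2, z3⟩ := z
    change br2 A B (x1 + y1, x2 + y2, x3 + y3) (z1, z2, z3) =
      br2 A B (x1, x2, x3) (z1, z2, z3) + br2 A B (y1, y2, y3) (z1, z2, z3)
    simp only [br2, Prod.mk_add_mk, map_add, LinearMap.add_apply, add_zero]
  lie_add x y z := by
    change br2 A B x (y + z) = br2 A B x y + br2 A B x z
    obtain ⟨x1, x2, x3⟩ := x
    obtain ⟨y1, y2, y3⟩ := y
    obtain ⟨z1, z2, z3⟩ := z
    change br2 A B (x1, x2, x3) (y1 + z1, y2 + z2, y3 + z3) =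
      br2 A B (x1, x2, x3) (y1, y2, y3) + br2 A B (x1, x2, x3) (z1, z2, z3)
    simp only [br2, Prod.mk_add_mk, map_add, add_zero]
  lie_self x := by
    change br2 A B x x = 0
    simp only [br2, hA, hB]
    rfl
  leibniz_lie x y z := by
    change br2 A B x (br2 A B y z) = br2 A B (br2 A B x y) z + br2 A B y (br2 A B x z)
    simp only [br2, map_zero, LinearMap.zero_apply, Prod.mk_add_mk, add_zero]

noncomputable instance : LieAlgebra ℂ (Ext2 A B hA hB) where
  lie_smul c x y := by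
    change br2 A B x (c • y) = c • br2 A B x y
    obtain ⟨x1, x2, x3⟩ := x
    obtain ⟨y1, y2, y3⟩ := y
    change br2 A B (x1, x2, x3) (c • y1, c • y2, c • y3) =
      c • br2 A B (x1, x2, x3) (y1, y2, y3)
    simp only [br2, Prod.smul_mk, map_smul, smul_eq_mul, smul_zero]

instance [FiniteDimensional ℂ V] : FiniteDimensional ℂ (Ext2 A B hA hB) :=
  inferInstanceAs (FiniteDimensional ℂ (V × ℂ × ℂ))

end Ext2

/-- Criterion for an invariant: it is enough to control pairs `(x, a)` for which the values on two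
given elements `e`, `f` are generic. -/
theorem hasInvariant_of {g : Type} [LieRing g] [LieAlgebra ℂ g] (e f : g)
    (L1 L2 : Module.Dual ℂ g) (h1e : L1 e = 1) (h1f : L1 f = 0) (h2e : L2 e = 0) (h2f : L2 f = 1)
    {ι : Type} [Fintype ι] (bl : ι → Block) (T : Multiset ℕ × Multiset (Multiset ℕ))
    (h : ∀ x a : Module.Dual ℂ g, x e * a f - x f * a e ≠ 0 →
      (∀ i μ m, bl i = .jordan μ m → den (a e) (a f) μ ≠ 0) →
      HasType (fun ξ η => x ⁅ξ, η⁆) (fun ξ η => a ⁅ξ, η⁆) T) :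
    HasInvariant g T := by
  classical
  let dp : Block → MvPolynomial (g ⊕ g) ℂ := fun b => match b with
    | .kron _ => 1
    | .jordan (some μ) _ => MvPolynomial.X (Sum.inr e) * MvPolynomial.C μ + MvPolynomial.X (Sum.inr f)
    | .jordan none _ => MvPolynomial.X (Sum.inr e)
  let P : MvPolynomial (g ⊕ g) ℂ :=
    (MvPolynomial.X (Sum.inl e) * MvPolynomial.X (Sum.inr f) -
      MvPolynomial.X (Sum.inl f) * MvPolynomial.X (Sum.inr e)) * ∏ i, dp (bl i)
  have hP : ∀ x a : Module.Dual ℂ g,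
      MvPolynomial.eval (Sum.elim (fun ξ => x ξ) (fun η => a η)) P ≠ 0 ↔
      (x e * a f - x f * a e ≠ 0 ∧ ∀ i μ m, bl i = .jordan μ m → den (a e) (a f) μ ≠ 0) := by
    intro x a
    have h1 : MvPolynomial.eval (Sum.elim (fun ξ => x ξ) (fun η => a η)) P =
      (x e * a f - x f * a e) *
        ∏ i, MvPolynomial.eval (Sum.elim (fun ξ => x ξ) (fun η => a η)) (dp (bl i)) := by
      simp only [P, map_mul, map_sub, MvPolynomial.eval_X, Sum.elim_inl, Sum.elim_inr, map_prod]
    rw [h1, mul_ne_zero_iff, Finset.prod_ne_zero_iff]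
    apply and_congr Iff.rfl
    constructor
    · intro h2 i μ m hi
      have h3 := h2 i (Finset.mem_univ i)
      rw [hi] at h3
      cases μ with
      | none => simpa [dp, den] using h3
      | some μ => simpa [dp, den] using h3
    · intro h2 i _
      cases hi : bl i with
      | kron k => simp [dp]
      | jordan μ m =>
        have h3 := h2 i μ m hi
        cases μ with
        | none => simpa [dp, den] using h3
        | some μ => simpa [dp, den] using h3
  refine ⟨{p | MvPolynomial.eval (Sum.elim (fun ξ => p.1 ξ) (fun η => p.2 η)) P ≠ 0}, ?_, ?_, ?_⟩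
  · intro p hp
    exact ⟨P, hp, fun q hq => hq⟩
  · -- nonempty
    obtain ⟨c, hc⟩ := Infinite.exists_notMem_finset
      (Finset.univ.image (fun i => match bl i with
        | .kron _ => (0 : ℂ)
        | .jordan (some μ) _ => -μ
        | .jordan none _ => 0))
    refine ⟨(L1 + (c + 1) • L2, L1 + c • L2), ?_⟩
    rw [Set.mem_ofPred_eq, hP]
    constructor
    · simp only [LinearMap.add_apply, LinearMap.smul_apply, h1e, h1f, h2e, h2f, smul_eq_mul]
      ring_nf
      norm_num
    · intro i μ m hi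
      simp only [LinearMap.add_apply, LinearMap.smul_apply, h1e, h1f, h2e, h2f, smul_eq_mul, mul_zero,
        add_zero, mul_one, zero_add]
      cases μ with
      | none => simp [den]
      | some μ =>
        simp only [den, one_mul]
        intro h0
        apply hc
        rw [Finset.mem_image]
        refine ⟨i, Finset.mem_univ i, ?_⟩
        rw [hi]
        simp only
        linear_combination -h0
  · intro p hp
    rw [Set.mem_ofPred_eq, hP] at hp
    exact h p.1 p.2 hp.1 hp.2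

end Pool.Agent.H4.JK
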