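import Pool.Agent.H4.JKd

/-! Realisability of all algebraic types with a 3x3 Kronecker block or two 1x1 blocks. -/

namespace Pool.Agent.H4.JK

open Matrix

theorem skewForm_kron1_PA (w w' : W (.kron 1)) :
    skewForm (Block.kron 1).PA w w' = w.1 (0 : Fin 1) * w'.2 (0 : Fin 2) - w'.1 (0 : Fin 1) * w.2 (0 : Fin 2) := by
  change (∑ i : Fin 1, w.1 i * ∑ j : Fin 2, bidiag 1 2 1 0 i j * w'.2 j) -
    (∑ i : Fin 1, w'.1 i * ∑ j : Fin 2, bidiag 1 2 1 0 i j * w.2 j) = _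
  simp [bidiag, Fin.sum_univ_two]

theorem skewForm_kron1_PB (w w' : W (.kron 1)) :
    skewForm (Block.kron 1).PB w w' = w.1 (0 : Fin 1) * w'.2 (1 : Fin 2) - w'.1 (0 : Fin 1) * w.2 (1 : Fin 2) := by
  change (∑ i : Fin 1, w.1 i * ∑ j : Fin 2, bidiag 1 2 0 1 i j * w'.2 j) -
    (∑ i : Fin 1, w'.1 i * ∑ j : Fin 2, bidiag 1 2 0 1 i j * w.2 j) = _
  simp [bidiag, Fin.sum_univ_two]

theorem skewForm_kron0_PA (w w' : W (.kron 0)) : skewForm (Block.kron 0).PA w w' = 0 := by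
  change (∑ i : Fin 0, _) - (∑ i : Fin 0, _) = (0 : ℂ)
  simp

theorem skewForm_kron0_PB (w w' : W (.kron 0)) : skewForm (Block.kron 0).PB w w' = 0 := by
  change (∑ i : Fin 0, _) - (∑ i : Fin 0, _) = (0 : ℂ)
  simp

/-- the linear part of a functional on `V × ℂ × ℂ × ℂ`. -/
theorem dual_decomp3 {V : Type} [AddCommGroup V] [Module ℂ V] (x : Module.Dual ℂ (V × ℂ × ℂ × ℂ))
    (v : V) (s t h : ℂ) :
    x (v, s, t, h) = x (v, 0, 0, 0) + s * x (0, 1, 0, 0) + t * x (0, 0, 1, 0) + h * x (0, 0, 0, 1) := by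
  have h1 : ((v, s, t, h) : V × ℂ × ℂ × ℂ) =
      (v, 0, 0, 0) + s • (0, 1, 0, 0) + t • (0, 0, 1, 0) + h • (0, 0, 0, 1) := by
    simp
  rw [h1, map_add, map_add, map_add, map_smul, map_smul, map_smul]
  simp

theorem dual_decomp2 {V : Type} [AddCommGroup V] [Module ℂ V] (x : Module.Dual ℂ (V × ℂ × ℂ))
    (v : V) (s t : ℂ) :
    x (v, s, t) = x (v, 0, 0) + s * x (0, 1, 0) + t * x (0, 0, 1) := by
  have h1 : ((v, s, t) : V × ℂ × ℂ) =
      (v, 0, 0) + s • (0, 1, 0) + t • (0, 0, 1) := by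
    simp
  rw [h1, map_add, map_add, map_smul, map_smul]
  simp

theorem solve1 (X1 X2 A1 A2 p q u w : ℂ) (hD : X1 * A2 - X2 * A1 ≠ 0) :
    ((p - u) * A2 - (q - w) * X2) / (X1 * A2 - X2 * A1) * X1 +
      ((q - w) * X1 - (p - u) * A1) / (X1 * A2 - X2 * A1) * X2 + u = p := by
  rw [div_mul_eq_mul_div, div_mul_eq_mul_div, ← add_div, div_add' _ _ _ hD, div_eq_iff hD]
  ring

theorem solve2 (X1 X2 A1 A2 p q u w : ℂ) (hD : X1 * A2 - X2 * A1 ≠ 0) :
    ((p - u) * A2 - (q - w) * X2) / (X1 * A2 - X2 * A1) * A1 +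
      ((q - w) * X1 - (p - u) * A1) / (X1 * A2 - X2 * A1) * A2 + w = q := by
  rw [div_mul_eq_mul_div, div_mul_eq_mul_div, ← add_div, div_add' _ _ _ hD, div_eq_iff hD]
  ring

theorem dual_comb3 {V : Type} [AddCommGroup V] [Module ℂ V] (y : Module.Dual ℂ (V × ℂ × ℂ × ℂ))
    (c d : ℂ) (v w : V) :
    y (c • v - d • w, 0, 0, 0) = c * y (v, 0, 0, 0) - d * y (w, 0, 0, 0) := by
  have h : ((c • v - d • w, 0, 0, 0) : V × ℂ × ℂ × ℂ) = c • (v, 0, 0, 0) - d • (w, 0, 0, 0) := by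
    simp
  rw [h, map_sub, map_smul, map_smul]
  rfl

/-- The isometry between `Ext3` with its pencil and the direct sum of the transformed pencil on
`V` with a `3 × 3` Kronecker block. -/
noncomputable def iso3 {V : Type} [AddCommGroup V] [Module ℂ V] (x a : Module.Dual ℂ (V × ℂ × ℂ × ℂ))
    (hD : x (0, 1, 0, 0) * a (0, 0, 1, 0) - x (0, 0, 1, 0) * a (0, 1, 0, 0) ≠ 0) :
    (V × ℂ × ℂ × ℂ) ≃ₗ[ℂ] (V × ((Fin 1 → ℂ) × (Fin 2 → ℂ))) where
  toFun ξ := (ξ.1, ![ξ.2.2.2],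
    ![ξ.2.1 * x (0, 1, 0, 0) + ξ.2.2.1 * x (0, 0, 1, 0) + 1 / 2 * x (ξ.1, 0, 0, 0),
      ξ.2.1 * a (0, 1, 0, 0) + ξ.2.2.1 * a (0, 0, 1, 0) + 1 / 2 * a (ξ.1, 0, 0, 0)])
  invFun w := (w.1,
    ((w.2.2 0 - 1 / 2 * x (w.1, 0, 0, 0)) * a (0, 0, 1, 0) -
      (w.2.2 1 - 1 / 2 * a (w.1, 0, 0, 0)) * x (0, 0, 1, 0)) /
      (x (0, 1, 0, 0) * a (0, 0, 1, 0) - x (0, 0, 1, 0) * a (0, 1, 0, 0)),
    ((w.2.2 1 - 1 / 2 * a (w.1, 0, 0, 0)) * x (0, 1, 0, 0) -
      (w.2.2 0 - 1 / 2 * x (w.1, 0, 0, 0)) * a (0, 1, 0, 0)) /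
      (x (0, 1, 0, 0) * a (0, 0, 1, 0) - x (0, 0, 1, 0) * a (0, 1, 0, 0)),
    w.2.1 0)
  left_inv ξ := by
    obtain ⟨v, s, t, h⟩ := ξ
    refine Prod.ext rfl (Prod.ext ?_ (Prod.ext ?_ rfl))
    · simp only [Matrix.cons_val_zero, Matrix.cons_val_one]
      rw [div_eq_iff hD]
      ring
    · simp only [Matrix.cons_val_zero, Matrix.cons_val_one]
      rw [div_eq_iff hD]
      ring
  right_inv w := by
    obtain ⟨v, p, q⟩ := w
    refine Prod.ext rfl (Prod.ext ?_ ?_)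
    · funext i
      fin_cases i
      rfl
    · funext i
      fin_cases i
      · exact solve1 _ _ _ _ (q 0) (q 1) (1 / 2 * x (v, 0, 0, 0)) (1 / 2 * a (v, 0, 0, 0)) hD
      · exact solve2 _ _ _ _ (q 0) (q 1) (1 / 2 * x (v, 0, 0, 0)) (1 / 2 * a (v, 0, 0, 0)) hD
  map_add' ξ η := by
    obtain ⟨v, s, t, h⟩ := ξ
    obtain ⟨v', s', t', h'⟩ := η
    have hx : x (v + v', 0, 0, 0) = x (v, 0, 0, 0) + x (v', 0, 0, 0) := by
      rw [← map_add]; simp
    have ha : a (v + v', 0, 0, 0) = a (v, 0, 0, 0) + a (v', 0, 0, 0) := by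
      rw [← map_add]; simp
    refine Prod.ext rfl (Prod.ext ?_ ?_)
    · funext i
      fin_cases i
      rfl
    · funext i
      fin_cases i
      · change (s + s') * _ + (t + t') * _ + 1 / 2 * x (v + v', 0, 0, 0) =
          (s * _ + t * _ + 1 / 2 * x (v, 0, 0, 0)) + (s' * _ + t' * _ + 1 / 2 * x (v', 0, 0, 0))
        rw [hx]
        ring
      · change (s + s') * _ + (t + t') * _ + 1 / 2 * a (v + v', 0, 0, 0) =
          (s * _ + t * _ + 1 / 2 * a (v, 0, 0, 0)) + (s' * _ + t' * _ + 1 / 2 * a (v', 0, 0, 0))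
        rw [ha]
        ring
  map_smul' z ξ := by
    obtain ⟨v, s, t, h⟩ := ξ
    have hx : x (z • v, 0, 0, 0) = z * x (v, 0, 0, 0) := by
      rw [← smul_eq_mul, ← map_smul]; simp
    have ha : a (z • v, 0, 0, 0) = z * a (v, 0, 0, 0) := by
      rw [← smul_eq_mul, ← map_smul]; simp
    refine Prod.ext rfl (Prod.ext ?_ ?_)
    · funext i
      fin_cases i
      rfl
    · funext i
      fin_cases i
      · change (z * s) * _ + (z * t) * _ + 1 / 2 * x (z • v, 0, 0, 0) =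
          z * (s * _ + t * _ + 1 / 2 * x (v, 0, 0, 0))
        rw [hx]
        ring
      · change (z * s) * _ + (z * t) * _ + 1 / 2 * a (z • v, 0, 0, 0) =
          z * (s * _ + t * _ + 1 / 2 * a (v, 0, 0, 0))
        rw [ha]
        ring

/-- `V × ℂ × ℂ` as `V` plus two Kronecker blocks of size one. -/
noncomputable def iso2 (V : Type) [AddCommGroup V] [Module ℂ V] :
    (V × ℂ × ℂ) ≃ₗ[ℂ] ((V × W (.kron 0)) × W (.kron 0)) where
  toFun ξ := ((ξ.1, (0, fun _ => ξ.2.1)), (0, fun _ => ξ.2.2))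
  invFun w := (w.1.1, w.1.2.2 (0 : Fin 1), w.2.2 (0 : Fin 1))
  left_inv ξ := rfl
  right_inv w := by
    obtain ⟨⟨v, p, q⟩, p', q'⟩ := w
    refine Prod.ext (Prod.ext rfl (Prod.ext ?_ ?_)) (Prod.ext ?_ ?_)
    · funext i; exact i.elim0
    · funext i
      have : i = (0 : Fin 1) := Subsingleton.elim (α := Fin 1) _ _
      rw [this]
    · funext i; exact i.elim0
    · funext i
      have : i = (0 : Fin 1) := Subsingleton.elim (α := Fin 1) _ _
      rw [this]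
  map_add' ξ η := by
    refine Prod.ext (Prod.ext rfl (Prod.ext ?_ rfl)) (Prod.ext ?_ rfl)
    · exact (add_zero _).symm
    · exact (add_zero _).symm
  map_smul' z ξ := by
    refine Prod.ext (Prod.ext rfl (Prod.ext ?_ rfl)) (Prod.ext ?_ rfl)
    · exact (smul_zero _).symm
    · exact (smul_zero _).symm

theorem eigs_univ {ι : Type} [Fintype ι] (bl : ι → Block) (E : Set (Option ℂ))
    (h : ∀ i μ m, bl i = .jordan μ m → μ ∈ E) :
    ((eigs (Finset.univ.val.map bl) : Finset (Option ℂ)) : Set (Option ℂ)) ⊆ E := by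
  intro μ hμ
  simp only [eigs, Finset.mem_coe, Multiset.mem_toFinset, Multiset.mem_filterMap, Multiset.mem_map] at hμ
  obtain ⟨b, ⟨i, _, rfl⟩, h2⟩ := hμ
  cases hi : bl i with
  | kron k => rw [hi] at h2; simp at h2
  | jordan ν m =>
    rw [hi] at h2
    simp only [Option.some.injEq] at h2
    subst h2
    exact h i _ m hi

theorem algType_moeb {ι : Type} [Fintype ι] (bl : ι → Block) (α β γ δ : ℂ)
    (hD : α * δ - β * γ ≠ 0) (hden : ∀ i μ m, bl i = .jordan μ m → den γ δ μ ≠ 0) :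
    algType (Finset.univ.val.map (fun i => relabel (moeb α β γ δ) (bl i))) =
      algType (Finset.univ.val.map bl) := by
  have h1 : Finset.univ.val.map (fun i => relabel (moeb α β γ δ) (bl i)) =
      (Finset.univ.val.map bl).map (relabel (moeb α β γ δ)) := by
    rw [Multiset.map_map]; rfl
  rw [h1]
  apply algType_relabel
  exact moeb_injOn α β γ δ hD _ (fun μ hμ => eigs_univ bl {μ | den γ δ μ ≠ 0} hden hμ)

/-- Realisation with a `3 × 3` Kronecker block. -/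
theorem realisable3 {ι : Type} [Fintype ι] (bl : ι → Block) (hpos : ∀ i, (bl i).Pos) :
    Realisable (1 ::ₘ (algType (Finset.univ.val.map bl)).1, (algType (Finset.univ.val.map bl)).2) := by
  classical
  let A := bilForm bl Block.PA
  let B := bilForm bl Block.PB
  refine ⟨Ext3 A B (bilForm_self bl _) (bilForm_self bl _), inferInstance, inferInstance,
    inferInstance, ?_⟩
  refine hasInvariant_of (g := Ext3 A B (bilForm_self bl _) (bilForm_self bl _))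
    ((0, 1, 0, 0) : Sp bl × ℂ × ℂ × ℂ) ((0, 0, 1, 0) : Sp bl × ℂ × ℂ × ℂ)
    ((LinearMap.fst ℂ ℂ (ℂ × ℂ)).comp (LinearMap.snd ℂ (Sp bl) (ℂ × ℂ × ℂ)))
    ((LinearMap.fst ℂ ℂ ℂ).comp ((LinearMap.snd ℂ ℂ (ℂ × ℂ)).comp (LinearMap.snd ℂ (Sp bl) (ℂ × ℂ × ℂ))))
    rfl rfl rfl rfl bl _ ?_
  intro x a hD hden
  let x' : Module.Dual ℂ (Sp bl × ℂ × ℂ × ℂ) := x
  let a' : Module.Dual ℂ (Sp bl × ℂ × ℂ × ℂ) := a
  have hdec := (((decomposes_bilForm bl).moebius (x' (0, 1, 0, 0)) (x' (0, 0, 1, 0)) (a' (0, 1, 0, 0))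
    (a' (0, 0, 1, 0)) hD hden).add (.kron 1))
  refine ⟨Option ι, inferInstance, _, ?_, ?_, hdec.transport (iso3 x' a' hD) ?_ ?_⟩
  · intro o
    cases o with
    | none => trivial
    | some i => exact (relabel_pos _ _).2 (hpos i)
  · rw [addBlock_multiset, algType_cons_kron, algType_moeb bl (x' (0, 1, 0, 0)) (x' (0, 0, 1, 0))
      (a' (0, 1, 0, 0)) (a' (0, 0, 1, 0)) hD hden]
  · rintro ⟨v, s, t, h⟩ ⟨v', s', t', h'⟩
    rw [skewForm_kron1_PA]
    change x' (br3 A B (v, s, t, h) (v', s', t', h')) = _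
    rw [br3, dual_decomp3, dual_comb3]
    change _ = x' (0, 1, 0, 0) * A v v' + x' (0, 0, 1, 0) * B v v' +
      (h * (s' * x' (0, 1, 0, 0) + t' * x' (0, 0, 1, 0) + 1 / 2 * x' (v', 0, 0, 0)) -
        h' * (s * x' (0, 1, 0, 0) + t * x' (0, 0, 1, 0) + 1 / 2 * x' (v, 0, 0, 0)))
    ring
  · rintro ⟨v, s, t, h⟩ ⟨v', s', t', h'⟩
    rw [skewForm_kron1_PB]
    change a' (br3 A B (v, s, t, h) (v', s', t', h')) = _
    rw [br3, dual_decomp3, dual_comb3]
    change _ = a' (0, 1, 0, 0) * A v v' + a' (0, 0, 1, 0) * B v v' +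
      (h * (s' * a' (0, 1, 0, 0) + t' * a' (0, 0, 1, 0) + 1 / 2 * a' (v', 0, 0, 0)) -
        h' * (s * a' (0, 1, 0, 0) + t * a' (0, 0, 1, 0) + 1 / 2 * a' (v, 0, 0, 0)))
    ring

/-- Realisation with two `1 × 1` Kronecker blocks. -/
theorem realisable2 {ι : Type} [Fintype ι] (bl : ι → Block) (hpos : ∀ i, (bl i).Pos) :
    Realisable (0 ::ₘ 0 ::ₘ (algType (Finset.univ.val.map bl)).1,
      (algType (Finset.univ.val.map bl)).2) := by
  classical
  let A := bilForm bl Block.PA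
  let B := bilForm bl Block.PB
  refine ⟨Ext2 A B (bilForm_self bl _) (bilForm_self bl _), inferInstance, inferInstance,
    inferInstance, ?_⟩
  refine hasInvariant_of (g := Ext2 A B (bilForm_self bl _) (bilForm_self bl _))
    ((0, 1, 0) : Sp bl × ℂ × ℂ) ((0, 0, 1) : Sp bl × ℂ × ℂ)
    ((LinearMap.fst ℂ ℂ ℂ).comp (LinearMap.snd ℂ (Sp bl) (ℂ × ℂ)))
    ((LinearMap.snd ℂ ℂ ℂ).comp (LinearMap.snd ℂ (Sp bl) (ℂ × ℂ)))
    rfl rfl rfl rfl bl _ ?_
  intro x a hD hden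
  let x' : Module.Dual ℂ (Sp bl × ℂ × ℂ) := x
  let a' : Module.Dual ℂ (Sp bl × ℂ × ℂ) := a
  have hdec := ((((decomposes_bilForm bl).moebius (x' (0, 1, 0)) (x' (0, 0, 1)) (a' (0, 1, 0))
    (a' (0, 0, 1)) hD hden).add (.kron 0)).add (.kron 0))
  refine ⟨Option (Option ι), inferInstance, _, ?_, ?_, hdec.transport (iso2 (Sp bl)) ?_ ?_⟩
  · intro o
    rcases o with _ | _ | i
    · trivial
    · trivial
    · exact (relabel_pos _ _).2 (hpos i)
  · rw [addBlock_multiset, addBlock_multiset, algType_cons_kron, algType_cons_kron,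
      algType_moeb bl (x' (0, 1, 0)) (x' (0, 0, 1)) (a' (0, 1, 0)) (a' (0, 0, 1)) hD hden]
  · rintro ⟨v, s, t⟩ ⟨v', s', t'⟩
    rw [skewForm_kron0_PA, skewForm_kron0_PA]
    change x' (br2 A B (v, s, t) (v', s', t')) = x' (0, 1, 0) * A v v' + x' (0, 0, 1) * B v v' + 0 + 0
    rw [br2, dual_decomp2]
    have h3 : x' (0, 0, 0) = 0 := map_zero x'
    rw [h3]
    ring
  · rintro ⟨v, s, t⟩ ⟨v', s', t'⟩
    rw [skewForm_kron0_PB, skewForm_kron0_PB]
    change a' (br2 A B (v, s, t) (v', s', t')) = a' (0, 1, 0) * A v v' + a' (0, 0, 1) * B v v' + 0 + 0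
    rw [br2, dual_decomp2]
    have h3 : a' (0, 0, 0) = 0 := map_zero a'
    rw [h3]
    ring

/-- Every algebraic type with a `3 × 3` Kronecker block or with at least two `1 × 1` Kronecker
blocks is the Jordan-Kronecker invariant of a finite-dimensional Lie algebra. -/
theorem realisable_main (T : Multiset ℕ × Multiset (Multiset ℕ)) (hT : IsType T)
    (h : 1 ∈ T.1 ∨ 2 ≤ T.1.count 0) : Realisable T := by
  classical
  rcases h with h | h
  · obtain ⟨K, hK⟩ := Multiset.exists_cons_of_mem h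
    obtain ⟨S, hS, hST⟩ := exists_blocks (K, T.2) hT
    have h1 := realisable3 (ι := S) (fun x => x.1) (fun i => hS _ (Multiset.coe_mem))
    rw [Multiset.map_univ_coe, hST] at h1
    rw [← hK] at h1
    exact h1
  · obtain ⟨K, hK⟩ : ∃ K, T.1 = 0 ::ₘ 0 ::ₘ K := by
      have h1 := Multiset.le_count_iff_replicate_le.1 h
      obtain ⟨K, hK⟩ := Multiset.le_iff_exists_add.1 h1
      refine ⟨K, ?_⟩
      rw [hK, Multiset.replicate_succ, Multiset.replicate_succ, Multiset.replicate_zero,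
        Multiset.cons_add, Multiset.cons_add, zero_add]
    obtain ⟨S, hS, hST⟩ := exists_blocks (K, T.2) hT
    have h1 := realisable2 (ι := S) (fun x => x.1) (fun i => hS _ (Multiset.coe_mem))
    rw [Multiset.map_univ_coe, hST] at h1
    rw [← hK] at h1
    exact h1

end Pool.Agent.H4.JK
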