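import Pool.Agent.H4.JKc

/-! Truncated polynomial algebras and the linear-algebra facts needed for multiplication pencils. -/

namespace Pool.Agent.H4.JK

open Polynomial

/-- `ℂ[X] / (X^(m+1))`. -/
abbrev TA (m : ℕ) : Type := AdjoinRoot (X ^ (m + 1) : ℂ[X])

theorem monicX (m : ℕ) : (X ^ (m + 1) : ℂ[X]).Monic := monic_X_pow _

instance (m : ℕ) : Module.Finite ℂ (TA m) := (AdjoinRoot.powerBasis' (monicX m)).finite

theorem finrank_TA (m : ℕ) : Module.finrank ℂ (TA m) = m + 1 := by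
  rw [(AdjoinRoot.powerBasis' (monicX m)).finrank]
  simp [AdjoinRoot.powerBasis']

/-- residue: the constant coefficient. -/
noncomputable def res (m : ℕ) : TA m →ₐ[ℂ] ℂ :=
  AdjoinRoot.liftAlgHom (X ^ (m + 1) : ℂ[X]) (AlgHom.id ℂ ℂ) 0 (by simp)

theorem res_mk (m : ℕ) (f : ℂ[X]) : res m (AdjoinRoot.mk _ f) = f.coeff 0 := by
  unfold res
  rw [AdjoinRoot.liftAlgHom_mk, Polynomial.coeff_zero_eq_eval_zero]
  rfl

/-- the coefficient of `X`. -/
noncomputable def cf1 (m : ℕ) : TA m →ₗ[ℂ] ℂ :=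
  (Polynomial.lcoeff ℂ 1).comp (AdjoinRoot.modByMonicHom (monicX m))

theorem cf1_mk (m : ℕ) (hm : 0 < m) (f : ℂ[X]) : cf1 m (AdjoinRoot.mk _ f) = f.coeff 1 := by
  unfold cf1
  rw [LinearMap.comp_apply, AdjoinRoot.modByMonicHom_mk, Polynomial.lcoeff_apply]
  have h := Polynomial.modByMonic_add_div f (X ^ (m + 1) : ℂ[X])
  conv_rhs => rw [← h]
  rw [Polynomial.coeff_add, Polynomial.coeff_X_pow_mul', if_neg (by omega), add_zero]

/-- independence of products of powers. -/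
theorem poly_indep (N : ℕ) (f g : ℂ[X]) (hf : f.coeff 0 ≠ 0) (hg : g.coeff 0 ≠ 0) (β : ℕ → ℂ)
    (e : ℕ → ℕ) (h : X ^ N ∣ ∑ l ∈ Finset.range N, C (β l) * ((X * f) ^ l * g ^ (e l))) :
    ∀ l < N, β l = 0 := by
  intro l
  induction l using Nat.strong_induction_on with
  | _ l ih =>
    intro hl
    obtain ⟨q, hq⟩ := h
    have h1 := congrArg (fun p => Polynomial.coeff p l) hq
    simp only [Polynomial.finsetSum_coeff] at h1
    rw [Polynomial.coeff_X_pow_mul', if_neg (by omega)] at h1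
    rw [Finset.sum_eq_single l] at h1
    · rw [Polynomial.coeff_C_mul, mul_pow, mul_assoc, Polynomial.coeff_X_pow_mul', if_pos le_rfl,
        Nat.sub_self, Polynomial.mul_coeff_zero] at h1
      rcases mul_eq_zero.1 h1 with h2 | h2
      · exact h2
      · exfalso
        rcases mul_eq_zero.1 h2 with h3 | h3
        · rw [Polynomial.coeff_zero_eq_eval_zero, Polynomial.eval_pow,
            ← Polynomial.coeff_zero_eq_eval_zero] at h3
          exact pow_ne_zero _ hf h3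
        · rw [Polynomial.coeff_zero_eq_eval_zero, Polynomial.eval_pow,
            ← Polynomial.coeff_zero_eq_eval_zero] at h3
          exact pow_ne_zero _ hg h3
    · intro j hj hjl
      rw [Finset.mem_range] at hj
      rcases lt_or_gt_of_ne hjl with h2 | h2
      · rw [ih j h2 hj, C_0, zero_mul, Polynomial.coeff_zero]
      · rw [Polynomial.coeff_C_mul, mul_pow, mul_assoc, Polynomial.coeff_X_pow_mul', if_neg (by omega),
          mul_zero]
    · intro h2; exact absurd (Finset.mem_range.2 hl) h2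

/-- `ν` is in the maximal ideal and, if `m > 0`, has nonzero linear coefficient. -/
theorem exists_lift (m : ℕ) (ν : TA m) (h0 : res m ν = 0) (h1 : m = 0 ∨ cf1 m ν ≠ 0) :
    ∃ f : ℂ[X], f.coeff 0 ≠ 0 ∧ ν = AdjoinRoot.mk _ (X * f) := by
  obtain ⟨p, rfl⟩ := AdjoinRoot.mk_surjective ν
  rw [res_mk] at h0
  rcases Nat.eq_zero_or_pos m with rfl | hm
  · refine ⟨1, by simp, ?_⟩
    rw [AdjoinRoot.mk_eq_mk]
    have h2 : (X : ℂ[X]) ∣ p := Polynomial.X_dvd_iff.2 h0
    simpa using h2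
  · rcases h1 with h1 | h1
    · omega
    rw [cf1_mk m hm] at h1
    obtain ⟨f, rfl⟩ := Polynomial.X_dvd_iff.2 h0
    refine ⟨f, ?_, rfl⟩
    have h3 : (X * f).coeff 1 = f.coeff 0 := Polynomial.coeff_X_mul f 0
    rwa [h3] at h1

/-- independence in the truncated algebra. -/
theorem TA_indep (m : ℕ) (ν a : TA m) (h0 : res m ν = 0) (h1 : m = 0 ∨ cf1 m ν ≠ 0)
    (ha : res m a ≠ 0) (β : ℕ → ℂ) (e : ℕ → ℕ)
    (h : ∑ l ∈ Finset.range (m + 1), β l • (ν ^ l * a ^ (e l)) = 0) : ∀ l < m + 1, β l = 0 := by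
  obtain ⟨f, hf, rfl⟩ := exists_lift m ν h0 h1
  obtain ⟨g, rfl⟩ := AdjoinRoot.mk_surjective a
  rw [res_mk] at ha
  apply poly_indep (m + 1) f g hf ha β e
  rw [← AdjoinRoot.mk_eq_zero, map_sum, ← h]
  apply Finset.sum_congr rfl
  intro l _
  rw [map_mul, map_mul, map_pow, map_pow, Algebra.smul_def]
  rfl

/-- nilpotency in the truncated algebra. -/
theorem TA_nilp (m : ℕ) (ν : TA m) (h0 : res m ν = 0) (n : ℕ) (hn : m + 1 ≤ n) : ν ^ n = 0 := by
  obtain ⟨p, rfl⟩ := AdjoinRoot.mk_surjective ν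
  rw [res_mk] at h0
  rw [← map_pow, AdjoinRoot.mk_eq_zero]
  obtain ⟨q, rfl⟩ := Polynomial.X_dvd_iff.2 h0
  rw [mul_pow]
  exact (pow_dvd_pow X hn).mul_right _

/-- weights annihilating low powers. -/
theorem exists_weights (k : ℕ) (t : Fin (k + 1) → ℂ) (ht : Function.Injective t) :
    ∃ w : Fin (k + 1) → ℂ, (∀ i, w i ≠ 0) ∧ ∀ l < k, ∑ i, w i * t i ^ l = 0 := by
  let L : (Fin (k + 1) → ℂ) →ₗ[ℂ] (Fin k → ℂ) :=
    LinearMap.pi fun l => ∑ i, (t i ^ (l : ℕ)) • LinearMap.proj i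
  have hL : ¬ Function.Injective L := by
    intro h
    have h1 := LinearMap.finrank_le_finrank_of_injective h
    simp at h1
  obtain ⟨w, hw, hw0⟩ : ∃ w, L w = 0 ∧ w ≠ 0 := by
    by_contra hcon
    push Not at hcon
    apply hL
    rw [← LinearMap.ker_eq_bot, LinearMap.ker_eq_bot']
    exact hcon
  have hsum : ∀ l < k, ∑ i, w i * t i ^ l = 0 := by
    intro l hl
    have h1 := congrFun hw ⟨l, hl⟩
    simp only [L, LinearMap.pi_apply, LinearMap.sum_apply, LinearMap.smul_apply, LinearMap.proj_apply,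
      smul_eq_mul, Pi.zero_apply] at h1
    rw [← h1]
    exact Finset.sum_congr rfl fun i _ => mul_comm _ _
  refine ⟨w, ?_, hsum⟩
  intro i0 hi0
  apply hw0
  have h2 : (fun j => w (i0.succAbove j)) = 0 := by
    apply Matrix.eq_zero_of_forall_pow_sum_mul_pow_eq_zero
      (f := fun j => t (i0.succAbove j)) (ht.comp Fin.succAbove_right_injective)
    intro l
    have h3 := hsum l l.2
    rw [Fin.sum_univ_succAbove _ i0, hi0, zero_mul, zero_add] at h3
    exact h3
  funext i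
  rcases Fin.eq_self_or_eq_succAbove i0 i with rfl | ⟨j, rfl⟩
  · exact hi0
  · exact congrFun h2 j

end Pool.Agent.H4.JK
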