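import Pool.Agent.H4.JKf

/-! Pencils of linear maps `P → Q`, and the multiplication pencils of Kronecker pieces. -/

namespace Pool.Agent.H4.JK

open Polynomial Module

/-- The pencil of linear maps `(X, Y)` decomposes into standard blocks. -/
def PencilDec {P Q : Type} [AddCommGroup P] [Module ℂ P] [AddCommGroup Q] [Module ℂ Q]
    (X Y : P →ₗ[ℂ] Q) {ι : Type} [Fintype ι] (bl : ι → Block) : Prop :=
  ∃ (bP : Basis (Σ i, Fin (bl i).rows) ℂ P) (bQ : Basis (Σ i, Fin (bl i).cols) ℂ Q),
    ∀ i r, X (bP ⟨i, r⟩) = ∑ c, (bl i).PA r c • bQ ⟨i, c⟩ ∧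
      Y (bP ⟨i, r⟩) = ∑ c, (bl i).PB r c • bQ ⟨i, c⟩

/-- Rows of the second pairing matrix are independent. -/
def RowInd (b : Block) : Prop :=
  ∀ g : Fin b.rows → ℂ, (∀ c, ∑ r, g r * b.PB r c = 0) → g = 0

theorem bid_row (r c : ℕ) (s s' : ℂ) (g : Fin r → ℂ) (i : Fin r) (j : Fin c)
    (hs : s = 0 ∨ (∀ i' : Fin r, i' ≠ i → (j : ℕ) ≠ i')) (hs' : s' = 0 ∨ (∀ i' : Fin r, i' ≠ i → (j : ℕ) ≠ i' + 1))
    (h : ∑ i', g i' * bidiag r c s s' i' j = 0) : g i * bidiag r c s s' i j = 0 := by
  rw [Finset.sum_eq_single i] at h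
  · exact h
  · intro b _ hb
    simp only [bidiag, Matrix.of_apply]
    rcases hs with rfl | hs
    · rcases hs' with rfl | hs'
      · simp
      · simp [hs' b hb]
    · rcases hs' with rfl | hs'
      · simp [hs b hb]
      · simp [hs b hb, hs' b hb]
  · intro h; exact absurd (Finset.mem_univ _) h

theorem rowInd_kron' (k : ℕ) (g : Fin k → ℂ)
    (hg : ∀ c : Fin (k + 1), ∑ r, g r * bidiag k (k + 1) 0 1 r c = 0) : g = 0 := by
  funext r
  have h := bid_row k (k + 1) 0 1 g r (Fin.succ r) (Or.inl rfl)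
    (Or.inr (by intro i' hi h; apply hi; ext; simpa using h.symm)) (hg _)
  simpa [bidiag] using h

theorem rowInd_kron (k : ℕ) : RowInd (.kron k) := fun g hg => rowInd_kron' k g hg

theorem rowInd_jordan' (m : ℕ) (g : Fin m → ℂ)
    (hg : ∀ c : Fin m, ∑ r, g r * bidiag m m 1 0 r c = 0) : g = 0 := by
  funext r
  have h := bid_row m m 1 0 g r r (Or.inr (by intro i' hi h; apply hi; ext; exact h.symm))
    (Or.inl rfl) (hg _)
  simpa [bidiag] using h

theorem rowInd_jordan (t : ℂ) (m : ℕ) : RowInd (.jordan (some t) m) := fun g hg => rowInd_jordan' m g hg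

/-- Criterion for a decomposition of a pencil of linear maps. -/
theorem pencilDec_of {P Q : Type} [AddCommGroup P] [Module ℂ P] [AddCommGroup Q] [Module ℂ Q]
    [FiniteDimensional ℂ P] [FiniteDimensional ℂ Q]
    (X Y : P →ₗ[ℂ] Q) {ι : Type} [Fintype ι] (bl : ι → Block) (hbl : ∀ i, RowInd (bl i))
    (vP : (Σ i, Fin (bl i).rows) → P) (vQ : (Σ i, Fin (bl i).cols) → Q)
    (hX : ∀ i r, X (vP ⟨i, r⟩) = ∑ c, (bl i).PA r c • vQ ⟨i, c⟩)
    (hY : ∀ i r, Y (vP ⟨i, r⟩) = ∑ c, (bl i).PB r c • vQ ⟨i, c⟩)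
    (hQ : LinearIndependent ℂ vQ)
    (hcP : ∑ i, (bl i).rows = finrank ℂ P) (hcQ : ∑ i, (bl i).cols = finrank ℂ Q) :
    PencilDec X Y bl := by
  classical
  have hP : LinearIndependent ℂ vP := by
    rw [Fintype.linearIndependent_iff] at hQ ⊢
    intro g hg
    have h1 := congrArg Y hg
    rw [map_sum, map_zero] at h1
    have h2 : ∑ j : (Σ i, Fin (bl i).cols), (∑ r, g ⟨j.1, r⟩ * (bl j.1).PB r j.2) • vQ j = 0 := by
      rw [← h1, Fintype.sum_sigma, Fintype.sum_sigma]
      apply Finset.sum_congr rfl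
      intro i _
      simp only [map_smul, hY, Finset.smul_sum, Finset.sum_smul, smul_smul]
      rw [Finset.sum_comm]
    have h3 := hQ _ h2
    rintro ⟨i, r⟩
    have h4 : (fun r => g ⟨i, r⟩) = 0 := hbl i _ (fun c => h3 ⟨i, c⟩)
    exact congrFun h4 r
  have hcP' : Fintype.card (Σ i, Fin (bl i).rows) = finrank ℂ P := by
    rw [Fintype.card_sigma, ← hcP]; simp
  have hcQ' : Fintype.card (Σ i, Fin (bl i).cols) = finrank ℂ Q := by
    rw [Fintype.card_sigma, ← hcQ]; simp
  refine ⟨basisOfLinearIndependentOfCardEqFinrank' vP hP hcP',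
    basisOfLinearIndependentOfCardEqFinrank' vQ hQ hcQ', fun i r => ?_⟩
  simp only [coe_basisOfLinearIndependentOfCardEqFinrank']
  exact ⟨hX i r, hY i r⟩

/-! ### The algebra of a Kronecker piece -/

set_option linter.unusedSectionVars false

section KPiece

variable (k : ℕ) (τ : Fin (k + 1) → Type) [∀ i, Fintype (τ i)] [∀ i, DecidableEq (τ i)]
  (m : (i : Fin (k + 1)) → τ i → ℕ)

/-- the ambient product algebra. -/
abbrev KR : Type := (Fin (k + 1) → ℂ) × ((p : Σ i, τ i) → TA (m p.1 p.2))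

/-- the defect map. -/
noncomputable def kdef : KR k τ m →ₗ[ℂ] ((Σ i, τ i) → ℂ) where
  toFun z := fun p => res _ (z.2 p) - z.1 p.1
  map_add' z w := by
    funext p
    simp only [Prod.snd_add, Prod.fst_add, Pi.add_apply, map_add]
    ring
  map_smul' c z := by
    funext p
    simp only [Prod.smul_snd, Prod.smul_fst, Pi.smul_apply, map_smul, smul_eq_mul, RingHom.id_apply]
    ring

/-- the algebra of tuples with compatible residues. -/
noncomputable def KS : Subalgebra ℂ (KR k τ m) where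
  carrier := {z | ∀ p, res _ (z.2 p) = z.1 p.1}
  mul_mem' := by
    intro z w hz hw p
    simp only [Prod.snd_mul, Prod.fst_mul, Pi.mul_apply, map_mul]
    rw [hz p, hw p]
  add_mem' := by
    intro z w hz hw p
    simp only [Prod.snd_add, Prod.fst_add, Pi.add_apply, map_add]
    rw [hz p, hw p]
  algebraMap_mem' := by
    intro c p
    change res _ (algebraMap ℂ _ c) = c
    rw [AlgHom.commutes]
    rfl

theorem mem_KS (z : KR k τ m) : z ∈ KS k τ m ↔ ∀ p, res _ (z.2 p) = z.1 p.1 := Iff.rfl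

instance : FiniteDimensional ℂ (KS k τ m) :=
  inferInstanceAs (FiniteDimensional ℂ (Subalgebra.toSubmodule (KS k τ m)))

theorem finrank_KS : finrank ℂ (KS k τ m) = (k + 1) + ∑ p : Σ i, τ i, m p.1 p.2 := by
  have h1 : Subalgebra.toSubmodule (KS k τ m) = LinearMap.ker (kdef k τ m) := by
    ext z
    rw [Subalgebra.mem_toSubmodule, mem_KS, LinearMap.mem_ker]
    constructor
    · intro h
      funext p
      change res _ (z.2 p) - z.1 p.1 = 0
      rw [h p, sub_self]
    · intro h p
      have := congrFun h p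
      exact sub_eq_zero.1 this
  have h2 : LinearMap.range (kdef k τ m) = ⊤ := by
    rw [LinearMap.range_eq_top]
    intro g
    refine ⟨(0, fun p => algebraMap ℂ _ (g p)), ?_⟩
    funext p
    change res _ (algebraMap ℂ _ (g p)) - 0 = g p
    rw [AlgHom.commutes, sub_zero]
    rfl
  have h3 := LinearMap.finrank_range_add_finrank_ker (kdef k τ m)
  rw [h2, ← h1, finrank_top] at h3
  have h4 : finrank ℂ (KR k τ m) = (k + 1) + ∑ p : Σ i, τ i, (m p.1 p.2 + 1) := by
    rw [finrank_prod, finrank_pi, Module.finrank_pi_fintype, Fintype.card_fin]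
    congr 1
    exact Finset.sum_congr rfl fun p _ => finrank_TA _
  rw [h4, finrank_pi, Finset.sum_add_distrib] at h3
  simp only [Finset.sum_const, Finset.card_univ, smul_eq_mul, mul_one] at h3
  have h5 : finrank ℂ (KS k τ m) = finrank ℂ (Subalgebra.toSubmodule (KS k τ m)) := rfl
  omega

/-- the sum of the residues. -/
noncomputable def ksum : KS k τ m →ₗ[ℂ] ℂ where
  toFun z := ∑ i, z.1.1 i
  map_add' z w := by
    simp only [Subalgebra.coe_add, Prod.fst_add, Pi.add_apply, Finset.sum_add_distrib]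
  map_smul' c z := by
    simp only [Subalgebra.coe_smul, Prod.smul_fst, Pi.smul_apply, smul_eq_mul, Finset.mul_sum,
      RingHom.id_apply]

/-- the hyperplane of elements with vanishing sum of residues. -/
noncomputable def KH : Submodule ℂ (KS k τ m) := LinearMap.ker (ksum k τ m)

theorem finrank_KH : finrank ℂ (KH k τ m) = k + ∑ p : Σ i, τ i, m p.1 p.2 := by
  have h1 := LinearMap.finrank_range_add_finrank_ker (ksum k τ m)
  have h2 : LinearMap.range (ksum k τ m) = ⊤ := by
    rw [LinearMap.range_eq_top]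
    intro c
    refine ⟨(c / (k + 1 : ℂ)) • 1, ?_⟩
    rw [map_smul]
    have h3 : ksum k τ m 1 = (k + 1 : ℂ) := by
      change ∑ i : Fin (k + 1), (1 : ℂ) = _
      simp
    rw [h3, smul_eq_mul, div_mul_cancel₀]
    exact_mod_cast Nat.succ_ne_zero k
  rw [h2, finrank_top, finrank_self, finrank_KS] at h1
  unfold KH
  omega

/-- multiplication by `z` on the hyperplane. -/
noncomputable def KX (z : KS k τ m) : KH k τ m →ₗ[ℂ] KS k τ m :=
  (LinearMap.mulLeft ℂ z).comp (KH k τ m).subtype

/-- constants of `KS`. -/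
noncomputable def kconst (w : Fin (k + 1) → ℂ) : KS k τ m :=
  ⟨(w, fun p => algebraMap ℂ _ (w p.1)), fun p => by
    change res _ (algebraMap ℂ _ (w p.1)) = w p.1
    rw [AlgHom.commutes]
    rfl⟩

/-- inclusion of the maximal ideal of one component. -/
noncomputable def kinc (p : Σ i, τ i) (y : TA (m p.1 p.2)) (hy : res _ y = 0) : KS k τ m :=
  ⟨(0, Pi.single p y), fun q => by
    change res _ (Pi.single (M := fun p : Σ i, τ i => TA (m p.1 p.2)) p y q) = 0
    by_cases h : q = p
    · subst h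
      rw [Pi.single_eq_same]
      exact hy
    · rw [Pi.single_eq_of_ne h, map_zero]⟩

theorem mul_kinc (z : KS k τ m) (p : Σ i, τ i) (y : TA (m p.1 p.2)) (hy : res _ y = 0) :
    z * kinc k τ m p y hy = kinc k τ m p (z.1.2 p * y) (by rw [map_mul, hy, mul_zero]) := by
  apply Subtype.ext
  refine Prod.ext ?_ ?_
  · change z.1.1 * 0 = 0
    rw [mul_zero]
  · change z.1.2 * Pi.single p y = Pi.single p (z.1.2 p * y)
    funext q
    by_cases h : q = p
    · subst h
      simp [Pi.single_eq_same]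
    · simp [Pi.single_eq_of_ne h]

theorem kinc_congr (p : Σ i, τ i) (y y' : TA (m p.1 p.2)) (hy : res _ y = 0) (hy' : res _ y' = 0)
    (h : y = y') : kinc k τ m p y hy = kinc k τ m p y' hy' := by
  subst h; rfl

theorem kinc_add (p : Σ i, τ i) (y y' : TA (m p.1 p.2)) (hy : res _ y = 0) (hy' : res _ y' = 0) :
    kinc k τ m p (y + y') (by rw [map_add, hy, hy', add_zero]) =
      kinc k τ m p y hy + kinc k τ m p y' hy' := by
  apply Subtype.ext
  refine Prod.ext ?_ ?_
  · change (0 : Fin (k + 1) → ℂ) = 0 + 0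
    rw [add_zero]
  · funext q
    change Pi.single (M := fun p : Σ i, τ i => TA (m p.1 p.2)) p (y + y') q =
      Pi.single (M := fun p : Σ i, τ i => TA (m p.1 p.2)) p y q +
        Pi.single (M := fun p : Σ i, τ i => TA (m p.1 p.2)) p y' q
    by_cases h : q = p
    · subst h
      simp [Pi.single_eq_same]
    · simp [Pi.single_eq_of_ne h]

theorem kinc_smul (p : Σ i, τ i) (c : ℂ) (y : TA (m p.1 p.2)) (hy : res _ y = 0) :
    kinc k τ m p (c • y) (by rw [map_smul, hy, smul_zero]) = c • kinc k τ m p y hy := by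
  apply Subtype.ext
  refine Prod.ext ?_ ?_
  · change (0 : Fin (k + 1) → ℂ) = c • 0
    rw [smul_zero]
  · funext q
    change Pi.single (M := fun p : Σ i, τ i => TA (m p.1 p.2)) p (c • y) q =
      c • Pi.single (M := fun p : Σ i, τ i => TA (m p.1 p.2)) p y q
    by_cases h : q = p
    · subst h
      simp [Pi.single_eq_same]
    · simp [Pi.single_eq_of_ne h]

theorem kinc_zero (p : Σ i, τ i) : kinc k τ m p 0 (map_zero _) = 0 := by
  apply Subtype.ext
  refine Prod.ext rfl ?_
  change Pi.single p 0 = 0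
  rw [Pi.single_zero]

end KPiece

theorem bid_sum {Q : Type} [AddCommGroup Q] [Module ℂ Q] (r c : ℕ) (s s' : ℂ) (i : Fin r)
    (v : ℕ → Q) :
    ∑ j : Fin c, bidiag r c s s' i j • v j =
      (if (i : ℕ) < c then s • v i else 0) + (if (i : ℕ) + 1 < c then s' • v (i + 1) else 0) := by
  simp only [bidiag, Matrix.of_apply, add_smul, Finset.sum_add_distrib]
  congr 1
  · split_ifs with h
    · rw [Finset.sum_eq_single (⟨i, h⟩ : Fin c)]
      · simp
      · intro b _ hb
        have : (b : ℕ) ≠ i := fun h' => hb (by ext; exact h')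
        simp [this]
      · intro h'; exact absurd (Finset.mem_univ _) h'
    · apply Finset.sum_eq_zero
      intro b _
      have : (b : ℕ) ≠ i := by have := b.2; omega
      simp [this]
  · split_ifs with h
    · rw [Finset.sum_eq_single (⟨i + 1, h⟩ : Fin c)]
      · simp
      · intro b _ hb
        have : (b : ℕ) ≠ i + 1 := fun h' => hb (by ext; exact h')
        simp [this]
      · intro h'; exact absurd (Finset.mem_univ _) h'
    · apply Finset.sum_eq_zero
      intro b _
      have : (b : ℕ) ≠ i + 1 := by have := b.2; omega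
      simp [this]

end Pool.Agent.H4.JK
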