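import Pool.Agent.H4.JKg

/-! The multiplication pencil of a Kronecker piece. -/

namespace Pool.Agent.H4.JK

open Polynomial Module

set_option linter.unusedSectionVars false

theorem bid_sum_10 {Q : Type} [AddCommGroup Q] [Module ℂ Q] (r c : ℕ) (i : Fin r)
    (v : ℕ → Q) (hi : (i : ℕ) < c) : ∑ j : Fin c, bidiag r c 1 0 i j • v j = v i := by
  rw [bid_sum, if_pos hi, zero_smul, ite_self, add_zero, one_smul]

theorem bid_sum_01 {Q : Type} [AddCommGroup Q] [Module ℂ Q] (r c : ℕ) (i : Fin r)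
    (v : ℕ → Q) (hi : (i : ℕ) + 1 < c) : ∑ j : Fin c, bidiag r c 0 1 i j • v j = v (i + 1) := by
  rw [bid_sum, zero_smul, ite_self, zero_add, if_pos hi, one_smul]

theorem bid_sum_t1 {Q : Type} [AddCommGroup Q] [Module ℂ Q] (m : ℕ) (t : ℂ) (i : Fin m)
    (v : ℕ → Q) (hv : v m = 0) :
    ∑ j : Fin m, bidiag m m t 1 i j • v j = t • v i + v (i + 1) := by
  rw [bid_sum, if_pos i.2]
  congr 1
  split_ifs with h5
  · rw [one_smul]
  · have h6 : (i : ℕ) + 1 = m := by have := i.2; omega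
    rw [h6, hv]

section KPiece2

variable (k : ℕ) (τ : Fin (k + 1) → Type) [∀ i, Fintype (τ i)] [∀ i, DecidableEq (τ i)]
  (m : (i : Fin (k + 1)) → τ i → ℕ)

/-- the blocks of a Kronecker piece. -/
noncomputable def kbl (t : Fin (k + 1) → ℂ) : Option (Σ i, τ i) → Block
  | none => .kron k
  | some p => .jordan (some (t p.1)) (m p.1 p.2)

/-- the nilpotent part at a component. -/
noncomputable def knu (x a : KS k τ m) (p : Σ i, τ i) : TA (m p.1 p.2) :=
  x.1.2 p - (x.1.1 p.1 / a.1.1 p.1) • a.1.2 p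

theorem res_knu (x a : KS k τ m) (h1 : ∀ i, a.1.1 i ≠ 0) (p : Σ i, τ i) :
    res _ (knu k τ m x a p) = 0 := by
  unfold knu
  rw [map_sub, map_smul, x.2 p, a.2 p, smul_eq_mul, div_mul_cancel₀ _ (h1 _), sub_self]

/-- the vectors of the codomain basis, indexed by natural numbers. -/
noncomputable def kV (x a : KS k τ m) (h1 : ∀ i, a.1.1 i ≠ 0) (w : Fin (k + 1) → ℂ) :
    Option (Σ i, τ i) → ℕ → KS k τ m
  | none => fun c => kconst k τ m w * (a ^ c * x ^ (k - c))
  | some p => fun c => kinc k τ m p (knu k τ m x a p ^ (c + 1) * a.1.2 p ^ (m p.1 p.2 - c))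
      (by rw [map_mul, map_pow, res_knu k τ m x a h1, zero_pow (Nat.succ_ne_zero c), zero_mul])

/-- the vectors of the domain basis, indexed by natural numbers. -/
noncomputable def kU (x a : KS k τ m) (h1 : ∀ i, a.1.1 i ≠ 0) (w : Fin (k + 1) → ℂ) :
    Option (Σ i, τ i) → ℕ → KS k τ m
  | none => fun c => kconst k τ m w * (a ^ c * x ^ (k - 1 - c))
  | some p => fun c => kinc k τ m p (knu k τ m x a p ^ (c + 1) * a.1.2 p ^ (m p.1 p.2 - 1 - c))
      (by rw [map_mul, map_pow, res_knu k τ m x a h1, zero_pow (Nat.succ_ne_zero c), zero_mul])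

theorem pow_fst (z : KS k τ m) (n : ℕ) (i : Fin (k + 1)) : (z ^ n).1.1 i = z.1.1 i ^ n := rfl

theorem kU_mem (x a : KS k τ m) (h1 : ∀ i, a.1.1 i ≠ 0) (w : Fin (k + 1) → ℂ)
    (hw : ∀ l < k, ∑ i, w i * (a.1.1 i ^ l * x.1.1 i ^ (k - 1 - l)) = 0)
    (o : Option (Σ i, τ i)) (r : Fin (kbl k τ m (fun i => x.1.1 i / a.1.1 i) o).rows) :
    kU k τ m x a h1 w o r ∈ KH k τ m := by
  unfold KH
  rw [LinearMap.mem_ker]
  cases o with
  | none => exact hw r r.2
  | some p =>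
    change ∑ i : Fin (k + 1), (0 : ℂ) = 0
    exact Finset.sum_const_zero

/-- action of `x` on the Kronecker vectors. -/
theorem kact_x_none (x a : KS k τ m) (h1 : ∀ i, a.1.1 i ≠ 0) (w : Fin (k + 1) → ℂ) (r : ℕ)
    (hr : r < k) : x * kU k τ m x a h1 w none r = kV k τ m x a h1 w none r := by
  change x * (kconst k τ m w * (a ^ r * x ^ (k - 1 - r))) = kconst k τ m w * (a ^ r * x ^ (k - r))
  have : k - r = k - 1 - r + 1 := by omega
  rw [this, pow_succ x]
  ring

theorem kact_a_none (x a : KS k τ m) (h1 : ∀ i, a.1.1 i ≠ 0) (w : Fin (k + 1) → ℂ) (r : ℕ) :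
    a * kU k τ m x a h1 w none r = kV k τ m x a h1 w none (r + 1) := by
  change a * (kconst k τ m w * (a ^ r * x ^ (k - 1 - r))) =
    kconst k τ m w * (a ^ (r + 1) * x ^ (k - (r + 1)))
  have : k - (r + 1) = k - 1 - r := by omega
  rw [this, pow_succ a]
  ring

theorem kact_x_some (x a : KS k τ m) (h1 : ∀ i, a.1.1 i ≠ 0) (w : Fin (k + 1) → ℂ)
    (p : Σ i, τ i) (r : ℕ) (hr : r < m p.1 p.2) :
    x * kU k τ m x a h1 w (some p) r =
      (x.1.1 p.1 / a.1.1 p.1) • kV k τ m x a h1 w (some p) r + kV k τ m x a h1 w (some p) (r + 1) := by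
  unfold kU kV
  simp only
  rw [mul_kinc, ← kinc_smul, ← kinc_add]
  apply kinc_congr
  have h5 : x.1.2 p = knu k τ m x a p + (x.1.1 p.1 / a.1.1 p.1) • a.1.2 p := by
    unfold knu; abel
  have h6 : m p.1 p.2 - r = m p.1 p.2 - 1 - r + 1 := by omega
  have h7 : m p.1 p.2 - (r + 1) = m p.1 p.2 - 1 - r := by omega
  rw [h6, h7, Algebra.smul_def]
  conv_lhs => rw [h5]
  rw [Algebra.smul_def]
  ring

theorem kact_a_some (x a : KS k τ m) (h1 : ∀ i, a.1.1 i ≠ 0) (w : Fin (k + 1) → ℂ)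
    (p : Σ i, τ i) (r : ℕ) (hr : r < m p.1 p.2) :
    a * kU k τ m x a h1 w (some p) r = kV k τ m x a h1 w (some p) r := by
  unfold kU kV
  simp only
  rw [mul_kinc]
  apply kinc_congr
  have h6 : m p.1 p.2 - r = m p.1 p.2 - 1 - r + 1 := by omega
  rw [h6, pow_succ (a.1.2 p)]
  ring

theorem kV_last (x a : KS k τ m) (h1 : ∀ i, a.1.1 i ≠ 0) (w : Fin (k + 1) → ℂ)
    (p : Σ i, τ i) : kV k τ m x a h1 w (some p) (m p.1 p.2) = 0 := by
  unfold kV
  simp only
  rw [← kinc_zero k τ m p]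
  apply kinc_congr
  rw [TA_nilp _ _ (res_knu k τ m x a h1 p) _ (by omega), zero_mul]

theorem kV_fst_some (x a : KS k τ m) (h1 : ∀ i, a.1.1 i ≠ 0) (w : Fin (k + 1) → ℂ)
    (p : Σ i, τ i) (c : ℕ) (i : Fin (k + 1)) : (kV k τ m x a h1 w (some p) c).1.1 i = 0 := rfl

theorem kV_fst_none (x a : KS k τ m) (h1 : ∀ i, a.1.1 i ≠ 0) (w : Fin (k + 1) → ℂ)
    (c : ℕ) (i : Fin (k + 1)) :
    (kV k τ m x a h1 w none c).1.1 i = w i * (a.1.1 i ^ c * x.1.1 i ^ (k - c)) := rfl

theorem kV_snd_same (x a : KS k τ m) (h1 : ∀ i, a.1.1 i ≠ 0) (w : Fin (k + 1) → ℂ)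
    (p : Σ i, τ i) (c : ℕ) :
    (kV k τ m x a h1 w (some p) c).1.2 p = knu k τ m x a p ^ (c + 1) * a.1.2 p ^ (m p.1 p.2 - c) := by
  change Pi.single (M := fun p : Σ i, τ i => TA (m p.1 p.2)) p _ p = _
  rw [Pi.single_eq_same]

theorem kV_snd_ne (x a : KS k τ m) (h1 : ∀ i, a.1.1 i ≠ 0) (w : Fin (k + 1) → ℂ)
    (p q : Σ i, τ i) (c : ℕ) (h : p ≠ q) : (kV k τ m x a h1 w (some p) c).1.2 q = 0 := by
  change Pi.single (M := fun p : Σ i, τ i => TA (m p.1 p.2)) p _ q = _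
  rw [Pi.single_eq_of_ne (Ne.symm h)]

/-- the `i`-th residue as a linear map. -/
noncomputable def kfst (i : Fin (k + 1)) : KS k τ m →ₗ[ℂ] ℂ where
  toFun z := z.1.1 i
  map_add' _ _ := rfl
  map_smul' _ _ := rfl

/-- the `p`-th component as a linear map. -/
noncomputable def ksnd (p : Σ i, τ i) : KS k τ m →ₗ[ℂ] TA (m p.1 p.2) where
  toFun z := z.1.2 p
  map_add' _ _ := rfl
  map_smul' _ _ := rfl

/-- independence of the codomain vectors, in terms of double families. -/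
theorem kV_indep (x a : KS k τ m) (h1 : ∀ i, a.1.1 i ≠ 0) (w : Fin (k + 1) → ℂ)
    (hw0 : ∀ i, w i ≠ 0)
    (ht : Function.Injective (fun i => x.1.1 i / a.1.1 i))
    (h3 : ∀ p : Σ i, τ i, cf1 _ (x.1.2 p) * a.1.1 p.1 - cf1 _ (a.1.2 p) * x.1.1 p.1 ≠ 0)
    (g0 : Fin (k + 1) → ℂ) (g1 : (p : Σ i, τ i) → Fin (m p.1 p.2) → ℂ)
    (hg : ∑ c : Fin (k + 1), g0 c • kV k τ m x a h1 w none c +
      ∑ p : Σ i, τ i, ∑ c : Fin (m p.1 p.2), g1 p c • kV k τ m x a h1 w (some p) c = 0) :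
    g0 = 0 ∧ ∀ p, g1 p = 0 := by
  have hfst : ∀ i, ∑ c : Fin (k + 1), g0 c * (w i * (a.1.1 i ^ (c : ℕ) * x.1.1 i ^ (k - c))) = 0 := by
    intro i
    have h4 := congrArg (kfst k τ m i) hg
    rw [map_add, map_sum, map_sum, map_zero] at h4
    have e2 : ∑ p : Σ i, τ i, kfst k τ m i (∑ c : Fin (m p.1 p.2), g1 p c • kV k τ m x a h1 w (some p) c) = 0 := by
      apply Finset.sum_eq_zero
      intro p _
      rw [map_sum]
      apply Finset.sum_eq_zero
      intro c _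
      rw [map_smul]
      change g1 p c • (0 : ℂ) = 0
      rw [smul_zero]
    rw [e2, add_zero] at h4
    rw [← h4]
    apply Finset.sum_congr rfl
    intro c _
    rw [map_smul]
    rfl
  have hg0 : g0 = 0 := by
    have h4 : (fun j : Fin (k + 1) => g0 (Fin.rev j)) = 0 := by
      apply Matrix.eq_zero_of_forall_index_sum_mul_pow_eq_zero ht
      intro i
      have h5 : ∑ j : Fin (k + 1), g0 (Fin.rev j) * (w i * (a.1.1 i ^ ((Fin.rev j : Fin (k + 1)) : ℕ) *
          x.1.1 i ^ (k - ((Fin.rev j : Fin (k + 1)) : ℕ)))) = 0 := by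
        rw [← hfst i]
        exact Equiv.sum_comp Fin.revPerm
          (fun c : Fin (k + 1) => g0 c * (w i * (a.1.1 i ^ (c : ℕ) * x.1.1 i ^ (k - c))))
      have h6 : ∑ j : Fin (k + 1), g0 (Fin.rev j) * (w i * (a.1.1 i ^ ((Fin.rev j : Fin (k + 1)) : ℕ) *
          x.1.1 i ^ (k - ((Fin.rev j : Fin (k + 1)) : ℕ)))) =
          (w i * a.1.1 i ^ k) * ∑ j : Fin (k + 1), g0 (Fin.rev j) * (x.1.1 i / a.1.1 i) ^ (j : ℕ) := by
        rw [Finset.mul_sum]
        apply Finset.sum_congr rfl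
        intro j _
        have hj := j.2
        rw [Fin.val_rev]
        have e1 : k - (k + 1 - ((j : ℕ) + 1)) = j := by omega
        have e2 : k + 1 - ((j : ℕ) + 1) = k - j := by omega
        have e3 : a.1.1 i ^ k = a.1.1 i ^ (k - (j : ℕ)) * a.1.1 i ^ (j : ℕ) := by
          rw [← pow_add]; congr 1; omega
        rw [e1, e2, e3, div_pow]
        have := h1 i
        field_simp
      rw [h6] at h5
      exact (mul_eq_zero.1 h5).resolve_left (mul_ne_zero (hw0 i) (pow_ne_zero _ (h1 i)))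
    funext c
    have h7 := congrFun h4 (Fin.rev c)
    simpa using h7
  refine ⟨hg0, fun p => ?_⟩
  have hz : ∑ c : Fin (k + 1), g0 c • kV k τ m x a h1 w none c = 0 := by
    apply Finset.sum_eq_zero
    intro c _
    rw [hg0]
    exact zero_smul _ _
  rw [hz, zero_add] at hg
  have h4 := congrArg (ksnd k τ m p) hg
  rw [map_sum, map_zero, Finset.sum_eq_single p, map_sum] at h4
  · have h5 : ∑ c : Fin (m p.1 p.2), g1 p c • (knu k τ m x a p ^ ((c : ℕ) + 1) *
        a.1.2 p ^ (m p.1 p.2 - c)) = 0 := by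
      rw [← h4]
      apply Finset.sum_congr rfl
      intro c _
      rw [map_smul]
      change _ = g1 p c • (kV k τ m x a h1 w (some p) c).1.2 p
      rw [kV_snd_same]
    have hne : cf1 _ (knu k τ m x a p) ≠ 0 := by
      unfold knu
      rw [map_sub, map_smul, smul_eq_mul]
      intro h7
      apply h3 p
      have := h1 p.1
      field_simp at h7
      linear_combination h7
    have h8 := TA_indep (m p.1 p.2) (knu k τ m x a p) (a.1.2 p) (res_knu k τ m x a h1 p)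
      (Or.inr hne) (by rw [a.2 p]; exact h1 _)
      (fun l => if h : 0 < l ∧ l < m p.1 p.2 + 1 then g1 p ⟨l - 1, by omega⟩ else 0)
      (fun l => m p.1 p.2 + 1 - l) (by
        rw [Finset.sum_range_succ', Finset.sum_range]
        simp only [lt_irrefl, false_and, dite_false, zero_smul, add_zero]
        rw [← h5]
        apply Finset.sum_congr rfl
        intro c _
        have hc := c.2
        rw [dif_pos ⟨by omega, by omega⟩]
        simp only [Nat.add_sub_cancel, Nat.add_sub_add_right])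
    funext c
    have h9 := h8 ((c : ℕ) + 1) (by have := c.2; omega)
    rw [dif_pos ⟨by omega, by have := c.2; omega⟩] at h9
    simpa using h9
  · intro q _ hq
    rw [map_sum]
    apply Finset.sum_eq_zero
    intro c _
    rw [map_smul]
    change g1 q c • (kV k τ m x a h1 w (some q) c).1.2 p = 0
    rw [kV_snd_ne _ _ _ _ _ _ _ _ _ _ hq, smul_zero]
  · intro h; exact absurd (Finset.mem_univ _) h

theorem kpiece (x a : KS k τ m) (h1 : ∀ i, a.1.1 i ≠ 0)
    (h2 : ∀ i j, i ≠ j → x.1.1 i * a.1.1 j - x.1.1 j * a.1.1 i ≠ 0)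
    (h3 : ∀ p : Σ i, τ i, cf1 _ (x.1.2 p) * a.1.1 p.1 - cf1 _ (a.1.2 p) * x.1.1 p.1 ≠ 0) :
    PencilDec (P := KH k τ m) (Q := KS k τ m) (KX k τ m x) (KX k τ m a)
      (kbl k τ m (fun i => x.1.1 i / a.1.1 i)) := by
  classical
  have ht : Function.Injective (fun i => x.1.1 i / a.1.1 i) := by
    intro i j hij
    by_contra hne
    apply h2 i j hne
    simp only at hij
    rw [div_eq_div_iff (h1 i) (h1 j)] at hij
    linear_combination hij
  obtain ⟨w', hw'0, hw'⟩ := exists_weights k _ ht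
  -- homogeneous weights
  obtain ⟨w, hw0, hw⟩ : ∃ w : Fin (k + 1) → ℂ, (∀ i, w i ≠ 0) ∧
      ∀ l < k, ∑ i, w i * (a.1.1 i ^ l * x.1.1 i ^ (k - 1 - l)) = 0 := by
    refine ⟨fun i => w' i / a.1.1 i ^ (k - 1), fun i => div_ne_zero (hw'0 i) (pow_ne_zero _ (h1 i)), ?_⟩
    intro l hl
    rw [← hw' (k - 1 - l) (by omega)]
    apply Finset.sum_congr rfl
    intro i _
    have h4 : a.1.1 i ^ (k - 1) = a.1.1 i ^ l * a.1.1 i ^ (k - 1 - l) := by
      rw [← pow_add]; congr 1; omega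
    beta_reduce
    rw [div_pow, h4]
    have := h1 i
    field_simp
  refine pencilDec_of (P := KH k τ m) (Q := KS k τ m) (KX k τ m x) (KX k τ m a)
    (kbl k τ m (fun i => x.1.1 i / a.1.1 i)) ?_
    (fun z => ⟨kU k τ m x a h1 w z.1 z.2, kU_mem k τ m x a h1 w hw z.1 z.2⟩)
    (fun z => kV k τ m x a h1 w z.1 z.2) ?_ ?_ ?_ ?_ ?_
  · intro o
    cases o with
    | none => exact rowInd_kron k
    | some p => exact rowInd_jordan _ _
  · -- action of x
    rintro (_ | p) ⟨r, hr⟩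
    · exact (kact_x_none k τ m x a h1 w r hr).trans
        (bid_sum_10 k (k + 1) (⟨r, hr⟩ : Fin k) (kV k τ m x a h1 w none) (Nat.lt_succ_of_lt hr)).symm
    · exact (kact_x_some k τ m x a h1 w p r hr).trans
        (bid_sum_t1 (m p.1 p.2) (x.1.1 p.1 / a.1.1 p.1) (⟨r, hr⟩ : Fin (m p.1 p.2))
          (kV k τ m x a h1 w (some p)) (kV_last k τ m x a h1 w p)).symm
  · -- action of a
    rintro (_ | p) ⟨r, hr⟩
    · exact (kact_a_none k τ m x a h1 w r).trans
        (bid_sum_01 k (k + 1) (⟨r, hr⟩ : Fin k) (kV k τ m x a h1 w none) (Nat.succ_lt_succ hr)).symm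
    · exact (kact_a_some k τ m x a h1 w p r hr).trans
        (bid_sum_10 (m p.1 p.2) (m p.1 p.2) (⟨r, hr⟩ : Fin (m p.1 p.2))
          (kV k τ m x a h1 w (some p)) hr).symm
  · -- independence
    rw [Fintype.linearIndependent_iff]
    intro g hg
    rw [Fintype.sum_sigma, Fintype.sum_option] at hg
    have h8 := kV_indep k τ m x a h1 w hw0 ht h3 (fun c => g ⟨none, c⟩)
      (fun p c => g ⟨some p, c⟩) hg
    rintro ⟨_ | p, c⟩
    · exact congrFun h8.1 c
    · exact congrFun (h8.2 p) c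
  · rw [finrank_KH, Fintype.sum_option]
    rfl
  · rw [finrank_KS, Fintype.sum_option]
    rfl

end KPiece2

end Pool.Agent.H4.JK
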