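import Pool.Agent.H4.JKh

/-! The multiplication pencil of a piece realising a good Jordan group. -/

namespace Pool.Agent.H4.JK

open Polynomial Module

set_option linter.unusedSectionVars false

section GPiece

variable (n : ℕ) (τ : Type) [Fintype τ] [DecidableEq τ] (m : τ → ℕ)

/-- the ambient product algebra. -/
abbrev GR : Type := TA n × ((p : τ) → TA (m p))

/-- the defect map. -/
noncomputable def gdef : GR n τ m →ₗ[ℂ] (τ → ℂ) where
  toFun z := fun p => res _ (z.2 p) - res _ z.1
  map_add' z w := by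
    funext p
    simp only [Prod.snd_add, Prod.fst_add, Pi.add_apply, map_add]
    ring
  map_smul' c z := by
    funext p
    simp only [Prod.smul_snd, Prod.smul_fst, Pi.smul_apply, map_smul, smul_eq_mul, RingHom.id_apply]
    ring

/-- the local algebra of tuples with equal residues. -/
noncomputable def GS : Subalgebra ℂ (GR n τ m) where
  carrier := {z | ∀ p, res _ (z.2 p) = res _ z.1}
  mul_mem' := by
    intro z w hz hw p
    simp only [Prod.snd_mul, Prod.fst_mul, Pi.mul_apply, map_mul]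
    rw [hz p, hw p]
  add_mem' := by
    intro z w hz hw p
    simp only [Prod.snd_add, Prod.fst_add, Pi.add_apply, map_add]
    rw [hz p, hw p]
  algebraMap_mem' := by
    intro c p
    change res _ (algebraMap ℂ _ c) = res _ (algebraMap ℂ _ c)
    rw [AlgHom.commutes, AlgHom.commutes]

theorem mem_GS (z : GR n τ m) : z ∈ GS n τ m ↔ ∀ p, res _ (z.2 p) = res _ z.1 := Iff.rfl

instance : FiniteDimensional ℂ (GS n τ m) :=
  inferInstanceAs (FiniteDimensional ℂ (Subalgebra.toSubmodule (GS n τ m)))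

theorem finrank_GS : finrank ℂ (GS n τ m) = (n + 1) + ∑ p : τ, m p := by
  have h1 : Subalgebra.toSubmodule (GS n τ m) = LinearMap.ker (gdef n τ m) := by
    ext z
    rw [Subalgebra.mem_toSubmodule, mem_GS, LinearMap.mem_ker]
    constructor
    · intro h
      funext p
      change res _ (z.2 p) - res _ z.1 = 0
      rw [h p, sub_self]
    · intro h p
      have := congrFun h p
      exact sub_eq_zero.1 this
  have h2 : LinearMap.range (gdef n τ m) = ⊤ := by
    rw [LinearMap.range_eq_top]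
    intro g
    refine ⟨(0, fun p => algebraMap ℂ _ (g p)), ?_⟩
    funext p
    change res _ (algebraMap ℂ _ (g p)) - res _ (0 : TA n) = g p
    rw [AlgHom.commutes, map_zero, sub_zero]
    rfl
  have h3 := LinearMap.finrank_range_add_finrank_ker (gdef n τ m)
  rw [h2, ← h1, finrank_top] at h3
  have h4 : finrank ℂ (GR n τ m) = (n + 1) + ∑ p : τ, (m p + 1) := by
    rw [finrank_prod, Module.finrank_pi_fintype, finrank_TA]
    congr 1
    exact Finset.sum_congr rfl fun p _ => finrank_TA _
  rw [h4, finrank_pi, Finset.sum_add_distrib] at h3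
  simp only [Finset.sum_const, Finset.card_univ, smul_eq_mul, mul_one] at h3
  have h5 : finrank ℂ (GS n τ m) = finrank ℂ (Subalgebra.toSubmodule (GS n τ m)) := rfl
  omega

/-- inclusion of the maximal ideal of one component. -/
noncomputable def ginc (p : τ) (y : TA (m p)) (hy : res _ y = 0) : GS n τ m :=
  ⟨(0, Pi.single p y), fun q => by
    change res _ (Pi.single (M := fun p : τ => TA (m p)) p y q) = res _ 0
    by_cases h : q = p
    · subst h
      rw [Pi.single_eq_same, map_zero]
      exact hy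
    · rw [Pi.single_eq_of_ne h, map_zero, map_zero]⟩

theorem mul_ginc (z : GS n τ m) (p : τ) (y : TA (m p)) (hy : res _ y = 0) :
    z * ginc n τ m p y hy = ginc n τ m p (z.1.2 p * y) (by rw [map_mul, hy, mul_zero]) := by
  apply Subtype.ext
  refine Prod.ext ?_ ?_
  · change z.1.1 * 0 = 0
    rw [mul_zero]
  · change z.1.2 * Pi.single p y = Pi.single p (z.1.2 p * y)
    funext q
    by_cases h : q = p
    · subst h
      simp [Pi.single_eq_same]
    · simp [Pi.single_eq_of_ne h]

theorem ginc_congr (p : τ) (y y' : TA (m p)) (hy : res _ y = 0) (hy' : res _ y' = 0)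
    (h : y = y') : ginc n τ m p y hy = ginc n τ m p y' hy' := by
  subst h; rfl

theorem ginc_add (p : τ) (y y' : TA (m p)) (hy : res _ y = 0) (hy' : res _ y' = 0) :
    ginc n τ m p (y + y') (by rw [map_add, hy, hy', add_zero]) =
      ginc n τ m p y hy + ginc n τ m p y' hy' := by
  apply Subtype.ext
  refine Prod.ext ?_ ?_
  · change (0 : TA n) = 0 + 0
    rw [add_zero]
  · funext q
    change Pi.single (M := fun p : τ => TA (m p)) p (y + y') q =
      Pi.single (M := fun p : τ => TA (m p)) p y q +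
        Pi.single (M := fun p : τ => TA (m p)) p y' q
    by_cases h : q = p
    · subst h
      simp [Pi.single_eq_same]
    · simp [Pi.single_eq_of_ne h]

theorem ginc_smul (p : τ) (c : ℂ) (y : TA (m p)) (hy : res _ y = 0) :
    ginc n τ m p (c • y) (by rw [map_smul, hy, smul_zero]) = c • ginc n τ m p y hy := by
  apply Subtype.ext
  refine Prod.ext ?_ ?_
  · change (0 : TA n) = c • 0
    rw [smul_zero]
  · funext q
    change Pi.single (M := fun p : τ => TA (m p)) p (c • y) q =
      c • Pi.single (M := fun p : τ => TA (m p)) p y q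
    by_cases h : q = p
    · subst h
      simp [Pi.single_eq_same]
    · simp [Pi.single_eq_of_ne h]

theorem ginc_zero (p : τ) : ginc n τ m p 0 (map_zero _) = 0 := by
  apply Subtype.ext
  refine Prod.ext rfl ?_
  change Pi.single p 0 = 0
  rw [Pi.single_zero]

/-- the blocks of a good piece. -/
noncomputable def gbl (t : ℂ) : Option τ → Block
  | none => .jordan (some t) (n + 1)
  | some p => .jordan (some t) (m p)

/-- the eigenvalue. -/
noncomputable def gt (x a : GS n τ m) : ℂ := res _ x.1.1 / res _ a.1.1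

/-- the nilpotent part. -/
noncomputable def gnu (x a : GS n τ m) : GS n τ m := x - gt n τ m x a • a

theorem gnu_fst (x a : GS n τ m) : (gnu n τ m x a).1.1 = x.1.1 - gt n τ m x a • a.1.1 := rfl

theorem gnu_snd (x a : GS n τ m) (p : τ) :
    (gnu n τ m x a).1.2 p = x.1.2 p - gt n τ m x a • a.1.2 p := rfl

theorem res_gnu (x a : GS n τ m) (h1 : res _ a.1.1 ≠ 0) : res _ (gnu n τ m x a).1.1 = 0 := by
  rw [gnu_fst, map_sub, map_smul, gt, smul_eq_mul, div_mul_cancel₀ _ h1, sub_self]

theorem res_gnu' (x a : GS n τ m) (h1 : res _ a.1.1 ≠ 0) (p : τ) :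
    res _ ((gnu n τ m x a).1.2 p) = 0 := by
  rw [(gnu n τ m x a).2 p, res_gnu n τ m x a h1]

/-- codomain vectors. -/
noncomputable def gV (x a : GS n τ m) (h1 : res _ a.1.1 ≠ 0) : Option τ → ℕ → GS n τ m
  | none => fun c => gnu n τ m x a ^ c * a ^ (n + 1 - c)
  | some p => fun c => ginc n τ m p ((gnu n τ m x a).1.2 p ^ (c + 1) * a.1.2 p ^ (m p - c))
      (by rw [map_mul, map_pow, res_gnu' n τ m x a h1, zero_pow (Nat.succ_ne_zero c), zero_mul])

/-- domain vectors. -/
noncomputable def gU (x a : GS n τ m) (h1 : res _ a.1.1 ≠ 0) : Option τ → ℕ → GS n τ m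
  | none => fun c => gnu n τ m x a ^ c * a ^ (n - c)
  | some p => fun c => ginc n τ m p ((gnu n τ m x a).1.2 p ^ (c + 1) * a.1.2 p ^ (m p - 1 - c))
      (by rw [map_mul, map_pow, res_gnu' n τ m x a h1, zero_pow (Nat.succ_ne_zero c), zero_mul])

theorem gact_x_none (x a : GS n τ m) (h1 : res _ a.1.1 ≠ 0) (r : ℕ) (hr : r < n + 1) :
    x * gU n τ m x a h1 none r =
      gt n τ m x a • gV n τ m x a h1 none r + gV n τ m x a h1 none (r + 1) := by
  unfold gU gV
  simp only
  have h5 : x = gnu n τ m x a + gt n τ m x a • a := by unfold gnu; abel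
  have h6 : n + 1 - r = n - r + 1 := by omega
  have h7 : n + 1 - (r + 1) = n - r := by omega
  rw [h6, h7, Algebra.smul_def]
  have h8 : x * (gnu n τ m x a ^ r * a ^ (n - r)) =
      (gnu n τ m x a + algebraMap ℂ _ (gt n τ m x a) * a) * (gnu n τ m x a ^ r * a ^ (n - r)) := by
    rw [← Algebra.smul_def, ← h5]
  rw [h8]
  ring

theorem gact_a_none (x a : GS n τ m) (h1 : res _ a.1.1 ≠ 0) (r : ℕ) (hr : r < n + 1) :
    a * gU n τ m x a h1 none r = gV n τ m x a h1 none r := by
  unfold gU gV
  simp only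
  have h6 : n + 1 - r = n - r + 1 := by omega
  rw [h6, pow_succ a]
  ring

theorem gact_x_some (x a : GS n τ m) (h1 : res _ a.1.1 ≠ 0) (p : τ) (r : ℕ) (hr : r < m p) :
    x * gU n τ m x a h1 (some p) r =
      gt n τ m x a • gV n τ m x a h1 (some p) r + gV n τ m x a h1 (some p) (r + 1) := by
  unfold gU gV
  simp only
  rw [mul_ginc, ← ginc_smul, ← ginc_add]
  apply ginc_congr
  have h5 : x.1.2 p = (gnu n τ m x a).1.2 p + gt n τ m x a • a.1.2 p := by
    rw [gnu_snd]; abel
  have h6 : m p - r = m p - 1 - r + 1 := by omega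
  have h7 : m p - (r + 1) = m p - 1 - r := by omega
  rw [h6, h7, Algebra.smul_def]
  conv_lhs => rw [h5]
  rw [Algebra.smul_def]
  ring

theorem gact_a_some (x a : GS n τ m) (h1 : res _ a.1.1 ≠ 0) (p : τ) (r : ℕ) (hr : r < m p) :
    a * gU n τ m x a h1 (some p) r = gV n τ m x a h1 (some p) r := by
  unfold gU gV
  simp only
  rw [mul_ginc]
  apply ginc_congr
  have h6 : m p - r = m p - 1 - r + 1 := by omega
  rw [h6, pow_succ (a.1.2 p)]
  ring

theorem gV_last_some (x a : GS n τ m) (h1 : res _ a.1.1 ≠ 0) (p : τ) :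
    gV n τ m x a h1 (some p) (m p) = 0 := by
  unfold gV
  simp only
  rw [← ginc_zero n τ m p]
  apply ginc_congr
  rw [TA_nilp _ _ (res_gnu' n τ m x a h1 p) _ (by omega), zero_mul]

theorem gV_last_none (x a : GS n τ m) (h1 : res _ a.1.1 ≠ 0) (hm : ∀ p, m p ≤ n) :
    gV n τ m x a h1 none (n + 1) = 0 := by
  unfold gV
  simp only
  have h2 : gnu n τ m x a ^ (n + 1) = 0 := by
    apply Subtype.ext
    refine Prod.ext ?_ ?_
    · exact TA_nilp _ _ (res_gnu n τ m x a h1) _ le_rfl
    · funext p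
      exact TA_nilp _ _ (res_gnu' n τ m x a h1 p) _ (by have := hm p; omega)
  rw [h2, zero_mul]

theorem gV_snd_same (x a : GS n τ m) (h1 : res _ a.1.1 ≠ 0) (p : τ) (c : ℕ) :
    (gV n τ m x a h1 (some p) c).1.2 p =
      (gnu n τ m x a).1.2 p ^ (c + 1) * a.1.2 p ^ (m p - c) := by
  change Pi.single (M := fun p : τ => TA (m p)) p _ p = _
  rw [Pi.single_eq_same]

theorem gV_snd_ne (x a : GS n τ m) (h1 : res _ a.1.1 ≠ 0) (p q : τ) (c : ℕ) (h : p ≠ q) :
    (gV n τ m x a h1 (some p) c).1.2 q = 0 := by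
  change Pi.single (M := fun p : τ => TA (m p)) p _ q = _
  rw [Pi.single_eq_of_ne (Ne.symm h)]

/-- first component. -/
noncomputable def gfst : GS n τ m →ₗ[ℂ] TA n where
  toFun z := z.1.1
  map_add' _ _ := rfl
  map_smul' _ _ := rfl

/-- the `p`-th component. -/
noncomputable def gsnd (p : τ) : GS n τ m →ₗ[ℂ] TA (m p) where
  toFun z := z.1.2 p
  map_add' _ _ := rfl
  map_smul' _ _ := rfl

theorem gV_indep (x a : GS n τ m) (h1 : res _ a.1.1 ≠ 0)
    (h2 : n = 0 ∨ cf1 _ x.1.1 * res _ a.1.1 - cf1 _ a.1.1 * res _ x.1.1 ≠ 0)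
    (h3 : ∀ p, cf1 _ (x.1.2 p) * res _ a.1.1 - cf1 _ (a.1.2 p) * res _ x.1.1 ≠ 0)
    (g0 : Fin (n + 1) → ℂ) (g1 : (p : τ) → Fin (m p) → ℂ)
    (hg : ∑ c : Fin (n + 1), g0 c • gV n τ m x a h1 none c +
      ∑ p : τ, ∑ c : Fin (m p), g1 p c • gV n τ m x a h1 (some p) c = 0) :
    g0 = 0 ∧ ∀ p, g1 p = 0 := by
  have hg0 : g0 = 0 := by
    have h4 := congrArg (gfst n τ m) hg
    rw [map_add, map_sum, map_sum, map_zero] at h4
    have e2 : ∑ p : τ, gfst n τ m (∑ c : Fin (m p), g1 p c • gV n τ m x a h1 (some p) c) = 0 := by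
      apply Finset.sum_eq_zero
      intro p _
      rw [map_sum]
      apply Finset.sum_eq_zero
      intro c _
      rw [map_smul]
      change g1 p c • (0 : TA n) = 0
      rw [smul_zero]
    rw [e2, add_zero] at h4
    have hne : n = 0 ∨ cf1 _ (gnu n τ m x a).1.1 ≠ 0 := by
      rcases h2 with h2 | h2
      · exact Or.inl h2
      · right
        rw [gnu_fst, map_sub, map_smul, smul_eq_mul, gt]
        intro h7
        apply h2
        field_simp at h7
        linear_combination h7
    have h8 := TA_indep n (gnu n τ m x a).1.1 a.1.1 (res_gnu n τ m x a h1) hne h1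
      (fun l => if h : l < n + 1 then g0 ⟨l, h⟩ else 0) (fun l => n + 1 - l) (by
        rw [Finset.sum_range, ← h4]
        apply Finset.sum_congr rfl
        intro c _
        rw [dif_pos c.2, map_smul]
        rfl)
    funext c
    have h9 := h8 c c.2
    rw [dif_pos c.2] at h9
    exact h9
  refine ⟨hg0, fun p => ?_⟩
  have hz : ∑ c : Fin (n + 1), g0 c • gV n τ m x a h1 none c = 0 := by
    apply Finset.sum_eq_zero
    intro c _
    rw [hg0]
    exact zero_smul _ _
  rw [hz, zero_add] at hg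
  have h4 := congrArg (gsnd n τ m p) hg
  rw [map_sum, map_zero, Finset.sum_eq_single p, map_sum] at h4
  · have h5 : ∑ c : Fin (m p), g1 p c • ((gnu n τ m x a).1.2 p ^ ((c : ℕ) + 1) *
        a.1.2 p ^ (m p - c)) = 0 := by
      rw [← h4]
      apply Finset.sum_congr rfl
      intro c _
      rw [map_smul]
      change _ = g1 p c • (gV n τ m x a h1 (some p) c).1.2 p
      rw [gV_snd_same]
    have hne : cf1 _ ((gnu n τ m x a).1.2 p) ≠ 0 := by
      rw [gnu_snd, map_sub, map_smul, smul_eq_mul, gt]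
      intro h7
      apply h3 p
      field_simp at h7
      linear_combination h7
    have h8 := TA_indep (m p) ((gnu n τ m x a).1.2 p) (a.1.2 p) (res_gnu' n τ m x a h1 p)
      (Or.inr hne) (by rw [a.2 p]; exact h1)
      (fun l => if h : 0 < l ∧ l < m p + 1 then g1 p ⟨l - 1, by omega⟩ else 0)
      (fun l => m p + 1 - l) (by
        rw [Finset.sum_range_succ', Finset.sum_range]
        simp only [lt_irrefl, false_and, dite_false, zero_smul, add_zero]
        rw [← h5]
        apply Finset.sum_congr rfl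
        intro c _
        have hc := c.2
        rw [dif_pos ⟨by omega, by omega⟩]
        simp only [Nat.add_sub_cancel, Nat.add_sub_add_right])
    funext c
    have h9 := h8 ((c : ℕ) + 1) (by have := c.2; omega)
    rw [dif_pos ⟨by omega, by have := c.2; omega⟩] at h9
    simpa using h9
  · intro q _ hq
    rw [map_sum]
    apply Finset.sum_eq_zero
    intro c _
    rw [map_smul]
    change g1 q c • (gV n τ m x a h1 (some q) c).1.2 p = 0
    rw [gV_snd_ne _ _ _ _ _ _ _ _ _ hq, smul_zero]
  · intro h; exact absurd (Finset.mem_univ _) h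

/-- multiplication by `z`. -/
noncomputable def GX (z : GS n τ m) : GS n τ m →ₗ[ℂ] GS n τ m := LinearMap.mulLeft ℂ z

theorem gpiece (hm : ∀ p, m p ≤ n) (x a : GS n τ m) (h1 : res _ a.1.1 ≠ 0)
    (h2 : n = 0 ∨ cf1 _ x.1.1 * res _ a.1.1 - cf1 _ a.1.1 * res _ x.1.1 ≠ 0)
    (h3 : ∀ p, cf1 _ (x.1.2 p) * res _ a.1.1 - cf1 _ (a.1.2 p) * res _ x.1.1 ≠ 0) :
    PencilDec (P := GS n τ m) (Q := GS n τ m) (GX n τ m x) (GX n τ m a)
      (gbl n τ m (gt n τ m x a)) := by
  classical
  refine pencilDec_of (P := GS n τ m) (Q := GS n τ m) (GX n τ m x) (GX n τ m a)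
    (gbl n τ m (gt n τ m x a)) ?_
    (fun z => gU n τ m x a h1 z.1 z.2) (fun z => gV n τ m x a h1 z.1 z.2) ?_ ?_ ?_ ?_ ?_
  · intro o
    cases o with
    | none => exact rowInd_jordan _ _
    | some p => exact rowInd_jordan _ _
  · rintro (_ | p) ⟨r, hr⟩
    · exact (gact_x_none n τ m x a h1 r hr).trans
        (bid_sum_t1 (n + 1) (gt n τ m x a) (⟨r, hr⟩ : Fin (n + 1))
          (gV n τ m x a h1 none) (gV_last_none n τ m x a h1 hm)).symm
    · exact (gact_x_some n τ m x a h1 p r hr).trans
        (bid_sum_t1 (m p) (gt n τ m x a) (⟨r, hr⟩ : Fin (m p))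
          (gV n τ m x a h1 (some p)) (gV_last_some n τ m x a h1 p)).symm
  · rintro (_ | p) ⟨r, hr⟩
    · exact (gact_a_none n τ m x a h1 r hr).trans
        (bid_sum_10 (n + 1) (n + 1) (⟨r, hr⟩ : Fin (n + 1)) (gV n τ m x a h1 none) hr).symm
    · exact (gact_a_some n τ m x a h1 p r hr).trans
        (bid_sum_10 (m p) (m p) (⟨r, hr⟩ : Fin (m p)) (gV n τ m x a h1 (some p)) hr).symm
  · rw [Fintype.linearIndependent_iff]
    intro g hg
    rw [Fintype.sum_sigma, Fintype.sum_option] at hg
    have h8 := gV_indep n τ m x a h1 h2 h3 (fun c => g ⟨none, c⟩)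
      (fun p c => g ⟨some p, c⟩) hg
    rintro ⟨_ | p, c⟩
    · exact congrFun h8.1 c
    · exact congrFun (h8.2 p) c
  · rw [finrank_GS, Fintype.sum_option]
    rfl
  · rw [finrank_GS, Fintype.sum_option]
    rfl

end GPiece

end Pool.Agent.H4.JK
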