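import Pool.Agent.H4.JKi

/-! Metabelian Lie algebras `H ⋉ S*` and direct sums of pencils of linear maps. -/

namespace Pool.Agent.H4.JK

open Module

section Met

variable {H S : Type} [AddCommGroup H] [Module ℂ H] [CommRing S] [Algebra ℂ S]

/-- The Lie algebra `H ⋉ S*`, where `h ∈ H` acts on functionals on `S` by multiplication with
`j h`. -/
@[nolint unusedArguments]
def Met (_ : H →ₗ[ℂ] S) : Type := H × Dual ℂ S

variable {j : H →ₗ[ℂ] S}

instance : AddCommGroup (Met j) := inferInstanceAs (AddCommGroup (H × Dual ℂ S))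
instance : Module ℂ (Met j) := inferInstanceAs (Module ℂ (H × Dual ℂ S))

/-- the action on functionals. -/
noncomputable def act (j : H →ₗ[ℂ] S) (h : H) (e : Dual ℂ S) : Dual ℂ S :=
  e.comp (LinearMap.mulLeft ℂ (j h))

theorem act_apply (h : H) (e : Dual ℂ S) (s : S) : act j h e s = e (j h * s) := rfl

/-- the bracket. -/
noncomputable def brM (j : H →ₗ[ℂ] S) (x y : H × Dual ℂ S) : H × Dual ℂ S :=
  (0, act j x.1 y.2 - act j y.1 x.2)

noncomputable instance : LieRing (Met j) where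
  bracket := brM j
  add_lie x y z := by
    change brM j (x + y) z = brM j x z + brM j y z
    obtain ⟨x1, x2⟩ := x
    obtain ⟨y1, y2⟩ := y
    obtain ⟨z1, z2⟩ := z
    change brM j (x1 + y1, x2 + y2) (z1, z2) = brM j (x1, x2) (z1, z2) + brM j (y1, y2) (z1, z2)
    refine Prod.ext ?_ ?_
    · exact (add_zero (0 : H)).symm
    · refine LinearMap.ext fun s => ?_
      change z2 (j (x1 + y1) * s) - (x2 + y2) (j z1 * s) =
        (z2 (j x1 * s) - x2 (j z1 * s)) + (z2 (j y1 * s) - y2 (j z1 * s))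
      rw [map_add, add_mul, map_add, LinearMap.add_apply]
      ring
  lie_add x y z := by
    change brM j x (y + z) = brM j x y + brM j x z
    obtain ⟨x1, x2⟩ := x
    obtain ⟨y1, y2⟩ := y
    obtain ⟨z1, z2⟩ := z
    change brM j (x1, x2) (y1 + z1, y2 + z2) = brM j (x1, x2) (y1, y2) + brM j (x1, x2) (z1, z2)
    refine Prod.ext ?_ ?_
    · exact (add_zero (0 : H)).symm
    · refine LinearMap.ext fun s => ?_
      change (y2 + z2) (j x1 * s) - x2 (j (y1 + z1) * s) =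
        (y2 (j x1 * s) - x2 (j y1 * s)) + (z2 (j x1 * s) - x2 (j z1 * s))
      rw [map_add, add_mul, map_add, LinearMap.add_apply]
      ring
  lie_self x := by
    change brM j x x = 0
    refine Prod.ext rfl ?_
    exact sub_self _
  leibniz_lie x y z := by
    change brM j x (brM j y z) = brM j (brM j x y) z + brM j y (brM j x z)
    obtain ⟨x1, x2⟩ := x
    obtain ⟨y1, y2⟩ := y
    obtain ⟨z1, z2⟩ := z
    refine Prod.ext ?_ ?_
    · exact (add_zero (0 : H)).symm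
    · refine LinearMap.ext fun s => ?_
      change (z2 (j y1 * (j x1 * s)) - y2 (j z1 * (j x1 * s))) - x2 (j 0 * s) =
        (z2 (j 0 * s) - (y2 (j x1 * (j z1 * s)) - x2 (j y1 * (j z1 * s)))) +
        ((z2 (j x1 * (j y1 * s)) - x2 (j z1 * (j y1 * s))) - y2 (j 0 * s))
      rw [map_zero, zero_mul, map_zero, map_zero, map_zero, mul_left_comm (j x1) (j y1) s,
        mul_left_comm (j x1) (j z1) s, mul_left_comm (j z1) (j y1) s]
      ring

noncomputable instance : LieAlgebra ℂ (Met j) where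
  lie_smul c x y := by
    change brM j x (c • y) = c • brM j x y
    obtain ⟨x1, x2⟩ := x
    obtain ⟨y1, y2⟩ := y
    change brM j (x1, x2) (c • y1, c • y2) = c • brM j (x1, x2) (y1, y2)
    refine Prod.ext ?_ ?_
    · exact (smul_zero c).symm
    · refine LinearMap.ext fun s => ?_
      change (c • y2) (j x1 * s) - x2 (j (c • y1) * s) = c • (y2 (j x1 * s) - x2 (j y1 * s))
      rw [map_smul, smul_mul_assoc, map_smul, LinearMap.smul_apply, smul_sub]

instance [FiniteDimensional ℂ H] [FiniteDimensional ℂ S] : FiniteDimensional ℂ (Met j) :=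
  inferInstanceAs (FiniteDimensional ℂ (H × Dual ℂ S))

/-- a functional on `Met j` restricted to `S*` is evaluation at a point of `S`. -/
theorem exists_point [FiniteDimensional ℂ S] (x : Dual ℂ (Met j)) :
    ∃ s : S, ∀ e : Dual ℂ S, x ((0, e) : H × Dual ℂ S) = e s := by
  let y : Dual ℂ (Dual ℂ S) := (show (H × Dual ℂ S) →ₗ[ℂ] ℂ from x).comp (LinearMap.inr ℂ H (Dual ℂ S))
  refine ⟨(Module.evalEquiv ℂ S).symm y, fun e => ?_⟩
  have h := Module.apply_evalEquiv_symm_apply (R := ℂ) (M := S) e y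
  rw [h]
  rfl

/-- the maps of the pencil. -/
noncomputable def MX (j : H →ₗ[ℂ] S) (s : S) : H →ₗ[ℂ] S := (LinearMap.mulLeft ℂ s).comp j

theorem met_form [FiniteDimensional ℂ S] (x : Dual ℂ (Met j)) (s : S)
    (hs : ∀ e : Dual ℂ S, x ((0, e) : H × Dual ℂ S) = e s) (ξ η : Met j) :
    x ⁅ξ, η⁆ = η.2 (MX j s ξ.1) - ξ.2 (MX j s η.1) := by
  have h1 : (⁅ξ, η⁆ : Met j) = ((0, act j ξ.1 η.2 - act j η.1 ξ.2) : H × Dual ℂ S) := rfl
  rw [h1, hs]
  change η.2 (j ξ.1 * s) - ξ.2 (j η.1 * s) = η.2 (s * j ξ.1) - ξ.2 (s * j η.1)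
  rw [mul_comm, mul_comm (j η.1)]

end Met

/-- the coordinates attached to bases of `P` and `Q`. -/
noncomputable def coordEquiv {P Q : Type} [AddCommGroup P] [Module ℂ P] [AddCommGroup Q]
    [Module ℂ Q] {ι : Type} [Fintype ι] (bl : ι → Block)
    (bP : Basis (Σ i, Fin (bl i).rows) ℂ P) (bQ : Basis (Σ i, Fin (bl i).cols) ℂ Q) :
    (P × Dual ℂ Q) ≃ₗ[ℂ] ((i : ι) → W (bl i)) where
  toFun z := fun i => (fun r => bP.equivFun z.1 ⟨i, r⟩, fun c => z.2 (bQ ⟨i, c⟩))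
  invFun w := (bP.equivFun.symm (fun ir => (w ir.1).1 ir.2), bQ.constr ℂ (fun ic => (w ic.1).2 ic.2))
  left_inv z := by
    refine Prod.ext ?_ ?_
    · exact bP.equivFun.symm_apply_apply z.1
    · apply bQ.ext
      rintro ⟨i, c⟩
      exact bQ.constr_basis ℂ _ _
  right_inv w := by
    funext i
    refine Prod.ext ?_ ?_
    · funext r
      exact congrFun (bP.equivFun.apply_symm_apply (fun ir => (w ir.1).1 ir.2)) ⟨i, r⟩
    · funext c
      exact bQ.constr_basis ℂ _ _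
  map_add' z w := by
    funext i
    refine Prod.ext ?_ ?_
    · funext r
      exact congrFun (map_add bP.equivFun z.1 w.1) ⟨i, r⟩
    · rfl
  map_smul' c z := by
    funext i
    refine Prod.ext ?_ ?_
    · funext r
      exact congrFun (map_smul bP.equivFun c z.1) ⟨i, r⟩
    · rfl

theorem pair_sum {P Q : Type} [AddCommGroup P] [Module ℂ P] [AddCommGroup Q]
    [Module ℂ Q] {ι : Type} [Fintype ι] (bl : ι → Block)
    (bP : Basis (Σ i, Fin (bl i).rows) ℂ P) (bQ : Basis (Σ i, Fin (bl i).cols) ℂ Q)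
    (X : P →ₗ[ℂ] Q) (M : (b : Block) → Matrix (Fin b.rows) (Fin b.cols) ℂ)
    (hX : ∀ i r, X (bP ⟨i, r⟩) = ∑ c, M (bl i) r c • bQ ⟨i, c⟩) (h : P) (e : Dual ℂ Q) :
    e (X h) = ∑ i, (fun r => bP.equivFun h ⟨i, r⟩) ⬝ᵥ ((M (bl i)).mulVec (fun c => e (bQ ⟨i, c⟩))) := by
  classical
  have h1 : X h = ∑ i, ∑ r, bP.equivFun h ⟨i, r⟩ • X (bP ⟨i, r⟩) := by
    conv_lhs => rw [← bP.sum_equivFun h]
    rw [map_sum, Fintype.sum_sigma]
    simp only [map_smul]
  rw [h1, map_sum]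
  apply Finset.sum_congr rfl
  intro i _
  rw [map_sum]
  apply Finset.sum_congr rfl
  intro r _
  rw [map_smul, hX, map_sum, smul_eq_mul]
  congr 1
  apply Finset.sum_congr rfl
  intro c _
  rw [map_smul, smul_eq_mul]

/-- A decomposition of a pencil of linear maps gives one of the attached pencil of skew forms. -/
theorem PencilDec.decomposes {P Q : Type} [AddCommGroup P] [Module ℂ P] [AddCommGroup Q]
    [Module ℂ Q] {X Y : P →ₗ[ℂ] Q} {ι : Type} [Fintype ι] {bl : ι → Block}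
    (h : PencilDec X Y bl) :
    Decomposes (V := P × Dual ℂ Q) (fun ξ η => η.2 (X ξ.1) - ξ.2 (X η.1))
      (fun ξ η => η.2 (Y ξ.1) - ξ.2 (Y η.1)) bl := by
  obtain ⟨bP, bQ, hb⟩ := h
  refine ⟨coordEquiv bl bP bQ, fun ξ η => ⟨?_, ?_⟩⟩
  · beta_reduce
    rw [pair_sum bl bP bQ X Block.PA (fun i r => (hb i r).1),
      pair_sum bl bP bQ X Block.PA (fun i r => (hb i r).1), ← Finset.sum_sub_distrib]
    rfl
  · beta_reduce
    rw [pair_sum bl bP bQ Y Block.PB (fun i r => (hb i r).2),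
      pair_sum bl bP bQ Y Block.PB (fun i r => (hb i r).2), ← Finset.sum_sub_distrib]
    rfl

/-- direct products of pencils. -/
theorem PencilDec.pi {κ : Type} [Fintype κ] {P Q : κ → Type}
    [∀ j, AddCommGroup (P j)] [∀ j, Module ℂ (P j)] [∀ j, AddCommGroup (Q j)] [∀ j, Module ℂ (Q j)]
    {X Y : (j : κ) → P j →ₗ[ℂ] Q j} {ι : κ → Type} [∀ j, Fintype (ι j)]
    {bl : (j : κ) → ι j → Block} (h : ∀ j, PencilDec (X j) (Y j) (bl j)) :
    PencilDec (LinearMap.pi fun j => (X j).comp (LinearMap.proj j))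
      (LinearMap.pi fun j => (Y j).comp (LinearMap.proj j))
      (fun z : Σ j, ι j => bl z.1 z.2) := by
  classical
  choose bP bQ hb using h
  let eP : (Σ j, Σ i, Fin (bl j i).rows) ≃ (Σ z : (Σ j, ι j), Fin (bl z.1 z.2).rows) :=
    (Equiv.sigmaAssoc (fun j i => Fin (bl j i).rows)).symm
  let eQ : (Σ j, Σ i, Fin (bl j i).cols) ≃ (Σ z : (Σ j, ι j), Fin (bl z.1 z.2).cols) :=
    (Equiv.sigmaAssoc (fun j i => Fin (bl j i).cols)).symm
  refine ⟨(Pi.basis bP).reindex eP, (Pi.basis bQ).reindex eQ, ?_⟩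
  have key : ∀ (Z : (j : κ) → P j →ₗ[ℂ] Q j) (j : κ) (v : P j),
      (LinearMap.pi fun j => (Z j).comp (LinearMap.proj j)) (Pi.single j v) = Pi.single j (Z j v) := by
    intro Z j v
    funext l
    rw [LinearMap.pi_apply, LinearMap.comp_apply, LinearMap.proj_apply]
    by_cases hl : l = j
    · subst hl; rw [Pi.single_eq_same, Pi.single_eq_same]
    · rw [Pi.single_eq_of_ne hl, Pi.single_eq_of_ne hl, map_zero]
  have keys : ∀ (j : κ) (n : ℕ) (c : Fin n → ℂ) (v : Fin n → Q j),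
      (Pi.single j (∑ l, c l • v l) : (j : κ) → Q j) = ∑ l, c l • Pi.single j (v l) := by
    intro j n c v
    have h1 := map_sum (LinearMap.single ℂ Q j) (fun l => c l • v l) Finset.univ
    simp only [map_smul] at h1
    exact h1
  rintro ⟨j, i⟩ r
  constructor
  · simp only [Basis.reindex_apply]
    change (LinearMap.pi fun j => (X j).comp (LinearMap.proj j)) (Pi.basis bP ⟨j, ⟨i, r⟩⟩) =
      ∑ c, (bl j i).PA r c • Pi.basis bQ ⟨j, ⟨i, c⟩⟩
    rw [Pi.basis_apply, key, (hb j i r).1, keys]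
    simp only [Pi.basis_apply]
  · simp only [Basis.reindex_apply]
    change (LinearMap.pi fun j => (Y j).comp (LinearMap.proj j)) (Pi.basis bP ⟨j, ⟨i, r⟩⟩) =
      ∑ c, (bl j i).PB r c • Pi.basis bQ ⟨j, ⟨i, c⟩⟩
    rw [Pi.basis_apply, key, (hb j i r).2, keys]
    simp only [Pi.basis_apply]

/-- direct sum of two pencils. -/
theorem PencilDec.prod {P1 Q1 P2 Q2 : Type} [AddCommGroup P1] [Module ℂ P1] [AddCommGroup Q1]
    [Module ℂ Q1] [AddCommGroup P2] [Module ℂ P2] [AddCommGroup Q2] [Module ℂ Q2]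
    {X1 Y1 : P1 →ₗ[ℂ] Q1} {X2 Y2 : P2 →ₗ[ℂ] Q2} {ι1 ι2 : Type} [Fintype ι1] [Fintype ι2]
    {bl1 : ι1 → Block} {bl2 : ι2 → Block} (h1 : PencilDec X1 Y1 bl1) (h2 : PencilDec X2 Y2 bl2) :
    PencilDec (X1.prodMap X2) (Y1.prodMap Y2) (Sum.elim bl1 bl2) := by
  classical
  obtain ⟨bP1, bQ1, hb1⟩ := h1
  obtain ⟨bP2, bQ2, hb2⟩ := h2
  let eP : ((Σ i, Fin (bl1 i).rows) ⊕ (Σ i, Fin (bl2 i).rows)) ≃
      (Σ z : ι1 ⊕ ι2, Fin (Sum.elim bl1 bl2 z).rows) :=
    (Equiv.sumSigmaDistrib (fun z : ι1 ⊕ ι2 => Fin (Sum.elim bl1 bl2 z).rows)).symm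
  let eQ : ((Σ i, Fin (bl1 i).cols) ⊕ (Σ i, Fin (bl2 i).cols)) ≃
      (Σ z : ι1 ⊕ ι2, Fin (Sum.elim bl1 bl2 z).cols) :=
    (Equiv.sumSigmaDistrib (fun z : ι1 ⊕ ι2 => Fin (Sum.elim bl1 bl2 z).cols)).symm
  refine ⟨(bP1.prod bP2).reindex eP, (bQ1.prod bQ2).reindex eQ, ?_⟩
  have sumL : ∀ (n : ℕ) (c : Fin n → ℂ) (v : Fin n → Q1),
      ((∑ l, c l • v l, 0) : Q1 × Q2) = ∑ l, c l • (v l, 0) := by
    intro n c v
    have h1 := map_sum (LinearMap.inl ℂ Q1 Q2) (fun l => c l • v l) Finset.univ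
    simp only [map_smul] at h1
    exact h1
  have sumR : ∀ (n : ℕ) (c : Fin n → ℂ) (v : Fin n → Q2),
      ((0, ∑ l, c l • v l) : Q1 × Q2) = ∑ l, c l • (0, v l) := by
    intro n c v
    have h1 := map_sum (LinearMap.inr ℂ Q1 Q2) (fun l => c l • v l) Finset.univ
    simp only [map_smul] at h1
    exact h1
  have inlP : ∀ z, (bP1.prod bP2) (Sum.inl z) = (bP1 z, 0) := fun z =>
    Prod.ext (Basis.prod_apply_inl_fst _ _ _) (Basis.prod_apply_inl_snd _ _ _)
  have inrP : ∀ z, (bP1.prod bP2) (Sum.inr z) = (0, bP2 z) := fun z =>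
    Prod.ext (Basis.prod_apply_inr_fst _ _ _) (Basis.prod_apply_inr_snd _ _ _)
  have inlQ : ∀ z, (bQ1.prod bQ2) (Sum.inl z) = (bQ1 z, 0) := fun z =>
    Prod.ext (Basis.prod_apply_inl_fst _ _ _) (Basis.prod_apply_inl_snd _ _ _)
  have inrQ : ∀ z, (bQ1.prod bQ2) (Sum.inr z) = (0, bQ2 z) := fun z =>
    Prod.ext (Basis.prod_apply_inr_fst _ _ _) (Basis.prod_apply_inr_snd _ _ _)
  rintro (i | i) r
  · constructor
    · simp only [Basis.reindex_apply]
      change (X1.prodMap X2) ((bP1.prod bP2) (Sum.inl ⟨i, r⟩)) =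
        ∑ c, (bl1 i).PA r c • (bQ1.prod bQ2) (Sum.inl ⟨i, c⟩)
      rw [inlP, LinearMap.prodMap_apply, map_zero, (hb1 i r).1, sumL]
      simp only [inlQ]
    · simp only [Basis.reindex_apply]
      change (Y1.prodMap Y2) ((bP1.prod bP2) (Sum.inl ⟨i, r⟩)) =
        ∑ c, (bl1 i).PB r c • (bQ1.prod bQ2) (Sum.inl ⟨i, c⟩)
      rw [inlP, LinearMap.prodMap_apply, map_zero, (hb1 i r).2, sumL]
      simp only [inlQ]
  · constructor
    · simp only [Basis.reindex_apply]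
      change (X1.prodMap X2) ((bP1.prod bP2) (Sum.inr ⟨i, r⟩)) =
        ∑ c, (bl2 i).PA r c • (bQ1.prod bQ2) (Sum.inr ⟨i, c⟩)
      rw [inrP, LinearMap.prodMap_apply, map_zero, (hb2 i r).1, sumR]
      simp only [inrQ]
    · simp only [Basis.reindex_apply]
      change (Y1.prodMap Y2) ((bP1.prod bP2) (Sum.inr ⟨i, r⟩)) =
        ∑ c, (bl2 i).PB r c • (bQ1.prod bQ2) (Sum.inr ⟨i, c⟩)
      rw [inrP, LinearMap.prodMap_apply, map_zero, (hb2 i r).2, sumR]
      simp only [inrQ]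

end Pool.Agent.H4.JK
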