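import Pool.Agent.H4.JKj

/-! Assembly: types with few bad Jordan groups are realisable. -/

namespace Pool.Agent.H4.JK

open Module

/-- Criterion for an invariant: finitely many conditions of the forms `a(v) ≠ 0` and
`x(u) a(w) - x(w) a(u) ≠ 0`. -/
theorem hasInvariant_of_family {g : Type} [LieRing g] [LieAlgebra ℂ g] {C1 C2 : Type} [Fintype C1]
    [Fintype C2] (v : C1 → g) (u w : C2 → g) (x0 a0 : Dual ℂ g) (h1 : ∀ c, a0 (v c) ≠ 0)
    (h2 : ∀ c, x0 (u c) * a0 (w c) - x0 (w c) * a0 (u c) ≠ 0)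
    (T : Multiset ℕ × Multiset (Multiset ℕ))
    (h : ∀ x a : Dual ℂ g, (∀ c, a (v c) ≠ 0) → (∀ c, x (u c) * a (w c) - x (w c) * a (u c) ≠ 0) →
      HasType (fun ξ η => x ⁅ξ, η⁆) (fun ξ η => a ⁅ξ, η⁆) T) :
    HasInvariant g T := by
  classical
  let P : MvPolynomial (g ⊕ g) ℂ :=
    (∏ c, MvPolynomial.X (Sum.inr (v c))) *
      ∏ c, (MvPolynomial.X (Sum.inl (u c)) * MvPolynomial.X (Sum.inr (w c)) -
        MvPolynomial.X (Sum.inl (w c)) * MvPolynomial.X (Sum.inr (u c)))
  have hP : ∀ x a : Dual ℂ g,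
      MvPolynomial.eval (Sum.elim (fun ξ => x ξ) (fun η => a η)) P ≠ 0 ↔
      ((∀ c, a (v c) ≠ 0) ∧ ∀ c, x (u c) * a (w c) - x (w c) * a (u c) ≠ 0) := by
    intro x a
    have h1 : MvPolynomial.eval (Sum.elim (fun ξ => x ξ) (fun η => a η)) P =
        (∏ c, a (v c)) * ∏ c, (x (u c) * a (w c) - x (w c) * a (u c)) := by
      simp only [P, map_mul, map_sub, MvPolynomial.eval_X, Sum.elim_inl, Sum.elim_inr, map_prod]
    rw [h1, mul_ne_zero_iff, Finset.prod_ne_zero_iff, Finset.prod_ne_zero_iff]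
    simp
  refine ⟨{p | MvPolynomial.eval (Sum.elim (fun ξ => p.1 ξ) (fun η => p.2 η)) P ≠ 0}, ?_, ?_, ?_⟩
  · intro p hp
    exact ⟨P, hp, fun q hq => hq⟩
  · exact ⟨(x0, a0), (hP x0 a0).2 ⟨h1, h2⟩⟩
  · intro p hp
    rw [Set.mem_ofPred_eq, hP] at hp
    exact h p.1 p.2 hp.1 hp.2

/-! ### The type of a family of groups -/

theorem algType_krons (K : Multiset ℕ) : algType (K.map Block.kron) = (K, 0) := by
  induction K using Multiset.induction_on with
  | empty => rfl
  | cons k K ih => rw [Multiset.map_cons, algType_cons_kron, ih]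

theorem eigs_krons (K : Multiset ℕ) : eigs (K.map Block.kron) = ∅ := by
  classical
  ext μ
  simp only [eigs, Multiset.mem_toFinset, Multiset.mem_filterMap, Multiset.mem_map,
    Finset.notMem_empty, iff_false]
  rintro ⟨b, ⟨k, _, rfl⟩, h⟩
  simp at h

theorem algType_family {G : Type} [Fintype G] (K : Multiset ℕ) (t : G → ℂ)
    (ht : Function.Injective t) (s : G → Multiset ℕ) :
    algType (K.map Block.kron + ∑ g, (s g).map (Block.jordan (some (t g)))) =
      (K, (Finset.univ.val.map s).filter (· ≠ 0)) := by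
  classical
  have key : ∀ F : Finset G,
      algType (K.map Block.kron + ∑ g ∈ F, (s g).map (Block.jordan (some (t g)))) =
        (K, (F.val.map s).filter (· ≠ 0)) ∧
      ∀ μ ∈ eigs (K.map Block.kron + ∑ g ∈ F, (s g).map (Block.jordan (some (t g)))),
        ∃ g ∈ F, μ = some (t g) := by
    intro F
    induction F using Finset.induction_on with
    | empty =>
      constructor
      · rw [Finset.sum_empty, add_zero, algType_krons]
        rfl
      · rw [Finset.sum_empty, add_zero, eigs_krons]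
        intro μ hμ
        exact absurd hμ (Finset.notMem_empty _)
    | insert g F hg ih =>
      rw [Finset.sum_insert hg, add_left_comm]
      by_cases hs : s g = 0
      · rw [hs, Multiset.map_zero, zero_add]
        refine ⟨?_, ?_⟩
        · rw [ih.1, Finset.insert_val_of_notMem hg, Multiset.map_cons, hs,
            Multiset.filter_cons_of_neg _ (by simp)]
        · intro μ hμ
          obtain ⟨g', hg', h⟩ := ih.2 μ hμ
          exact ⟨g', Finset.mem_insert_of_mem hg', h⟩
      · have hμ : some (t g) ∉ eigs (K.map Block.kron + ∑ g ∈ F, (s g).map (Block.jordan (some (t g)))) := by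
          intro h
          obtain ⟨g', hg', h'⟩ := ih.2 _ h
          have : g = g' := ht (Option.some_injective _ h')
          rw [this] at hg
          exact hg hg'
        refine ⟨?_, ?_⟩
        · rw [algType_add_jordans _ _ _ hs hμ, ih.1, Finset.insert_val_of_notMem hg, Multiset.map_cons,
            Multiset.filter_cons_of_pos (p := fun x => x ≠ 0) _ hs]
        · intro μ h
          rw [eigs_add, eigs_jordans _ _ hs, Finset.mem_union, Finset.mem_singleton] at h
          rcases h with h | h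
          · exact ⟨g, Finset.mem_insert_self _ _, h⟩
          · obtain ⟨g', hg', h'⟩ := ih.2 μ h
            exact ⟨g', Finset.mem_insert_of_mem hg', h'⟩
  exact (key Finset.univ).1

theorem map_univ_eq_sum {ι β : Type} [Fintype ι] (f : ι → β) :
    Finset.univ.val.map f = ∑ i, ({f i} : Multiset β) := by
  classical
  have h : ∀ F : Finset ι, F.val.map f = ∑ i ∈ F, ({f i} : Multiset β) := by
    intro F
    induction F using Finset.induction_on with
    | empty => rfl
    | insert a F ha ih =>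
      rw [Finset.insert_val_of_notMem ha, Multiset.map_cons, Finset.sum_insert ha, ih,
        Multiset.singleton_add]
  exact h _

/-! ### The big Lie algebra -/

set_option linter.unusedSectionVars false

section Big

variable {κ γ : Type} [Fintype κ] [Fintype γ] [DecidableEq κ] [DecidableEq γ]
  (k : κ → ℕ) (τ : (j : κ) → Fin (k j + 1) → Type) [∀ j i, Fintype (τ j i)]
  [∀ j i, DecidableEq (τ j i)] (m : (j : κ) → (i : Fin (k j + 1)) → τ j i → ℕ)
  (n : γ → ℕ) (σ : γ → Type) [∀ g, Fintype (σ g)] [∀ g, DecidableEq (σ g)]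
  (m' : (g : γ) → σ g → ℕ)

/-- the algebra. -/
abbrev BS : Type := ((j : κ) → KS (k j) (τ j) (m j)) × ((g : γ) → GS (n g) (σ g) (m' g))

/-- the acting space. -/
abbrev BH : Type := ((j : κ) → KH (k j) (τ j) (m j)) × ((g : γ) → GS (n g) (σ g) (m' g))

/-- the inclusion. -/
noncomputable def bj : BH k τ m n σ m' →ₗ[ℂ] BS k τ m n σ m' :=
  (LinearMap.pi fun j => (KH (k j) (τ j) (m j)).subtype.comp (LinearMap.proj j)).prodMap
    LinearMap.id

/-- the Lie algebra. -/
abbrev BM : Type := Met (H := BH k τ m n σ m') (S := BS k τ m n σ m') (bj k τ m n σ m')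

/-- the maps of the pencil. -/
noncomputable abbrev BX (s : BS k τ m n σ m') : BH k τ m n σ m' →ₗ[ℂ] BS k τ m n σ m' :=
  MX (H := BH k τ m n σ m') (S := BS k τ m n σ m') (bj k τ m n σ m') s

theorem MX_bj (s : BS k τ m n σ m') : BX k τ m n σ m' s =
    (LinearMap.pi fun j => (KX (k j) (τ j) (m j) (s.1 j)).comp (LinearMap.proj j)).prodMap
      (LinearMap.pi fun g => (GX (n g) (σ g) (m' g) (s.2 g)).comp (LinearMap.proj g)) := by
  refine LinearMap.ext fun h => ?_
  rfl

/-- index set of the eigenvalues. -/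
abbrev RR : Type := (Σ j : κ, Fin (k j + 1)) ⊕ γ

/-- the residue functionals. -/
noncomputable def rho : RR (γ := γ) k → Dual ℂ (BS k τ m n σ m')
  | .inl z => (kfst (k z.1) (τ z.1) (m z.1) z.2).comp
      ((LinearMap.proj z.1).comp (LinearMap.fst ℂ _ _))
  | .inr g => (res (n g)).toLinearMap.comp ((gfst (n g) (σ g) (m' g)).comp
      ((LinearMap.proj g).comp (LinearMap.snd ℂ _ _)))

/-- index set of the linear coefficient conditions. -/
abbrev PP : Type := (Σ j : κ, Σ i, τ j i) ⊕ ((Σ g : γ, σ g) ⊕ {g : γ // n g ≠ 0})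

/-- the linear coefficient functionals. -/
noncomputable def cfs : PP k τ n σ → Dual ℂ (BS k τ m n σ m')
  | .inl z => (cf1 (m z.1 z.2.1 z.2.2)).comp ((ksnd (k z.1) (τ z.1) (m z.1) z.2).comp
      ((LinearMap.proj z.1).comp (LinearMap.fst ℂ _ _)))
  | .inr (.inl z) => (cf1 (m' z.1 z.2)).comp ((gsnd (n z.1) (σ z.1) (m' z.1) z.2).comp
      ((LinearMap.proj z.1).comp (LinearMap.snd ℂ _ _)))
  | .inr (.inr g) => (cf1 (n g.1)).comp ((gfst (n g.1) (σ g.1) (m' g.1)).comp
      ((LinearMap.proj g.1).comp (LinearMap.snd ℂ _ _)))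

/-- the eigenvalue index of a condition. -/
def slot : PP k τ n σ → RR (γ := γ) k
  | .inl z => .inl ⟨z.1, z.2.1⟩
  | .inr (.inl z) => .inr z.1
  | .inr (.inr g) => .inr g.1

/-- the blocks. -/
noncomputable def bbl (t : RR (γ := γ) k → ℂ) :
    ((Σ j : κ, Option (Σ i, τ j i)) ⊕ (Σ g : γ, Option (σ g))) → Block :=
  Sum.elim (fun z => kbl (k z.1) (τ z.1) (m z.1) (fun i => t (.inl ⟨z.1, i⟩)) z.2)
    (fun z => gbl (n z.1) (σ z.1) (m' z.1) (t (.inr z.1)) z.2)

theorem big_pencil (hm' : ∀ g p, m' g p ≤ n g) (x a : BS k τ m n σ m')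
    (h1 : ∀ r, rho k τ m n σ m' r a ≠ 0)
    (h2 : ∀ r r', r ≠ r' → rho k τ m n σ m' r x * rho k τ m n σ m' r' a -
      rho k τ m n σ m' r' x * rho k τ m n σ m' r a ≠ 0)
    (h3 : ∀ p, cfs k τ m n σ m' p x * rho k τ m n σ m' (slot k τ n σ p) a -
      rho k τ m n σ m' (slot k τ n σ p) x * cfs k τ m n σ m' p a ≠ 0) :
    PencilDec (P := BH k τ m n σ m') (Q := BS k τ m n σ m') (BX k τ m n σ m' x) (BX k τ m n σ m' a)
      (bbl k τ m n σ m' (fun r => rho k τ m n σ m' r x / rho k τ m n σ m' r a)) := by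
  rw [MX_bj, MX_bj]
  have hA : PencilDec (P := (j : κ) → KH (k j) (τ j) (m j)) (Q := (j : κ) → KS (k j) (τ j) (m j))
      (LinearMap.pi fun j => (KX (k j) (τ j) (m j) (x.1 j)).comp (LinearMap.proj j))
      (LinearMap.pi fun j => (KX (k j) (τ j) (m j) (a.1 j)).comp (LinearMap.proj j))
      (fun z : (Σ j : κ, Option (Σ i, τ j i)) => kbl (k z.1) (τ z.1) (m z.1)
        (fun i => (x.1 z.1).1.1 i / (a.1 z.1).1.1 i) z.2) := by
    refine PencilDec.pi (P := fun j => KH (k j) (τ j) (m j)) (Q := fun j => KS (k j) (τ j) (m j))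
      (X := fun j => KX (k j) (τ j) (m j) (x.1 j)) (Y := fun j => KX (k j) (τ j) (m j) (a.1 j))
      (bl := fun j => kbl (k j) (τ j) (m j) (fun i => (x.1 j).1.1 i / (a.1 j).1.1 i)) (fun j => ?_)
    refine kpiece (k j) (τ j) (m j) (x.1 j) (a.1 j) (fun i => h1 (.inl ⟨j, i⟩)) ?_ ?_
    · intro i i' hi
      exact h2 (.inl ⟨j, i⟩) (.inl ⟨j, i'⟩) (by
        intro h
        apply hi
        have := Sum.inl_injective h
        exact eq_of_heq (Sigma.mk.inj this).2)
    · intro p
      have := h3 (.inl ⟨j, p⟩)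
      intro h
      apply this
      change cf1 _ ((x.1 j).1.2 p) * (a.1 j).1.1 p.1 - (x.1 j).1.1 p.1 * cf1 _ ((a.1 j).1.2 p) = 0
      linear_combination h
  have hB : PencilDec (P := (g : γ) → GS (n g) (σ g) (m' g)) (Q := (g : γ) → GS (n g) (σ g) (m' g))
      (LinearMap.pi fun g => (GX (n g) (σ g) (m' g) (x.2 g)).comp (LinearMap.proj g))
      (LinearMap.pi fun g => (GX (n g) (σ g) (m' g) (a.2 g)).comp (LinearMap.proj g))
      (fun z : (Σ g : γ, Option (σ g)) => gbl (n z.1) (σ z.1) (m' z.1)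
        (gt (n z.1) (σ z.1) (m' z.1) (x.2 z.1) (a.2 z.1)) z.2) := by
    refine PencilDec.pi (P := fun g => GS (n g) (σ g) (m' g)) (Q := fun g => GS (n g) (σ g) (m' g))
      (X := fun g => GX (n g) (σ g) (m' g) (x.2 g)) (Y := fun g => GX (n g) (σ g) (m' g) (a.2 g))
      (bl := fun g => gbl (n g) (σ g) (m' g) (gt (n g) (σ g) (m' g) (x.2 g) (a.2 g))) (fun g => ?_)
    refine gpiece (n g) (σ g) (m' g) (hm' g) (x.2 g) (a.2 g) (h1 (.inr g)) ?_ ?_
    · by_cases hn : n g = 0
      · exact Or.inl hn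
      · right
        have := h3 (.inr (.inr ⟨g, hn⟩))
        intro h
        apply this
        change cf1 _ (x.2 g).1.1 * res _ (a.2 g).1.1 - res _ (x.2 g).1.1 * cf1 _ (a.2 g).1.1 = 0
        linear_combination h
    · intro p
      have := h3 (.inr (.inl ⟨g, p⟩))
      intro h
      apply this
      change cf1 _ ((x.2 g).1.2 p) * res _ (a.2 g).1.1 - res _ (x.2 g).1.1 * cf1 _ ((a.2 g).1.2 p) = 0
      linear_combination h
  exact PencilDec.prod (P1 := (j : κ) → KH (k j) (τ j) (m j)) (Q1 := (j : κ) → KS (k j) (τ j) (m j))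
    (P2 := (g : γ) → GS (n g) (σ g) (m' g)) (Q2 := (g : γ) → GS (n g) (σ g) (m' g)) hA hB

/-- the groups. -/
def grp : RR (γ := γ) k → Multiset ℕ
  | .inl z => Finset.univ.val.map (m z.1 z.2)
  | .inr g => (n g + 1) ::ₘ Finset.univ.val.map (m' g)

theorem bbl_type (t : RR (γ := γ) k → ℂ) (ht : Function.Injective t) :
    algType (Finset.univ.val.map (bbl k τ m n σ m' t)) =
      (Finset.univ.val.map k, (Finset.univ.val.map (grp k τ m n σ m')).filter (· ≠ 0)) := by
  rw [← algType_family (Finset.univ.val.map k) t ht (grp k τ m n σ m')]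
  congr 1
  rw [map_univ_eq_sum, Fintype.sum_sum_type, Fintype.sum_sum_type, Fintype.sum_sigma,
    Fintype.sum_sigma, Fintype.sum_sigma, Multiset.map_map, map_univ_eq_sum, ← add_assoc,
    ← Finset.sum_add_distrib]
  congr 1
  · apply Finset.sum_congr rfl
    intro j _
    rw [Fintype.sum_option]
    congr 1
    rw [Fintype.sum_sigma]
    apply Finset.sum_congr rfl
    intro i _
    change _ = (Finset.univ.val.map (m j i)).map _
    rw [Multiset.map_map, map_univ_eq_sum]
    rfl
  · apply Finset.sum_congr rfl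
    intro g _
    rw [Fintype.sum_option]
    change _ = ((n g + 1) ::ₘ Finset.univ.val.map (m' g)).map _
    rw [Multiset.map_cons, Multiset.map_map, map_univ_eq_sum, ← Multiset.singleton_add]
    rfl

/-- evaluation at a point as a functional on the Lie algebra. -/
noncomputable def evp (s : BS k τ m n σ m') : Dual ℂ (BM k τ m n σ m') :=
  (show (BH k τ m n σ m' × Dual ℂ (BS k τ m n σ m')) →ₗ[ℂ] ℂ from
    (Dual.eval ℂ (BS k τ m n σ m') s).comp (LinearMap.snd ℂ _ _))

/-- an element of `S*` in the Lie algebra. -/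
noncomputable def inE (e : Dual ℂ (BS k τ m n σ m')) : BM k τ m n σ m' :=
  ((0, e) : BH k τ m n σ m' × Dual ℂ (BS k τ m n σ m'))

theorem evp_inE (s : BS k τ m n σ m') (e : Dual ℂ (BS k τ m n σ m')) :
    evp k τ m n σ m' s (inE k τ m n σ m' e) = e s := rfl

open Polynomial in
/-- a generic base point. -/
noncomputable def basePt (d : RR (γ := γ) k → ℂ) : BS k τ m n σ m' :=
  (fun j => ⟨(fun i => d (.inl ⟨j, i⟩), fun p => AdjoinRoot.mk _ (C (d (.inl ⟨j, p.1⟩)) + X)), by
      intro p
      change res _ (AdjoinRoot.mk _ (C (d (.inl ⟨j, p.1⟩)) + X)) = d (.inl ⟨j, p.1⟩)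
      rw [res_mk]; simp⟩,
    fun g => ⟨(AdjoinRoot.mk _ (C (d (.inr g)) + X), fun p => AdjoinRoot.mk _ (C (d (.inr g)) + X)), by
      intro p
      change res _ (AdjoinRoot.mk _ (C (d (.inr g)) + X)) = res _ (AdjoinRoot.mk _ (C (d (.inr g)) + X))
      rw [res_mk, res_mk]⟩)

theorem rho_base (d : RR (γ := γ) k → ℂ) (r : RR (γ := γ) k) :
    rho k τ m n σ m' r (basePt k τ m n σ m' d) = d r := by
  cases r with
  | inl z => rfl
  | inr g =>
    refine (res_mk (n g) (Polynomial.C (d (.inr g)) + Polynomial.X)).trans ?_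
    simp

theorem rho_one (r : RR (γ := γ) k) : rho k τ m n σ m' r 1 = 1 := by
  cases r with
  | inl z => rfl
  | inr g => exact map_one (res (n g))

theorem cf1_base (N : ℕ) (hN : 0 < N) (c : ℂ) :
    cf1 N (AdjoinRoot.mk _ (Polynomial.C c + Polynomial.X)) = 1 := by
  rw [cf1_mk N hN]; simp

theorem cf1_one (N : ℕ) (hN : 0 < N) : cf1 N 1 = 0 := by
  have h := cf1_mk N hN 1
  rw [map_one] at h
  rw [h, Polynomial.coeff_one]
  simp

theorem cfs_base (hm : ∀ j i s, 0 < m j i s) (hm'0 : ∀ g p, 0 < m' g p)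
    (d : RR (γ := γ) k → ℂ) (p : PP k τ n σ) :
    cfs k τ m n σ m' p (basePt k τ m n σ m' d) = 1 := by
  rcases p with z | z | g
  · exact cf1_base _ (hm _ _ _) _
  · exact cf1_base _ (hm'0 _ _) _
  · exact cf1_base _ (Nat.pos_of_ne_zero g.2) _

theorem cfs_one (hm : ∀ j i s, 0 < m j i s) (hm'0 : ∀ g p, 0 < m' g p) (p : PP k τ n σ) :
    cfs k τ m n σ m' p 1 = 0 := by
  rcases p with z | z | g
  · exact cf1_one _ (hm _ _ _)
  · exact cf1_one _ (hm'0 _ _)
  · exact cf1_one _ (Nat.pos_of_ne_zero g.2)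

theorem big_invariant (hm : ∀ j i s, 0 < m j i s) (hm'0 : ∀ g p, 0 < m' g p)
    (hm' : ∀ g p, m' g p ≤ n g) :
    HasInvariant (BM k τ m n σ m')
      (Finset.univ.val.map k, (Finset.univ.val.map (grp k τ m n σ m')).filter (· ≠ 0)) := by
  classical
  let d : RR (γ := γ) k → ℂ := fun r => ((Fintype.equivFin (RR (γ := γ) k) r : ℕ) : ℂ)
  have hd : Function.Injective d := by
    intro r r' h
    have h0 : (((Fintype.equivFin (RR (γ := γ) k) r : ℕ)) : ℂ) =
      ((Fintype.equivFin (RR (γ := γ) k) r' : ℕ) : ℂ) := h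
    have h1 : ((Fintype.equivFin (RR (γ := γ) k) r : ℕ)) = (Fintype.equivFin (RR (γ := γ) k) r' : ℕ) :=
      Nat.cast_injective h0
    exact (Fintype.equivFin _).injective (Fin.ext h1)
  let C2 : Type := {q : RR (γ := γ) k × RR (γ := γ) k // q.1 ≠ q.2} ⊕ PP k τ n σ
  refine hasInvariant_of_family (g := BM k τ m n σ m') (C1 := RR (γ := γ) k) (C2 := C2)
    (fun r => inE k τ m n σ m' (rho k τ m n σ m' r))
    (Sum.elim (fun q => inE k τ m n σ m' (rho k τ m n σ m' q.1.1))
      (fun p => inE k τ m n σ m' (cfs k τ m n σ m' p)))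
    (Sum.elim (fun q => inE k τ m n σ m' (rho k τ m n σ m' q.1.2))
      (fun p => inE k τ m n σ m' (rho k τ m n σ m' (slot k τ n σ p))))
    (evp k τ m n σ m' (basePt k τ m n σ m' d)) (evp k τ m n σ m' 1) ?_ ?_ _ ?_
  · intro r
    rw [evp_inE, rho_one]
    exact one_ne_zero
  · rintro (⟨⟨r, r'⟩, hr⟩ | p)
    · simp only [Sum.elim_inl]
      rw [evp_inE, evp_inE, evp_inE, evp_inE, rho_base, rho_base, rho_one, rho_one, mul_one, mul_one]
      exact sub_ne_zero.2 fun h => hr (hd h)
    · simp only [Sum.elim_inr]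
      rw [evp_inE, evp_inE, evp_inE, evp_inE, cfs_base k τ m n σ m' hm hm'0,
        cfs_one k τ m n σ m' hm hm'0, rho_one, mul_zero, sub_zero, mul_one]
      exact one_ne_zero
  · intro x a h1 h2
    obtain ⟨sx, hsx⟩ := exists_point x
    obtain ⟨sa, hsa⟩ := exists_point a
    have h1' : ∀ r, rho k τ m n σ m' r sa ≠ 0 := by
      intro r
      have := h1 r
      rwa [show a (inE k τ m n σ m' (rho k τ m n σ m' r)) = rho k τ m n σ m' r sa from hsa _] at this
    have h2' : ∀ r r', r ≠ r' → rho k τ m n σ m' r sx * rho k τ m n σ m' r' sa -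
        rho k τ m n σ m' r' sx * rho k τ m n σ m' r sa ≠ 0 := by
      intro r r' hr
      have := h2 (Sum.inl ⟨(r, r'), hr⟩)
      simp only [Sum.elim_inl] at this
      rwa [show x (inE k τ m n σ m' (rho k τ m n σ m' r)) = rho k τ m n σ m' r sx from hsx _,
        show x (inE k τ m n σ m' (rho k τ m n σ m' r')) = rho k τ m n σ m' r' sx from hsx _,
        show a (inE k τ m n σ m' (rho k τ m n σ m' r)) = rho k τ m n σ m' r sa from hsa _,
        show a (inE k τ m n σ m' (rho k τ m n σ m' r')) = rho k τ m n σ m' r' sa from hsa _] at this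
    have h3' : ∀ p, cfs k τ m n σ m' p sx * rho k τ m n σ m' (slot k τ n σ p) sa -
        rho k τ m n σ m' (slot k τ n σ p) sx * cfs k τ m n σ m' p sa ≠ 0 := by
      intro p
      have := h2 (Sum.inr p)
      simp only [Sum.elim_inr] at this
      rwa [show x (inE k τ m n σ m' (cfs k τ m n σ m' p)) = cfs k τ m n σ m' p sx from hsx _,
        show x (inE k τ m n σ m' (rho k τ m n σ m' (slot k τ n σ p))) =
          rho k τ m n σ m' (slot k τ n σ p) sx from hsx _,
        show a (inE k τ m n σ m' (cfs k τ m n σ m' p)) = cfs k τ m n σ m' p sa from hsa _,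
        show a (inE k τ m n σ m' (rho k τ m n σ m' (slot k τ n σ p))) =
          rho k τ m n σ m' (slot k τ n σ p) sa from hsa _] at this
    have hdec := (big_pencil k τ m n σ m' hm' sx sa h1' h2' h3').decomposes
    refine ⟨_, inferInstance, _, ?_, ?_, hdec.transport
      (V' := BM k τ m n σ m') (LinearEquiv.refl ℂ _) ?_ ?_⟩
    · rintro (⟨j, _ | p⟩ | ⟨g, _ | p⟩)
      · trivial
      · exact hm _ _ _
      · exact Nat.succ_pos _
      · exact hm'0 _ _
    · apply bbl_type
      intro r r' h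
      by_contra hne
      apply h2' r r' hne
      simp only at h
      rw [div_eq_div_iff (h1' r) (h1' r')] at h
      linear_combination h
    · intro ξ η
      exact met_form x sx hsx ξ η
    · intro ξ η
      exact met_form a sa hsa ξ η

theorem big_realisable (hm : ∀ j i s, 0 < m j i s) (hm'0 : ∀ g p, 0 < m' g p)
    (hm' : ∀ g p, m' g p ≤ n g) :
    Realisable (Finset.univ.val.map k, (Finset.univ.val.map (grp k τ m n σ m')).filter (· ≠ 0)) :=
  ⟨BM k τ m n σ m', inferInstance, inferInstance, inferInstance,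
    big_invariant k τ m n σ m' hm hm'0 hm'⟩

end Big

end Pool.Agent.H4.JK
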