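import Pool.Agent.H4.JKk
import Pool.Agent.H4.JKe

/-! Every type whose number of bad Jordan groups is at most the dimension `∑ (k_i + 1)` of the
Kronecker core is realisable. -/

namespace Pool.Agent.H4.JK

/-- A Jordan group is bad if its largest block size occurs at least twice. -/
def Bad (s : Multiset ℕ) : Prop := ∃ m, 2 ≤ s.count m ∧ ∀ m' ∈ s, m' ≤ m

theorem exists_max (s : Multiset ℕ) (hs : s ≠ 0) : ∃ M ∈ s, ∀ m ∈ s, m ≤ M := by
  classical
  have h : s.toFinset.Nonempty := by
    rw [Multiset.toFinset_nonempty]; exact hs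
  refine ⟨s.toFinset.max' h, Multiset.mem_toFinset.1 (Finset.max'_mem _ _), fun m hm => ?_⟩
  exact Finset.le_max' _ _ (Multiset.mem_toFinset.2 hm)

/-- a good group splits off its unique largest element. -/
theorem good_split (s : Multiset ℕ) (hs : s ≠ 0) (hpos : ∀ m ∈ s, 0 < m) (hgood : ¬ Bad s) :
    ∃ (n : ℕ) (r : Multiset ℕ), s = (n + 1) ::ₘ r ∧ ∀ m ∈ r, m ≤ n := by
  classical
  obtain ⟨M, hM, hmax⟩ := exists_max s hs
  obtain ⟨r, hr⟩ := Multiset.exists_cons_of_mem hM
  have hM0 := hpos M hM
  refine ⟨M - 1, r, ?_, ?_⟩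
  · rw [hr]; congr 1; omega
  · intro m hm
    have h1 : m ≤ M := hmax m (by rw [hr]; exact Multiset.mem_cons_of_mem hm)
    have h2 : m ≠ M := by
      rintro rfl
      apply hgood
      refine ⟨m, ?_, hmax⟩
      rw [hr, Multiset.count_cons_self]
      have := Multiset.one_le_count_iff_mem.2 hm
      omega
    omega

open Classical in
/-- Extend a family along an injection by zero. -/
noncomputable def ext0 {B R : Type} (f : B → R) (s : B → Multiset ℕ) (r : R) : Multiset ℕ :=
  if h : ∃ b, f b = r then s h.choose else 0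

theorem ext0_apply {B R : Type} (f : B → R) (hf : Function.Injective f) (s : B → Multiset ℕ) (b : B) :
    ext0 f s (f b) = s b := by
  have h : ∃ b', f b' = f b := ⟨b, rfl⟩
  rw [ext0, dif_pos h, hf h.choose_spec]

theorem ext0_filter {B R : Type} [Fintype B] [Fintype R] (f : B → R) (hf : Function.Injective f)
    (s : B → Multiset ℕ) (hs : ∀ b, s b ≠ 0) :
    (Finset.univ.val.map (ext0 f s)).filter (· ≠ 0) = Finset.univ.val.map s := by
  classical
  have h1 : (Finset.univ.val.map (ext0 f s)).filter (· ≠ 0) =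
      ((Finset.univ.filter fun r => ext0 f s r ≠ 0).val).map (ext0 f s) := by
    rw [Multiset.filter_map, Finset.filter_val]
    rfl
  have h2 : (Finset.univ.filter fun r => ext0 f s r ≠ 0) = Finset.univ.image f := by
    ext r
    simp only [Finset.mem_filter, Finset.mem_univ, true_and, Finset.mem_image]
    constructor
    · intro h
      by_contra hcon
      apply h
      rw [ext0, dif_neg hcon]
    · rintro ⟨b, rfl⟩
      rw [ext0_apply f hf]
      exact hs b
  rw [h1, h2, Finset.image_val_of_injOn hf.injOn, Multiset.map_map]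
  apply Multiset.map_congr rfl
  intro b _
  exact ext0_apply f hf s b

theorem mem_ext0 {B R : Type} (f : B → R) (s : B → Multiset ℕ) (r : R) (m : ℕ)
    (h : m ∈ ext0 f s r) : ∃ b, m ∈ s b := by
  unfold ext0 at h
  split_ifs at h with h1
  · exact ⟨_, h⟩
  · exact absurd h (Multiset.notMem_zero _)

theorem map_univ_sum {A B β : Type} [Fintype A] [Fintype B] (f : A ⊕ B → β) :
    Finset.univ.val.map f =
      Finset.univ.val.map (fun a => f (Sum.inl a)) + Finset.univ.val.map (fun b => f (Sum.inr b)) := by
  rw [map_univ_eq_sum, map_univ_eq_sum, map_univ_eq_sum, Fintype.sum_sum_type]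

open Classical in
/-- Few bad groups: realisable. -/
theorem realisable_few (T : Multiset ℕ × Multiset (Multiset ℕ)) (hT : IsType T)
    (h : (T.2.filter Bad).card ≤ (T.1.map (· + 1)).sum) : Realisable T := by
  obtain ⟨K, G⟩ := T
  simp only at h
  -- Kronecker blocks
  let κ : Type := K
  let k : κ → ℕ := fun j => j.1
  let γ : Type := (G.filter fun s => ¬ Bad s : Multiset (Multiset ℕ))
  let β : Type := (G.filter Bad : Multiset (Multiset ℕ))
  have hcard : Fintype.card β ≤ Fintype.card (Σ j : κ, Fin (k j + 1)) := by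
    rw [Fintype.card_sigma]
    simp only [Fintype.card_fin]
    have h1 : ∑ j : κ, (k j + 1) = (K.map (· + 1)).sum := by
      have h2 : (Finset.univ.val.map fun j : κ => j.1) = K := Multiset.map_univ_coe K
      conv_rhs => rw [← h2, Multiset.map_map]
      rfl
    rw [h1]
    refine le_trans (le_of_eq ?_) h
    exact Multiset.card_coe _
  obtain ⟨f⟩ := Function.Embedding.nonempty_of_card_le hcard
  let sb : β → Multiset ℕ := fun b => b.1
  have hsb : ∀ b, sb b ∈ G := fun b => (Multiset.mem_filter.1 (Multiset.coe_mem (x := b))).1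
  let s : (Σ j : κ, Fin (k j + 1)) → Multiset ℕ := ext0 f sb
  have hspos : ∀ r, ∀ x ∈ s r, 0 < x := by
    intro r x hx
    obtain ⟨b, hb⟩ := mem_ext0 f sb r x hx
    exact (hT _ (hsb b)).2 x hb
  -- good groups
  let sg : γ → Multiset ℕ := fun g => g.1
  have hsg : ∀ g, sg g ∈ G ∧ ¬ Bad (sg g) := fun g => Multiset.mem_filter.1 (Multiset.coe_mem (x := g))
  choose n r hr1 hr2 using fun g : γ =>
    good_split (sg g) (hT _ (hsg g).1).1 (hT _ (hsg g).1).2 (hsg g).2
  have hrpos : ∀ g, ∀ x ∈ r g, 0 < x := fun g x hx =>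
    (hT _ (hsg g).1).2 x (by rw [hr1]; exact Multiset.mem_cons_of_mem hx)
  have key := big_realisable (κ := κ) (γ := γ) k (fun j i => (s ⟨j, i⟩ : Multiset ℕ))
    (fun j i x => x.1) n (fun g => (r g : Multiset ℕ)) (fun g x => x.1)
    (fun j i x => hspos _ _ Multiset.coe_mem) (fun g x => hrpos _ _ Multiset.coe_mem)
    (fun g x => hr2 g _ Multiset.coe_mem)
  have e1 : Finset.univ.val.map k = K := Multiset.map_univ_coe K
  have e2 : (Finset.univ.val.map (grp k (fun j i => (s ⟨j, i⟩ : Multiset ℕ))
    (fun j i x => x.1) n (fun g => (r g : Multiset ℕ)) (fun g x => x.1))).filter (· ≠ 0) = G := by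
    rw [map_univ_sum, Multiset.filter_add]
    have e3 : (Finset.univ.val.map fun a : (Σ j : κ, Fin (k j + 1)) =>
        grp k (fun j i => (s ⟨j, i⟩ : Multiset ℕ))
          (fun j i x => x.1) n (fun g => (r g : Multiset ℕ)) (fun g x => x.1) (Sum.inl a)) =
        Finset.univ.val.map (ext0 f sb) := by
      apply Multiset.map_congr rfl
      intro a _
      exact Multiset.map_univ_coe _
    have e4 : (Finset.univ.val.map fun b : γ =>
        grp k (fun j i => (s ⟨j, i⟩ : Multiset ℕ))
          (fun j i x => x.1) n (fun g => (r g : Multiset ℕ)) (fun g x => x.1) (Sum.inr b)) =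
        G.filter fun s => ¬ Bad s := by
      have e5 : (Finset.univ.val.map fun b : γ => b.1) = G.filter fun s => ¬ Bad s :=
        Multiset.map_univ_coe _
      refine Eq.trans ?_ e5
      apply Multiset.map_congr rfl
      intro b _
      change (n b + 1) ::ₘ Finset.univ.val.map (fun x : (r b : Multiset ℕ) => x.1) = sg b
      rw [Multiset.map_univ_coe, ← hr1]
    rw [e3, e4, ext0_filter f f.injective sb (fun b => (hT _ (hsb b)).1)]
    have e6 : Finset.univ.val.map sb = G.filter Bad := Multiset.map_univ_coe _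
    have e7 : (G.filter fun s => ¬ Bad s).filter (· ≠ 0) = G.filter fun s => ¬ Bad s := by
      rw [Multiset.filter_eq_self]
      intro a ha
      exact (hT _ (Multiset.mem_filter.1 ha).1).1
    rw [e6, e7, Multiset.filter_add_not]
  rw [e1, e2] at key
  exact key

open Classical in
/-- The combined sufficient condition. -/
theorem realisable_all (T : Multiset ℕ × Multiset (Multiset ℕ)) (hT : IsType T)
    (h : 1 ∈ T.1 ∨ 2 ≤ T.1.count 0 ∨ (T.2.filter Bad).card ≤ (T.1.map (· + 1)).sum) :
    Realisable T := by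
  rcases h with h | h | h
  · exact realisable_main T hT (Or.inl h)
  · exact realisable_main T hT (Or.inr h)
  · exact realisable_few T hT h

end Pool.Agent.H4.JK
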