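import Mathlib

/-! Generic lines: an irreducible polynomial `f` and a polynomial not divisible by `f` have no
common zero on a generic line. -/

namespace Pool.Agent.H4.JK

open Polynomial

/-- the filter of the sets of pairs containing the nonvanishing set of a nonzero polynomial. -/
def gen (I : Type) : Filter ((I → ℂ) × (I → ℂ)) where
  sets := {S | ∃ Φ : MvPolynomial (I ⊕ I) ℂ, Φ ≠ 0 ∧
    ∀ p : (I → ℂ) × (I → ℂ), MvPolynomial.eval (Sum.elim p.1 p.2) Φ ≠ 0 → p ∈ S}
  univ_sets := ⟨1, one_ne_zero, fun _ _ => trivial⟩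
  sets_of_superset := by
    rintro S T ⟨Φ, h1, h2⟩ hST
    exact ⟨Φ, h1, fun p hp => hST (h2 p hp)⟩
  inter_sets := by
    rintro S T ⟨Φ, h1, h2⟩ ⟨Ψ, h3, h4⟩
    refine ⟨Φ * Ψ, mul_ne_zero h1 h3, fun p hp => ?_⟩
    rw [map_mul] at hp
    exact ⟨h2 p (left_ne_zero_of_mul hp), h4 p (right_ne_zero_of_mul hp)⟩

theorem eventually_gen {I : Type} {P : (I → ℂ) × (I → ℂ) → Prop} :
    (∀ᶠ p in gen I, P p) ↔ ∃ Φ : MvPolynomial (I ⊕ I) ℂ, Φ ≠ 0 ∧
      ∀ p : (I → ℂ) × (I → ℂ), MvPolynomial.eval (Sum.elim p.1 p.2) Φ ≠ 0 → P p := Iff.rfl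

theorem exists_eval_ne {σ : Type} {Φ : MvPolynomial σ ℂ} (h : Φ ≠ 0) :
    ∃ v : σ → ℂ, MvPolynomial.eval v Φ ≠ 0 := by
  by_contra hc
  push Not at hc
  apply h
  apply MvPolynomial.funext
  intro x
  rw [hc x, map_zero]

instance gen_neBot (I : Type) : (gen I).NeBot := by
  rw [Filter.neBot_iff]
  intro h
  have h1 : ∀ᶠ _ in gen I, False := by
    rw [h]; trivial
  obtain ⟨Φ, h2, h3⟩ := eventually_gen.1 h1
  obtain ⟨v, hv⟩ := exists_eval_ne h2
  refine h3 (v ∘ Sum.inl, v ∘ Sum.inr) ?_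
  rwa [Sum.elim_comp_inl_inr]

variable {I : Type}

/-- `x_i ↦ x_i + s X a_i`, `a_i ↦ a_i`. -/
noncomputable def sh (s : ℂ) : MvPolynomial (I ⊕ I) ℂ →+* (MvPolynomial (I ⊕ I) ℂ)[X] :=
  MvPolynomial.eval₂Hom (Polynomial.C.comp MvPolynomial.C)
    (Sum.elim (fun i => C (MvPolynomial.X (Sum.inl i)) +
      C (MvPolynomial.C s) * X * C (MvPolynomial.X (Sum.inr i)))
      (fun i => C (MvPolynomial.X (Sum.inr i))))

noncomputable def shh (s : ℂ) : (MvPolynomial (I ⊕ I) ℂ)[X] →+* (MvPolynomial (I ⊕ I) ℂ)[X] :=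
  Polynomial.eval₂RingHom (sh s) X

theorem shh_comp (s t : ℂ) (h : s + t = 0) :
    (shh (I := I) s).comp (shh t) = RingHom.id _ := by
  apply Polynomial.ringHom_ext'
  · apply MvPolynomial.ringHom_ext
    · intro r
      simp [shh, sh]
    · rintro (i | i)
      · simp [shh, sh]
        have : (MvPolynomial.C t : MvPolynomial (I ⊕ I) ℂ) = - MvPolynomial.C s := by
          rw [← MvPolynomial.C_neg]; congr 1; linear_combination h
        rw [this, C_neg]
        ring
      · simp [shh, sh]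
  · simp [shh]

noncomputable def shE : (MvPolynomial (I ⊕ I) ℂ)[X] ≃+* (MvPolynomial (I ⊕ I) ℂ)[X] :=
  RingEquiv.ofRingHom (shh 1) (shh (-1)) (shh_comp _ _ (by ring)) (shh_comp _ _ (by ring))

theorem shE_C (g : MvPolynomial (I ⊕ I) ℂ) : shE (C g) = sh 1 g := by
  simp [shE, shh]

theorem eval_sh (p : (I → ℂ) × (I → ℂ)) (t : ℂ) (g : MvPolynomial (I ⊕ I) ℂ) :
    ((sh 1 g).map (MvPolynomial.eval (Sum.elim p.1 p.2))).eval t =
      MvPolynomial.eval (Sum.elim (fun i => p.1 i + t * p.2 i) p.2) g := by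
  have h : ((Polynomial.evalRingHom t).comp
      (Polynomial.mapRingHom (MvPolynomial.eval (Sum.elim p.1 p.2)))).comp (sh 1) =
      MvPolynomial.eval (Sum.elim (fun i => p.1 i + t * p.2 i) p.2) := by
    apply MvPolynomial.ringHom_ext
    · intro r
      simp [sh]
    · rintro (i | i)
      · simp [sh]
        ring
      · simp [sh]
  have := congrArg (fun F => F g) h
  simpa using this

theorem prime_inl {f : MvPolynomial I ℂ} (hf : Irreducible f) :
    Prime (MvPolynomial.rename Sum.inl f : MvPolynomial (I ⊕ I) ℂ) := by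
  have h1 : Prime f := hf.prime
  have h2 : Prime (MvPolynomial.C f : MvPolynomial I (MvPolynomial I ℂ)) :=
    (MvPolynomial.prime_C_iff I).2 h1
  let e : MvPolynomial (I ⊕ I) ℂ ≃+* MvPolynomial I (MvPolynomial I ℂ) :=
    (MvPolynomial.renameEquiv ℂ (Equiv.sumComm I I)).toRingEquiv.trans
      (MvPolynomial.sumRingEquiv ℂ I I)
  have h3 : e (MvPolynomial.rename Sum.inl f) = MvPolynomial.C f := by
    have h4 : (e.toRingHom).comp
        (MvPolynomial.rename Sum.inl : MvPolynomial I ℂ →ₐ[ℂ] MvPolynomial (I ⊕ I) ℂ).toRingHom =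
        MvPolynomial.C := by
      apply MvPolynomial.ringHom_ext
      · intro r
        simp [e]
      · intro i
        simp [e]
    have := congrArg (fun F => F f) h4
    simpa using this
  rw [← h3] at h2
  exact (MulEquiv.prime_iff e.toMulEquiv).1 h2

/-- Gauss' lemma and resultants. -/
theorem exists_resultant {R : Type} [CommRing R] [IsDomain R] [UniqueFactorizationMonoid R]
    {F G : R[X]} (hF : Prime F) (h3 : ¬ F ∣ G) :
    ∃ (Φ : R) (u v : R[X]), Φ ≠ 0 ∧ F * u + G * v = C Φ := by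
  have hF0 : F ≠ 0 := hF.ne_zero
  by_cases hd : F.natDegree = 0
  · refine ⟨F.coeff 0, 1, 0, ?_, ?_⟩
    · intro h
      apply hF0
      rw [Polynomial.eq_C_of_natDegree_eq_zero hd, h, C_0]
    · rw [mul_one, mul_zero, add_zero]
      exact Polynomial.eq_C_of_natDegree_eq_zero hd
  · have hprim : F.IsPrimitive := hF.irreducible.isPrimitive hd
    have hirr : Irreducible (F.map (algebraMap R (FractionRing R))) :=
      (hprim.irreducible_iff_irreducible_map_fraction_map (K := FractionRing R)).1 hF.irreducible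
    have hnd : ¬ F.map (algebraMap R (FractionRing R)) ∣ G.map (algebraMap R (FractionRing R)) :=
      fun h => h3 (hprim.dvd_of_fraction_map_dvd_fraction_map (K := FractionRing R) h)
    have hcop : IsCoprime (F.map (algebraMap R (FractionRing R)))
        (G.map (algebraMap R (FractionRing R))) :=
      (hirr.coprime_iff_not_dvd).2 hnd
    have hres : F.resultant G ≠ 0 := by
      intro h0
      have h5 := Polynomial.resultant_map_map F G F.natDegree G.natDegree
        (algebraMap R (FractionRing R))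
      rw [h0, map_zero] at h5
      have hdF : (F.map (algebraMap R (FractionRing R))).natDegree = F.natDegree :=
        Polynomial.natDegree_map_eq_of_injective (IsFractionRing.injective R (FractionRing R)) _
      have hdG : (G.map (algebraMap R (FractionRing R))).natDegree = G.natDegree :=
        Polynomial.natDegree_map_eq_of_injective (IsFractionRing.injective R (FractionRing R)) _
      rw [← hdF, ← hdG] at h5
      exact (Polynomial.resultant_eq_zero_iff.1 h5).2 hcop
    obtain ⟨u, v, -, -, huv⟩ := Polynomial.exists_mul_add_mul_eq_C_resultant F G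
      le_rfl le_rfl (Or.inl hd)
    exact ⟨_, u, v, hres, huv⟩

theorem coprime_line {f : MvPolynomial I ℂ} (hf : Irreducible f) {g : MvPolynomial (I ⊕ I) ℂ}
    (hg : ¬ MvPolynomial.rename Sum.inl f ∣ g) :
    ∃ (Φ : MvPolynomial (I ⊕ I) ℂ) (u v : (MvPolynomial (I ⊕ I) ℂ)[X]), Φ ≠ 0 ∧
      sh 1 (MvPolynomial.rename Sum.inl f) * u + sh 1 g * v = C Φ := by
  have h1 : Prime (C (MvPolynomial.rename Sum.inl f) : (MvPolynomial (I ⊕ I) ℂ)[X]) :=
    Polynomial.prime_C_iff.2 (prime_inl hf)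
  have h2 : Prime (sh 1 (MvPolynomial.rename Sum.inl f) : (MvPolynomial (I ⊕ I) ℂ)[X]) := by
    rw [← shE_C]
    exact (MulEquiv.prime_iff (shE : (MvPolynomial (I ⊕ I) ℂ)[X] ≃+* _).toMulEquiv).2 h1
  have h3 : ¬ (sh 1 (MvPolynomial.rename Sum.inl f) : (MvPolynomial (I ⊕ I) ℂ)[X]) ∣ sh 1 g := by
    rw [← shE_C, ← shE_C]
    intro h
    rw [map_dvd_iff] at h
    rw [Polynomial.C_dvd_iff_dvd_coeff] at h
    have := h 0
    rw [Polynomial.coeff_C_zero] at this
    exact hg this
  exact exists_resultant h2 h3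

/-- the main statement on generic lines. -/
theorem gen_line {f : MvPolynomial I ℂ} (hf : Irreducible f) {g : MvPolynomial (I ⊕ I) ℂ}
    (hg : ¬ MvPolynomial.rename Sum.inl f ∣ g) :
    ∀ᶠ p in gen I, ∀ t : ℂ, MvPolynomial.eval (fun i => p.1 i + t * p.2 i) f = 0 →
      MvPolynomial.eval (Sum.elim (fun i => p.1 i + t * p.2 i) p.2) g ≠ 0 := by
  obtain ⟨Φ, u, v, hΦ, huv⟩ := coprime_line hf hg
  rw [eventually_gen]
  refine ⟨Φ, hΦ, fun p hp t h1 h2 => hp ?_⟩
  have h3 := congrArg (fun w => (w.map (MvPolynomial.eval (Sum.elim p.1 p.2))).eval t) huv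
  simp only [Polynomial.map_add, Polynomial.map_mul, Polynomial.eval_add, Polynomial.eval_mul,
    eval_sh, Polynomial.map_C, Polynomial.eval_C] at h3
  rw [MvPolynomial.eval_rename, h2] at h3
  have h4 : (Sum.elim (fun i => p.1 i + t * p.2 i) p.2) ∘ Sum.inl = fun i => p.1 i + t * p.2 i := by
    funext i; rfl
  rw [h4, h1] at h3
  rw [← h3]
  ring

/-- the version for polynomials in the point only. -/
theorem gen_line' {f : MvPolynomial I ℂ} (hf : Irreducible f) {g : MvPolynomial I ℂ}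
    (hg : ¬ f ∣ g) :
    ∀ᶠ p in gen I, ∀ t : ℂ, MvPolynomial.eval (fun i => p.1 i + t * p.2 i) f = 0 →
      MvPolynomial.eval (fun i => p.1 i + t * p.2 i) g ≠ 0 := by
  have h1 : ¬ MvPolynomial.rename Sum.inl f ∣
      (MvPolynomial.rename Sum.inl g : MvPolynomial (I ⊕ I) ℂ) := by
    intro h
    apply hg
    have h2 := map_dvd (MvPolynomial.aeval (Sum.elim MvPolynomial.X 0) :
      MvPolynomial (I ⊕ I) ℂ →ₐ[ℂ] MvPolynomial I ℂ) h
    rw [MvPolynomial.aeval_rename, MvPolynomial.aeval_rename] at h2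
    have h3 : (Sum.elim MvPolynomial.X 0 : I ⊕ I → MvPolynomial I ℂ) ∘ Sum.inl =
      MvPolynomial.X := by
      funext i; rfl
    rw [h3, MvPolynomial.aeval_X_left_apply, MvPolynomial.aeval_X_left_apply] at h2
    exact h2
  filter_upwards [gen_line hf h1] with p hp t ht
  have h2 := hp t ht
  rw [MvPolynomial.eval_rename] at h2
  exact h2

theorem gen_fst {g : MvPolynomial I ℂ} (hg : g ≠ 0) :
    ∀ᶠ p in gen I, MvPolynomial.eval p.1 g ≠ 0 := by
  rw [eventually_gen]
  refine ⟨MvPolynomial.rename Sum.inl g, ?_, fun p hp => ?_⟩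
  · exact (MvPolynomial.rename_injective _ Sum.inl_injective).ne_iff' (map_zero _) |>.2 hg
  · rw [MvPolynomial.eval_rename] at hp
    exact hp

theorem gen_snd {g : MvPolynomial I ℂ} (hg : g ≠ 0) :
    ∀ᶠ p in gen I, MvPolynomial.eval p.2 g ≠ 0 := by
  rw [eventually_gen]
  refine ⟨MvPolynomial.rename Sum.inr g, ?_, fun p hp => ?_⟩
  · exact (MvPolynomial.rename_injective _ Sum.inr_injective).ne_iff' (map_zero _) |>.2 hg
  · rw [MvPolynomial.eval_rename] at hp
    exact hp

end Pool.Agent.H4.JK
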