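import Pool.Agent.H4.JKm

/-! Local theory of a skew matrix of polynomials in one variable at a point. -/

namespace Pool.Agent.H4.JK

open Polynomial

variable {I : Type} [Fintype I] [DecidableEq I]

/-- values at `r` of the polynomial curves in the kernel. -/
def Zs (L : Matrix I I ℂ[X]) (r : ℂ) : Submodule ℂ (I → ℂ) where
  carrier := {v | ∃ z : I → ℂ[X], L.mulVec z = 0 ∧ ∀ i, (z i).eval r = v i}
  zero_mem' := ⟨0, Matrix.mulVec_zero _, fun i => by simp⟩
  add_mem' := by
    rintro v w ⟨z, h1, h2⟩ ⟨y, h3, h4⟩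
    exact ⟨z + y, by rw [Matrix.mulVec_add, h1, h3, add_zero], fun i => by simp [h2, h4]⟩
  smul_mem' := by
    rintro c v ⟨z, h1, h2⟩
    exact ⟨(C c : ℂ[X]) • z, by rw [Matrix.mulVec_smul, h1, smul_zero], fun i => by simp [h2]⟩

/-- values at `r` of the curves which are in the kernel up to order `p`. -/
def Es (L : Matrix I I ℂ[X]) (r : ℂ) (p : ℕ) : Submodule ℂ (I → ℂ) where
  carrier := {v | ∃ z : I → ℂ[X], (∀ i, (X - C r) ^ p ∣ L.mulVec z i) ∧ ∀ i, (z i).eval r = v i}
  zero_mem' := ⟨0, by simp [Matrix.mulVec_zero], fun i => by simp⟩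
  add_mem' := by
    rintro v w ⟨z, h1, h2⟩ ⟨y, h3, h4⟩
    refine ⟨z + y, fun i => ?_, fun i => by simp [h2, h4]⟩
    rw [Matrix.mulVec_add]
    exact dvd_add (h1 i) (h3 i)
  smul_mem' := by
    rintro c v ⟨z, h1, h2⟩
    refine ⟨(C c : ℂ[X]) • z, fun i => ?_, fun i => by simp [h2]⟩
    rw [Matrix.mulVec_smul]
    exact (h1 i).mul_left _

/-- vectors supported on `W`. -/
def cs (W : Finset I) : Submodule ℂ (I → ℂ) where
  carrier := {v | ∀ i, i ∉ W → v i = 0}
  zero_mem' := fun i _ => rfl
  add_mem' := by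
    intro v w h1 h2 i hi
    simp [h1 i hi, h2 i hi]
  smul_mem' := by
    intro c v h1 i hi
    simp [h1 i hi]

/-- extension by zero. -/
def ext {R : Type} [Zero R] (W : Finset I) (w : W → R) : I → R :=
  fun i => if h : i ∈ W then w ⟨i, h⟩ else 0

theorem ext_mem {R : Type} [Zero R] (W : Finset I) (w : W → R) (i : W) : ext W w i = w i := by
  simp [ext]

theorem ext_not {R : Type} [Zero R] (W : Finset I) (w : W → R) {i : I} (h : i ∉ W) :
    ext W w i = 0 := by
  simp [ext, h]

theorem sum_ext {R : Type} [CommRing R] (W : Finset I) (w : W → R) (v : I → R) :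
    ∑ i, v i * ext W w i = ∑ i : W, v i * w i := by
  classical
  rw [← Finset.sum_subset (Finset.subset_univ W)]
  · rw [← Finset.sum_coe_sort W (fun i => v i * ext W w i)]
    apply Finset.sum_congr rfl
    intro i _
    rw [ext_mem]
  · intro i _ hi
    rw [ext_not W w hi, mul_zero]

theorem mulVec_ext {R : Type} [CommRing R] (L : Matrix I I R) (W : Finset I) (w : W → R) (i : I) :
    L.mulVec (ext W w) i = ∑ j : W, L i j * w j := by
  rw [Matrix.mulVec, dotProduct, sum_ext W w (fun j => L i j)]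

theorem Es_anti (L : Matrix I I ℂ[X]) (r : ℂ) {p q : ℕ} (h : p ≤ q) : Es L r q ≤ Es L r p := by
  rintro v ⟨z, h1, h2⟩
  exact ⟨z, fun i => (pow_dvd_pow _ h).trans (h1 i), h2⟩

theorem Zs_le_Es (L : Matrix I I ℂ[X]) (r : ℂ) (p : ℕ) : Zs L r ≤ Es L r p := by
  rintro v ⟨z, h1, h2⟩
  exact ⟨z, fun i => by rw [h1]; exact dvd_zero _, h2⟩

theorem eps_ne (r : ℂ) : (X - C r : ℂ[X]) ≠ 0 := Polynomial.X_sub_C_ne_zero r

theorem skew_orth {L : Matrix I I ℂ[X]} (hL : L.transpose = -L) {v z : I → ℂ[X]}
    (hz : L.mulVec z = 0) : (L.mulVec v) ⬝ᵥ z = 0 := by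
  have h1 : (L.mulVec v) ⬝ᵥ z = v ⬝ᵥ (L.transpose.mulVec z) := by
    rw [Matrix.mulVec_transpose, dotProduct_comm v, ← Matrix.dotProduct_mulVec, dotProduct_comm]
  rw [h1, hL, Matrix.neg_mulVec, hz, neg_zero, dotProduct_zero]

/-- divisibility spreads from `W` to everything. -/
theorem loc_div {L : Matrix I I ℂ[X]} {r : ℂ} {W : Finset I} (hW : Zs L r ⊔ cs W = ⊤) :
    ∀ (μ : ℕ) (u : I → ℂ[X]), (∀ z, L.mulVec z = 0 → u ⬝ᵥ z = 0) →
      (∀ b ∈ W, (X - C r) ^ μ ∣ u b) → ∀ c, (X - C r) ^ μ ∣ u c := by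
  intro μ
  induction μ with
  | zero => intro u _ _ c; rw [pow_zero]; exact one_dvd _
  | succ μ ih =>
    intro u h1 h2 c
    -- the value at r vanishes
    have h3 : ∀ v ∈ (Zs L r ⊔ cs W : Submodule ℂ (I → ℂ)), ∑ i, (u i).eval r * v i = 0 := by
      intro v hv
      rw [Submodule.mem_sup] at hv
      obtain ⟨y, ⟨z, hz1, hz2⟩, w, hw, rfl⟩ := hv
      have h4 : ∑ i, (u i).eval r * y i = 0 := by
        have := congrArg (Polynomial.eval r) (h1 z hz1)
        rw [dotProduct, Polynomial.eval_finsetSum] at this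
        simp only [Polynomial.eval_mul, hz2, Polynomial.eval_zero] at this
        exact this
      have h5 : ∑ i, (u i).eval r * w i = 0 := by
        apply Finset.sum_eq_zero
        intro i _
        by_cases hi : i ∈ W
        · have h6 : (u i).eval r = 0 := by
            have h7 : (X - C r) ∣ u i := (dvd_pow_self _ (Nat.succ_ne_zero μ)).trans (h2 i hi)
            exact Polynomial.dvd_iff_isRoot.1 h7
          rw [h6, zero_mul]
        · rw [hw i hi, mul_zero]
      simp only [Pi.add_apply, mul_add, Finset.sum_add_distrib, h4, h5, add_zero]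
    have h4 : ∀ i, (u i).eval r = 0 := by
      intro i
      have := h3 (Pi.single i 1) (by rw [hW]; trivial)
      simpa [Pi.single_apply] using this
    have h5 : ∀ i, ∃ w, u i = (X - C r) * w := fun i => Polynomial.dvd_iff_isRoot.2 (h4 i)
    choose u' hu' using h5
    have h6 := ih u' (by
      intro z hz
      have h7 := h1 z hz
      have h8 : (X - C r) * (u' ⬝ᵥ z) = 0 := by
        rw [← h7, dotProduct, dotProduct, Finset.mul_sum]
        apply Finset.sum_congr rfl
        intro i _
        rw [hu' i]; ring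
      exact (mul_eq_zero.1 h8).resolve_left (eps_ne r)) (by
      intro b hb
      have h7 := h2 b hb
      rw [hu' b, pow_succ, mul_comm ((X - C r) ^ μ)] at h7
      exact (mul_dvd_mul_iff_left (eps_ne r)).1 h7) c
    rw [hu' c, pow_succ, mul_comm ((X - C r) ^ μ)]
    exact mul_dvd_mul_left _ h6

theorem eq_zero_of_forall_dvd {r : ℂ} {u : ℂ[X]} (h : ∀ n, (X - C r) ^ n ∣ u) : u = 0 := by
  by_contra hu
  have h1 := Polynomial.natDegree_le_of_dvd (h (u.natDegree + 1)) hu
  rw [Polynomial.natDegree_pow, Polynomial.natDegree_X_sub_C] at h1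
  omega

theorem loc_zero {L : Matrix I I ℂ[X]} {r : ℂ} {W : Finset I} (hW : Zs L r ⊔ cs W = ⊤)
    (u : I → ℂ[X]) (h1 : ∀ z, L.mulVec z = 0 → u ⬝ᵥ z = 0) (h2 : ∀ b ∈ W, u b = 0) : u = 0 := by
  funext c
  exact eq_zero_of_forall_dvd (fun n => loc_div hW n u h1 (fun b hb => by
    rw [h2 b hb]; exact dvd_zero _) c)

theorem exists_reduced (r : ℂ) : ∀ (n : ℕ) (v : I → ℂ[X]) (i0 : I), v i0 ≠ 0 →
    (v i0).natDegree ≤ n →
    ∃ (j : ℕ) (v' : I → ℂ[X]), (∀ i, v i = (X - C r) ^ j * v' i) ∧ ∃ i, (v' i).eval r ≠ 0 := by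
  intro n
  induction n with
  | zero =>
    intro v i0 h0 h1
    refine ⟨0, v, fun i => by simp, i0, ?_⟩
    rw [Polynomial.eq_C_of_natDegree_eq_zero (Nat.le_zero.1 h1), Polynomial.eval_C]
    intro h2
    apply h0
    rw [Polynomial.eq_C_of_natDegree_eq_zero (Nat.le_zero.1 h1), h2, C_0]
  | succ n ih =>
    intro v i0 h0 h1
    by_cases hc : ∃ i, (v i).eval r ≠ 0
    · exact ⟨0, v, fun i => by simp, hc⟩
    · push Not at hc
      have h5 : ∀ i, ∃ w, v i = (X - C r) * w := fun i => Polynomial.dvd_iff_isRoot.2 (hc i)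
      choose v' hv' using h5
      have h6 : v' i0 ≠ 0 := by
        intro h; apply h0; rw [hv', h, mul_zero]
      have h7 : (v' i0).natDegree ≤ n := by
        have := h1
        rw [hv' i0, Polynomial.natDegree_mul (eps_ne r) h6, Polynomial.natDegree_X_sub_C] at this
        omega
      obtain ⟨j, v'', h8, h9⟩ := ih v' i0 h6 h7
      refine ⟨j + 1, v'', fun i => ?_, h9⟩
      rw [hv' i, h8 i]; ring

theorem loc_det {L : Matrix I I ℂ[X]} (hL : L.transpose = -L) {r : ℂ} {W : Finset I}
    (hW : IsCompl (Zs L r) (cs W)) :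
    (L.submatrix (fun i : W => (i : I)) (fun i : W => (i : I))).det ≠ 0 := by
  intro h0
  obtain ⟨w, hw0, hw⟩ := Matrix.exists_mulVec_eq_zero_iff.2 h0
  have h1 : L.mulVec (ext W w) = 0 := by
    apply loc_zero (codisjoint_iff.1 hW.codisjoint)
    · intro z hz
      exact skew_orth hL hz
    · intro b hb
      rw [mulVec_ext]
      have := congrFun hw ⟨b, hb⟩
      simpa [Matrix.mulVec, dotProduct] using this
  obtain ⟨a, ha⟩ : ∃ a, w a ≠ 0 := by
    by_contra hc
    push Not at hc
    exact hw0 (funext hc)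
  obtain ⟨j, v', h2, i, h3⟩ := exists_reduced r _ (ext W w) a (by rw [ext_mem]; exact ha) le_rfl
  have h4 : L.mulVec v' = 0 := by
    funext i
    have h5 := congrFun h1 i
    have h6 : L.mulVec (ext W w) i = (X - C r) ^ j * L.mulVec v' i := by
      rw [Matrix.mulVec, Matrix.mulVec, dotProduct, dotProduct, Finset.mul_sum]
      apply Finset.sum_congr rfl
      intro k _
      rw [h2 k]; ring
    rw [h6] at h5
    exact (mul_eq_zero.1 h5).resolve_left (pow_ne_zero _ (eps_ne r))
  have h5 : (fun i => (v' i).eval r) ∈ Zs L r := ⟨v', h4, fun i => rfl⟩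
  have h6 : (fun i => (v' i).eval r) ∈ cs W := by
    intro k hk
    have h7 : v' k = 0 := by
      have := h2 k
      rw [ext_not W w hk] at this
      exact (mul_eq_zero.1 this.symm).resolve_left (pow_ne_zero _ (eps_ne r))
    show (v' k).eval r = 0
    rw [h7, Polynomial.eval_zero]
  have h7 := (Submodule.disjoint_def.1 hW.disjoint) _ h5 h6
  exact h3 (congrFun h7 i)

section main

variable {L : Matrix I I ℂ[X]} (hL : L.transpose = -L) {r : ℂ} {W : Finset I}
  (hW : IsCompl (Zs L r) (cs W)) {N : Matrix W W ℂ[X]} (hN : N.transpose = -N)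
  {q q1 : ℂ[X]} {μ : ℕ} (hq : q = (X - C r) ^ μ * q1) (hq1 : q1.eval r ≠ 0)
  (hMN : (L.submatrix (fun i : W => (i : I)) (fun i : W => (i : I))) * N = q • 1)

include hMN hN in
theorem mul_row (a c : W) : L.mulVec (ext W (N a)) c = if c = a then -q else 0 := by
  rw [mulVec_ext]
  have h1 := congrFun (congrFun hMN c) a
  have h2 : ∀ j : W, N a j = - N j a := by
    intro j
    have := congrFun (congrFun hN j) a
    simpa using this
  simp only [h2, mul_neg, Finset.sum_neg_distrib]
  rw [Matrix.mul_apply] at h1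
  simp only [Matrix.submatrix_apply, Matrix.smul_apply, Matrix.one_apply, smul_eq_mul] at h1
  rw [h1]
  split_ifs <;> simp

include hL hW hN hq hMN in
theorem row_div (a : W) (c : I) : (X - C r) ^ μ ∣ L.mulVec (ext W (N a)) c := by
  apply loc_div (codisjoint_iff.1 hW.codisjoint)
  · intro z hz
    exact skew_orth hL hz
  · intro b hb
    have := mul_row hN hMN a ⟨b, hb⟩
    rw [this]
    split_ifs
    · rw [hq]; exact (dvd_mul_right _ _).neg_right
    · exact dvd_zero _

include hL hW hN hq hMN in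
theorem loc_one (hN0 : ∃ a b, (N a b).eval r ≠ 0) : ¬ Es L r μ ≤ Zs L r := by
  intro h
  obtain ⟨a, b, hab⟩ := hN0
  have h1 : (fun i => (ext W (N a) i).eval r) ∈ Es L r μ :=
    ⟨ext W (N a), row_div hL hW hN hq hMN a, fun i => rfl⟩
  have h2 : (fun i => (ext W (N a) i).eval r) ∈ cs W := by
    intro k hk
    show (ext W (N a) k).eval r = 0
    rw [ext_not W _ hk, Polynomial.eval_zero]
  have h3 := (Submodule.disjoint_def.1 hW.disjoint) _ (h h1) h2
  apply hab
  have := congrFun h3 b
  simpa [ext_mem] using this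

include hL hW hN hq hMN in
/-- a curve in the kernel up to order `m ≥ μ`. -/
theorem loc_two {m : ℕ} (hm : μ ≤ m) {v : I → ℂ[X]} (hv : ∀ i, (X - C r) ^ m ∣ L.mulVec v i) :
    ∃ c : W → ℂ[X], L.mulVec (fun i => (X - C r) ^ (m - μ) * (∑ a, c a * ext W (N a) i) +
      q1 * v i) = 0 := by
  choose u hu using hv
  choose U hU using row_div hL hW hN hq hMN
  have hem : ∀ k, (X - C r : ℂ[X]) ^ k ≠ 0 := fun k => pow_ne_zero _ (eps_ne r)
  have hUW : ∀ a c : W, U a c = if c = a then -q1 else 0 := by
    intro a c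
    have h1 := mul_row hN hMN a c
    rw [hU a c] at h1
    split_ifs at h1 ⊢ with h
    · rw [hq] at h1
      apply mul_left_cancel₀ (hem μ)
      rw [h1]; ring
    · exact (mul_eq_zero.1 h1).resolve_left (hem μ)
  -- d = ∑ u_a U_a + q1 u
  have hd : (fun c => ∑ a : W, u a * U a c + q1 * u c) = 0 := by
    apply loc_zero (codisjoint_iff.1 hW.codisjoint)
    · intro z hz
      have h1 : ∀ a, (U a) ⬝ᵥ z = 0 := by
        intro a
        have h2 := skew_orth hL (v := ext W (N a)) hz
        have h3 : (X - C r) ^ μ * ((U a) ⬝ᵥ z) = 0 := by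
          rw [← h2, dotProduct, dotProduct, Finset.mul_sum]
          apply Finset.sum_congr rfl
          intro i _
          rw [hU a i]; ring
        exact (mul_eq_zero.1 h3).resolve_left (hem μ)
      have h4 : u ⬝ᵥ z = 0 := by
        have h2 := skew_orth hL (v := v) hz
        have h3 : (X - C r) ^ m * (u ⬝ᵥ z) = 0 := by
          rw [← h2, dotProduct, dotProduct, Finset.mul_sum]
          apply Finset.sum_congr rfl
          intro i _
          rw [hu i]; ring
        exact (mul_eq_zero.1 h3).resolve_left (hem m)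
      have h5 : (fun c => ∑ a : W, u a * U a c + q1 * u c) ⬝ᵥ z =
          ∑ a : W, u a * ((U a) ⬝ᵥ z) + q1 * (u ⬝ᵥ z) := by
        simp only [dotProduct, add_mul, Finset.sum_add_distrib, Finset.mul_sum, Finset.sum_mul]
        rw [Finset.sum_comm]
        congr 1
        · apply Finset.sum_congr rfl; intro a _; apply Finset.sum_congr rfl; intro i _; ring
        · apply Finset.sum_congr rfl; intro i _; ring
      rw [h5, h4]
      simp [h1]
    · intro b hb
      have h6 : ∀ a : W, U a b = if (⟨b, hb⟩ : W) = a then -q1 else 0 := fun a => hUW a ⟨b, hb⟩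
      simp only [h6, mul_ite, mul_zero, Finset.sum_ite_eq, Finset.mem_univ, if_true]
      ring
  refine ⟨fun a => u a, ?_⟩
  funext c
  have h7 : L.mulVec (fun i => (X - C r) ^ (m - μ) * (∑ a : W, u a * ext W (N a) i) +
      q1 * v i) c = (X - C r) ^ (m - μ) * (∑ a : W, u a * L.mulVec (ext W (N a)) c) +
      q1 * L.mulVec v c := by
    simp only [Matrix.mulVec, dotProduct, mul_add, Finset.sum_add_distrib, Finset.mul_sum]
    congr 1
    · rw [Finset.sum_comm]
      apply Finset.sum_congr rfl; intro a _; apply Finset.sum_congr rfl; intro i _; ring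
    · apply Finset.sum_congr rfl; intro i _; ring
  rw [h7, hu c]
  simp only [hU]
  have h8 := congrFun hd c
  simp only [Pi.zero_apply] at h8 ⊢
  have h9 : (X - C r) ^ (m - μ) * (∑ a : W, u a * ((X - C r) ^ μ * U a c)) =
      (X - C r) ^ m * ∑ a : W, u a * U a c := by
    rw [Finset.mul_sum, Finset.mul_sum]
    apply Finset.sum_congr rfl
    intro a _
    have : (X - C r : ℂ[X]) ^ m = (X - C r) ^ (m - μ) * (X - C r) ^ μ := by
      rw [← pow_add]; congr 1; omega
    rw [this]; ring
  rw [h9]
  have h10 : (X - C r) ^ m * ∑ a : W, u a * U a c + q1 * ((X - C r) ^ m * u c) =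
      (X - C r) ^ m * (∑ a : W, u a * U a c + q1 * u c) := by ring
  rw [h10, h8, mul_zero]

include hL hW hN hq hq1 hMN in
theorem loc_three {m : ℕ} (hm : μ < m) : Es L r m ≤ Zs L r := by
  rintro v0 ⟨v, h1, h2⟩
  obtain ⟨c, hc⟩ := loc_two hL hW hN hq hMN hm.le h1
  have h3 : q1.eval r • v0 ∈ Zs L r := by
    refine ⟨_, hc, fun i => ?_⟩
    simp only [Polynomial.eval_add, Polynomial.eval_mul, Polynomial.eval_pow, Polynomial.eval_sub,
      Polynomial.eval_X, Polynomial.eval_C, sub_self, h2]
    rw [zero_pow (by omega), zero_mul, zero_add]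
    rfl
  have := (Zs L r).smul_mem (q1.eval r)⁻¹ h3
  rwa [smul_smul, inv_mul_cancel₀ hq1, one_smul] at this

include hL hW hN hq hq1 hMN in
theorem loc_four : Es L r μ ≤ Zs L r ⊔
    Submodule.span ℂ (Set.range fun a : W => fun i => (ext W (N a) i).eval r) := by
  rintro v0 ⟨v, h1, h2⟩
  obtain ⟨c, hc⟩ := loc_two hL hW hN hq hMN le_rfl h1
  have h3 : (fun i => ∑ a : W, (c a).eval r * (ext W (N a) i).eval r + q1.eval r * v0 i) ∈
      Zs L r := by
    refine ⟨_, hc, fun i => ?_⟩
    simp only [Polynomial.eval_add, Polynomial.eval_mul, h2, Nat.sub_self, pow_zero, one_mul,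
      Polynomial.eval_finsetSum]
  have h4 : (∑ a : W, (c a).eval r • (fun i => (ext W (N a) i).eval r)) ∈
      Submodule.span ℂ (Set.range fun a : W => fun i => (ext W (N a) i).eval r) :=
    Submodule.sum_mem _ fun a _ => Submodule.smul_mem _ _ (Submodule.subset_span ⟨a, rfl⟩)
  have h5 : v0 = (q1.eval r)⁻¹ • ((fun i => ∑ a : W, (c a).eval r * (ext W (N a) i).eval r +
      q1.eval r * v0 i) - (∑ a : W, (c a).eval r • (fun i => (ext W (N a) i).eval r))) := by
    funext i
    simp only [Pi.smul_apply, Pi.sub_apply, Finset.sum_apply, smul_eq_mul]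
    field_simp
    ring
  rw [h5]
  apply Submodule.smul_mem
  apply Submodule.sub_mem
  · exact Submodule.mem_sup_left h3
  · exact Submodule.mem_sup_right h4

include hL hW hN hq hq1 hMN in
/-- if the form `N(r)` has rank at most two, few curves exist. -/
theorem loc_five (u : W → ℂ) (a0 : W) (hu : u a0 ≠ 0)
    (hcl : ∀ a b c : W, u a * (N b c).eval r + u b * (N c a).eval r + u c * (N a b).eval r = 0) :
    Module.finrank ℂ (Es L r μ) ≤ Module.finrank ℂ (Zs L r) + 2 := by
  have h1 : Es L r μ ≤ Zs L r ⊔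
      Submodule.span ℂ {(fun i => (ext W (N a0) i).eval r), ext W u} := by
    refine (loc_four hL hW hN hq hq1 hMN).trans ?_
    apply sup_le_sup_left
    rw [Submodule.span_le]
    rintro _ ⟨b, rfl⟩
    have h2 : (fun i => (ext W (N b) i).eval r) =
        (u b / u a0) • (fun i => (ext W (N a0) i).eval r) +
        (-(N a0 b).eval r / u a0) • ext W u := by
      funext i
      by_cases hi : i ∈ W
      · have h3 := hcl a0 b ⟨i, hi⟩
        have h4 : (N ⟨i, hi⟩ a0).eval r = - (N a0 ⟨i, hi⟩).eval r := by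
          have := congrFun (congrFun hN a0) ⟨i, hi⟩
          simp only [Matrix.transpose_apply, Matrix.neg_apply] at this
          rw [this, Polynomial.eval_neg]
        rw [h4] at h3
        simp only [Pi.add_apply, Pi.smul_apply, smul_eq_mul, ext, hi, dif_pos]
        field_simp
        linear_combination h3
      · simp [ext, hi]
    show (fun i => (ext W (N b) i).eval r) ∈ _
    rw [h2]
    apply Submodule.add_mem
    · exact Submodule.smul_mem _ _ (Submodule.subset_span (by simp))
    · exact Submodule.smul_mem _ _ (Submodule.subset_span (by simp))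
  refine (Submodule.finrank_mono h1).trans ?_
  refine (Submodule.finrank_add_le_finrank_add_finrank _ _).trans ?_
  apply Nat.add_le_add_left
  have h3 := finrank_span_le_card (R := ℂ) ({(fun i => (ext W (N a0) i).eval r), ext W u} :
    Set (I → ℂ))
  refine h3.trans ?_
  rw [Set.toFinset_insert, Set.toFinset_singleton]
  exact Finset.card_le_two

include hL hW hN hq hq1 hMN in
/-- a vector killed by all `U_a` is the value of a kernel curve. -/
theorem loc_six (U : W → I → ℂ[X]) (k : ℂ[X]) (hk : k.eval r ≠ 0)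
    (hU : ∀ a c, (X - C r) ^ μ * k * U a c = L.mulVec (ext W (N a)) c) (G : I → ℂ)
    (hG : ∀ a, ∑ c, (U a c).eval r * G c = 0) : G ∈ Zs L r := by
  have hem : ∀ k, (X - C r : ℂ[X]) ^ k ≠ 0 := fun k => pow_ne_zero _ (eps_ne r)
  have hk0 : k ≠ 0 := by rintro rfl; simp at hk
  have h0 : G ∈ (Zs L r ⊔ cs W : Submodule ℂ (I → ℂ)) := by
    rw [codisjoint_iff.1 hW.codisjoint]; trivial
  rw [Submodule.mem_sup] at h0
  obtain ⟨y, hy, w, hw, rfl⟩ := h0
  obtain ⟨z, hz1, hz2⟩ := id hy
  have h1 : ∀ a, ∑ c, (U a c).eval r * y c = 0 := by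
    intro a
    have h2 := skew_orth hL (v := ext W (N a)) hz1
    have h3 : (X - C r) ^ μ * k * ((U a) ⬝ᵥ z) = 0 := by
      rw [← h2, dotProduct, dotProduct, Finset.mul_sum]
      apply Finset.sum_congr rfl
      intro i _
      rw [← hU a i]; ring
    have h4 := (mul_eq_zero.1 h3).resolve_left (mul_ne_zero (hem μ) hk0)
    have := congrArg (Polynomial.eval r) h4
    rw [dotProduct, Polynomial.eval_finsetSum] at this
    simpa only [Polynomial.eval_mul, hz2, Polynomial.eval_zero] using this
  have h2 : ∀ a, ∑ c, (U a c).eval r * w c = 0 := by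
    intro a
    have := hG a
    simp only [Pi.add_apply, mul_add, Finset.sum_add_distrib, h1, zero_add] at this
    exact this
  have h3 : w = 0 := by
    funext i
    by_cases hi : i ∈ W
    · have h4 := h2 ⟨i, hi⟩
      have h5 : ∀ c : W, k.eval r * (U ⟨i, hi⟩ c).eval r =
          if c = ⟨i, hi⟩ then - q1.eval r else 0 := by
        intro c
        have h6 := hU ⟨i, hi⟩ c
        rw [mul_row hN hMN] at h6
        have h7 : k * U ⟨i, hi⟩ c = if c = ⟨i, hi⟩ then -q1 else 0 := by
          apply mul_left_cancel₀ (hem μ)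
          rw [← mul_assoc, h6, hq]
          split_ifs
          · ring
          · ring
        have := congrArg (Polynomial.eval r) h7
        rw [Polynomial.eval_mul] at this
        rw [this]
        split_ifs <;> simp
      have h6 : ∑ c, (U ⟨i, hi⟩ c).eval r * w c = ∑ c : W, (U ⟨i, hi⟩ c).eval r * w c := by
        rw [← Finset.sum_subset (Finset.subset_univ W)]
        · rw [← Finset.sum_coe_sort W (fun c => (U ⟨i, hi⟩ c).eval r * w c)]
        · intro j _ hj
          rw [hw j hj, mul_zero]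
      rw [h6] at h4
      have h7 : k.eval r * ∑ c : W, (U ⟨i, hi⟩ c).eval r * w c = - q1.eval r * w i := by
        rw [Finset.mul_sum]
        simp only [← mul_assoc, h5]
        simp [ite_mul]
      rw [h4, mul_zero] at h7
      have h8 : q1.eval r * w i = 0 := by linear_combination h7
      exact (mul_eq_zero.1 h8).resolve_left hq1
    · exact hw i hi
  rw [h3, add_zero]
  exact hy

end main

end Pool.Agent.H4.JK
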