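import Pool.Agent.H4.JKn

/-! Polynomial Poisson structures: minimal denominators and closedness of the leafwise form. -/

namespace Pool.Agent.H4.JK

open MvPolynomial

variable {I : Type} [Fintype I] [DecidableEq I]

/-! ### Derivatives and degrees -/

theorem totalDegree_pderiv_lt (f : MvPolynomial I ℂ) (i : I) (h : pderiv i f ≠ 0) :
    (pderiv i f).totalDegree < f.totalDegree := by
  have h1 : ∀ m ∈ (pderiv i f).support, m.degree + 1 ≤ f.totalDegree := by
    intro m hm
    rw [mem_support_iff, coeff_pderiv] at hm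
    have h2 : m + Finsupp.single i 1 ∈ f.support := by
      rw [mem_support_iff]
      exact left_ne_zero_of_mul hm
    have h3 := le_totalDegree h2
    have h4 : (m + Finsupp.single i 1).sum (fun _ e => e) = m.degree + 1 := by
      change (m + Finsupp.single i 1).degree = _
      rw [map_add, Finsupp.degree_single]
    omega
  obtain ⟨m, hm⟩ := support_nonempty.2 h
  have h5 := h1 m hm
  have h6 : (pderiv i f).totalDegree ≤ f.totalDegree - 1 := by
    apply Finset.sup_le
    intro m hm
    have := h1 m hm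
    change m.degree ≤ _
    omega
  omega

theorem irreducible_totalDegree {f : MvPolynomial I ℂ} (hf : Irreducible f) :
    0 < f.totalDegree := by
  rw [Nat.pos_iff_ne_zero]
  intro h
  rw [totalDegree_eq_zero_iff_eq_C] at h
  apply hf.not_isUnit
  rw [h]
  apply IsUnit.map
  rw [isUnit_iff_ne_zero]
  intro h0
  rw [h0, C_0] at h
  exact hf.ne_zero h

theorem pderiv_zero_of_dvd {f : MvPolynomial I ℂ} {i : I} (h : f ∣ pderiv i f) :
    pderiv i f = 0 := by
  by_contra hc
  have h1 := totalDegree_le_of_dvd_of_isDomain h hc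
  have h2 := totalDegree_pderiv_lt f i hc
  omega

theorem exists_pderiv_ne {f : MvPolynomial I ℂ} (hf : Irreducible f) : ∃ i, pderiv i f ≠ 0 := by
  by_contra hc
  push Not at hc
  have h1 : ∀ m : I →₀ ℕ, m ≠ 0 → coeff m f = 0 := by
    intro m hm
    obtain ⟨i, hi⟩ : ∃ i, m i ≠ 0 := by
      by_contra h2
      push Not at h2
      exact hm (Finsupp.ext h2)
    have h3 := coeff_pderiv f (i := i) (m - Finsupp.single i 1)
    have h4 : m - Finsupp.single i 1 + Finsupp.single i 1 = m := by
      ext j
      simp only [Finsupp.coe_add, Finsupp.coe_tsub, Pi.add_apply, Pi.sub_apply, Finsupp.single_apply]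
      split_ifs with h
      · subst h; omega
      · omega
    rw [hc i, coeff_zero, h4] at h3
    have h5 : (((m - Finsupp.single i 1 : I →₀ ℕ) i : ℕ) + 1 : ℂ) ≠ 0 :=
      Nat.cast_add_one_ne_zero _
    exact (mul_eq_zero.1 h3.symm).resolve_right h5
  have h2 : f = C (coeff 0 f) := by
    ext m
    rw [coeff_C]
    split_ifs with h
    · rw [h]
    · exact h1 m (fun h' => h h'.symm)
  have h3 := irreducible_totalDegree hf
  rw [h2, totalDegree_C] at h3
  omega

/-! ### Restriction to a line -/

/-- restriction to the line `x + X a`. -/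
noncomputable def line (p : (I → ℂ) × (I → ℂ)) : MvPolynomial I ℂ →+* Polynomial ℂ :=
  eval₂Hom Polynomial.C (fun i => Polynomial.C (p.1 i) + Polynomial.X * Polynomial.C (p.2 i))

/-- point of the line. -/
def pt (p : (I → ℂ) × (I → ℂ)) (t : ℂ) : I → ℂ := fun i => p.1 i + t * p.2 i

theorem eval_line (p : (I → ℂ) × (I → ℂ)) (t : ℂ) (g : MvPolynomial I ℂ) :
    (line p g).eval t = eval (pt p t) g := by
  have h : (Polynomial.evalRingHom t).comp (line p) = eval (pt p t) := by
    apply ringHom_ext
    · intro r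
      simp [line]
    · intro i
      simp [line, pt]
      ring
  exact congrArg (fun F => F g) h

theorem derivative_line (p : (I → ℂ) × (I → ℂ)) (g : MvPolynomial I ℂ) :
    Polynomial.derivative (line p g) = ∑ i, Polynomial.C (p.2 i) * line p (pderiv i g) := by
  induction g using MvPolynomial.induction_on with
  | C a => simp [line]
  | add f g hf hg => simp only [map_add, Polynomial.derivative_add, hf, hg, mul_add,
      Finset.sum_add_distrib]
  | mul_X f i hf =>
    rw [map_mul, Polynomial.derivative_mul, hf]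
    have h1 : Polynomial.derivative (line p (X i)) = Polynomial.C (p.2 i) := by
      simp [line]
    rw [h1]
    simp only [Derivation.leibniz, pderiv_X, smul_eq_mul, map_add, map_mul, mul_add,
      Finset.sum_add_distrib]
    rw [add_comm]
    congr 1
    · rw [Finset.sum_eq_single i]
      · simp [mul_comm]
      · intro j _ hj
        rw [Pi.single_apply, if_neg (fun h => hj h.symm)]
        simp
      · intro h; exact absurd (Finset.mem_univ i) h
    · rw [Finset.sum_mul]
      apply Finset.sum_congr rfl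
      intro j _
      ring

/-- the roots of an irreducible polynomial on a generic line are simple. -/
theorem gen_simple {f : MvPolynomial I ℂ} (hf : Irreducible f) :
    ∀ᶠ p in gen I, ∀ t, eval (pt p t) f = 0 →
      (Polynomial.derivative (line p f)).eval t ≠ 0 := by
  have h1 : ¬ rename Sum.inl f ∣
      (∑ i, X (Sum.inr i) * rename Sum.inl (pderiv i f) : MvPolynomial (I ⊕ I) ℂ) := by
    intro h
    obtain ⟨i, hi⟩ := exists_pderiv_ne hf
    apply hi
    apply pderiv_zero_of_dvd
    have h2 := map_dvd (aeval (Sum.elim X (fun j => if j = i then 1 else 0)) :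
      MvPolynomial (I ⊕ I) ℂ →ₐ[ℂ] MvPolynomial I ℂ) h
    rw [aeval_rename] at h2
    have h3 : (Sum.elim X (fun j => if j = i then 1 else 0) : I ⊕ I → MvPolynomial I ℂ) ∘
      Sum.inl = X := by
      funext i; rfl
    rw [h3, aeval_X_left_apply, map_sum] at h2
    simp only [map_mul, aeval_rename, h3, aeval_X_left_apply, aeval_X, Sum.elim_inr, ite_mul,
      one_mul, zero_mul, Finset.sum_ite_eq', Finset.mem_univ, if_true] at h2
    exact h2
  filter_upwards [gen_line hf h1] with p hp t ht
  have h2 := hp t ht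
  rw [derivative_line, Polynomial.eval_finsetSum]
  rw [map_sum] at h2
  have h3 : ∀ i, Polynomial.eval t (Polynomial.C (p.2 i) * line p (pderiv i f)) =
      eval (Sum.elim (fun i => p.1 i + t * p.2 i) p.2)
        (X (Sum.inr i) * rename Sum.inl (pderiv i f)) := by
    intro i
    rw [map_mul, eval_X, eval_rename, Polynomial.eval_mul, Polynomial.eval_C, eval_line]
    rfl
  rw [Finset.sum_congr rfl (fun i _ => h3 i)]
  exact h2

/-! ### Minimal denominators -/

theorem exists_NQ {W : Type} [Fintype W] [DecidableEq W] (M : Matrix W W (MvPolynomial I ℂ))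
    (hM : M.transpose = -M) (hdet : M.det ≠ 0) :
    ∃ (N : Matrix W W (MvPolynomial I ℂ)) (q : MvPolynomial I ℂ), q ≠ 0 ∧ M * N = q • 1 ∧
      N.transpose = -N ∧ ∀ f, Irreducible f → f ∣ q → ∃ a b, ¬ f ∣ N a b := by
  classical
  let S : Set ℕ := {n | ∃ (N : Matrix W W (MvPolynomial I ℂ)) (q : MvPolynomial I ℂ), q ≠ 0 ∧
    M * N = q • 1 ∧ q.totalDegree = n}
  have hS : ∃ n, n ∈ S := ⟨_, M.adjugate, M.det, hdet, Matrix.mul_adjugate M, rfl⟩
  obtain ⟨N, q, hq, hMN, hdeg⟩ := Nat.find_spec hS
  have hmin : ∀ n < Nat.find hS, n ∉ S := fun n hn => Nat.find_min hS hn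
  refine ⟨N, q, hq, hMN, ?_, ?_⟩
  · have h1 : N.transpose * M = (-q) • 1 := by
      have := congrArg Matrix.transpose hMN
      rw [Matrix.transpose_mul, hM, Matrix.mul_neg, Matrix.transpose_smul, Matrix.transpose_one]
        at this
      rw [neg_smul, ← this, neg_neg]
    have h2 : N.transpose * (M * N) = (N.transpose * M) * N := (Matrix.mul_assoc _ _ _).symm
    rw [h1, hMN, Matrix.mul_smul, Matrix.mul_one, Matrix.smul_mul, Matrix.one_mul, neg_smul,
      ← smul_neg] at h2
    ext1 i j
    have h3 := congrFun (congrFun h2 i) j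
    simp only [Matrix.smul_apply, smul_eq_mul] at h3
    exact mul_left_cancel₀ hq h3
  · intro f hf hfq
    by_contra hc
    push Not at hc
    choose N' hN' using hc
    obtain ⟨q', hq'⟩ := hfq
    have hq'0 : q' ≠ 0 := by rintro rfl; rw [mul_zero] at hq'; exact hq hq'
    have h1 : M * (Matrix.of N') = q' • 1 := by
      ext1 i j
      have h2 := congrFun (congrFun hMN i) j
      rw [Matrix.mul_apply] at h2 ⊢
      have h3 : f * ∑ k, M i k * (Matrix.of N') k j = f * (q' • (1 : Matrix W W _)) i j := by
        rw [Finset.mul_sum]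
        have h4 : ∀ k, f * (M i k * (Matrix.of N') k j) = M i k * N k j := by
          intro k
          rw [hN' k j, Matrix.of_apply]
          ring
        rw [Finset.sum_congr rfl (fun k _ => h4 k), h2, hq']
        simp only [Matrix.smul_apply, smul_eq_mul]
        ring
      exact mul_left_cancel₀ hf.ne_zero h3
    refine hmin q'.totalDegree ?_ ⟨Matrix.of N', q', hq'0, h1, rfl⟩
    rw [← hdeg, hq', totalDegree_mul_of_isDomain hf.ne_zero hq'0]
    have := irreducible_totalDegree hf
    omega

/-! ### Closedness -/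

/-- the derivation with given coefficients. -/
noncomputable def vf (U : I → MvPolynomial I ℂ) :
    Derivation ℂ (MvPolynomial I ℂ) (MvPolynomial I ℂ) := ∑ c, U c • pderiv c

theorem vf_apply (U : I → MvPolynomial I ℂ) (g : MvPolynomial I ℂ) :
    vf U g = ∑ c, U c * pderiv c g := by
  have h : ∀ s : Finset I, (∑ c ∈ s, U c • pderiv c : Derivation ℂ (MvPolynomial I ℂ)
      (MvPolynomial I ℂ)) g = ∑ c ∈ s, U c * pderiv c g := by
    intro s
    induction s using Finset.induction_on with
    | empty => simp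
    | insert a s ha ih => rw [Finset.sum_insert ha, Finset.sum_insert ha, Derivation.add_apply, ih,
        Derivation.smul_apply, smul_eq_mul]
  exact h _

/-- Jacobi identity of a Poisson matrix. -/
def Jac (𝒜 : Matrix I I (MvPolynomial I ℂ)) : Prop :=
  ∀ a b c, vf (𝒜 a) (𝒜 b c) + vf (𝒜 b) (𝒜 c a) + vf (𝒜 c) (𝒜 a b) = 0

section closed

variable {𝒜 : Matrix I I (MvPolynomial I ℂ)} (hA : 𝒜.transpose = -𝒜) (hJ : Jac 𝒜)
  {W : Finset I} {N : Matrix W W (MvPolynomial I ℂ)} {q : MvPolynomial I ℂ}
  (hN : N.transpose = -N)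
  (hMN : (𝒜.submatrix (fun i : W => (i : I)) (fun i : W => (i : I))) * N = q • 1)

include hA hN hMN in
theorem deriv_N (D : Derivation ℂ (MvPolynomial I ℂ) (MvPolynomial I ℂ)) (b c : W) :
    q * D (N b c) - N b c * D q = ∑ i : W, ∑ k : W, N b i * N c k * D (𝒜 i k) := by
  set M := 𝒜.submatrix (fun i : W => (i : I)) (fun i : W => (i : I)) with hMdef
  have hNM : N * M = q • 1 := by
    have := congrArg Matrix.transpose hMN
    rw [Matrix.transpose_mul, hN, Matrix.transpose_smul, Matrix.transpose_one] at this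
    have h2 : M.transpose = -M := by
      ext1 i j
      have := congrFun (congrFun hA i) j
      simpa [hMdef] using this
    rw [h2, Matrix.neg_mul, Matrix.mul_neg, neg_neg] at this
    exact this
  -- derivative of M N = q
  have h1 : ∀ i j : W, ∑ k, (M i k * D (N k j) + N k j * D (M i k)) = if i = j then D q else 0 := by
    intro i j
    have h2 := congrArg D (congrFun (congrFun hMN i) j)
    rw [Matrix.mul_apply, map_sum] at h2
    simp only [Derivation.leibniz, smul_eq_mul, Matrix.smul_apply, Matrix.one_apply] at h2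
    rw [h2]
    split_ifs <;> simp
  have h2 : ∑ i, N b i * ∑ k, (M i k * D (N k c) + N k c * D (M i k)) = N b c * D q := by
    simp only [h1, mul_ite, mul_zero]
    simp
  have h3 : ∑ i, N b i * ∑ k, (M i k * D (N k c) + N k c * D (M i k)) =
      q * D (N b c) + ∑ i, ∑ k, N b i * N k c * D (M i k) := by
    simp only [Finset.sum_add_distrib, mul_add, Finset.mul_sum]
    congr 1
    · rw [Finset.sum_comm]
      have h4 : ∀ k, ∑ i, N b i * (M i k * D (N k c)) = (if b = k then q else 0) * D (N k c) := by
        intro k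
        have h5 := congrFun (congrFun hNM b) k
        rw [Matrix.mul_apply] at h5
        simp only [Matrix.smul_apply, Matrix.one_apply, smul_eq_mul, mul_ite, mul_one,
          mul_zero] at h5
        rw [← h5, Finset.sum_mul]
        apply Finset.sum_congr rfl
        intro i _; ring
      rw [Finset.sum_congr rfl (fun k _ => h4 k)]
      simp
    · apply Finset.sum_congr rfl; intro i _; apply Finset.sum_congr rfl; intro k _; ring
  rw [h3] at h2
  have h4 : ∀ i k : W, N b i * N k c * D (M i k) = - (N b i * N c k * D (𝒜 i k)) := by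
    intro i k
    have h5 : N k c = - N c k := by
      have := congrFun (congrFun hN c) k
      simpa using this
    rw [h5]
    simp only [hMdef, Matrix.submatrix_apply]
    ring
  simp only [h4, Finset.sum_neg_distrib] at h2
  linear_combination h2

/-- the vector field `∑_b N_ab X_b`. -/
noncomputable def del (𝒜 : Matrix I I (MvPolynomial I ℂ)) {W : Finset I}
    (N : Matrix W W (MvPolynomial I ℂ)) (a : W) (c : I) : MvPolynomial I ℂ :=
  ∑ b : W, N a b * 𝒜 b c

theorem vf_del (a : W) (g : MvPolynomial I ℂ) :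
    vf (del 𝒜 N a) g = ∑ b : W, N a b * vf (𝒜 b) g := by
  simp only [vf_apply, del, Finset.sum_mul, Finset.mul_sum]
  rw [Finset.sum_comm]
  apply Finset.sum_congr rfl; intro i _; apply Finset.sum_congr rfl; intro k _; ring

include hA hJ hN hMN in
theorem closed (a b c : W) :
    (q * vf (del 𝒜 N a) (N b c) - N b c * vf (del 𝒜 N a) q) +
    (q * vf (del 𝒜 N b) (N c a) - N c a * vf (del 𝒜 N b) q) +
    (q * vf (del 𝒜 N c) (N a b) - N a b * vf (del 𝒜 N c) q) = 0 := by
  rw [deriv_N hA hN hMN, deriv_N hA hN hMN, deriv_N hA hN hMN]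
  simp only [vf_del, Finset.mul_sum]
  have e1 : ∑ i : W, ∑ k : W, ∑ j : W, N b i * N c k * (N a j * vf (𝒜 j) (𝒜 i k)) =
      ∑ x : W, ∑ y : W, ∑ z : W, N a x * N b y * N c z * vf (𝒜 x) (𝒜 y z) := by
    calc _ = ∑ i : W, ∑ j : W, ∑ k : W, N b i * N c k * (N a j * vf (𝒜 j) (𝒜 i k)) := by
          apply Finset.sum_congr rfl; intro i _; rw [Finset.sum_comm]
      _ = ∑ j : W, ∑ i : W, ∑ k : W, N b i * N c k * (N a j * vf (𝒜 j) (𝒜 i k)) := by
          rw [Finset.sum_comm]
      _ = _ := by
          apply Finset.sum_congr rfl; intro x _; apply Finset.sum_congr rfl; intro y _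
          apply Finset.sum_congr rfl; intro z _; ring
  have e2 : ∑ i : W, ∑ k : W, ∑ j : W, N c i * N a k * (N b j * vf (𝒜 j) (𝒜 i k)) =
      ∑ x : W, ∑ y : W, ∑ z : W, N a x * N b y * N c z * vf (𝒜 y) (𝒜 z x) := by
    calc _ = ∑ k : W, ∑ i : W, ∑ j : W, N c i * N a k * (N b j * vf (𝒜 j) (𝒜 i k)) := by
          rw [Finset.sum_comm]
      _ = ∑ k : W, ∑ j : W, ∑ i : W, N c i * N a k * (N b j * vf (𝒜 j) (𝒜 i k)) := by
          apply Finset.sum_congr rfl; intro i _; rw [Finset.sum_comm]
      _ = _ := by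
          apply Finset.sum_congr rfl; intro x _; apply Finset.sum_congr rfl; intro y _
          apply Finset.sum_congr rfl; intro z _; ring
  have e3 : ∑ i : W, ∑ k : W, ∑ j : W, N a i * N b k * (N c j * vf (𝒜 j) (𝒜 i k)) =
      ∑ x : W, ∑ y : W, ∑ z : W, N a x * N b y * N c z * vf (𝒜 z) (𝒜 x y) := by
    apply Finset.sum_congr rfl; intro x _; apply Finset.sum_congr rfl; intro y _
    apply Finset.sum_congr rfl; intro z _; ring
  rw [e1, e2, e3]
  simp only [← Finset.sum_add_distrib]
  apply Finset.sum_eq_zero; intro x _; apply Finset.sum_eq_zero; intro y _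
  apply Finset.sum_eq_zero; intro z _
  have := hJ x y z
  linear_combination (N a x * N b y * N c z) * this

include hA hJ hN hMN in
/-- closedness at a point of the hypersurface `f = 0`. -/
theorem closed_at {f h : MvPolynomial I ℂ} (hf : f ≠ 0) {μ : ℕ} (hq : q = f ^ μ * h)
    (hμ : 1 ≤ μ)
    {U : W → I → MvPolynomial I ℂ} (hU : ∀ a c, del 𝒜 N a c = f ^ μ * U a c)
    {y : I → ℂ} (hy : eval y f = 0) (hh : eval y h ≠ 0) (a b c : W) :
    (∑ i, eval y (U a i) * eval y (pderiv i f)) * eval y (N b c) +
    (∑ i, eval y (U b i) * eval y (pderiv i f)) * eval y (N c a) +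
    (∑ i, eval y (U c i) * eval y (pderiv i f)) * eval y (N a b) = 0 := by
  obtain ⟨ν, rfl⟩ : ∃ ν, μ = ν + 1 := ⟨μ - 1, by omega⟩
  have h1 : ∀ (a : W) (g : MvPolynomial I ℂ), vf (del 𝒜 N a) g = f ^ (ν + 1) * vf (U a) g := by
    intro a g
    rw [vf_apply, vf_apply, Finset.mul_sum]
    apply Finset.sum_congr rfl
    intro i _
    rw [hU a i]; ring
  have h2 : ∀ a : W, vf (U a) q = f ^ (ν + 1) * vf (U a) h +
      ((ν + 1 : ℕ) : MvPolynomial I ℂ) * f ^ ν * h * vf (U a) f := by
    intro a
    rw [hq, Derivation.leibniz, Derivation.leibniz_pow]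
    simp only [smul_eq_mul, nsmul_eq_mul, Nat.add_sub_cancel]
    ring
  have h3 := closed hA hJ hN hMN a b c
  simp only [h1, h2] at h3
  have h4 : f ^ (ν + 1) * f ^ ν * (
      (f * h * vf (U a) (N b c) - N b c * (f * vf (U a) h + ((ν + 1 : ℕ) : MvPolynomial I ℂ) * h *
        vf (U a) f)) +
      (f * h * vf (U b) (N c a) - N c a * (f * vf (U b) h + ((ν + 1 : ℕ) : MvPolynomial I ℂ) * h *
        vf (U b) f)) +
      (f * h * vf (U c) (N a b) - N a b * (f * vf (U c) h + ((ν + 1 : ℕ) : MvPolynomial I ℂ) * h *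
        vf (U c) f))) = 0 := by
    rw [← h3, hq]
    ring
  have h5 := (mul_eq_zero.1 h4).resolve_left (mul_ne_zero (pow_ne_zero _ hf) (pow_ne_zero _ hf))
  have h6 := congrArg (eval y) h5
  have h7 : ∀ a : W, eval y (vf (U a) f) = ∑ i, eval y (U a i) * eval y (pderiv i f) := by
    intro a
    rw [vf_apply, map_sum]
    simp only [map_mul]
  simp only [map_add, map_sub, map_mul, hy, h7, map_zero, map_natCast, zero_mul, zero_add,
    zero_sub] at h6
  have h8 : ((ν + 1 : ℕ) : ℂ) ≠ 0 := Nat.cast_ne_zero.2 (Nat.succ_ne_zero ν)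
  have h9 : ((ν + 1 : ℕ) : ℂ) * eval y h * (
    (∑ i, eval y (U a i) * eval y (pderiv i f)) * eval y (N b c) +
    (∑ i, eval y (U b i) * eval y (pderiv i f)) * eval y (N c a) +
    (∑ i, eval y (U c i) * eval y (pderiv i f)) * eval y (N a b)) = 0 := by
    linear_combination -h6
  exact (mul_eq_zero.1 h9).resolve_left (mul_ne_zero h8 hh)

end closed

end Pool.Agent.H4.JK
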