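import Pool.Agent.H4.JKo

/-! Hypersurfaces at which the pencil has two large blocks: the differential of the equation is
the value of a kernel curve. -/

namespace Pool.Agent.H4.JK

open MvPolynomial

variable {I : Type} [Fintype I] [DecidableEq I]

/-- the pencil on the line. -/
noncomputable def LL (𝒜 : Matrix I I (MvPolynomial I ℂ)) (p : (I → ℂ) × (I → ℂ)) :
    Matrix I I (Polynomial ℂ) := 𝒜.map (line p)

theorem LL_skew {𝒜 : Matrix I I (MvPolynomial I ℂ)} (hA : 𝒜.transpose = -𝒜)
    (p : (I → ℂ) × (I → ℂ)) : (LL 𝒜 p).transpose = -LL 𝒜 p := by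
  ext1 i j
  have := congrFun (congrFun hA i) j
  simp only [Matrix.transpose_apply, Matrix.neg_apply] at this
  simp [LL, this]

theorem exists_compl (Z : Submodule ℂ (I → ℂ)) : ∃ W : Finset I, IsCompl Z (cs W) := by
  classical
  obtain ⟨κ, a, ha, hsp, hli⟩ := exists_linearIndependent' ℂ
    (fun i : I => Z.mkQ (Pi.single i (1 : ℂ)))
  have hκ : Finite κ := Finite.of_injective a ha
  have hκ' : Fintype κ := Fintype.ofFinite κ
  refine ⟨Finset.univ.image a, ?_⟩
  rw [isCompl_iff]
  constructor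
  · rw [Submodule.disjoint_def]
    intro v hv hw
    have h1 : Z.mkQ v = 0 := (Submodule.Quotient.mk_eq_zero Z).2 hv
    have h2 : v = ∑ k, v (a k) • (Pi.single (a k) (1 : ℂ) : I → ℂ) := by
      funext i
      rw [Finset.sum_apply]
      by_cases hi : ∃ k, a k = i
      · obtain ⟨k, rfl⟩ := hi
        rw [Finset.sum_eq_single k]
        · simp
        · intro j _ hj
          rw [Pi.smul_apply, Pi.single_apply, if_neg (fun h => hj (ha h).symm)]
          simp
        · intro h; exact absurd (Finset.mem_univ k) h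
      · have h3 : v i = 0 := hw i (by
          simp only [Finset.mem_image, Finset.mem_univ, true_and]
          exact hi)
        rw [h3]
        symm
        apply Finset.sum_eq_zero
        intro k _
        rw [Pi.smul_apply, Pi.single_apply, if_neg (fun h => hi ⟨k, h.symm⟩)]
        simp
    rw [h2, map_sum] at h1
    simp only [map_smul] at h1
    have h3 := (Fintype.linearIndependent_iff.1 hli) (fun k => v (a k)) h1
    rw [h2]
    apply Finset.sum_eq_zero
    intro k _
    rw [h3 k, zero_smul]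
  · rw [codisjoint_iff, eq_top_iff]
    intro v _
    have h1 : Z.mkQ v ∈ Submodule.span ℂ (Set.range ((fun i : I => Z.mkQ (Pi.single i (1 : ℂ))) ∘ a)) := by
      rw [hsp]
      have h2 : v = ∑ i, v i • (Pi.single i (1 : ℂ) : I → ℂ) := by
        funext j
        rw [Finset.sum_apply]
        simp [Pi.single_apply]
      rw [h2, map_sum]
      apply Submodule.sum_mem
      intro i _
      rw [map_smul]
      exact Submodule.smul_mem _ _ (Submodule.subset_span ⟨i, rfl⟩)
    rw [Submodule.mem_span_range_iff_exists_fun] at h1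
    obtain ⟨c, hc⟩ := h1
    simp only [Function.comp_apply, ← map_smul, ← map_sum] at hc
    have h2 : v - ∑ k, c k • (Pi.single (a k) (1 : ℂ) : I → ℂ) ∈ Z := by
      rw [← Submodule.Quotient.mk_eq_zero Z]
      change Z.mkQ _ = 0
      rw [map_sub, hc, sub_self]
    have h3 : (∑ k, c k • (Pi.single (a k) (1 : ℂ) : I → ℂ)) ∈ cs (Finset.univ.image a) := by
      intro i hi
      rw [Finset.sum_apply]
      apply Finset.sum_eq_zero
      intro k _
      rw [Pi.smul_apply, Pi.single_apply, if_neg]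
      · simp
      · rintro rfl
        exact hi (Finset.mem_image_of_mem _ (Finset.mem_univ k))
    rw [Submodule.mem_sup]
    exact ⟨_, h2, _, h3, by simp⟩

theorem le_of_pow_dvd {r : ℂ} {μ ν : ℕ} {w : Polynomial ℂ} (hw : w.eval r ≠ 0)
    (h : (Polynomial.X - Polynomial.C r) ^ μ ∣ (Polynomial.X - Polynomial.C r) ^ ν * w) :
    μ ≤ ν := by
  by_contra hc
  push Not at hc
  have h1 : (Polynomial.X - Polynomial.C r : Polynomial ℂ) ^ μ =
      (Polynomial.X - Polynomial.C r) ^ ν * (Polynomial.X - Polynomial.C r) ^ (μ - ν) := by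
    rw [← pow_add]; congr 1; omega
  rw [h1, mul_dvd_mul_iff_left (pow_ne_zero _ (eps_ne r))] at h
  have h2 : (Polynomial.X - Polynomial.C r : Polynomial ℂ) ∣ w :=
    (dvd_pow_self _ (by omega)).trans h
  exact hw (Polynomial.dvd_iff_isRoot.1 h2)

section F

variable {𝒜 : Matrix I I (MvPolynomial I ℂ)} (hA : 𝒜.transpose = -𝒜) (hJ : Jac 𝒜)
  {f : MvPolynomial I ℂ} (hf : Irreducible f)

include hA hJ hf in
/-- the statement for one `W`. -/
theorem F_one (W : Finset I)
    (hdet : (𝒜.submatrix (fun i : W => (i : I)) (fun i : W => (i : I))).det ≠ 0) :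
    ∀ᶠ p in gen I, ∀ r, eval (pt p r) f = 0 → IsCompl (Zs (LL 𝒜 p) r) (cs W) →
      ∀ m, 1 ≤ m → Es (LL 𝒜 p) r (m + 1) ≤ Zs (LL 𝒜 p) r →
      Module.finrank ℂ (Zs (LL 𝒜 p) r) + 3 ≤ Module.finrank ℂ (Es (LL 𝒜 p) r m) →
      (fun i => eval (pt p r) (pderiv i f)) ∈ Zs (LL 𝒜 p) r := by
  classical
  have hsk : (𝒜.submatrix (fun i : W => (i : I)) (fun i : W => (i : I))).transpose =
      -(𝒜.submatrix (fun i : W => (i : I)) (fun i : W => (i : I))) := by
    ext1 i j
    have := congrFun (congrFun hA i) j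
    simpa using this
  obtain ⟨N, q, hq0, hMN, hN, hmin⟩ := exists_NQ _ hsk hdet
  obtain ⟨μ, h, hfh, hqh⟩ := WfDvdMonoid.max_power_factor hq0 hf
  have hP : ∀ (a : W) (c : I), ∃ (ν : ℕ) (P' : MvPolynomial I ℂ),
      (del 𝒜 N a c = 0) ∨ (¬ f ∣ P' ∧ del 𝒜 N a c = f ^ ν * P') := by
    intro a c
    by_cases h0 : del 𝒜 N a c = 0
    · exact ⟨0, 0, Or.inl h0⟩
    · obtain ⟨ν, P', h1, h2⟩ := WfDvdMonoid.max_power_factor h0 hf
      exact ⟨ν, P', Or.inr ⟨h1, h2⟩⟩
  choose ν P' hP' using hP
  have g1 : ∀ᶠ p in gen I, ∀ t, eval (pt p t) f = 0 → eval (pt p t) h ≠ 0 := gen_line' hf hfh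
  have g2 : ∀ᶠ p in gen I, ∀ (a : W) (c : I), ∀ t, eval (pt p t) f = 0 →
      (del 𝒜 N a c = 0 ∨ eval (pt p t) (P' a c) ≠ 0) := by
    rw [Filter.eventually_all]
    intro a
    rw [Filter.eventually_all]
    intro c
    rcases hP' a c with h1 | ⟨h1, h2⟩
    · exact Filter.Eventually.of_forall fun p t _ => Or.inl h1
    · filter_upwards [gen_line' hf h1] with p hp t ht
      exact Or.inr (hp t ht)
  have g3 : ∀ᶠ p in gen I, f ∣ q → ∃ a b : W, ∀ t, eval (pt p t) f = 0 →
      eval (pt p t) (N a b) ≠ 0 := by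
    by_cases hfq : f ∣ q
    · obtain ⟨a, b, hab⟩ := hmin f hf hfq
      filter_upwards [gen_line' hf hab] with p hp _
      exact ⟨a, b, hp⟩
    · exact Filter.Eventually.of_forall fun p hh => absurd hh hfq
  filter_upwards [g1, g2, g3, gen_simple hf] with p hp1 hp2 hp3 hp4
  intro r hr hcompl m hm hE1 hE2
  set L := LL 𝒜 p with hL
  have hLs : L.transpose = -L := LL_skew hA p
  -- the local data
  obtain ⟨F1, hF1⟩ : ∃ F1, line p f = (Polynomial.X - Polynomial.C r) * F1 := by
    apply Polynomial.dvd_iff_isRoot.2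
    show (line p f).eval r = 0
    rw [eval_line, hr]
  have hF1r : F1.eval r ≠ 0 := by
    have := hp4 r hr
    rw [hF1, Polynomial.derivative_mul] at this
    simpa using this
  let Nl : Matrix W W (Polynomial ℂ) := N.map (line p)
  have hNl : Nl.transpose = -Nl := by
    ext1 i j
    have := congrFun (congrFun hN i) j
    simp only [Matrix.transpose_apply, Matrix.neg_apply] at this
    simp [Nl, this]
  have hMNl : (L.submatrix (fun i : W => (i : I)) (fun i : W => (i : I))) * Nl =
      (line p q) • 1 := by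
    ext1 i j
    have := congrArg (line p) (congrFun (congrFun hMN i) j)
    rw [Matrix.mul_apply, map_sum] at this
    rw [Matrix.mul_apply]
    simp only [map_mul, Matrix.submatrix_apply, Matrix.smul_apply, smul_eq_mul,
      Matrix.one_apply] at this
    simp only [hL, LL, Nl, Matrix.submatrix_apply, Matrix.map_apply, Matrix.smul_apply, smul_eq_mul,
      Matrix.one_apply]
    rw [this]
    split_ifs <;> simp
  have hql : line p q = (Polynomial.X - Polynomial.C r) ^ μ * (F1 ^ μ * line p h) := by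
    rw [hqh, map_mul, map_pow, hF1, mul_pow]; ring
  have hq1r : (F1 ^ μ * line p h).eval r ≠ 0 := by
    rw [Polynomial.eval_mul, Polynomial.eval_pow, eval_line]
    exact mul_ne_zero (pow_ne_zero _ hF1r) (hp1 r hr)
  have hmu : m ≤ μ := by
    by_contra hc
    push Not at hc
    have := loc_three hLs hcompl hNl hql hq1r hMNl hc
    have := Submodule.finrank_mono this
    omega
  have hfq : f ∣ q := by
    rw [hqh]
    exact (dvd_pow_self f (by omega)).mul_right h
  obtain ⟨a1, b1, hab1⟩ := hp3 hfq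
  have hmu' : μ ≤ m := by
    by_contra hc
    push Not at hc
    apply loc_one hLs hcompl hNl hql hMNl
    · refine ⟨a1, b1, ?_⟩
      simp only [Nl, Matrix.map_apply, eval_line]
      exact hab1 r hr
    · exact (Es_anti _ _ hc).trans hE1
  obtain rfl : μ = m := le_antisymm hmu' hmu
  -- divisibility of `del`
  have hmul : ∀ (a : W) (c : I), L.mulVec (ext W (Nl a)) c = - line p (del 𝒜 N a c) := by
    intro a c
    rw [mulVec_ext, del, map_sum, ← Finset.sum_neg_distrib]
    apply Finset.sum_congr rfl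
    intro b _
    have := congrFun (congrFun hA b) c
    simp only [Matrix.transpose_apply, Matrix.neg_apply] at this
    simp only [hL, LL, Nl, Matrix.map_apply, map_mul, this, map_neg]
    ring
  have hdiv : ∀ (a : W) (c : I), f ^ μ ∣ del 𝒜 N a c := by
    intro a c
    rcases hP' a c with h1 | ⟨h1, h2⟩
    · rw [h1]; exact dvd_zero _
    · rcases hp2 a c r hr with h3 | h3
      · rw [h3]; exact dvd_zero _
      · have h4 := row_div hLs hcompl hNl hql hMNl a c
        rw [hmul a c, dvd_neg, h2, map_mul, map_pow, hF1, mul_pow, mul_assoc] at h4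
        have h5 : (F1 ^ (ν a c) * line p (P' a c)).eval r ≠ 0 := by
          rw [Polynomial.eval_mul, Polynomial.eval_pow, eval_line]
          exact mul_ne_zero (pow_ne_zero _ hF1r) h3
        have h6 := le_of_pow_dvd h5 h4
        rw [h2]
        exact (pow_dvd_pow f h6).mul_right _
  choose U hU using hdiv
  by_cases hu : ∃ a0 : W, ∑ i, eval (pt p r) (U a0 i) * eval (pt p r) (pderiv i f) ≠ 0
  · exfalso
    obtain ⟨a0, ha0⟩ := hu
    have h1 := loc_five hLs hcompl hNl hql hq1r hMNl
      (fun a => ∑ i, eval (pt p r) (U a i) * eval (pt p r) (pderiv i f)) a0 ha0 (by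
        intro a b c
        simp only [Nl, Matrix.map_apply, eval_line]
        exact closed_at hA hJ hN hMN hf.ne_zero hqh hm hU hr (hp1 r hr) a b c)
    omega
  · push Not at hu
    apply loc_six hLs hcompl hNl hql hq1r hMNl (fun a c => line p (U a c)) (-F1 ^ μ)
    · rw [Polynomial.eval_neg, Polynomial.eval_pow]
      exact neg_ne_zero.2 (pow_ne_zero _ hF1r)
    · intro a c
      rw [hmul a c, hU a c, map_mul, map_pow, hF1, mul_pow]
      ring
    · intro a
      simp only [eval_line]
      exact hu a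

include hA hJ hf in
theorem F_main : ∀ᶠ p in gen I, ∀ r, eval (pt p r) f = 0 →
      ∀ m, 1 ≤ m → Es (LL 𝒜 p) r (m + 1) ≤ Zs (LL 𝒜 p) r →
      Module.finrank ℂ (Zs (LL 𝒜 p) r) + 3 ≤ Module.finrank ℂ (Es (LL 𝒜 p) r m) →
      (fun i => eval (pt p r) (pderiv i f)) ∈ Zs (LL 𝒜 p) r := by
  classical
  have g : ∀ᶠ p in gen I, ∀ W : Finset I,
      (𝒜.submatrix (fun i : W => (i : I)) (fun i : W => (i : I))).det ≠ 0 →
      ∀ r, eval (pt p r) f = 0 → IsCompl (Zs (LL 𝒜 p) r) (cs W) →
      ∀ m, 1 ≤ m → Es (LL 𝒜 p) r (m + 1) ≤ Zs (LL 𝒜 p) r →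
      Module.finrank ℂ (Zs (LL 𝒜 p) r) + 3 ≤ Module.finrank ℂ (Es (LL 𝒜 p) r m) →
      (fun i => eval (pt p r) (pderiv i f)) ∈ Zs (LL 𝒜 p) r := by
    rw [Filter.eventually_all]
    intro W
    by_cases h : (𝒜.submatrix (fun i : W => (i : I)) (fun i : W => (i : I))).det ≠ 0
    · filter_upwards [F_one hA hJ hf W h] with p hp _
      exact hp
    · exact Filter.Eventually.of_forall fun p hh => absurd hh h
  filter_upwards [g] with p hp r hr
  obtain ⟨W, hW⟩ := exists_compl (Zs (LL 𝒜 p) r)
  refine hp W ?_ r hr hW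
  intro h0
  apply loc_det (LL_skew hA p) hW
  have h1 : ((LL 𝒜 p).submatrix (fun i : W => (i : I)) (fun i : W => (i : I))) =
      (line p).mapMatrix (𝒜.submatrix (fun i : W => (i : I)) (fun i : W => (i : I))) := by
    ext1 i j
    simp [LL]
  rw [h1, ← RingHom.map_det, h0, map_zero]

end F

end Pool.Agent.H4.JK
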