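import Pool.Agent.H4.JKh
import Pool.Agent.H4.JKn

/-! Chains of standard blocks. -/

namespace Pool.Agent.H4.JK

open Polynomial Module

set_option linter.unusedSectionVars false

/-! ### Bidiagonal matrices acting on vectors -/

/-- extension of a finite sequence by zero. -/
def ev {c : ℕ} (v : Fin c → ℂ) (i : ℕ) : ℂ := if h : i < c then v ⟨i, h⟩ else 0

theorem ev_fin {c : ℕ} (v : Fin c → ℂ) (i : Fin c) : ev v i = v i := by simp [ev]

theorem ev_ge {c : ℕ} (v : Fin c → ℂ) {i : ℕ} (h : c ≤ i) : ev v i = 0 := by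
  rw [ev, dif_neg (by omega)]

theorem bid_mulVec (r c : ℕ) (s s' : ℂ) (v : Fin c → ℂ) (i : Fin r) :
    (bidiag r c s s').mulVec v i = s * ev v i + s' * ev v (i + 1) := by
  have h := bid_sum r c s s' i (ev v)
  have h1 : (bidiag r c s s').mulVec v i = ∑ j : Fin c, bidiag r c s s' i j • ev v j := by
    rw [Matrix.mulVec, dotProduct]
    apply Finset.sum_congr rfl
    intro j _
    rw [ev_fin, smul_eq_mul]
  rw [h1, h]
  congr 1
  · split_ifs with h2
    · rfl
    · rw [ev_ge v (by omega), mul_zero]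
  · split_ifs with h2
    · rfl
    · rw [ev_ge v (by omega), mul_zero]

theorem bid_vecMul (r c : ℕ) (s s' : ℂ) (v : Fin r → ℂ) (j : Fin c) :
    Matrix.vecMul v (bidiag r c s s') j = s * ev v j +
      (if (j : ℕ) = 0 then 0 else s' * ev v (j - 1)) := by
  rw [Matrix.vecMul, dotProduct]
  simp only [bidiag, Matrix.of_apply, mul_add, Finset.sum_add_distrib]
  congr 1
  · by_cases h : (j : ℕ) < r
    · rw [Finset.sum_eq_single (⟨j, h⟩ : Fin r)]
      · simp [ev, h, mul_comm]
      · intro b _ hb
        rw [if_neg (fun h' => hb (by ext; exact h'.symm)), mul_zero]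
      · intro h'; exact absurd (Finset.mem_univ _) h'
    · rw [ev_ge v (by omega), mul_zero]
      apply Finset.sum_eq_zero
      intro b _
      rw [if_neg (by have := b.2; omega), mul_zero]
  · split_ifs with h0
    · apply Finset.sum_eq_zero
      intro b _
      rw [if_neg (by omega), mul_zero]
    · by_cases h : (j : ℕ) - 1 < r
      · rw [Finset.sum_eq_single (⟨j - 1, h⟩ : Fin r)]
        · rw [if_pos (by simp; omega)]
          simp [ev, h, mul_comm]
        · intro b _ hb
          rw [if_neg (fun h' => hb (by ext; simp; omega)), mul_zero]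
        · intro h'; exact absurd (Finset.mem_univ _) h'
      · rw [ev_ge v (by omega), mul_zero]
        apply Finset.sum_eq_zero
        intro b _
        rw [if_neg (by have := b.2; omega), mul_zero]

theorem bid_mulVec_inj (m : ℕ) (α β : ℂ) (hα : α ≠ 0) (v : Fin m → ℂ)
    (h : (bidiag m m α β).mulVec v = 0) : v = 0 := by
  have h1 : ∀ n i : ℕ, m ≤ i + n → ev v i = 0 := by
    intro n
    induction n with
    | zero => intro i hi; exact ev_ge v (by omega)
    | succ n ih =>
      intro i hi
      by_cases hm : i < m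
      · have h2 := congrFun h ⟨i, hm⟩
        rw [bid_mulVec] at h2
        have h3 : ev v (i + 1) = 0 := ih (i + 1) (by omega)
        simp only [h3, mul_zero, add_zero, Pi.zero_apply] at h2
        exact (mul_eq_zero.1 h2).resolve_left hα
      · exact ev_ge v (by omega)
  funext i
  rw [← ev_fin v i]
  exact h1 m i (by omega)

theorem bid_vecMul_inj (r c : ℕ) (hrc : r ≤ c) (α β : ℂ) (hα : α ≠ 0) (v : Fin r → ℂ)
    (h : Matrix.vecMul v (bidiag r c α β) = 0) : v = 0 := by
  have h1 : ∀ i : ℕ, ev v i = 0 := by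
    intro i
    induction i with
    | zero =>
      by_cases hm : 0 < r
      · have h2 := congrFun h ⟨0, by omega⟩
        rw [bid_vecMul] at h2
        simp only [if_true, add_zero, Pi.zero_apply] at h2
        exact (mul_eq_zero.1 h2).resolve_left hα
      · exact ev_ge v (by omega)
    | succ i ih =>
      by_cases hm : i + 1 < r
      · have h2 := congrFun h ⟨i + 1, by omega⟩
        rw [bid_vecMul] at h2
        simp only [Nat.add_eq_zero_iff, one_ne_zero, and_false, if_false, Nat.add_sub_cancel, ih,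
          mul_zero, add_zero, Pi.zero_apply] at h2
        exact (mul_eq_zero.1 h2).resolve_left hα
      · exact ev_ge v (by omega)
  funext i
  rw [← ev_fin v i]
  exact h1 i

/-! ### Chains -/

/-- beginnings of chains of length `p` at `r`. -/
def Ch {V : Type} [AddCommGroup V] [Module ℂ V] (A B : V → V → ℂ) (r : ℂ) (p : ℕ) : Set V :=
  {v | ∃ c : ℕ → V, c 0 = 0 ∧ c 1 = v ∧
    ∀ j < p, ∀ w, A w (c (j + 1)) + r * B w (c (j + 1)) + B w (c j) = 0}

/-- right chains of a pair of matrices. -/
def chR {r c : ℕ} (P Q : Matrix (Fin r) (Fin c) ℂ) (p : ℕ) (v : Fin c → ℂ) : Prop :=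
  ∃ x : ℕ → (Fin c → ℂ), x 0 = 0 ∧ x 1 = v ∧ ∀ j < p, P.mulVec (x (j + 1)) + Q.mulVec (x j) = 0

/-- left chains of a pair of matrices. -/
def chL {r c : ℕ} (P Q : Matrix (Fin r) (Fin c) ℂ) (p : ℕ) (v : Fin r → ℂ) : Prop :=
  ∃ x : ℕ → (Fin r → ℂ), x 0 = 0 ∧ x 1 = v ∧
    ∀ j < p, Matrix.vecMul (x (j + 1)) P + Matrix.vecMul (x j) Q = 0

theorem skew_key {a c : ℕ} (P Q : Matrix (Fin a) (Fin c) ℂ) (r : ℂ)
    (u y z : (Fin a → ℂ) × (Fin c → ℂ)) :
    skewForm P u y + r * skewForm Q u y + skewForm Q u z =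
      u.1 ⬝ᵥ ((P + r • Q).mulVec y.2 + Q.mulVec z.2) -
      (Matrix.vecMul y.1 (P + r • Q) + Matrix.vecMul z.1 Q) ⬝ᵥ u.2 := by
  simp only [skewForm, Matrix.add_mulVec, Matrix.smul_mulVec, dotProduct_add, dotProduct_smul,
    Matrix.vecMul_add, add_dotProduct, smul_eq_mul, Matrix.dotProduct_mulVec,
    Matrix.vecMul_smul, smul_dotProduct]
  ring

theorem mem_Ch_pair {a c : ℕ} (P Q : Matrix (Fin a) (Fin c) ℂ) (r : ℂ) (p : ℕ)
    (w : (Fin a → ℂ) × (Fin c → ℂ)) :
    w ∈ Ch (skewForm P) (skewForm Q) r p ↔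
      chL (P + r • Q) Q p w.1 ∧ chR (P + r • Q) Q p w.2 := by
  constructor
  · rintro ⟨c, h0, h1, h2⟩
    constructor
    · refine ⟨fun j => (c j).1, by show (c 0).1 = 0; rw [h0]; rfl, by show (c 1).1 = w.1; rw [h1],
        fun j hj => ?_⟩
      funext l
      have h4 := h2 j hj (0, Pi.single l 1)
      rw [skew_key] at h4
      simp only [zero_dotProduct, zero_sub, dotProduct_single, mul_one, neg_eq_zero] at h4
      exact h4
    · refine ⟨fun j => (c j).2, by show (c 0).2 = 0; rw [h0]; rfl, by show (c 1).2 = w.2; rw [h1],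
        fun j hj => ?_⟩
      funext l
      have h4 := h2 j hj (Pi.single l 1, 0)
      rw [skew_key] at h4
      simp only [dotProduct_zero, sub_zero, single_dotProduct, one_mul] at h4
      exact h4
  · rintro ⟨⟨x, hx0, hx1, hx2⟩, ⟨y, hy0, hy1, hy2⟩⟩
    refine ⟨fun j => (x j, y j), ?_, ?_, fun j hj u => ?_⟩
    · show (x 0, y 0) = 0
      rw [hx0, hy0]; rfl
    · show (x 1, y 1) = w
      rw [hx1, hy1]
    · rw [skew_key]
      show u.1 ⬝ᵥ ((P + r • Q).mulVec (y (j + 1)) + Q.mulVec (y j)) -
        (Matrix.vecMul (x (j + 1)) (P + r • Q) + Matrix.vecMul (x j) Q) ⬝ᵥ u.2 = 0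
      rw [hx2 j hj, hy2 j hj, dotProduct_zero, zero_dotProduct, sub_zero]

theorem mem_Ch_block (b : Block) (r : ℂ) (p : ℕ) (w : W b) :
    w ∈ Ch (V := W b) (skewForm b.PA) (skewForm b.PB) r p ↔
      chL (b.PA + r • b.PB) b.PB p w.1 ∧ chR (b.PA + r • b.PB) b.PB p w.2 :=
  mem_Ch_pair b.PA b.PB r p w

theorem chL_first {r c : ℕ} {P Q : Matrix (Fin r) (Fin c) ℂ} {p : ℕ} (hp : 1 ≤ p)
    {v : Fin r → ℂ} (h : chL P Q p v) : Matrix.vecMul v P = 0 := by
  obtain ⟨x, h0, h1, h2⟩ := h
  have := h2 0 (by omega)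
  rw [h0, Matrix.zero_vecMul, add_zero] at this
  rw [← h1]; exact this

theorem chR_first {r c : ℕ} {P Q : Matrix (Fin r) (Fin c) ℂ} {p : ℕ} (hp : 1 ≤ p)
    {v : Fin c → ℂ} (h : chR P Q p v) : P.mulVec v = 0 := by
  obtain ⟨x, h0, h1, h2⟩ := h
  have := h2 0 (by omega)
  rw [h0, Matrix.mulVec_zero, add_zero] at this
  rw [← h1]; exact this

theorem chL_zero {r c : ℕ} (P Q : Matrix (Fin r) (Fin c) ℂ) (p : ℕ) : chL P Q p 0 :=
  ⟨0, rfl, rfl, fun j _ => by simp⟩

theorem chR_zero {r c : ℕ} (P Q : Matrix (Fin r) (Fin c) ℂ) (p : ℕ) : chR P Q p 0 :=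
  ⟨0, rfl, rfl, fun j _ => by simp⟩

/-- nilpotent Jordan block, right chains. -/
theorem chR_nilp (m p : ℕ) (hp : 1 ≤ p) (v : Fin m → ℂ) :
    chR (bidiag m m 0 1) (bidiag m m 1 0) p v ↔
      (∀ i : Fin m, (i : ℕ) ≠ 0 → v i = 0) ∧ (m < p → v = 0) := by
  constructor
  · intro h
    have h0 : ∀ i : Fin m, (i : ℕ) ≠ 0 → v i = 0 := by
      intro i hi
      have h1 := chR_first hp h
      have h2 := congrFun h1 ⟨i - 1, by omega⟩
      rw [bid_mulVec] at h2
      simp only [zero_mul, one_mul, zero_add, Pi.zero_apply] at h2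
      have h3 : (i : ℕ) - 1 + 1 = i := by omega
      rw [h3, ev_fin] at h2
      exact h2
    refine ⟨h0, fun hm => ?_⟩
    obtain ⟨x, hx0, hx1, hx2⟩ := h
    have h4 : ∀ j < p, ∀ i < m, ev (x (j + 1)) (i + 1) = - ev (x j) i := by
      intro j hj i hi
      have h5 := congrFun (hx2 j hj) ⟨i, hi⟩
      rw [Pi.add_apply, bid_mulVec, bid_mulVec] at h5
      simp only [zero_mul, one_mul, zero_add, add_zero, Pi.zero_apply] at h5
      linear_combination h5
    have h5 : ∀ j, j < m → ev (x (j + 1)) j = (-1) ^ j * ev (x 1) 0 := by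
      intro j
      induction j with
      | zero => intro _; simp
      | succ j ih =>
        intro hj
        rw [h4 (j + 1) (by omega) j (by omega), ih (by omega), pow_succ]
        ring
    funext i
    have hm0 : 0 < m := by have := i.2; omega
    have h6 : ev (x m) (m - 1) = 0 := by
      have h7 := h4 m hm (m - 1) (by omega)
      rw [ev_ge _ (by omega)] at h7
      linear_combination h7
    have h7 := h5 (m - 1) (by omega)
    have h8 : m - 1 + 1 = m := by omega
    rw [h8, h6] at h7
    have h9 : ev (x 1) 0 = 0 :=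
      (mul_eq_zero.1 h7.symm).resolve_left (pow_ne_zero _ (by norm_num))
    by_cases hi : (i : ℕ) = 0
    · rw [← ev_fin v i, hi, ← hx1, h9]; rfl
    · exact h0 i hi
  · rintro ⟨h0, h1⟩
    by_cases hm : m < p
    · rw [h1 hm]; exact chR_zero _ _ _
    · push Not at hm
      refine ⟨fun j i => if j = (i : ℕ) + 1 then (-1) ^ (i : ℕ) * ev v 0 else 0, ?_, ?_, ?_⟩
      · funext i; simp
      · funext i
        by_cases hi : (i : ℕ) = 0
        · simp only [hi, zero_add, if_true, pow_zero, one_mul]
          rw [← ev_fin v i, hi]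
        · simp only []
          rw [if_neg (by omega), h0 i hi]
      · intro j hj
        funext i
        rw [Pi.add_apply, bid_mulVec, bid_mulVec]
        simp only [zero_mul, one_mul, zero_add, add_zero, Pi.zero_apply, ev, i.2, dif_pos]
        by_cases h2 : (i : ℕ) + 1 < m
        · rw [dif_pos h2]
          by_cases h3 : j = (i : ℕ) + 1
          · rw [if_pos (by omega), if_pos h3, pow_succ]; ring
          · rw [if_neg (by omega), if_neg h3, add_zero]
        · rw [dif_neg h2, zero_add, if_neg (by omega)]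

/-- nilpotent Jordan block, left chains. -/
theorem chL_nilp (m p : ℕ) (hp : 1 ≤ p) (v : Fin m → ℂ) :
    chL (bidiag m m 0 1) (bidiag m m 1 0) p v ↔
      (∀ i : Fin m, (i : ℕ) + 1 ≠ m → v i = 0) ∧ (m < p → v = 0) := by
  constructor
  · intro h
    have h0 : ∀ i : Fin m, (i : ℕ) + 1 ≠ m → v i = 0 := by
      intro i hi
      have h1 := chL_first hp h
      have h2 := congrFun h1 ⟨i + 1, by omega⟩
      rw [bid_vecMul] at h2
      simp only [zero_mul, one_mul, zero_add, Pi.zero_apply, Nat.add_eq_zero_iff, one_ne_zero,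
        and_false, if_false, Nat.add_sub_cancel] at h2
      rw [ev_fin] at h2
      exact h2
    refine ⟨h0, fun hm => ?_⟩
    obtain ⟨x, hx0, hx1, hx2⟩ := h
    have h4 : ∀ j < p, ∀ i, i + 1 < m → ev (x (j + 1)) i = - ev (x j) (i + 1) := by
      intro j hj i hi
      have h5 := congrFun (hx2 j hj) ⟨i + 1, hi⟩
      rw [Pi.add_apply, bid_vecMul, bid_vecMul] at h5
      simp only [zero_mul, one_mul, zero_add, add_zero, Pi.zero_apply, Nat.add_eq_zero_iff,
        one_ne_zero, and_false, if_false, Nat.add_sub_cancel] at h5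
      linear_combination h5
    have h4' : ∀ j < p, 0 < m → ev (x j) 0 = 0 := by
      intro j hj hm0
      have h5 := congrFun (hx2 j hj) ⟨0, hm0⟩
      rw [Pi.add_apply, bid_vecMul, bid_vecMul] at h5
      simp only [zero_mul, one_mul, zero_add, add_zero, Pi.zero_apply, if_true] at h5
      exact h5
    have h5 : ∀ j, j < m → ev (x (j + 1)) (m - 1 - j) = (-1) ^ j * ev (x 1) (m - 1) := by
      intro j
      induction j with
      | zero => intro _; simp
      | succ j ih =>
        intro hj
        have h6 := h4 (j + 1) (by omega) (m - 1 - (j + 1)) (by omega)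
        have h7 : m - 1 - (j + 1) + 1 = m - 1 - j := by omega
        rw [h6, h7, ih (by omega), pow_succ]
        ring
    funext i
    have hm0 : 0 < m := by have := i.2; omega
    have h7 := h5 (m - 1) (by omega)
    have h8 : m - 1 + 1 = m := by omega
    have h8' : m - 1 - (m - 1) = 0 := by omega
    rw [h8, h8', h4' m hm hm0] at h7
    have h9 : ev (x 1) (m - 1) = 0 :=
      (mul_eq_zero.1 h7.symm).resolve_left (pow_ne_zero _ (by norm_num))
    by_cases hi : (i : ℕ) + 1 = m
    · have hi' : (i : ℕ) = m - 1 := by omega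
      rw [← ev_fin v i, hi', ← hx1, h9]; rfl
    · exact h0 i hi
  · rintro ⟨h0, h1⟩
    by_cases hm : m < p
    · rw [h1 hm]; exact chL_zero _ _ _
    · push Not at hm
      refine ⟨fun j i => if j + i = m then (-1) ^ (m - 1 - (i : ℕ)) * ev v (m - 1) else 0,
        ?_, ?_, ?_⟩
      · funext i
        have := i.2
        simp only [Pi.zero_apply]
        rw [if_neg (by omega)]
      · funext i
        by_cases hi : (i : ℕ) + 1 = m
        · have hi' : (i : ℕ) = m - 1 := by omega
          simp only []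
          rw [if_pos (by omega), ← hi', Nat.sub_self, pow_zero, one_mul, ev_fin]
        · simp only []
          rw [if_neg (by omega), h0 i hi]
      · intro j hj
        funext i
        have hi2 := i.2
        rw [Pi.add_apply, bid_vecMul, bid_vecMul]
        simp only [zero_mul, one_mul, zero_add, add_zero, Pi.zero_apply, ite_self]
        by_cases h2 : (i : ℕ) = 0
        · rw [if_pos h2, zero_add, ev_fin, if_neg (by omega)]
        · rw [if_neg h2, ev_fin, ev, dif_pos (by omega)]
          simp only []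
          by_cases h3 : j + i = m
          · rw [if_pos (by omega), if_pos h3]
            have h4 : m - 1 - ((i : ℕ) - 1) = m - 1 - i + 1 := by omega
            rw [h4, pow_succ]; ring
          · rw [if_neg (by omega), if_neg h3, add_zero]

/-- chain coefficients in a Kronecker block. -/
noncomputable def gk (r : ℂ) (n j : ℕ) : ℂ := (-1) ^ n * ((C r + X : ℂ[X]) ^ n).coeff j

theorem gk_succ (r : ℂ) (n j : ℕ) : gk r (n + 1) (j + 1) + r * gk r n (j + 1) + gk r n j = 0 := by
  simp only [gk]
  have h : ((C r + X : ℂ[X]) ^ (n + 1)).coeff (j + 1) =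
      r * ((C r + X : ℂ[X]) ^ n).coeff (j + 1) + ((C r + X : ℂ[X]) ^ n).coeff j := by
    rw [pow_succ, mul_add, coeff_add, coeff_mul_C, coeff_mul_X]
    ring
  rw [h, pow_succ]
  ring

theorem gk_succ_zero (r : ℂ) (n : ℕ) : gk r (n + 1) 0 + r * gk r n 0 = 0 := by
  simp only [gk]
  have h : ((C r + X : ℂ[X]) ^ (n + 1)).coeff 0 = r * ((C r + X : ℂ[X]) ^ n).coeff 0 := by
    rw [pow_succ, mul_add, coeff_add, coeff_mul_C, coeff_mul_X_zero]
    ring
  rw [h, pow_succ]
  ring

theorem gk_zero (r : ℂ) (n : ℕ) : gk r n 0 = (-r) ^ n := by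
  induction n with
  | zero => simp [gk]
  | succ n ih =>
    have := gk_succ_zero r n
    rw [ih] at this
    rw [pow_succ]
    linear_combination this

theorem kron_ker (k : ℕ) (r : ℂ) (v : Fin (k + 1) → ℂ)
    (h : ∀ i < k, ev v i + r * ev v (i + 1) = 0) :
    ∀ i : Fin (k + 1), v i = (-r) ^ (k - i : ℕ) * v (Fin.last k) := by
  have h1 : ∀ n ≤ k, ev v (k - n) = (-r) ^ n * ev v k := by
    intro n
    induction n with
    | zero => intro _; simp
    | succ n ih =>
      intro hn
      have h2 := h (k - (n + 1)) (by omega)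
      have h3 : k - (n + 1) + 1 = k - n := by omega
      rw [h3, ih (by omega)] at h2
      rw [pow_succ]
      linear_combination h2
  intro i
  have h2 := h1 (k - i) (by omega)
  have h3 : k - (k - (i : ℕ)) = i := by have := i.2; omega
  rw [h3, ev_fin] at h2
  rw [h2]
  congr 1
  have := ev_fin v (Fin.last k)
  rw [Fin.val_last] at this
  exact this

theorem pair_kron (k p : ℕ) (hp : 1 ≤ p) (r : ℂ) (w : (Fin k → ℂ) × (Fin (k + 1) → ℂ)) :
    w ∈ Ch (skewForm (bidiag k (k + 1) 1 0)) (skewForm (bidiag k (k + 1) 0 1)) r p ↔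
      w.1 = 0 ∧ ∀ i : Fin (k + 1), w.2 i = (-r) ^ (k - i : ℕ) * w.2 (Fin.last k) := by
  have hc : bidiag k (k + 1) 1 0 + r • bidiag k (k + 1) 0 1 = bidiag k (k + 1) 1 r := by
    have := bidiag_comb k (k + 1) 1 0 0 1 1 r
    rw [one_smul] at this
    rw [this]
    congr 1 <;> ring
  rw [mem_Ch_pair, hc]
  constructor
  · rintro ⟨h1, h2⟩
    refine ⟨bid_vecMul_inj _ _ (by omega) 1 r one_ne_zero _ (chL_first hp h1), ?_⟩
    apply kron_ker
    intro i hi
    have h3 := congrFun (chR_first hp h2) ⟨i, hi⟩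
    rw [bid_mulVec, one_mul] at h3
    exact h3
  · rintro ⟨h1, h2⟩
    refine ⟨by rw [h1]; exact chL_zero _ _ _, ?_⟩
    refine ⟨fun j i => if j = 0 then 0 else gk r (k - i) (j - 1) * w.2 (Fin.last k), ?_, ?_, ?_⟩
    · funext i; simp
    · funext i
      rw [h2 i]
      simp [gk_zero]
    · intro j hj
      funext i
      rw [Pi.add_apply, bid_mulVec, bid_mulVec]
      have hi := i.2
      simp only [Nat.add_eq_zero_iff, one_ne_zero, and_false, if_false, Nat.add_sub_cancel,
        Pi.zero_apply, one_mul, zero_mul, zero_add]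
      rw [ev, dif_pos (by omega), ev, dif_pos (by omega)]
      by_cases h0 : j = 0
      · subst h0
        rw [ev, dif_pos (by omega)]
        simp only [if_true, add_zero]
        have h3 := gk_succ_zero r (k - (i + 1))
        have h4 : k - ((i : ℕ) + 1) + 1 = k - i := by omega
        rw [h4] at h3
        linear_combination (w.2 (Fin.last k)) * h3
      · rw [ev, dif_pos (by omega)]
        simp only [h0, if_false]
        obtain ⟨j, rfl⟩ : ∃ j', j = j' + 1 := ⟨j - 1, by omega⟩
        have h3 := gk_succ r (k - (i + 1)) j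
        have h4 : k - ((i : ℕ) + 1) + 1 = k - i := by omega
        rw [h4] at h3
        simp only [Nat.add_sub_cancel]
        linear_combination (w.2 (Fin.last k)) * h3

theorem pair_inv (m p : ℕ) (hp : 1 ≤ p) (r : ℂ) (s s' t t' : ℂ) (hs : s + r * t ≠ 0)
    (w : (Fin m → ℂ) × (Fin m → ℂ)) :
    w ∈ Ch (skewForm (bidiag m m s s')) (skewForm (bidiag m m t t')) r p ↔ w = 0 := by
  have hc : bidiag m m s s' + r • bidiag m m t t' = bidiag m m (s + r * t) (s' + r * t') := by
    have := bidiag_comb m m s s' t t' 1 r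
    rw [one_smul, one_mul, one_mul] at this
    exact this
  rw [mem_Ch_pair, hc]
  constructor
  · rintro ⟨h1, h2⟩
    have h3 := bid_vecMul_inj m m le_rfl _ _ hs _ (chL_first hp h1)
    have h4 := bid_mulVec_inj m _ _ hs _ (chR_first hp h2)
    exact Prod.ext h3 h4
  · rintro rfl
    exact ⟨chL_zero _ _ _, chR_zero _ _ _⟩

theorem pair_nilp (m p : ℕ) (hp : 1 ≤ p) (r : ℂ) (w : (Fin m → ℂ) × (Fin m → ℂ)) :
    w ∈ Ch (skewForm (bidiag m m (-r) 1)) (skewForm (bidiag m m 1 0)) r p ↔
      (∀ i : Fin m, (i : ℕ) + 1 ≠ m → w.1 i = 0) ∧ (∀ i : Fin m, (i : ℕ) ≠ 0 → w.2 i = 0) ∧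
      (m < p → w = 0) := by
  have hc : bidiag m m (-r) 1 + r • bidiag m m 1 0 = bidiag m m 0 1 := by
    have := bidiag_comb m m (-r) 1 1 0 1 r
    rw [one_smul] at this
    rw [this]
    congr 1 <;> ring
  rw [mem_Ch_pair, hc, chL_nilp m p hp, chR_nilp m p hp]
  constructor
  · rintro ⟨⟨h1, h2⟩, h3, h4⟩
    exact ⟨h1, h3, fun h => Prod.ext (h2 h) (h4 h)⟩
  · rintro ⟨h1, h2, h3⟩
    exact ⟨⟨h1, fun h => by rw [h3 h]; rfl⟩, h2, fun h => by rw [h3 h]; rfl⟩

/-! ### Submodules of chains -/

/-- the submodule of beginnings of chains. -/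
def ChS {V : Type} [AddCommGroup V] [Module ℂ V] (A B : V → V → ℂ)
    (hA : ∀ u v w, A u (v + w) = A u v + A u w) (hA' : ∀ (z : ℂ) u v, A u (z • v) = z * A u v)
    (hB : ∀ u v w, B u (v + w) = B u v + B u w) (hB' : ∀ (z : ℂ) u v, B u (z • v) = z * B u v)
    (r : ℂ) (p : ℕ) : Submodule ℂ V where
  carrier := Ch A B r p
  zero_mem' := by
    have h1 : ∀ u, A u 0 = 0 := fun u => by have := hA' 0 u 0; rwa [zero_smul, zero_mul] at this
    have h2 : ∀ u, B u 0 = 0 := fun u => by have := hB' 0 u 0; rwa [zero_smul, zero_mul] at this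
    exact ⟨0, rfl, rfl, fun j _ u => by simp [h1, h2]⟩
  add_mem' := by
    rintro v w ⟨c, h0, h1, h2⟩ ⟨d, h3, h4, h5⟩
    refine ⟨fun j => c j + d j, by simp [h0, h3], by simp [h1, h4], fun j hj u => ?_⟩
    rw [hA, hB, hB]
    linear_combination h2 j hj u + h5 j hj u
  smul_mem' := by
    rintro z v ⟨c, h0, h1, h2⟩
    refine ⟨fun j => z • c j, by simp [h0], by simp [h1], fun j hj u => ?_⟩
    rw [hA', hB', hB']
    linear_combination z * h2 j hj u

/-- chains in a block. -/
def ChB (b : Block) (r : ℂ) (p : ℕ) : Submodule ℂ (W b) :=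
  ChS (V := W b) (skewForm b.PA) (skewForm b.PB)
    (fun u v w => skewForm_add_right b.PA u v w) (fun z u v => skewForm_smul_right b.PA z u v)
    (fun u v w => skewForm_add_right b.PB u v w) (fun z u v => skewForm_smul_right b.PB z u v) r p

/-- dimension of the space of chains. -/
noncomputable def kap (r : ℂ) (p : ℕ) : Block → ℕ
  | .kron _ => 1
  | .jordan μ m => if μ = some (-r) ∧ p ≤ m then 2 else 0

theorem finrank_ChB (b : Block) (hb : b.Pos) (r : ℂ) (p : ℕ) (hp : 1 ≤ p) :
    finrank ℂ (ChB b r p) = kap r p b := by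
  have hbot : ∀ b : Block, (∀ w : W b, w ∈ ChB b r p → w = 0) → finrank ℂ (ChB b r p) = 0 := by
    intro b h
    have : ChB b r p = ⊥ := by
      rw [Submodule.eq_bot_iff]
      exact h
    rw [this, finrank_bot]
  rcases b with k | ⟨μ | μ, m⟩
  · show finrank ℂ (ChB (.kron k) r p) = 1
    let ζ : W (.kron k) := ((0, fun i => (-r) ^ (k - i : ℕ)) : (Fin k → ℂ) × (Fin (k + 1) → ℂ))
    have h1 : ChB (.kron k) r p = Submodule.span ℂ {ζ} := by
      ext w
      rw [Submodule.mem_span_singleton]
      refine (pair_kron k p hp r w).trans ?_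
      constructor
      · rintro ⟨h2, h3⟩
        refine ⟨w.2 (Fin.last k), ?_⟩
        refine Prod.ext ?_ ?_
        · show w.2 (Fin.last k) • (0 : Fin k → ℂ) = w.1
          rw [smul_zero, h2]
        · funext i
          show w.2 (Fin.last k) * (-r) ^ (k - i : ℕ) = w.2 i
          rw [h3 i, mul_comm]
      · rintro ⟨z, rfl⟩
        refine ⟨?_, fun i => ?_⟩
        · show z • (0 : Fin k → ℂ) = 0
          rw [smul_zero]
        · show z * (-r) ^ (k - i : ℕ) = (-r) ^ (k - i : ℕ) * (z * (-r) ^ (k - (Fin.last k : ℕ)))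
          rw [Fin.val_last, Nat.sub_self, pow_zero]
          ring
    rw [h1, finrank_span_singleton]
    intro h0
    have h2 := congrArg (fun w : (Fin k → ℂ) × (Fin (k + 1) → ℂ) => w.2 (Fin.last k)) h0
    change (-r) ^ (k - (Fin.last k : ℕ)) = 0 at h2
    rw [Fin.val_last, Nat.sub_self, pow_zero] at h2
    exact one_ne_zero h2
  · have : kap r p (.jordan none m) = 0 := by simp [kap]
    rw [this]
    apply hbot
    intro w hw
    exact (pair_inv m p hp r 1 0 0 1 (by simp) w).1 hw
  · by_cases hμ : μ = -r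
    · subst hμ
      have hm : 0 < m := hb
      by_cases hpm : p ≤ m
      · have : kap r p (.jordan (some (-r)) m) = 2 := by simp [kap, hpm]
        rw [this]
        have hmem : ∀ w : W (.jordan (some (-r)) m), w ∈ ChB (.jordan (some (-r)) m) r p ↔
            (∀ i : Fin m, (i : ℕ) + 1 ≠ m → w.1 i = 0) ∧ (∀ i : Fin m, (i : ℕ) ≠ 0 → w.2 i = 0) := by
          intro w
          refine (pair_nilp m p hp r w).trans ?_
          constructor
          · rintro ⟨h1, h2, -⟩; exact ⟨h1, h2⟩
          · rintro ⟨h1, h2⟩; exact ⟨h1, h2, fun h => by omega⟩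
        let F : ChB (.jordan (some (-r)) m) r p →ₗ[ℂ] ℂ × ℂ :=
          { toFun := fun w => ((w : W (.jordan (some (-r)) m)).1 ⟨m - 1, by show m - 1 < m; omega⟩,
              (w : W (.jordan (some (-r)) m)).2 ⟨0, hm⟩)
            map_add' := fun _ _ => rfl
            map_smul' := fun _ _ => rfl }
        have hF : Function.Bijective F := by
          constructor
          · rw [← LinearMap.ker_eq_bot, LinearMap.ker_eq_bot']
            rintro ⟨w, hw⟩ h0
            obtain ⟨h1, h2⟩ := (hmem w).1 hw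
            have h3 : w.1 ⟨m - 1, by show m - 1 < m; omega⟩ = 0 := congrArg Prod.fst h0
            have h4 : w.2 ⟨0, hm⟩ = 0 := congrArg Prod.snd h0
            apply Subtype.ext
            show w = 0
            refine Prod.ext ?_ ?_
            · funext i
              by_cases hi : (i : ℕ) + 1 = m
              · have : i = ⟨m - 1, by show m - 1 < m; omega⟩ := Fin.ext (by show (i : ℕ) = m - 1; omega)
                rw [this]; exact h3
              · exact h1 i hi
            · funext i
              by_cases hi : (i : ℕ) = 0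
              · have : i = ⟨0, hm⟩ := Fin.ext hi
                rw [this]; exact h4
              · exact h2 i hi
          · rintro ⟨x, y⟩
            refine ⟨⟨((fun i => if (i : ℕ) + 1 = m then x else 0, fun i => if (i : ℕ) = 0 then y else 0) :
              (Fin m → ℂ) × (Fin m → ℂ)), (hmem _).2 ⟨fun i hi => if_neg hi, fun i hi => if_neg hi⟩⟩, ?_⟩
            refine Prod.ext ?_ ?_
            · show (if m - 1 + 1 = m then x else 0) = x
              rw [if_pos (by omega)]
            · show (if 0 = 0 then y else 0) = y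
              rw [if_pos rfl]
        rw [(LinearEquiv.ofBijective F hF).finrank_eq]
        simp
      · have : kap r p (.jordan (some (-r)) m) = 0 := by simp [kap, hpm]
        rw [this]
        apply hbot
        intro w hw
        exact ((pair_nilp m p hp r w).1 hw).2.2 (by omega)
    · have : kap r p (.jordan (some μ) m) = 0 := by simp [kap, hμ]
      rw [this]
      apply hbot
      intro w hw
      refine (pair_inv m p hp r μ 1 1 0 ?_ w).1 hw
      intro h
      apply hμ
      linear_combination h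

end Pool.Agent.H4.JK
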