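import Pool.Agent.H4.JKq

/-! Spaces of chains of a decomposed pencil of matrices. -/

namespace Pool.Agent.H4.JK

open Polynomial Module

set_option linter.unusedSectionVars false

variable {I : Type} [Fintype I] [DecidableEq I]

/-- the pencil `A + X B`. -/
noncomputable def pen (A B : Matrix I I ℂ) : Matrix I I ℂ[X] :=
  A.map (C : ℂ → ℂ[X]) + B.map (fun z => X * C z)

/-- bilinear form of a matrix. -/
def mform (A : Matrix I I ℂ) (v w : I → ℂ) : ℂ := v ⬝ᵥ (A.mulVec w)

theorem taylor_dvd (r : ℂ) (p : ℕ) (g : ℂ[X]) :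
    (X - C r) ^ p ∣ g ↔ ∀ j < p, (taylor r g).coeff j = 0 := by
  rw [Polynomial.X_sub_C_pow_dvd_iff, Polynomial.X_pow_dvd_iff]
  rfl

theorem taylor_pen (A B : Matrix I I ℂ) (r : ℂ) (z : I → ℂ[X]) (i : I) :
    taylor r ((pen A B).mulVec z i) =
      ∑ k, (C (A i k + r * B i k) + X * C (B i k)) * taylor r (z k) := by
  rw [Matrix.mulVec, dotProduct, map_sum]
  apply Finset.sum_congr rfl
  intro k _
  rw [taylor_mul]
  congr 1
  simp only [pen, Matrix.add_apply, Matrix.map_apply, map_add, taylor_C, taylor_mul, taylor_X]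
  rw [C_mul]
  ring

theorem mform_sum (A : Matrix I I ℂ) (w v : I → ℂ) : mform A w v = ∑ i, w i * (A.mulVec v i) := rfl

theorem mform_comb (A B : Matrix I I ℂ) (r : ℂ) (v v' : I → ℂ) :
    (∀ w, mform A w v + r * mform B w v + mform B w v' = 0) ↔
      ∀ i, A.mulVec v i + r * B.mulVec v i + B.mulVec v' i = 0 := by
  constructor
  · intro h i
    have := h (Pi.single i 1)
    simpa [mform, single_dotProduct] using this
  · intro h w
    simp only [mform_sum, Finset.mul_sum, ← Finset.sum_add_distrib]
    apply Finset.sum_eq_zero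
    intro i _
    linear_combination (w i) * h i

theorem mem_Es (A B : Matrix I I ℂ) (r : ℂ) (p : ℕ) (v : I → ℂ) :
    v ∈ Es (pen A B) r p ↔ v ∈ Ch (mform A) (mform B) r p := by
  constructor
  · rintro ⟨z, h1, h2⟩
    refine ⟨fun j i => if j = 0 then 0 else (taylor r (z i)).coeff (j - 1), ?_, ?_, ?_⟩
    · funext i; simp
    · funext i
      simp [taylor_coeff_zero, h2]
    · intro j hj
      rw [mform_comb]
      intro i
      have h3 := (taylor_dvd r p _).1 (h1 i) j hj
      rw [taylor_pen, finsetSum_coeff] at h3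
      refine Eq.trans ?_ h3
      simp only [Matrix.mulVec, dotProduct, Finset.mul_sum, ← Finset.sum_add_distrib]
      apply Finset.sum_congr rfl
      intro k _
      simp only [Nat.add_eq_zero_iff, one_ne_zero, and_false, if_false, Nat.add_sub_cancel]
      rw [add_mul, coeff_add, coeff_C_mul, mul_assoc, mul_comm (X : ℂ[X])]
      rcases j with _ | j
      · simp
        ring
      · rw [coeff_mul_X, coeff_C_mul]
        simp
        ring
  · rintro ⟨c, h0, h1, h2⟩
    refine ⟨fun i => ∑ j ∈ Finset.range (p + 1), C (c (j + 1) i) * (X - C r) ^ j, ?_, ?_⟩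
    · intro i
      rw [taylor_dvd]
      intro j hj
      have h3 := (mform_comb A B r _ _).1 (h2 j hj) i
      rw [taylor_pen, finsetSum_coeff, ← h3]
      simp only [Matrix.mulVec, dotProduct, Finset.mul_sum, ← Finset.sum_add_distrib]
      apply Finset.sum_congr rfl
      intro k _
      have h4 : taylor r (∑ j ∈ Finset.range (p + 1), C (c (j + 1) k) * (X - C r) ^ j) =
          ∑ j ∈ Finset.range (p + 1), C (c (j + 1) k) * X ^ j := by
        rw [map_sum]
        apply Finset.sum_congr rfl
        intro j _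
        rw [taylor_mul, taylor_C]
        congr 1
        rw [taylor_apply, pow_comp, sub_comp, X_comp, C_comp, add_sub_cancel_right]
      have h5 : ∀ n ≤ p, (∑ j ∈ Finset.range (p + 1), C (c (j + 1) k) * X ^ j : ℂ[X]).coeff n =
          c (n + 1) k := by
        intro n hn
        rw [finsetSum_coeff, Finset.sum_eq_single n]
        · simp
        · intro b _ hb
          rw [coeff_C_mul_X_pow, if_neg (fun h => hb h.symm)]
        · intro h; exact absurd (Finset.mem_range.2 (by omega)) h
      rw [h4, add_mul, coeff_add, coeff_C_mul, mul_assoc, mul_comm (X : ℂ[X]), h5 j hj.le]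
      rcases j with _ | j
      · simp [h0]
        ring
      · rw [coeff_mul_X, coeff_C_mul, h5 j (by omega)]
        ring
    · intro i
      rw [eval_finsetSum, Finset.sum_eq_single 0]
      · simp [h1]
      · intro b _ hb
        simp [hb]
      · intro h; exact absurd (Finset.mem_range.2 (by omega)) h

section pull

variable {V : Type} [AddCommGroup V] [Module ℂ V] {ι : Type} [Fintype ι] {bl : ι → Block}
  (φ : V ≃ₗ[ℂ] ((i : ι) → W (bl i)))

/-- vectors with components in given submodules. -/
def pull (S : (i : ι) → Submodule ℂ (W (bl i))) : Submodule ℂ V where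
  carrier := {v | ∀ i, φ v i ∈ S i}
  zero_mem' := fun i => by rw [map_zero]; exact (S i).zero_mem
  add_mem' := by
    intro v w h1 h2 i
    rw [map_add]; exact (S i).add_mem (h1 i) (h2 i)
  smul_mem' := by
    intro c v h1 i
    rw [map_smul]; exact (S i).smul_mem c (h1 i)

theorem finrank_pull (S : (i : ι) → Submodule ℂ (W (bl i))) :
    finrank ℂ (pull φ S) = ∑ i, finrank ℂ (S i) := by
  classical
  let F : ((i : ι) → S i) →ₗ[ℂ] V := φ.symm.toLinearMap ∘ₗ
    (LinearMap.pi fun i => (S i).subtype ∘ₗ LinearMap.proj i)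
  have hF : Function.Injective F := by
    rw [← LinearMap.ker_eq_bot, LinearMap.ker_eq_bot']
    intro s hs
    have h1 : (fun i => ((s i : S i) : W (bl i))) = 0 := by
      have h2 : φ.symm (fun i => ((s i : S i) : W (bl i))) = 0 := hs
      exact φ.symm.map_eq_zero_iff.1 h2
    funext i
    exact Subtype.ext (congrFun h1 i)
  have hR : LinearMap.range F = pull φ S := by
    ext v
    constructor
    · rintro ⟨s, rfl⟩ i
      show φ (φ.symm (fun i => ((s i : S i) : W (bl i)))) i ∈ S i
      rw [LinearEquiv.apply_symm_apply]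
      exact (s i).2
    · intro hv
      refine ⟨fun i => ⟨φ v i, hv i⟩, ?_⟩
      show φ.symm (fun i => φ v i) = v
      exact φ.symm_apply_apply v
  rw [← hR, LinearMap.finrank_range_of_inj hF, Module.finrank_pi_fintype]

theorem mem_Ch_iff {A B : V → V → ℂ}
    (hφ : ∀ v w, A v w = sumForm bl Block.PA (φ v) (φ w) ∧ B v w = sumForm bl Block.PB (φ v) (φ w))
    (r : ℂ) (p : ℕ) (v : V) : v ∈ Ch A B r p ↔ ∀ i, φ v i ∈ ChB (bl i) r p := by
  classical
  constructor
  · rintro ⟨c, h0, h1, h2⟩ i
    refine ⟨fun j => φ (c j) i, by show φ (c 0) i = 0; rw [h0, map_zero]; rfl,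
      by show φ (c 1) i = φ v i; rw [h1], fun j hj w => ?_⟩
    have h3 := h2 j hj (φ.symm (Pi.single i w))
    rw [(hφ _ _).1, (hφ _ _).2, (hφ _ _).2] at h3
    simp only [LinearEquiv.apply_symm_apply, sumForm] at h3
    have h4 : ∀ (P : (b : Block) → Matrix (Fin b.rows) (Fin b.cols) ℂ) (y : V),
        ∑ k, skewForm (P (bl k)) ((Pi.single i w : (k : ι) → W (bl k)) k) (φ y k) =
          skewForm (P (bl i)) w (φ y i) := by
      intro P y
      rw [Finset.sum_eq_single i]
      · rw [Pi.single_eq_same]
      · intro k _ hk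
        rw [Pi.single_eq_of_ne hk]
        show (0 : Fin _ → ℂ) ⬝ᵥ _ - _ ⬝ᵥ ((P (bl k)).mulVec (0 : Fin _ → ℂ)) = 0
        rw [zero_dotProduct, Matrix.mulVec_zero, dotProduct_zero, sub_zero]
      · intro h; exact absurd (Finset.mem_univ i) h
    rw [h4, h4, h4] at h3
    exact h3
  · intro h
    choose c h0 h1 h2 using h
    refine ⟨fun j => φ.symm (fun i => c i j), ?_, ?_, fun j hj w => ?_⟩
    · show φ.symm (fun i => c i 0) = 0
      have : (fun i => c i 0) = 0 := funext h0
      rw [this, map_zero]
    · show φ.symm (fun i => c i 1) = v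
      have : (fun i => c i 1) = φ v := funext h1
      rw [this, LinearEquiv.symm_apply_apply]
    · rw [(hφ _ _).1, (hφ _ _).2, (hφ _ _).2]
      simp only [LinearEquiv.apply_symm_apply, sumForm, Finset.mul_sum, ← Finset.sum_add_distrib]
      apply Finset.sum_eq_zero
      intro i _
      exact h2 i j hj _

end pull

theorem sum_kap (r : ℂ) (p : ℕ) (S : Multiset Block) :
    (S.map (kap r p)).sum = (kronPart S).card +
      2 * ((sizesAt S (some (-r))).filter (p ≤ ·)).card := by
  induction S using Multiset.induction_on with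
  | empty => simp [kronPart, sizesAt]
  | cons b S ih =>
    rw [Multiset.map_cons, Multiset.sum_cons, ih]
    rcases b with k | ⟨μ, m⟩
    · have h1 : kronPart (Block.kron k ::ₘ S) = k ::ₘ kronPart S := by
        rw [kronPart, Multiset.filterMap_cons_some]; rfl
        rfl
      have h2 : sizesAt (Block.kron k ::ₘ S) (some (-r)) = sizesAt S (some (-r)) := by
        rw [sizesAt, Multiset.filterMap_cons_none]; rfl
        rfl
      rw [h1, h2, Multiset.card_cons]
      simp only [kap]
      ring
    · have h1 : kronPart (Block.jordan μ m ::ₘ S) = kronPart S := by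
        rw [kronPart, Multiset.filterMap_cons_none]; rfl
        rfl
      rw [h1]
      by_cases hμ : μ = some (-r)
      · have h2 : sizesAt (Block.jordan μ m ::ₘ S) (some (-r)) = m ::ₘ sizesAt S (some (-r)) := by
          rw [sizesAt, Multiset.filterMap_cons_some (b := m)]
          · rfl
          · simp [hμ]
        rw [h2]
        by_cases hm : p ≤ m
        · rw [Multiset.filter_cons_of_pos _ hm, Multiset.card_cons]
          simp only [kap, hμ, hm, and_self, if_true]
          ring
        · rw [Multiset.filter_cons_of_neg _ hm]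
          simp only [kap, hm, and_false, if_false, zero_add]
      · have h2 : sizesAt (Block.jordan μ m ::ₘ S) (some (-r)) = sizesAt S (some (-r)) := by
          rw [sizesAt, Multiset.filterMap_cons_none]
          · rfl
          · simp [hμ]
        rw [h2]
        simp only [kap, hμ, false_and, if_false, zero_add]

/-- part of a block containing the kernel curves. -/
def KZ : (b : Block) → Submodule ℂ (W b)
  | .kron k =>
    { carrier := {w | w.1 = 0}
      zero_mem' := rfl
      add_mem' := by
        intro v w h1 h2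
        show v.1 + w.1 = 0
        rw [h1, h2, add_zero]
      smul_mem' := by
        intro c v h1
        show c • v.1 = 0
        rw [h1, smul_zero] }
  | .jordan _ _ => ⊥

theorem finrank_KZ_kron (k : ℕ) : finrank ℂ (KZ (.kron k)) = k + 1 := by
  let F : KZ (.kron k) →ₗ[ℂ] (Fin (k + 1) → ℂ) :=
    { toFun := fun w => (w : W (.kron k)).2
      map_add' := fun _ _ => rfl
      map_smul' := fun _ _ => rfl }
  have hF : Function.Bijective F := by
    constructor
    · rw [← LinearMap.ker_eq_bot, LinearMap.ker_eq_bot']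
      rintro ⟨w, hw⟩ h0
      apply Subtype.ext
      exact Prod.ext hw h0
    · intro v
      exact ⟨⟨((0, v) : (Fin k → ℂ) × (Fin (k + 1) → ℂ)), rfl⟩, rfl⟩
  rw [(LinearEquiv.ofBijective F hF).finrank_eq]
  simp

/-- dimension of `KZ`. -/
def kz : Block → ℕ
  | .kron k => k + 1
  | .jordan _ _ => 0

theorem finrank_KZ (b : Block) : finrank ℂ (KZ b) = kz b := by
  rcases b with k | ⟨μ, m⟩
  · exact finrank_KZ_kron k
  · show finrank ℂ (⊥ : Submodule ℂ (W (.jordan μ m))) = 0
    exact finrank_bot ℂ _

theorem sum_kz (S : Multiset Block) : (S.map kz).sum = ((kronPart S).map (· + 1)).sum := by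
  induction S using Multiset.induction_on with
  | empty => simp [kronPart]
  | cons b S ih =>
    rw [Multiset.map_cons, Multiset.sum_cons, ih]
    rcases b with k | ⟨μ, m⟩
    · have h1 : kronPart (Block.kron k ::ₘ S) = k ::ₘ kronPart S := by
        rw [kronPart, Multiset.filterMap_cons_some]; rfl
        rfl
      rw [h1, Multiset.map_cons, Multiset.sum_cons]
      rfl
    · have h1 : kronPart (Block.jordan μ m ::ₘ S) = kronPart S := by
        rw [kronPart, Multiset.filterMap_cons_none]; rfl
        rfl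
      rw [h1]
      simp [kz]

theorem ChB_le_KZ (b : Block) (r : ℂ) (p : ℕ) (hp : 1 ≤ p)
    (hlarge : ∀ m, b = .jordan (some (-r)) m → m < p) : ChB b r p ≤ KZ b := by
  intro w hw
  rcases b with k | ⟨μ | μ, m⟩
  · exact ((pair_kron k p hp r w).1 hw).1
  · exact (pair_inv m p hp r 1 0 0 1 (by simp) w).1 hw
  · by_cases hμ : μ = -r
    · subst hμ
      exact ((pair_nilp m p hp r w).1 hw).2.2 (hlarge m rfl)
    · refine (pair_inv m p hp r μ 1 1 0 ?_ w).1 hw
      intro h
      apply hμ
      linear_combination h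

theorem skewForm_zero_right {r c : ℕ} (M : Matrix (Fin r) (Fin c) ℂ)
    (u : (Fin r → ℂ) × (Fin c → ℂ)) : skewForm M u 0 = 0 := by
  have := skewForm_smul_right M 0 u 0
  rwa [zero_smul, zero_mul] at this

theorem sf0 (b : Block) (P : Matrix (Fin b.rows) (Fin b.cols) ℂ) (y : W b) :
    skewForm P y (0 : W b) = 0 := skewForm_zero_right P y

/-- each long chain of a block starts a kernel curve. -/
theorem block_curve (b : Block) (r : ℂ) (p : ℕ) (hp : 1 ≤ p)
    (hlarge : ∀ m, b = .jordan (some (-r)) m → m < p) (w : W b) (hw : w ∈ ChB b r p) :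
    ∃ γ : ℂ → W b, γ r = w ∧
      (∀ t (y : W b), skewForm b.PA y (γ t) + t * skewForm b.PB y (γ t) = 0) ∧
      ∀ ℓ : W b →ₗ[ℂ] ℂ, ∃ P : ℂ[X], ∀ t, P.eval t = ℓ (γ t) := by
  rcases b with k | ⟨μ, m⟩
  · obtain ⟨h1, h2⟩ := (pair_kron k p hp r w).1 hw
    set c := w.2 (Fin.last k) with hc
    let γ : ℂ → W (.kron k) := fun t =>
      ((0, fun i => (-t) ^ (k - i : ℕ) * c) : (Fin k → ℂ) × (Fin (k + 1) → ℂ))
    refine ⟨γ, ?_, ?_, ?_⟩
    · refine Prod.ext ?_ ?_
      · exact h1.symm
      · funext i
        exact (h2 i).symm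
    · intro t y
      have h3 : γ t ∈ Ch (skewForm (bidiag k (k + 1) 1 0)) (skewForm (bidiag k (k + 1) 0 1)) t 1 := by
        refine (pair_kron k 1 le_rfl t (γ t)).2 ⟨rfl, fun i => ?_⟩
        show (-t) ^ (k - i : ℕ) * c = (-t) ^ (k - i : ℕ) * ((-t) ^ (k - (Fin.last k : ℕ)) * c)
        rw [Fin.val_last, Nat.sub_self, pow_zero, one_mul]
      obtain ⟨x, hx0, hx1, hx2⟩ := h3
      have h4 := hx2 0 one_pos y
      have h5 : skewForm (bidiag k (k + 1) 0 1) y (x 0) = 0 := by
        rw [hx0]
        exact skewForm_zero_right _ y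
      rw [h5, add_zero, hx1] at h4
      exact h4
    · intro ℓ
      let ℓ' : ((Fin k → ℂ) × (Fin (k + 1) → ℂ)) →ₗ[ℂ] ℂ := ℓ
      refine ⟨∑ i : Fin (k + 1), (-X) ^ (k - i : ℕ) *
        C (c * ℓ' ((0, Pi.single i 1) : (Fin k → ℂ) × (Fin (k + 1) → ℂ))), ?_⟩
      intro t
      show _ = ℓ' (((0, fun i => (-t) ^ (k - i : ℕ) * c) : (Fin k → ℂ) × (Fin (k + 1) → ℂ)))
      have h4 : (((0, fun i => (-t) ^ (k - i : ℕ) * c) : (Fin k → ℂ) × (Fin (k + 1) → ℂ))) =
          ∑ i : Fin (k + 1), ((-t) ^ (k - i : ℕ) * c) •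
          (((0, Pi.single i 1) : (Fin k → ℂ) × (Fin (k + 1) → ℂ))) := by
        refine Prod.ext ?_ ?_
        · simp [Prod.fst_sum]
        · funext j
          simp [Prod.snd_sum, Finset.sum_apply, Pi.single_apply]
      rw [h4, map_sum, eval_finsetSum]
      apply Finset.sum_congr rfl
      intro i _
      rw [map_smul, smul_eq_mul, eval_mul, eval_pow, eval_neg, eval_X, eval_C]
      ring
  · have h1 : w = 0 := ChB_le_KZ (.jordan μ m) r p hp hlarge hw
    subst h1
    refine ⟨0, rfl, fun t y => ?_, fun ℓ => ⟨0, fun t => ?_⟩⟩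
    · show skewForm (Block.jordan μ m).PA y (0 : W (.jordan μ m)) +
        t * skewForm (Block.jordan μ m).PB y (0 : W (.jordan μ m)) = 0
      rw [sf0, sf0, mul_zero, add_zero]
    · show (0 : ℂ[X]).eval t = ℓ 0
      rw [eval_zero, map_zero]

end Pool.Agent.H4.JK
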