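import Pool.Agent.H4.JKr
import Pool.Agent.H4.JKe

/-! Invariants of a decomposed pencil of matrices. -/

namespace Pool.Agent.H4.JK

open Polynomial Module

set_option linter.unusedSectionVars false

variable {I : Type} [Fintype I] [DecidableEq I] {A B : Matrix I I ℂ}
  {ι : Type} [Fintype ι] {bl : ι → Block}

section phi

variable (φ : (I → ℂ) ≃ₗ[ℂ] ((i : ι) → W (bl i)))
  (hφ : ∀ v w, mform A v w = sumForm bl Block.PA (φ v) (φ w) ∧
    mform B v w = sumForm bl Block.PB (φ v) (φ w))
  (hpos : ∀ i, (bl i).Pos)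

include hφ in
theorem Es_eq_pull (r : ℂ) (p : ℕ) : Es (pen A B) r p = pull φ (fun i => ChB (bl i) r p) := by
  ext v
  rw [mem_Es, mem_Ch_iff φ hφ]
  rfl

include hφ hpos in
theorem finrank_Es (r : ℂ) (p : ℕ) (hp : 1 ≤ p) :
    finrank ℂ (Es (pen A B) r p) = (kronPart (Finset.univ.val.map bl)).card +
      2 * ((sizesAt (Finset.univ.val.map bl) (some (-r))).filter (p ≤ ·)).card := by
  rw [Es_eq_pull φ hφ, finrank_pull, ← sum_kap, Multiset.map_map]
  apply Finset.sum_congr rfl
  intro i _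
  exact finrank_ChB (bl i) (hpos i) r p hp

theorem eval_pen (z : I → ℂ[X]) (t : ℂ) (i : I) :
    ((pen A B).mulVec z i).eval t =
      A.mulVec (fun k => (z k).eval t) i + t * B.mulVec (fun k => (z k).eval t) i := by
  simp only [Matrix.mulVec, dotProduct, Finset.mul_sum, ← Finset.sum_add_distrib, eval_finsetSum,
    eval_mul, pen, Matrix.add_apply, Matrix.map_apply, eval_add, eval_C, eval_X]
  apply Finset.sum_congr rfl
  intro k _
  ring

include hφ in
theorem Es_le_Zs (r : ℂ) (p : ℕ) (hp : 1 ≤ p)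
    (hl : ∀ m ∈ sizesAt (Finset.univ.val.map bl) (some (-r)), m < p) :
    Es (pen A B) r p ≤ Zs (pen A B) r := by
  classical
  intro v hv
  rw [Es_eq_pull φ hφ] at hv
  have h1 : ∀ i, ∃ γ : ℂ → W (bl i), γ r = φ v i ∧
      (∀ t (y : W (bl i)), skewForm (bl i).PA y (γ t) + t * skewForm (bl i).PB y (γ t) = 0) ∧
      ∀ ℓ : W (bl i) →ₗ[ℂ] ℂ, ∃ P : ℂ[X], ∀ t, P.eval t = ℓ (γ t) := by
    intro i
    apply block_curve (bl i) r p hp _ (φ v i) (hv i)
    intro m hm
    apply hl
    simp only [sizesAt, Multiset.mem_filterMap, Multiset.mem_map]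
    exact ⟨bl i, ⟨i, Finset.mem_univ _, rfl⟩, by rw [hm]; simp⟩
  choose γ h2 h3 h4 using h1
  let ℓ : ∀ i : ι, I → (W (bl i) →ₗ[ℂ] ℂ) := fun i k =>
    (LinearMap.proj k : (I → ℂ) →ₗ[ℂ] ℂ) ∘ₗ φ.symm.toLinearMap ∘ₗ
      (LinearMap.single ℂ (fun i => W (bl i)) i)
  choose P hP using fun i k => h4 i (ℓ i k)
  have hz : ∀ t k, (∑ i, P i k).eval t = φ.symm (fun i => γ i t) k := by
    intro t k
    rw [eval_finsetSum]
    have h5 : (fun i => γ i t) = ∑ i, Pi.single (M := fun i => W (bl i)) i (γ i t) :=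
      (Finset.univ_sum_single (fun i => γ i t)).symm
    rw [h5, map_sum, Finset.sum_apply]
    apply Finset.sum_congr rfl
    intro i _
    rw [hP]
    rfl
  refine ⟨fun k => ∑ i, P i k, ?_, ?_⟩
  · funext i
    apply Polynomial.funext
    intro t
    rw [eval_pen, Pi.zero_apply, eval_zero]
    have h5 : (fun k => (∑ i, P i k).eval t) = φ.symm (fun i => γ i t) := funext (hz t)
    rw [h5]
    have h6 : ∀ M : Matrix I I ℂ, ∀ w, M.mulVec w i = mform M (Pi.single i 1) w := by
      intro M w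
      simp [mform, single_dotProduct]
    rw [h6, h6, (hφ _ _).1, (hφ _ _).2]
    simp only [LinearEquiv.apply_symm_apply, sumForm, Finset.mul_sum, ← Finset.sum_add_distrib]
    apply Finset.sum_eq_zero
    intro j _
    exact h3 j t _
  · intro k
    show (∑ i, P i k).eval r = v k
    rw [hz]
    have h5 : (fun i => γ i r) = φ v := funext h2
    rw [h5, LinearEquiv.symm_apply_apply]

include hφ in
theorem Zs_eq (r : ℂ) (p : ℕ) (hp : 1 ≤ p)
    (hl : ∀ m ∈ sizesAt (Finset.univ.val.map bl) (some (-r)), m < p) :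
    Zs (pen A B) r = Es (pen A B) r p :=
  le_antisymm (Zs_le_Es _ _ _) (Es_le_Zs φ hφ r p hp hl)

theorem exists_large (S : Multiset Block) (μ : Option ℂ) :
    ∃ p, 1 ≤ p ∧ ∀ m ∈ sizesAt S μ, m < p :=
  ⟨(sizesAt S μ).sum + 1, by omega, fun m hm => by
    have := Multiset.single_le_sum (fun x _ => Nat.zero_le x) m hm
    omega⟩

include hφ hpos in
theorem finrank_Zs (r : ℂ) :
    finrank ℂ (Zs (pen A B) r) = (kronPart (Finset.univ.val.map bl)).card := by
  obtain ⟨p, hp, hl⟩ := exists_large (Finset.univ.val.map bl) (some (-r))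
  rw [Zs_eq φ hφ r p hp hl, finrank_Es φ hφ hpos r p hp]
  have : (sizesAt (Finset.univ.val.map bl) (some (-r))).filter (p ≤ ·) = 0 := by
    rw [Multiset.filter_eq_nil]
    intro m hm
    have := hl m hm
    omega
  rw [this, Multiset.card_zero, mul_zero, add_zero]

include hφ in
theorem Zs_le_Zt (r : ℂ) : Zs (pen A B) r ≤ pull φ (fun i => KZ (bl i)) := by
  obtain ⟨p, hp, hl⟩ := exists_large (Finset.univ.val.map bl) (some (-r))
  rw [Zs_eq φ hφ r p hp hl, Es_eq_pull φ hφ]
  intro v hv i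
  apply ChB_le_KZ (bl i) r p hp _ (hv i)
  intro m hm
  apply hl
  simp only [sizesAt, Multiset.mem_filterMap, Multiset.mem_map]
  exact ⟨bl i, ⟨i, Finset.mem_univ _, rfl⟩, by rw [hm]; simp⟩

theorem finrank_Zt : finrank ℂ (pull φ (fun i => KZ (bl i))) =
    ((kronPart (Finset.univ.val.map bl)).map (· + 1)).sum := by
  rw [finrank_pull, ← sum_kz, Multiset.map_map]
  apply Finset.sum_congr rfl
  intro i _
  exact finrank_KZ (bl i)

theorem pow_indep (k : ℕ) (hk : 2 ≤ k) (α β a b : ℂ)
    (h : ∀ t : ℂ, α + t * β = (-t) ^ k * (a + t * b)) : a = 0 ∧ b = 0 := by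
  have h1 : (C α + X * C β : ℂ[X]) = (-X) ^ k * (C a + X * C b) := by
    apply Polynomial.funext
    intro t
    simp only [eval_add, eval_mul, eval_C, eval_X, eval_pow, eval_neg]
    exact h t
  have h2 : ((-X : ℂ[X])) ^ k = C ((-1) ^ k) * X ^ k := by
    rw [neg_pow, C_pow]
    simp
  rw [h2] at h1
  have h3 := congrArg (fun g : ℂ[X] => g.coeff k) h1
  have h4 := congrArg (fun g : ℂ[X] => g.coeff (k + 1)) h1
  have e1 : ∀ n, (C ((-1) ^ k) * X ^ k * (C a + X * C b) : ℂ[X]).coeff (n + k) =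
      (-1) ^ k * (C a + X * C b : ℂ[X]).coeff n := by
    intro n
    rw [mul_assoc, coeff_C_mul, coeff_X_pow_mul]
  have e2 : ∀ n, 2 ≤ n → (C α + X * C β : ℂ[X]).coeff n = 0 := by
    intro n hn
    obtain ⟨n, rfl⟩ : ∃ n', n = n' + 2 := ⟨n - 2, by omega⟩
    rw [coeff_add, coeff_X_mul, coeff_C, if_neg (by omega), coeff_C, if_neg (by omega), add_zero]
  have h5 := e1 0
  have h6 := e1 1
  rw [zero_add] at h5
  rw [add_comm 1 k] at h6
  simp only [h5, h6] at h3 h4
  rw [e2 k hk] at h3
  rw [e2 (k + 1) (by omega)] at h4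
  have e3 : (C a + X * C b : ℂ[X]).coeff 0 = a := by simp
  have e4 : (C a + X * C b : ℂ[X]).coeff 1 = b := by
    rw [coeff_add, coeff_X_mul]
    simp
  rw [e3] at h3
  rw [e4] at h4
  have hne : ((-1 : ℂ)) ^ k ≠ 0 := pow_ne_zero _ (by norm_num)
  exact ⟨(mul_eq_zero.1 h3.symm).resolve_left hne, (mul_eq_zero.1 h4.symm).resolve_left hne⟩

theorem block_deg_one (b : Block) (h0 : b ≠ .kron 0) (h1 : b ≠ .kron 1) (y0 y1 : W b)
    (hmem : ∀ (t : ℂ) (p : ℕ), y0 + t • y1 ∈ ChB b t p) (t : ℂ) : y0 + t • y1 = 0 := by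
  rcases b with k | ⟨μ, m⟩
  · have hk0 : k ≠ 0 := by rintro rfl; exact h0 rfl
    have hk1 : k ≠ 1 := by rintro rfl; exact h1 rfl
    have h5 : ∀ t : ℂ, (y0 + t • y1 : W (.kron k)).1 = 0 ∧ ∀ j : Fin (k + 1),
        (y0 + t • y1 : W (.kron k)).2 j = (-t) ^ (k - j : ℕ) *
          (y0 + t • y1 : W (.kron k)).2 (Fin.last k) := fun t =>
      (pair_kron k 1 le_rfl t _).1 (hmem t 1)
    have h6 : ∀ t : ℂ, y0.2 (0 : Fin (k + 1)) + t * y1.2 (0 : Fin (k + 1)) =
        (-t) ^ k * (y0.2 (Fin.last k) + t * y1.2 (Fin.last k)) := fun t => (h5 t).2 0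
    obtain ⟨h7, h8⟩ := pow_indep k (by omega) _ _ _ _ h6
    refine Prod.ext (h5 t).1 ?_
    funext j
    have h9 := (h5 t).2 j
    have h10 : (y0 + t • y1 : W (.kron k)).2 (Fin.last k) = 0 := by
      show y0.2 (Fin.last k) + t * y1.2 (Fin.last k) = 0
      rw [h7, h8, mul_zero, add_zero]
    rw [h10, mul_zero] at h9
    exact h9
  · exact ChB_le_KZ (.jordan μ m) t (m + 1) (by omega) (by
        intro m' hm'
        simp only [Block.jordan.injEq] at hm'
        omega) (hmem t (m + 1))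

theorem block_zero_dep (b : Block) (hb : b = .kron 0) (y0 y1 : W b) :
    ∃ α β : ℂ, (α ≠ 0 ∨ β ≠ 0) ∧ α • y0 + β • y1 = 0 := by
  subst hb
  have h7 : ∀ y : W (.kron 0), y.2 (0 : Fin 1) = 0 → y = 0 := by
    intro y hy
    refine Prod.ext ?_ ?_
    · funext j; exact j.elim0
    · funext j
      have : j = (0 : Fin 1) := Fin.ext (by have := j.2; change (j : ℕ) < 0 + 1 at this; show (j : ℕ) = 0; omega)
      rw [this]; exact hy
  by_cases h8 : y0.2 (0 : Fin 1) = 0
  · exact ⟨1, 0, Or.inl one_ne_zero, by rw [h7 y0 h8, smul_zero, zero_smul, add_zero]⟩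
  · refine ⟨y1.2 (0 : Fin 1), -y0.2 (0 : Fin 1), Or.inr (neg_ne_zero.2 h8), h7 _ ?_⟩
    show y1.2 (0 : Fin 1) * y0.2 (0 : Fin 1) + -y0.2 (0 : Fin 1) * y1.2 (0 : Fin 1) = 0
    ring

include hφ in
/-- kernel curves of degree at most one are proportional. -/
theorem deg_one (h1 : 1 ∉ kronPart (Finset.univ.val.map bl))
    (h0 : (kronPart (Finset.univ.val.map bl)).count 0 ≤ 1) (z0 z1 : I → ℂ)
    (hz : ∀ t : ℂ, z0 + t • z1 ∈ Zs (pen A B) t) :
    ∃ α β : ℂ, (α ≠ 0 ∨ β ≠ 0) ∧ α • z0 + β • z1 = 0 := by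
  classical
  -- membership of the components
  have hc : ∀ t i p, φ (z0 + t • z1) i ∈ ChB (bl i) t p := by
    intro t i p
    have := Zs_le_Es _ _ p (hz t)
    rw [Es_eq_pull φ hφ] at this
    exact this i
  -- at most one index with a trivial block
  have hone : ∀ i j, bl i = .kron 0 → bl j = .kron 0 → i = j := by
    intro i j hi hj
    by_contra hij
    have h2 : ({.kron 0, .kron 0} : Multiset Block) ≤ Finset.univ.val.map bl := by
      have h3 : ({i, j} : Finset ι).val.map bl ≤ Finset.univ.val.map bl :=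
        Multiset.map_le_map (Finset.val_le_iff.2 (Finset.subset_univ _))
      have h4 : ({i, j} : Finset ι).val.map bl = {.kron 0, .kron 0} := by
        rw [Finset.insert_val_of_notMem (by simpa using hij)]
        simp [hi, hj]
      rw [h4] at h3
      exact h3
    have h3 : ({0, 0} : Multiset ℕ) ≤ kronPart (Finset.univ.val.map bl) := by
      have h4 := Multiset.filterMap_le_filterMap (fun b : Block => match b with
        | .kron k => some k
        | .jordan _ _ => none) h2
      exact h4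
    have h4 := Multiset.count_le_of_le 0 h3
    simp at h4
    omega
  have hzero : ∀ i, bl i ≠ .kron 0 → φ z0 i = 0 ∧ φ z1 i = 0 := by
    intro i hi
    have hlin : ∀ t : ℂ, φ (z0 + t • z1) i = φ z0 i + t • φ z1 i := by
      intro t; rw [map_add, map_smul]; rfl
    have hgen : (∀ t : ℂ, φ z0 i + t • φ z1 i = 0) → φ z0 i = 0 ∧ φ z1 i = 0 := by
      intro h
      have e0 := h 0
      rw [zero_smul, add_zero] at e0
      have e1 := h 1
      rw [e0, zero_add, one_smul] at e1
      exact ⟨e0, e1⟩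
    apply hgen
    apply block_deg_one (bl i) hi
    · intro hb
      apply h1
      simp only [kronPart, Multiset.mem_filterMap, Multiset.mem_map]
      exact ⟨.kron 1, ⟨i, Finset.mem_univ _, hb⟩, rfl⟩
    · intro t p
      rw [← hlin]
      exact hc t i p
  by_cases hex : ∃ i, bl i = .kron 0
  · obtain ⟨i, hi⟩ := hex
    -- coordinates in the trivial block
    have h5 : ∀ j, j ≠ i → φ z0 j = 0 ∧ φ z1 j = 0 := fun j hj =>
      hzero j (fun h => hj (hone j i h hi))
    have h6 : ∃ α β : ℂ, (α ≠ 0 ∨ β ≠ 0) ∧ α • φ z0 i + β • φ z1 i = 0 :=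
      block_zero_dep (bl i) hi _ _
    obtain ⟨α, β, h7, h8⟩ := h6
    refine ⟨α, β, h7, ?_⟩
    apply φ.injective
    rw [map_zero, map_add, map_smul, map_smul]
    funext j
    by_cases hj : j = i
    · subst hj; exact h8
    · show α • φ z0 j + β • φ z1 j = 0
      rw [(h5 j hj).1, (h5 j hj).2, smul_zero, smul_zero, add_zero]
  · push Not at hex
    refine ⟨1, 0, Or.inl one_ne_zero, ?_⟩
    rw [one_smul, zero_smul, add_zero]
    apply φ.injective
    rw [map_zero]
    funext j
    exact (hzero j (hex j)).1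

end phi

/-- the kernel of `B` is large if `∞` is an eigenvalue. -/
theorem finrank_inf (h : Decomposes (mform A) (mform B) bl) (hpos : ∀ i, (bl i).Pos)
    (hinf : none ∈ eigs (Finset.univ.val.map bl)) :
    (kronPart (Finset.univ.val.map bl)).card + 2 ≤
      finrank ℂ (LinearMap.ker B.mulVecLin) := by
  classical
  obtain ⟨t, ht⟩ : ∃ t : ℂ, some (-t) ∉ eigs (Finset.univ.val.map bl) := by
    have h1 : (((eigs (Finset.univ.val.map bl)).preimage (fun t : ℂ => some (-t))
      (by intro x _ y _ hxy; simpa using hxy) : Finset ℂ) : Set ℂ) ≠ Set.univ := by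
      intro h2
      exact Set.infinite_univ (h2 ▸ Finset.finite_toSet _)
    obtain ⟨t, ht⟩ := (Set.ne_univ_iff_exists_notMem _).1 h1
    exact ⟨t, fun h3 => ht (Finset.mem_coe.2 (Finset.mem_preimage.2 h3))⟩
  have hden : ∀ i μ m, bl i = .jordan μ m → den 1 t μ ≠ 0 := by
    intro i μ m hb
    rcases μ with _ | μ
    · exact one_ne_zero
    · intro h0
      apply ht
      have : μ = -t := by
        simp only [den] at h0
        linear_combination h0
      rw [← this]
      apply mem_eigs (m := m)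
      rw [← hb]
      exact Multiset.mem_map_of_mem _ (Finset.mem_univ i)
  have h2 := h.moebius 0 1 1 t (by norm_num) hden
  have h3 : Decomposes (mform B) (mform (A + t • B))
      (fun i => relabel (moeb 0 1 1 t) (bl i)) := by
    have e1 : (fun v w => 0 * mform A v w + 1 * mform B v w) = mform B := by
      funext v w; ring
    have e2 : (fun v w => 1 * mform A v w + t * mform B v w) = mform (A + t • B) := by
      funext v w
      simp only [mform, Matrix.add_mulVec, Matrix.smul_mulVec, dotProduct_add, dotProduct_smul,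
        smul_eq_mul]
      ring
    rw [e1, e2] at h2
    exact h2
  obtain ⟨φ, hφ⟩ := h3
  have h4 := finrank_Es φ hφ (fun i => (relabel_pos _ _).2 (hpos i)) 0 1 le_rfl
  have h5 : Finset.univ.val.map (fun i => relabel (moeb 0 1 1 t) (bl i)) =
      (Finset.univ.val.map bl).map (relabel (moeb 0 1 1 t)) := by
    rw [Multiset.map_map]; rfl
  rw [h5, kronPart_relabel] at h4
  have h6 : 1 ≤ ((sizesAt ((Finset.univ.val.map bl).map (relabel (moeb 0 1 1 t)))
      (some (-0))).filter (1 ≤ ·)).card := by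
    rw [Nat.one_le_iff_ne_zero, Ne, Multiset.card_eq_zero, Multiset.filter_eq_nil]
    push Not
    simp only [eigs, Multiset.mem_toFinset, Multiset.mem_filterMap, Multiset.mem_map] at hinf
    obtain ⟨b, ⟨i, hi, rfl⟩, hb⟩ := hinf
    rcases hbi : bl i with k | ⟨μ, m⟩
    · rw [hbi] at hb; simp at hb
    · rw [hbi] at hb
      simp only [Option.some.injEq] at hb
      subst hb
      refine ⟨m, ?_, ?_⟩
      · simp only [sizesAt, Multiset.mem_filterMap, Multiset.mem_map]
        refine ⟨relabel (moeb 0 1 1 t) (.jordan none m), ⟨.jordan none m, ⟨i, hi, hbi⟩, rfl⟩, ?_⟩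
        simp [relabel, moeb]
      · have := hpos i
        rw [hbi] at this
        exact this
  have h7 : Es (pen B (A + t • B)) 0 1 = LinearMap.ker B.mulVecLin := by
    ext v
    rw [mem_Es, LinearMap.mem_ker, Matrix.mulVecLin_apply]
    constructor
    · rintro ⟨c, c0, c1, c2⟩
      have h8 := (mform_comb B (A + t • B) 0 (c 1) (c 0)).1 (c2 0 one_pos)
      funext i
      have h9 := h8 i
      rw [c0, c1, Matrix.mulVec_zero] at h9
      simpa using h9
    · intro hv
      refine ⟨fun j => if j = 0 then 0 else v, by simp, by simp, fun j hj w => ?_⟩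
      obtain rfl : j = 0 := by omega
      have e3 : mform (A + t • B) w (0 : I → ℂ) = 0 := by
        simp [mform]
      have e4 : mform B w v = 0 := by
        simp only [mform, hv, dotProduct_zero]
      simp [e3, e4]
  rw [← h7, h4]
  omega

end Pool.Agent.H4.JK
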