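import Pool.Agent.H4.JKs
import Pool.Agent.H4.JKp

/-! Toeplitz matrices: the spaces of chains have constant dimension along an irreducible
hypersurface. -/

namespace Pool.Agent.H4.JK

open Module

set_option linter.unusedSectionVars false

/-! ### Rank and minors -/

section minors

variable {m n : Type} [Fintype m] [Fintype n] [DecidableEq m] [DecidableEq n]

theorem exists_cols (A : Matrix m n ℂ) (k : ℕ) (hk : A.rank = k) :
    ∃ t : Fin k → n, LinearIndependent ℂ (fun j => A.col (t j)) := by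
  classical
  obtain ⟨κ, a, ha, hsp, hli⟩ := exists_linearIndependent' ℂ A.col
  have hκ : Finite κ := Finite.of_injective a ha
  have hκ' : Fintype κ := Fintype.ofFinite κ
  have h1 : Fintype.card κ = k := by
    rw [← hk, Matrix.rank_eq_finrank_span_cols, ← hsp, finrank_span_eq_card hli]
  let e : Fin k ≃ κ := (Fintype.equivFinOfCardEq h1).symm
  exact ⟨fun j => a (e j), hli.comp e e.injective⟩

theorem exists_minor (A : Matrix m n ℂ) (k : ℕ) (hk : A.rank = k) :
    ∃ (s : Fin k → m) (t : Fin k → n), (A.submatrix s t).det ≠ 0 := by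
  obtain ⟨t, ht⟩ := exists_cols A k hk
  have h1 : (A.submatrix id t).transpose.rank = k := by
    have h2 : LinearIndependent ℂ (A.submatrix id t).transpose.row := ht
    have h3 := h2.rank_matrix
    rw [Fintype.card_fin] at h3
    exact h3
  obtain ⟨s, hs⟩ := exists_cols (A.submatrix id t).transpose k h1
  refine ⟨s, t, ?_⟩
  have h2 : LinearIndependent ℂ (A.submatrix s t).row := hs
  rw [Matrix.linearIndependent_rows_iff_isUnit, Matrix.isUnit_iff_isUnit_det] at h2
  exact h2.ne_zero

theorem rank_sub_le {m' n' : Type} [Fintype m'] [Fintype n'] (A : Matrix m n ℂ) (s : m' → m)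
    (t : n' → n) : (A.submatrix s t).rank ≤ A.rank := by
  rw [← Matrix.eRank_toNat_eq_rank, ← Matrix.eRank_toNat_eq_rank]
  apply ENat.toNat_le_toNat (Matrix.eRank_submatrix_le A s t)
  intro h
  have := A.eRank_le_card_width
  rw [h] at this
  simp at this

theorem le_rank_of_minor (A : Matrix m n ℂ) (k : ℕ) (s : Fin k → m) (t : Fin k → n)
    (h : (A.submatrix s t).det ≠ 0) : k ≤ A.rank := by
  have h1 := Matrix.rank_of_det_ne_zero (A := A.submatrix s t) h
  rw [Fintype.card_fin] at h1
  rw [← h1]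
  exact rank_sub_le A s t

end minors

variable {I : Type} [Fintype I] [DecidableEq I]

/-! ### Toeplitz matrices -/

/-- the Toeplitz matrix with diagonal blocks `A` and subdiagonal blocks `B`. -/
def toep {R : Type} [Zero R] (q : ℕ) (A B : Matrix I I R) : Matrix (Fin q × I) (Fin q × I) R :=
  Matrix.of fun x y => if (y.1 : ℕ) = x.1 then A x.2 y.2 else
    if (y.1 : ℕ) + 1 = x.1 then B x.2 y.2 else 0

theorem toep_mulVec (q : ℕ) (A B : Matrix I I ℂ) (c : Fin q × I → ℂ) (j : Fin q) (i : I) :
    (toep q A B).mulVec c (j, i) = A.mulVec (fun i' => c (j, i')) i +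
      if h : (j : ℕ) = 0 then 0 else B.mulVec (fun i' => c (⟨j - 1, by omega⟩, i')) i := by
  rw [Matrix.mulVec, dotProduct, Fintype.sum_prod_type]
  have h1 : ∀ j' : Fin q, ∑ i', toep q A B (j, i) (j', i') * c (j', i') =
      (if j' = j then A.mulVec (fun i' => c (j, i')) i else 0) +
      (if (j' : ℕ) + 1 = j then B.mulVec (fun i' => c (j', i')) i else 0) := by
    intro j'
    simp only [toep, Matrix.of_apply, Matrix.mulVec, dotProduct]
    by_cases h2 : j' = j
    · subst h2
      have h3 : ¬ ((j' : ℕ) + 1 = j') := by omega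
      simp [h3]
    · have h2' : ¬ ((j' : ℕ) = j) := fun h => h2 (Fin.ext h)
      by_cases h3 : (j' : ℕ) + 1 = j
      · simp [h2, h2', h3]
      · simp [h2, h2', h3]
  rw [Finset.sum_congr rfl (fun j' _ => h1 j'), Finset.sum_add_distrib]
  congr 1
  · simp
  · split_ifs with h0
    · apply Finset.sum_eq_zero
      intro j' _
      rw [if_neg (by omega)]
    · rw [Finset.sum_eq_single (⟨j - 1, by omega⟩ : Fin q)]
      · rw [if_pos]
        show (j : ℕ) - 1 + 1 = j
        omega
      · intro b _ hb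
        rw [if_neg]
        intro h
        apply hb
        ext
        show (b : ℕ) = j - 1
        omega
      · intro h; exact absurd (Finset.mem_univ _) h

/-- kernel of the Toeplitz matrix. -/
def TK (q : ℕ) (A B : Matrix I I ℂ) : Submodule ℂ (Fin q × I → ℂ) :=
  LinearMap.ker (toep q A B).mulVecLin

theorem mem_TK (q : ℕ) (A B : Matrix I I ℂ) (c : Fin q × I → ℂ) : c ∈ TK q A B ↔
    ∀ (j : Fin q) (i : I), A.mulVec (fun i' => c (j, i')) i +
      (if h : (j : ℕ) = 0 then 0 else B.mulVec (fun i' => c (⟨j - 1, by omega⟩, i')) i) = 0 := by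
  rw [TK, LinearMap.mem_ker, Matrix.mulVecLin_apply]
  constructor
  · intro h j i
    rw [← toep_mulVec, h]; rfl
  · intro h
    funext x
    obtain ⟨j, i⟩ := x
    rw [toep_mulVec]
    exact h j i

theorem finrank_TK (q : ℕ) (A B : Matrix I I ℂ) :
    finrank ℂ (TK q A B) = Fintype.card (Fin q × I) - (toep q A B).rank := by
  have h1 := LinearMap.finrank_range_add_finrank_ker (toep q A B).mulVecLin
  rw [Module.finrank_fintype_fun_eq_card] at h1
  have h2 : (toep q A B).rank = finrank ℂ (LinearMap.range (toep q A B).mulVecLin) := rfl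
  rw [TK, h2]
  omega

/-- first component. -/
def tfst (q : ℕ) (A B : Matrix I I ℂ) : TK (q + 1) A B →ₗ[ℂ] (I → ℂ) where
  toFun c := fun i => (c : Fin (q + 1) × I → ℂ) (0, i)
  map_add' _ _ := rfl
  map_smul' _ _ := rfl

theorem range_tfst (q : ℕ) (A B : Matrix I I ℂ) (r : ℂ) :
    LinearMap.range (tfst q (A + r • B) B) = Es (pen A B) r (q + 1) := by
  ext v
  rw [mem_Es]
  constructor
  · rintro ⟨⟨c, hc⟩, rfl⟩
    rw [mem_TK] at hc
    refine ⟨fun j => if h : 1 ≤ j ∧ j ≤ q + 1 then fun i => c (⟨j - 1, by omega⟩, i) else 0,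
      ?_, ?_, ?_⟩
    · simp
    · simp only []
      rw [dif_pos ⟨le_rfl, by omega⟩]
      rfl
    · intro j hj
      rw [mform_comb]
      intro i
      have h1 := hc ⟨j, hj⟩ i
      simp only [Matrix.add_mulVec, Matrix.smul_mulVec, Pi.add_apply, Pi.smul_apply,
        smul_eq_mul] at h1
      simp only []
      rw [dif_pos ⟨by omega, by omega⟩]
      simp only [Nat.add_sub_cancel]
      rcases j with _ | j
      · rw [dif_neg (by omega), Matrix.mulVec_zero]
        simp only [dif_pos] at h1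
        exact h1
      · rw [dif_pos ⟨by omega, by omega⟩]
        rw [dif_neg (by simp)] at h1
        exact h1
  · rintro ⟨x, h0, h1, h2⟩
    refine ⟨⟨fun y => x (y.1 + 1) y.2, ?_⟩, ?_⟩
    · rw [mem_TK]
      intro j i
      have h3 := (mform_comb A B r _ _).1 (h2 j j.2) i
      simp only [Matrix.add_mulVec, Matrix.smul_mulVec, Pi.add_apply, Pi.smul_apply, smul_eq_mul]
      refine Eq.trans ?_ h3
      congr 1
      split_ifs with h4
      · rw [h4, h0, Matrix.mulVec_zero]; rfl
      · have h5 : (j : ℕ) - 1 + 1 = j := by omega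
        simp only [h5]
    · funext i
      show x (((0 : Fin (q + 1)) : ℕ) + 1) i = v i
      rw [Fin.val_zero, zero_add, h1]

/-- shift. -/
def tshift (q : ℕ) (A B : Matrix I I ℂ) : TK q A B →ₗ[ℂ] TK (q + 1) A B where
  toFun c := ⟨fun y => if h : (y.1 : ℕ) = 0 then 0 else
    (c : Fin q × I → ℂ) (⟨y.1 - 1, by omega⟩, y.2), by
      obtain ⟨c, hc⟩ := c
      rw [mem_TK] at hc ⊢
      intro j i
      by_cases h : (j : ℕ) = 0
      · simp only [h, dif_pos]
        have : (fun _ : I => (0 : ℂ)) = 0 := rfl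
        rw [this, Matrix.mulVec_zero]
        simp
      · have h1 := hc ⟨j - 1, by omega⟩ i
        simp only [h, dif_neg, not_false_eq_true]
        by_cases h2 : (j : ℕ) - 1 = 0
        · simp only [h2, dif_pos] at h1 ⊢
          have : (fun _ : I => (0 : ℂ)) = 0 := rfl
          rw [this, Matrix.mulVec_zero]
          exact h1
        · simp only [h2, dif_neg, not_false_eq_true] at h1 ⊢
          exact h1⟩
  map_add' c d := by
    apply Subtype.ext
    funext y
    show (if h : (y.1 : ℕ) = 0 then (0 : ℂ) else _) = (if h : (y.1 : ℕ) = 0 then (0 : ℂ) else _) +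
      (if h : (y.1 : ℕ) = 0 then (0 : ℂ) else _)
    split_ifs
    · simp
    · rfl
  map_smul' z c := by
    apply Subtype.ext
    funext y
    show (if h : (y.1 : ℕ) = 0 then (0 : ℂ) else _) =
      z * (if h : (y.1 : ℕ) = 0 then (0 : ℂ) else _)
    split_ifs
    · simp
    · rfl

theorem finrank_TK_succ (q : ℕ) (A B : Matrix I I ℂ) (r : ℂ) :
    finrank ℂ (TK (q + 1) (A + r • B) B) =
      finrank ℂ (Es (pen A B) r (q + 1)) + finrank ℂ (TK q (A + r • B) B) := by
  have h1 := LinearMap.finrank_range_add_finrank_ker (tfst q (A + r • B) B)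
  rw [range_tfst] at h1
  have h2 : LinearMap.ker (tfst q (A + r • B) B) = LinearMap.range (tshift q (A + r • B) B) := by
    ext c
    obtain ⟨c, hc⟩ := c
    rw [LinearMap.mem_ker]
    constructor
    · intro h
      have h0 : ∀ i, c (0, i) = 0 := fun i => congrFun h i
      refine ⟨⟨fun y => c (y.1.succ, y.2), ?_⟩, ?_⟩
      · rw [mem_TK] at hc ⊢
        intro j i
        have h3 := hc j.succ i
        have h4 : ¬ ((j.succ : Fin (q + 1)) : ℕ) = 0 := by simp
        rw [dif_neg h4] at h3
        by_cases h5 : (j : ℕ) = 0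
        · have h6 : (fun i' => c (⟨(j.succ : ℕ) - 1, by omega⟩, i')) = 0 := by
            funext i'
            have h7 : (⟨(j.succ : ℕ) - 1, by omega⟩ : Fin (q + 1)) = 0 := by
              ext
              simp [h5]
            rw [h7]
            exact h0 i'
          rw [h6, Matrix.mulVec_zero] at h3
          rw [dif_pos h5]
          exact h3
        · rw [dif_neg h5]
          have h6 : (fun i' => c (⟨(j.succ : ℕ) - 1, by omega⟩, i')) =
              fun i' => c ((⟨(j : ℕ) - 1, by omega⟩ : Fin q).succ, i') := by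
            funext i'
            congr 2
            ext
            simp
            omega
          rw [h6] at h3
          exact h3
      · apply Subtype.ext
        funext y
        obtain ⟨j, i⟩ := y
        show (if h : (j : ℕ) = 0 then (0 : ℂ) else c ((⟨(j : ℕ) - 1, by omega⟩ : Fin q).succ, i)) =
          c (j, i)
        split_ifs with h5
        · have h7 : j = 0 := Fin.ext h5
          rw [h7, h0]
        · congr 2
          ext
          simp
          omega
    · rintro ⟨d, hd⟩
      rw [← hd]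
      funext i
      simp [tfst, tshift]
  have h3 : Function.Injective (tshift q (A + r • B) B) := by
    rw [← LinearMap.ker_eq_bot, LinearMap.ker_eq_bot']
    rintro ⟨c, hc⟩ h
    apply Subtype.ext
    funext y
    obtain ⟨j, i⟩ := y
    have h4 := congrArg (fun c : TK (q + 1) (A + r • B) B => (c : Fin (q + 1) × I → ℂ) (j.succ, i)) h
    have h5 : (if h : ((j.succ : Fin (q + 1)) : ℕ) = 0 then (0 : ℂ) else
      c (⟨(j.succ : ℕ) - 1, by simp⟩, i)) = 0 := h4
    rw [dif_neg (by simp)] at h5
    have h6 : (⟨((j.succ : Fin (q + 1)) : ℕ) - 1, by simp⟩ : Fin q) = j := by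
      ext; simp
    rw [h6] at h5
    exact h5
  rw [h2, LinearMap.finrank_range_of_inj h3] at h1
  exact h1.symm

/-- equal ranks give equal dimensions of spaces of chains. -/
theorem finrank_Es_of_rank (A B A' B' : Matrix I I ℂ) (r r' : ℂ) (q : ℕ)
    (h : (toep q (A + r • B) B).rank = (toep q (A' + r' • B') B').rank)
    (h' : (toep (q + 1) (A + r • B) B).rank = (toep (q + 1) (A' + r' • B') B').rank) :
    finrank ℂ (Es (pen A B) r (q + 1)) = finrank ℂ (Es (pen A' B') r' (q + 1)) := by
  have h1 := finrank_TK_succ q A B r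
  have h2 := finrank_TK_succ q A' B' r'
  rw [finrank_TK, finrank_TK, h, h'] at h1
  rw [finrank_TK, finrank_TK] at h2
  omega

/-! ### Genericity -/

open MvPolynomial

/-- all entries are linear forms. -/
def Lin (𝒜 : Matrix I I (MvPolynomial I ℂ)) : Prop :=
  ∀ i j, ∃ c : I → ℂ, 𝒜 i j = ∑ k, C (c k) * X k

theorem line_lin {𝒜 : Matrix I I (MvPolynomial I ℂ)} (hlin : Lin 𝒜) (p : (I → ℂ) × (I → ℂ)) :
    LL 𝒜 p = pen (𝒜.map (eval p.1)) (𝒜.map (eval p.2)) := by
  ext1 i j
  obtain ⟨c, hc⟩ := hlin i j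
  simp only [LL, pen, Matrix.map_apply, Matrix.add_apply, hc, map_sum, map_mul, eval_C, eval_X]
  rw [Finset.mul_sum, ← Finset.sum_add_distrib]
  apply Finset.sum_congr rfl
  intro k _
  simp only [line, coe_eval₂Hom, eval₂_C, eval₂_X]
  ring

theorem eval_pt_lin {𝒜 : Matrix I I (MvPolynomial I ℂ)} (hlin : Lin 𝒜) (p : (I → ℂ) × (I → ℂ))
    (t : ℂ) : 𝒜.map (eval (pt p t)) = 𝒜.map (eval p.1) + t • 𝒜.map (eval p.2) := by
  ext1 i j
  obtain ⟨c, hc⟩ := hlin i j
  simp only [Matrix.map_apply, Matrix.add_apply, Matrix.smul_apply, hc, map_sum, map_mul, eval_C,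
    eval_X, pt, smul_eq_mul]
  rw [Finset.mul_sum, ← Finset.sum_add_distrib]
  apply Finset.sum_congr rfl
  intro k _
  ring

theorem gen_rank (𝒜 : Matrix I I (MvPolynomial I ℂ)) :
    ∀ᶠ p in gen I, ∀ y : I → ℂ, (𝒜.map (eval y)).rank ≤ (𝒜.map (eval p.2)).rank := by
  classical
  let S : Set ℕ := {n | ∃ y : I → ℂ, (𝒜.map (eval y)).rank = n}
  have hS : S.Nonempty := ⟨_, 0, rfl⟩
  have hb : BddAbove S := ⟨Fintype.card I, by
    rintro n ⟨y, rfl⟩
    exact Matrix.rank_le_card_width _⟩
  obtain ⟨y0, hy0⟩ := Nat.sSup_mem hS hb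
  obtain ⟨s, t, hst⟩ := exists_minor (𝒜.map (eval y0)) _ hy0
  have h1 : (𝒜.submatrix s t).det ≠ 0 := by
    intro h
    apply hst
    have h2 := congrArg (eval y0) h
    rw [RingHom.map_det, map_zero] at h2
    exact h2
  filter_upwards [gen_snd h1] with p hp y
  have h2 : ((𝒜.map (eval p.2)).submatrix s t).det ≠ 0 := by
    rw [RingHom.map_det] at hp
    exact hp
  exact (le_csSup hb ⟨y, rfl⟩).trans (le_rank_of_minor _ _ s t h2)

theorem gen_toep {𝒜 : Matrix I I (MvPolynomial I ℂ)} {f : MvPolynomial I ℂ}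
    (hf : Irreducible f) (q : ℕ) :
    ∀ᶠ p in gen I, ∀ r r', eval (pt p r) f = 0 → eval (pt p r') f = 0 →
      (toep q (𝒜.map (eval (pt p r))) (𝒜.map (eval p.2))).rank =
        (toep q (𝒜.map (eval (pt p r'))) (𝒜.map (eval p.2))).rank := by
  classical
  let 𝒯 : Matrix (Fin q × I) (Fin q × I) (MvPolynomial (I ⊕ I) ℂ) :=
    toep q (𝒜.map (rename Sum.inl)) (𝒜.map (rename Sum.inr))
  have h𝒯 : ∀ (p : (I → ℂ) × (I → ℂ)) (r : ℂ), 𝒯.map (eval (Sum.elim (pt p r) p.2)) =
      toep q (𝒜.map (eval (pt p r))) (𝒜.map (eval p.2)) := by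
    intro p r
    ext1 x y
    simp only [𝒯, toep, Matrix.map_apply, Matrix.of_apply]
    split_ifs
    · rw [eval_rename, Sum.elim_comp_inl]
    · rw [eval_rename, Sum.elim_comp_inr]
    · rw [map_zero]
  have h1 : ∀ᶠ p in gen I, ∀ (k : Fin (Fintype.card (Fin q × I) + 1)) (s t : Fin k → Fin q × I),
      ∀ r, eval (pt p r) f = 0 → (eval (Sum.elim (pt p r) p.2) (𝒯.submatrix s t).det = 0 ↔
        rename Sum.inl f ∣ (𝒯.submatrix s t).det) := by
    rw [Filter.eventually_all]; intro k
    rw [Filter.eventually_all]; intro s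
    rw [Filter.eventually_all]; intro t
    by_cases h : rename Sum.inl f ∣ (𝒯.submatrix s t).det
    · refine Filter.Eventually.of_forall fun p r hr => ⟨fun _ => h, fun _ => ?_⟩
      obtain ⟨g, hg⟩ := h
      rw [hg, map_mul, eval_rename, Sum.elim_comp_inl, hr, zero_mul]
    · filter_upwards [gen_line hf h] with p hp r hr
      exact ⟨fun h0 => absurd h0 (hp r hr), fun h0 => absurd h0 h⟩
  filter_upwards [h1] with p hp
  have key : ∀ r r', eval (pt p r) f = 0 → eval (pt p r') f = 0 →
      (toep q (𝒜.map (eval (pt p r))) (𝒜.map (eval p.2))).rank ≤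
        (toep q (𝒜.map (eval (pt p r'))) (𝒜.map (eval p.2))).rank := by
    intro r r' hr hr'
    obtain ⟨s, t, hst⟩ := exists_minor (toep q (𝒜.map (eval (pt p r))) (𝒜.map (eval p.2))) _ rfl
    apply le_rank_of_minor _ _ s t
    have hk := Matrix.rank_le_card_width (toep q (𝒜.map (eval (pt p r))) (𝒜.map (eval p.2)))
    have h2 := hp ⟨_, Nat.lt_succ_of_le hk⟩ s t r hr
    have h3 := hp ⟨_, Nat.lt_succ_of_le hk⟩ s t r' hr'
    have e : ∀ (k : ℕ) (s t : Fin k → Fin q × I) (r : ℂ),
        eval (Sum.elim (pt p r) p.2) (𝒯.submatrix s t).det =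
        ((toep q (𝒜.map (eval (pt p r))) (𝒜.map (eval p.2))).submatrix s t).det := by
      intro k s t r
      rw [RingHom.map_det, ← h𝒯]
      rfl
    rw [e] at h2 h3
    intro h4
    exact hst (h2.2 (h3.1 h4))
  intro r r' hr hr'
  exact le_antisymm (key r r' hr hr') (key r' r hr' hr)

theorem L_main {𝒜 : Matrix I I (MvPolynomial I ℂ)} (hlin : Lin 𝒜) {f : MvPolynomial I ℂ}
    (hf : Irreducible f) (Q : ℕ) :
    ∀ᶠ p in gen I, ∀ r r', eval (pt p r) f = 0 → eval (pt p r') f = 0 → ∀ q < Q,
      finrank ℂ (Es (LL 𝒜 p) r (q + 1)) = finrank ℂ (Es (LL 𝒜 p) r' (q + 1)) := by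
  have h1 : ∀ᶠ p in gen I, ∀ q : Fin (Q + 2), ∀ r r', eval (pt p r) f = 0 →
      eval (pt p r') f = 0 → (toep q (𝒜.map (eval (pt p r))) (𝒜.map (eval p.2))).rank =
        (toep q (𝒜.map (eval (pt p r'))) (𝒜.map (eval p.2))).rank := by
    rw [Filter.eventually_all]
    intro q
    exact gen_toep hf q
  filter_upwards [h1] with p hp r r' hr hr' q hq
  rw [line_lin hlin]
  apply finrank_Es_of_rank
  · have := hp ⟨q, by omega⟩ r r' hr hr'
    rw [eval_pt_lin hlin, eval_pt_lin hlin] at this
    exact this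
  · have := hp ⟨q + 1, by omega⟩ r r' hr hr'
    rw [eval_pt_lin hlin, eval_pt_lin hlin] at this
    exact this

end Pool.Agent.H4.JK
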