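import Pool.Agent.H4.JKt
import Pool.Agent.H4.JKl

/-! Towards the necessary condition: the product of the principal minors, linear factors. -/

namespace Pool.Agent.H4.JK

open Module MvPolynomial

set_option linter.unusedSectionVars false

variable {I : Type} [Fintype I] [DecidableEq I]

/-! ### The product of the nonzero principal minors -/

/-- principal minor. -/
noncomputable def PM (𝒜 : Matrix I I (MvPolynomial I ℂ)) (W : Finset I) : MvPolynomial I ℂ :=
  (𝒜.submatrix (fun i : W => (i : I)) (fun i : W => (i : I))).det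

open Classical in
/-- product of the nonzero principal minors. -/
noncomputable def GG (𝒜 : Matrix I I (MvPolynomial I ℂ)) : MvPolynomial I ℂ :=
  ∏ W ∈ (Finset.univ : Finset (Finset I)).filter (fun W : Finset I => PM 𝒜 W ≠ 0), PM 𝒜 W

theorem GG_ne (𝒜 : Matrix I I (MvPolynomial I ℂ)) : GG 𝒜 ≠ 0 := by
  classical
  rw [GG, Finset.prod_ne_zero_iff]
  intro W hW
  exact (Finset.mem_filter.1 hW).2

theorem eval_smul_lin {𝒜 : Matrix I I (MvPolynomial I ℂ)} (hlin : Lin 𝒜) (t : ℂ) (y : I → ℂ)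
    (i j : I) : eval (t • y) (𝒜 i j) = t * eval y (𝒜 i j) := by
  obtain ⟨c, hc⟩ := hlin i j
  simp only [hc, map_sum, map_mul, eval_C, eval_X, Pi.smul_apply, smul_eq_mul, Finset.mul_sum]
  apply Finset.sum_congr rfl
  intro k _
  ring

theorem GG_scale {𝒜 : Matrix I I (MvPolynomial I ℂ)} (hlin : Lin 𝒜) :
    ∃ N : ℕ, ∀ (t : ℂ) (y : I → ℂ), eval (t • y) (GG 𝒜) = t ^ N * eval y (GG 𝒜) := by
  classical
  refine ⟨∑ W ∈ (Finset.univ : Finset (Finset I)).filter (fun W : Finset I => PM 𝒜 W ≠ 0),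
    Fintype.card W, fun t y => ?_⟩
  rw [GG, map_prod, map_prod, ← Finset.prod_pow_eq_pow_sum, ← Finset.prod_mul_distrib]
  apply Finset.prod_congr rfl
  intro W _
  rw [PM, RingHom.map_det, RingHom.map_det, ← Matrix.det_smul]
  congr 1
  ext1 i j
  simp only [RingHom.mapMatrix_apply, Matrix.map_apply, Matrix.submatrix_apply, Matrix.smul_apply,
    smul_eq_mul]
  exact eval_smul_lin hlin t y i j

/-- a linear form with given coefficients. -/
noncomputable def lf (z : I → ℂ) : MvPolynomial I ℂ := ∑ i, C (z i) * X i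

theorem eval_lf (z y : I → ℂ) : eval y (lf z) = ∑ i, z i * y i := by
  simp [lf]

theorem lf_zero {z : I → ℂ} (h : lf z = 0) : z = 0 := by
  funext i
  have := congrArg (eval (Pi.single i 1)) h
  rw [eval_lf, map_zero] at this
  simpa [Pi.single_apply] using this

theorem GG_vanish {𝒜 : Matrix I I (MvPolynomial I ℂ)} (hlin : Lin 𝒜) (z : I → ℂ) (τ : ℂ)
    (hτ : τ ≠ 0) (h : ∀ y : I → ℂ, ∑ i, z i * y i = τ → eval y (GG 𝒜) = 0) : z = 0 := by
  obtain ⟨N, hN⟩ := GG_scale hlin
  have h1 : GG 𝒜 * lf z = 0 := by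
    apply MvPolynomial.funext
    intro y
    rw [map_mul, map_zero, eval_lf]
    by_cases h0 : ∑ i, z i * y i = 0
    · rw [h0, mul_zero]
    · have h2 := h ((τ / ∑ i, z i * y i) • y) (by
        simp only [Pi.smul_apply, smul_eq_mul]
        have : ∀ i, z i * ((τ / ∑ i, z i * y i) * y i) = (τ / ∑ i, z i * y i) * (z i * y i) :=
          fun i => by ring
        simp only [this]
        rw [← Finset.mul_sum, div_mul_cancel₀ _ h0])
      rw [hN] at h2
      have h3 := (mul_eq_zero.1 h2).resolve_left (pow_ne_zero _ (div_ne_zero hτ h0))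
      rw [h3, zero_mul]
  exact lf_zero ((mul_eq_zero.1 h1).resolve_left (GG_ne 𝒜))

/-- roots of the product of the minors. -/
theorem root_of_Es {𝒜 : Matrix I I (MvPolynomial I ℂ)} (hA : 𝒜.transpose = -𝒜)
    (p : (I → ℂ) × (I → ℂ)) (r : ℂ) (h : ¬ Es (LL 𝒜 p) r 1 ≤ Zs (LL 𝒜 p) r) :
    ∃ f ∈ UniqueFactorizationMonoid.factors (GG 𝒜), eval (pt p r) f = 0 := by
  classical
  obtain ⟨v, hv, hvZ⟩ := Set.not_subset.1 h
  obtain ⟨W, hW⟩ := exists_compl (Zs (LL 𝒜 p) r)
  have h0 : v ∈ (Zs (LL 𝒜 p) r ⊔ cs W : Submodule ℂ (I → ℂ)) := by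
    rw [codisjoint_iff.1 hW.codisjoint]; trivial
  rw [Submodule.mem_sup] at h0
  obtain ⟨y, hy, w, hw, rfl⟩ := h0
  have hw1 : w ∈ Es (LL 𝒜 p) r 1 := by
    have := (Es (LL 𝒜 p) r 1).sub_mem hv (Zs_le_Es _ _ _ hy)
    rwa [add_sub_cancel_left] at this
  have hw0 : w ≠ 0 := by
    rintro rfl
    apply hvZ
    rw [add_zero]
    exact hy
  have hdet := loc_det (LL_skew hA p) hW
  have h1 : ((LL 𝒜 p).submatrix (fun i : W => (i : I)) (fun i : W => (i : I))) =
      (line p).mapMatrix (𝒜.submatrix (fun i : W => (i : I)) (fun i : W => (i : I))) := by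
    ext1 i j
    simp [LL]
  rw [h1, ← RingHom.map_det] at hdet
  have hdet' : (𝒜.submatrix (fun i : W => (i : I)) (fun i : W => (i : I))).det ≠ 0 := by
    intro h2
    rw [h2, map_zero] at hdet
    exact hdet rfl
  -- the minor vanishes at the point
  have h2 : eval (pt p r) (𝒜.submatrix (fun i : W => (i : I)) (fun i : W => (i : I))).det = 0 := by
    rw [RingHom.map_det]
    apply Matrix.exists_mulVec_eq_zero_iff.1
    refine ⟨fun i : W => w i, ?_, ?_⟩
    · intro h3
      apply hw0
      funext i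
      by_cases hi : i ∈ W
      · exact congrFun h3 ⟨i, hi⟩
      · exact hw i hi
    · obtain ⟨z, hz1, hz2⟩ := hw1
      funext i
      have h3 := hz1 i
      rw [pow_one, Polynomial.dvd_iff_isRoot, Polynomial.IsRoot, Matrix.mulVec, dotProduct,
        Polynomial.eval_finsetSum] at h3
      simp only [Polynomial.eval_mul, hz2, LL, Matrix.map_apply, eval_line] at h3
      rw [Matrix.mulVec, dotProduct, Pi.zero_apply]
      rw [← Finset.sum_subset (Finset.subset_univ W)] at h3
      · rw [← Finset.sum_coe_sort W (fun j => eval (pt p r) (𝒜 i j) * w j)] at h3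
        exact h3
      · intro j _ hj
        rw [hw j hj, mul_zero]
  have h3 : eval (pt p r) (GG 𝒜) = 0 := by
    rw [GG, map_prod]
    exact Finset.prod_eq_zero (Finset.mem_filter.2 ⟨Finset.mem_univ W, hdet'⟩) h2
  have h4 := UniqueFactorizationMonoid.factors_prod (GG_ne 𝒜)
  obtain ⟨u, hu⟩ := h4
  rw [← hu, map_mul] at h3
  have h5 : eval (pt p r) (UniqueFactorizationMonoid.factors (GG 𝒜)).prod = 0 := by
    refine (mul_eq_zero.1 h3).resolve_right ?_
    exact (u.isUnit.map (eval (pt p r))).ne_zero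
  rw [map_multiset_prod, Multiset.prod_eq_zero_iff, Multiset.mem_map] at h5
  exact h5

theorem factor_dvd {𝒜 : Matrix I I (MvPolynomial I ℂ)} {f : MvPolynomial I ℂ}
    (hf : f ∈ UniqueFactorizationMonoid.factors (GG 𝒜)) {y : I → ℂ} (hy : eval y f = 0) :
    eval y (GG 𝒜) = 0 := by
  obtain ⟨g, hg⟩ := UniqueFactorizationMonoid.dvd_of_mem_factors hf
  rw [hg, map_mul, hy, zero_mul]

/-! ### Factors of degree one -/

theorem eq_C_of_pderiv {f : MvPolynomial I ℂ} (hc : ∀ i, pderiv i f = 0) : ∃ c, f = C c := by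
  refine ⟨coeff 0 f, ?_⟩
  have h1 : ∀ m : I →₀ ℕ, m ≠ 0 → coeff m f = 0 := by
    intro m hm
    obtain ⟨i, hi⟩ : ∃ i, m i ≠ 0 := by
      by_contra h2
      push Not at h2
      exact hm (Finsupp.ext h2)
    have h3 := coeff_pderiv f (i := i) (m - Finsupp.single i 1)
    have h4 : m - Finsupp.single i 1 + Finsupp.single i 1 = m := by
      ext j
      simp only [Finsupp.coe_add, Finsupp.coe_tsub, Pi.add_apply, Pi.sub_apply, Finsupp.single_apply]
      split_ifs with h
      · subst h; omega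
      · omega
    rw [hc i, coeff_zero, h4] at h3
    have h5 : (((m - Finsupp.single i 1 : I →₀ ℕ) i : ℕ) + 1 : ℂ) ≠ 0 :=
      Nat.cast_add_one_ne_zero _
    exact (mul_eq_zero.1 h3.symm).resolve_right h5
  ext m
  rw [coeff_C]
  split_ifs with h
  · rw [h]
  · exact h1 m (fun h' => h h'.symm)

/-- second derivative along the line. -/
noncomputable def HH (f : MvPolynomial I ℂ) : MvPolynomial (I ⊕ I) ℂ :=
  ∑ i, ∑ j, X (Sum.inr i) * X (Sum.inr j) * rename Sum.inl (pderiv j (pderiv i f))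

theorem eval_HH (f : MvPolynomial I ℂ) (x a : I → ℂ) : eval (Sum.elim x a) (HH f) =
    ∑ i, ∑ j, a i * a j * eval x (pderiv j (pderiv i f)) := by
  simp only [HH, map_sum, map_mul, eval_X, Sum.elim_inr, eval_rename, Sum.elim_comp_inl]

theorem pderiv_comm' (f : MvPolynomial I ℂ) (i j : I) :
    pderiv j (pderiv i f) = pderiv i (pderiv j f) := by
  ext m
  rw [coeff_pderiv, coeff_pderiv, coeff_pderiv, coeff_pderiv]
  by_cases h : i = j
  · subst h; rfl
  · rw [add_right_comm]
    have h1 : (m + Finsupp.single j 1 : I →₀ ℕ) i = m i := by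
      simp [Finsupp.single_apply, Ne.symm h]
    have h2 : (m + Finsupp.single i 1 : I →₀ ℕ) j = m j := by
      simp [Finsupp.single_apply, h]
    rw [h1, h2]
    ring

theorem second_zero {f : MvPolynomial I ℂ} (h : HH f = 0) (i j : I) :
    pderiv j (pderiv i f) = 0 := by
  have h1 : ∀ x a : I → ℂ, ∑ i, ∑ j, a i * a j * eval x (pderiv j (pderiv i f)) = 0 := by
    intro x a
    rw [← eval_HH, h, map_zero]
  have h2 : ∀ (x : I → ℂ) (i : I), eval x (pderiv i (pderiv i f)) = 0 := by
    intro x i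
    have := h1 x (Pi.single i 1)
    simpa [Pi.single_apply] using this
  apply MvPolynomial.funext
  intro x
  rw [map_zero]
  by_cases hij : i = j
  · subst hij; exact h2 x i
  · have h3 := h1 x (Pi.single i 1 + Pi.single j 1)
    have hs : ∀ i j : I, ∑ k, ∑ l, (Pi.single i 1 : I → ℂ) k * (Pi.single j 1 : I → ℂ) l *
        eval x (pderiv l (pderiv k f)) = eval x (pderiv j (pderiv i f)) := by
      intro i j
      simp [Pi.single_apply]
    simp only [Pi.add_apply, add_mul, mul_add, Finset.sum_add_distrib, hs] at h3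
    rw [h2, h2, pderiv_comm' f j i] at h3
    linear_combination h3 / 2

theorem linear_of_HH {f : MvPolynomial I ℂ} (h : HH f = 0) :
    ∃ (ℓ : I → ℂ) (c : ℂ), f = lf ℓ + C c := by
  have h1 : ∀ i, ∃ c, pderiv i f = C c := fun i => eq_C_of_pderiv (fun j => second_zero h i j)
  choose ℓ hℓ using h1
  obtain ⟨c, hc⟩ := eq_C_of_pderiv (f := f - lf ℓ) (by
    intro i
    rw [map_sub, hℓ, lf, map_sum]
    simp only [Derivation.leibniz, pderiv_C, pderiv_X, smul_eq_mul]
    rw [Finset.sum_eq_single i]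
    · simp
    · intro b _ hb
      rw [Pi.single_apply, if_neg hb]
      simp
    · intro h; exact absurd (Finset.mem_univ i) h)
  exact ⟨ℓ, c, by rw [← hc]; ring⟩

theorem second_deriv_line (p : (I → ℂ) × (I → ℂ)) (f : MvPolynomial I ℂ) :
    (Polynomial.derivative (Polynomial.derivative (line p f))).eval 0 =
      eval (Sum.elim p.1 p.2) (HH f) := by
  rw [eval_HH, derivative_line, Polynomial.derivative_sum, Polynomial.eval_finsetSum]
  apply Finset.sum_congr rfl
  intro i _
  rw [Polynomial.derivative_C_mul, Polynomial.eval_C_mul, derivative_line,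
    Polynomial.eval_finsetSum, Finset.mul_sum]
  apply Finset.sum_congr rfl
  intro j _
  rw [Polynomial.eval_C_mul, eval_line]
  have : pt p 0 = p.1 := by funext k; simp [pt]
  rw [this]
  ring

theorem natDegree_le_one {F : Polynomial ℂ} {r : ℂ} (h0 : F.eval r = 0)
    (h1 : (Polynomial.derivative F).eval r ≠ 0) (h2 : ∀ r', F.eval r' = 0 → r' = r) :
    F.natDegree ≤ 1 := by
  obtain ⟨F1, hF1⟩ := Polynomial.dvd_iff_isRoot.2 h0
  have h3 : F1.eval r ≠ 0 := by
    rw [hF1, Polynomial.derivative_mul] at h1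
    simpa using h1
  have h4 : F1.natDegree = 0 := by
    by_contra h5
    have h6 : F1.degree ≠ 0 := by
      intro h7
      exact h5 (Polynomial.natDegree_eq_of_degree_eq_some h7)
    obtain ⟨r', hr'⟩ := IsAlgClosed.exists_root F1 h6
    have h7 : F.eval r' = 0 := by rw [hF1, Polynomial.eval_mul, hr', mul_zero]
    have h8 := h2 r' h7
    rw [h8] at hr'
    exact h3 hr'
  rw [hF1]
  refine (Polynomial.natDegree_mul_le).trans ?_
  rw [Polynomial.natDegree_X_sub_C, h4]

/-! ### Simultaneous eigenvectors -/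

theorem eigen_li {R : Type} [Fintype R] [DecidableEq R] (T : I → Matrix I I ℂ) (v : R → I → ℂ)
    (χ : R → I → ℂ) (hv : ∀ r, v r ≠ 0) (h : ∀ r j, (T j).mulVec (v r) = χ r j • v r)
    (hχ : Function.Injective χ) : LinearIndependent ℂ v := by
  classical
  let P : MvPolynomial I ℂ := ∏ x ∈ (Finset.univ : Finset (R × R)).filter (fun x => x.1 ≠ x.2),
    lf (χ x.1 - χ x.2)
  have hP : P ≠ 0 := by
    rw [Finset.prod_ne_zero_iff]
    intro x hx h0
    have h1 := lf_zero h0
    exact (Finset.mem_filter.1 hx).2 (hχ (sub_eq_zero.1 h1))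
  obtain ⟨s, hs⟩ := exists_eval_ne hP
  rw [map_prod, Finset.prod_ne_zero_iff] at hs
  let D : End ℂ (I → ℂ) := (∑ j, s j • T j).mulVecLin
  have hD : ∀ r, D (v r) = (∑ j, χ r j * s j) • v r := by
    intro r
    simp only [D, Matrix.mulVecLin_apply, Matrix.sum_mulVec, Matrix.smul_mulVec, h, smul_smul,
      Finset.sum_smul]
    apply Finset.sum_congr rfl
    intro j _
    rw [mul_comm]
  apply Module.End.eigenvectors_linearIndependent' D (fun r => ∑ j, χ r j * s j)
  · intro r r' hrr
    by_contra hne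
    apply hs (r, r') (Finset.mem_filter.2 ⟨Finset.mem_univ _, hne⟩)
    rw [eval_lf]
    simp only [Pi.sub_apply, sub_mul, Finset.sum_sub_distrib]
    exact sub_eq_zero.2 hrr
  · intro r
    exact ⟨Module.End.mem_eigenspace_iff.2 (hD r), hv r⟩

end Pool.Agent.H4.JK
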