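import Pool.Agent.H4.JKu

/-! The structure matrix of a Lie algebra and generic pairs. -/

namespace Pool.Agent.H4.JK

open Module MvPolynomial

set_option linter.unusedSectionVars false

variable {I : Type} [Fintype I] [DecidableEq I] {g : Type} [LieRing g] [LieAlgebra ℂ g]
  (b : Basis I ℂ g)

/-- the structure matrix. -/
noncomputable def SM : Matrix I I (MvPolynomial I ℂ) :=
  Matrix.of fun i j => lf (b.repr ⁅b i, b j⁆)

/-- the functional with given values on the basis. -/
noncomputable def DD (y : I → ℂ) : g →ₗ[ℂ] ℂ := b.constr ℂ y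

theorem eval_lf_repr (y : I → ℂ) (v : g) : eval y (lf (b.repr v)) = DD b y v := by
  rw [eval_lf, DD, Basis.constr_apply_fintype]
  simp [Basis.equivFun_apply]

theorem eval_SM (y : I → ℂ) (i j : I) : eval y (SM b i j) = DD b y ⁅b i, b j⁆ :=
  eval_lf_repr b y _

theorem SM_skew : (SM b).transpose = -(SM b) := by
  ext1 i j
  apply MvPolynomial.funext
  intro y
  simp only [Matrix.transpose_apply, Matrix.neg_apply, map_neg]
  rw [eval_SM, eval_SM, ← lie_skew, map_neg]

theorem SM_lin : Lin (SM b) := fun i j => ⟨fun k => b.repr ⁅b i, b j⁆ k, rfl⟩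

theorem pderiv_lf (z : I → ℂ) (c : I) : pderiv c (lf z) = C (z c) := by
  rw [lf, map_sum]
  simp only [Derivation.leibniz, pderiv_C, pderiv_X, smul_eq_mul]
  rw [Finset.sum_eq_single c]
  · simp
  · intro d _ hd
    rw [Pi.single_apply, if_neg hd]
    simp
  · intro h; exact absurd (Finset.mem_univ c) h

theorem vf_SM (y : I → ℂ) (a : I) (v : g) :
    eval y (vf (SM b a) (lf (b.repr v))) = DD b y ⁅b a, v⁆ := by
  rw [vf_apply, map_sum]
  have h1 : v = ∑ c, b.repr v c • b c := (b.sum_repr v).symm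
  conv_rhs => rw [h1, lie_sum, map_sum]
  apply Finset.sum_congr rfl
  intro c _
  rw [map_mul, pderiv_lf, eval_C, eval_SM, lie_smul, map_smul, smul_eq_mul, mul_comm]

theorem SM_jac : Jac (SM b) := by
  intro i j k
  apply MvPolynomial.funext
  intro y
  have h1 : ∀ i j k, eval y (vf (SM b i) (SM b j k)) = DD b y ⁅b i, ⁅b j, b k⁆⁆ :=
    fun i j k => vf_SM b y i _
  rw [map_add, map_add, h1, h1, h1, ← map_add, ← map_add, lie_jacobi, map_zero, map_zero]

theorem mform_SM (y v w : I → ℂ) : mform ((SM b).map (eval y)) v w =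
    DD b y ⁅b.equivFun.symm v, b.equivFun.symm w⁆ := by
  rw [Basis.equivFun_symm_apply, Basis.equivFun_symm_apply, sum_lie, map_sum, mform_sum]
  apply Finset.sum_congr rfl
  intro i _
  rw [smul_lie, map_smul, lie_sum, map_sum, smul_eq_mul, Matrix.mulVec, dotProduct]
  congr 1
  apply Finset.sum_congr rfl
  intro j _
  rw [lie_smul, map_smul, smul_eq_mul, Matrix.map_apply, eval_SM, mul_comm]

theorem gen_hasType {T : Multiset ℕ × Multiset (Multiset ℕ)} (h : HasInvariant g T) :
    ∀ᶠ p in gen I, HasType (mform ((SM b).map (eval p.1))) (mform ((SM b).map (eval p.2))) T := by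
  obtain ⟨U, hU, ⟨p0, hp0⟩, hT⟩ := h
  obtain ⟨P, hP0, hP⟩ := hU p0 hp0
  rw [eventually_gen]
  let Φ : MvPolynomial (I ⊕ I) ℂ := aeval (Sum.elim (fun ξ => rename Sum.inl (lf (b.repr ξ)))
    (fun η => rename Sum.inr (lf (b.repr η)))) P
  have hΦ : ∀ x a : I → ℂ, eval (Sum.elim x a) Φ =
      eval (Sum.elim (fun ξ => DD b x ξ) (fun η => DD b a η)) P := by
    intro x a
    have h1 : ((eval (Sum.elim x a)).comp (aeval (Sum.elim (fun ξ => rename Sum.inl (lf (b.repr ξ)))
        (fun η => rename Sum.inr (lf (b.repr η)))) :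
        MvPolynomial (g ⊕ g) ℂ →ₐ[ℂ] MvPolynomial (I ⊕ I) ℂ).toRingHom) =
        eval (Sum.elim (fun ξ => DD b x ξ) (fun η => DD b a η)) := by
      apply ringHom_ext
      · intro r
        simp
      · rintro (ξ | η)
        · simp [eval_rename, eval_lf_repr]
        · simp [eval_rename, eval_lf_repr]
    exact congrArg (fun F => F P) h1
  refine ⟨Φ, ?_, fun p hp => ?_⟩
  · intro h0
    have h1 := hΦ (fun i => p0.1 (b i)) (fun i => p0.2 (b i))
    have h2 : ∀ z : Module.Dual ℂ g, DD b (fun i => z (b i)) = z := by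
      intro z
      apply b.ext
      intro i
      rw [DD, Basis.constr_basis]
    rw [h0, map_zero, h2, h2] at h1
    exact hP0 h1.symm
  · rw [hΦ] at hp
    have h1 := hT (DD b p.1, DD b p.2) (hP (DD b p.1, DD b p.2) hp)
    obtain ⟨ι, hι, bl, hpos, hty, hdec⟩ := h1
    exact ⟨ι, hι, bl, hpos, hty, hdec.transport b.equivFun.symm (fun v w => mform_SM b p.1 v w)
      (fun v w => mform_SM b p.2 v w)⟩

end Pool.Agent.H4.JK
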