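import Pool.Agent.H4.JKv

/-! The necessary condition. -/

namespace Pool.Agent.H4.JK

open Module MvPolynomial

set_option linter.unusedSectionVars false

variable {I : Type} [Fintype I] [DecidableEq I]

/-- `∑ ∂_i f 𝒜_ij`. -/
noncomputable def gj (𝒜 : Matrix I I (MvPolynomial I ℂ)) (f : MvPolynomial I ℂ) (j : I) :
    MvPolynomial I ℂ := ∑ i, pderiv i f * 𝒜 i j

/-- `∑ 𝒜_ji(a) ∂_i f(y)`. -/
noncomputable def g2 (𝒜 : Matrix I I (MvPolynomial I ℂ)) (f : MvPolynomial I ℂ) (j : I) :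
    MvPolynomial (I ⊕ I) ℂ := ∑ i, rename Sum.inr (𝒜 j i) * rename Sum.inl (pderiv i f)

/-- generic properties of an irreducible polynomial on a line. -/
structure Fact (𝒜 : Matrix I I (MvPolynomial I ℂ)) (f : MvPolynomial I ℂ) (Q : ℕ)
    (p : (I → ℂ) × (I → ℂ)) : Prop where
  F1 : ∀ r, eval (pt p r) f = 0 →
      ∀ m, 1 ≤ m → Es (LL 𝒜 p) r (m + 1) ≤ Zs (LL 𝒜 p) r →
      finrank ℂ (Zs (LL 𝒜 p) r) + 3 ≤ finrank ℂ (Es (LL 𝒜 p) r m) →
      (fun i => eval (pt p r) (pderiv i f)) ∈ Zs (LL 𝒜 p) r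
  F2 : ∀ r r', eval (pt p r) f = 0 → eval (pt p r') f = 0 → ∀ q < Q,
      finrank ℂ (Es (LL 𝒜 p) r (q + 1)) = finrank ℂ (Es (LL 𝒜 p) r' (q + 1))
  F3 : ∀ t, eval (pt p t) f = 0 → (Polynomial.derivative (line p f)).eval t ≠ 0
  F4 : HH f ≠ 0 → eval (Sum.elim p.1 p.2) (HH f) ≠ 0
  F5 : ∀ j, ¬ f ∣ gj 𝒜 f j → ∀ r, eval (pt p r) f = 0 → eval (pt p r) (gj 𝒜 f j) ≠ 0
  F6 : ∀ j, ¬ rename Sum.inl f ∣ g2 𝒜 f j → ∀ r, eval (pt p r) f = 0 →
      eval (Sum.elim (pt p r) p.2) (g2 𝒜 f j) ≠ 0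

theorem gen_fact {𝒜 : Matrix I I (MvPolynomial I ℂ)} (hA : 𝒜.transpose = -𝒜) (hJ : Jac 𝒜)
    (hlin : Lin 𝒜) {f : MvPolynomial I ℂ} (hf : Irreducible f) (Q : ℕ) :
    ∀ᶠ p in gen I, Fact 𝒜 f Q p := by
  have h4 : ∀ᶠ p in gen I, HH f ≠ 0 → eval (Sum.elim p.1 p.2) (HH f) ≠ 0 := by
    by_cases h : HH f = 0
    · exact Filter.Eventually.of_forall fun p hh => absurd h hh
    · rw [eventually_gen]
      exact ⟨HH f, h, fun p hp _ => hp⟩
  have h5 : ∀ᶠ p in gen I, ∀ j, ¬ f ∣ gj 𝒜 f j → ∀ r, eval (pt p r) f = 0 →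
      eval (pt p r) (gj 𝒜 f j) ≠ 0 := by
    rw [Filter.eventually_all]
    intro j
    by_cases h : f ∣ gj 𝒜 f j
    · exact Filter.Eventually.of_forall fun p hh => absurd h hh
    · filter_upwards [gen_line' hf h] with p hp _
      exact hp
  have h6 : ∀ᶠ p in gen I, ∀ j, ¬ rename Sum.inl f ∣ g2 𝒜 f j → ∀ r, eval (pt p r) f = 0 →
      eval (Sum.elim (pt p r) p.2) (g2 𝒜 f j) ≠ 0 := by
    rw [Filter.eventually_all]
    intro j
    by_cases h : rename Sum.inl f ∣ g2 𝒜 f j
    · exact Filter.Eventually.of_forall fun p hh => absurd h hh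
    · filter_upwards [gen_line hf h] with p hp _
      exact hp
  filter_upwards [F_main hA hJ hf, L_main hlin hf Q, gen_simple hf, h4, h5, h6] with p h1 h2 h3 h4 h5
    h6
  exact ⟨h1, h2, h3, h4, h5, h6⟩

section atp

variable {𝒜 : Matrix I I (MvPolynomial I ℂ)} (hA : 𝒜.transpose = -𝒜) (hlin : Lin 𝒜)
  {p : (I → ℂ) × (I → ℂ)}

include hlin in
theorem eval_add_smul (y y' : I → ℂ) (t : ℂ) (i j : I) :
    eval (fun k => y k + t * y' k) (𝒜 i j) = eval y (𝒜 i j) + t * eval y' (𝒜 i j) := by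
  obtain ⟨c, hc⟩ := hlin i j
  simp only [hc, map_sum, map_mul, eval_C, eval_X, Finset.mul_sum, ← Finset.sum_add_distrib]
  apply Finset.sum_congr rfl
  intro k _
  ring

/-- elements of `Es r 1` are killed by the matrix at the point. -/
theorem Es_one {v : I → ℂ} {r : ℂ} (hv : v ∈ Es (LL 𝒜 p) r 1) (j : I) :
    ∑ i, eval (pt p r) (𝒜 j i) * v i = 0 := by
  obtain ⟨z, hz1, hz2⟩ := hv
  have h3 := hz1 j
  rw [pow_one, Polynomial.dvd_iff_isRoot, Polynomial.IsRoot, Matrix.mulVec, dotProduct,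
    Polynomial.eval_finsetSum] at h3
  simp only [Polynomial.eval_mul, hz2, LL, Matrix.map_apply, eval_line] at h3
  exact h3

theorem mem_Es_one {v : I → ℂ} {r : ℂ} (h : ∀ j, ∑ i, eval (pt p r) (𝒜 j i) * v i = 0) :
    v ∈ Es (LL 𝒜 p) r 1 := by
  refine ⟨fun i => Polynomial.C (v i), fun j => ?_, fun i => by simp⟩
  rw [pow_one, Polynomial.dvd_iff_isRoot, Polynomial.IsRoot, Matrix.mulVec, dotProduct,
    Polynomial.eval_finsetSum]
  simp only [Polynomial.eval_mul, LL, Matrix.map_apply, eval_line, Polynomial.eval_C]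
  exact h j

theorem deriv_eval (f : MvPolynomial I ℂ) (q : (I → ℂ) × (I → ℂ)) (t : ℂ) :
    (Polynomial.derivative (line q f)).eval t = ∑ i, q.2 i * eval (pt q t) (pderiv i f) := by
  rw [derivative_line, Polynomial.eval_finsetSum]
  apply Finset.sum_congr rfl
  intro i _
  rw [Polynomial.eval_C_mul, eval_line]

/-- Lemma K0. -/
theorem center_root {f : MvPolynomial I ℂ} (hf : Irreducible f)
    (hfac : f ∈ UniqueFactorizationMonoid.factors (GG 𝒜)) (hlin : Lin 𝒜) {Q : ℕ}
    (hF : Fact 𝒜 f Q p) {r : ℂ} (hr : eval (pt p r) f = 0) {Zt : Submodule ℂ (I → ℂ)}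
    (hZ1 : finrank ℂ Zt = 1) (hZt : ∀ t, Zs (LL 𝒜 p) t = Zt) {t0 : ℂ}
    (ht0 : Es (LL 𝒜 p) t0 1 = Zt)
    (hz : (fun i => eval (pt p r) (pderiv i f)) ∈ Zt) :
    ∑ i, eval (pt p r) (pderiv i f) * pt p r i = 0 := by
  set z : I → ℂ := fun i => eval (pt p r) (pderiv i f) with hzdef
  have hza : ∑ i, p.2 i * z i ≠ 0 := by
    have := hF.F3 r hr
    rw [deriv_eval] at this
    exact this
  have hz0 : z ≠ 0 := by
    intro h
    apply hza
    rw [h]
    simp
  -- step 1
  have h1 : ∀ t j, ∑ i, eval (pt p t) (𝒜 j i) * z i = 0 := by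
    intro t j
    apply Es_one
    apply Zs_le_Es
    rw [hZt]
    exact hz
  have h2 : ∀ j, ∑ i, eval p.2 (𝒜 j i) * z i = 0 := by
    intro j
    have e0 := h1 0 j
    have e1 := h1 1 j
    have e2 : ∀ t i, eval (pt p t) (𝒜 j i) = eval p.1 (𝒜 j i) + t * eval p.2 (𝒜 j i) :=
      fun t i => eval_add_smul hlin p.1 p.2 t j i
    simp only [e2, add_mul, Finset.sum_add_distrib, zero_mul, one_mul, Finset.sum_const_zero,
      add_zero] at e0 e1
    rw [e0, zero_add] at e1
    exact e1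
  -- step 2
  have h3 : ∀ j, rename Sum.inl f ∣ g2 𝒜 f j := by
    intro j
    by_contra hc
    apply hF.F6 j hc r hr
    rw [g2, map_sum]
    simp only [map_mul, eval_rename, Sum.elim_comp_inl, Sum.elim_comp_inr]
    exact h2 j
  have h4 : ∀ (k j : I) (y : I → ℂ),
      ∑ i, eval (Pi.single k 1) (𝒜 j i) * eval y (pderiv i f) = 0 := by
    intro k j y
    have h5 := map_dvd (aeval (Sum.elim X (fun i => C ((Pi.single k 1 : I → ℂ) i))) :
      MvPolynomial (I ⊕ I) ℂ →ₐ[ℂ] MvPolynomial I ℂ) (h3 j)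
    have e1 : (Sum.elim X (fun i => C ((Pi.single k 1 : I → ℂ) i)) : I ⊕ I → MvPolynomial I ℂ) ∘
      Sum.inl = X := by funext i; rfl
    have e2 : (Sum.elim X (fun i => C ((Pi.single k 1 : I → ℂ) i)) : I ⊕ I → MvPolynomial I ℂ) ∘
      Sum.inr = fun i => C ((Pi.single k 1 : I → ℂ) i) := by funext i; rfl
    have e3 : ∀ q : MvPolynomial I ℂ, aeval (fun i => (C ((Pi.single k 1 : I → ℂ) i) :
        MvPolynomial I ℂ)) q = C (eval (Pi.single k 1) q) := by
      intro q
      have := MvPolynomial.aeval_algebraMap_apply (B := MvPolynomial I ℂ) (Pi.single k 1 : I → ℂ) q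
      rw [MvPolynomial.algebraMap_eq] at this
      refine Eq.trans this ?_
      rw [← MvPolynomial.coe_aeval_eq_eval]
      rfl
    rw [aeval_rename, e1, aeval_X_left_apply, g2, map_sum] at h5
    simp only [map_mul, aeval_rename, e1, e2, aeval_X_left_apply, e3] at h5
    have h6 : ∑ i, C (eval (Pi.single k 1) (𝒜 j i)) * pderiv i f = 0 := by
      by_contra hc
      have h7 := totalDegree_le_of_dvd_of_isDomain h5 hc
      have h8 : (∑ i, C (eval (Pi.single k 1) (𝒜 j i)) * pderiv i f).totalDegree ≤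
          f.totalDegree - 1 := by
        apply totalDegree_finsetSum_le
        intro i _
        refine (totalDegree_mul _ _).trans ?_
        rw [totalDegree_C, zero_add]
        by_cases h9 : pderiv i f = 0
        · rw [h9, totalDegree_zero]; omega
        · have := totalDegree_pderiv_lt f i h9
          omega
      have := irreducible_totalDegree hf
      omega
    have h7 := congrArg (eval y) h6
    rw [map_sum, map_zero] at h7
    simpa only [map_mul, eval_C] using h7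
  have h5 : ∀ (y' y : I → ℂ) (j : I), ∑ i, eval y' (𝒜 j i) * eval y (pderiv i f) = 0 := by
    intro y' y j
    have e1 : ∀ i, eval y' (𝒜 j i) = ∑ k, y' k * eval (Pi.single k 1) (𝒜 j i) := by
      intro i
      obtain ⟨c, hc⟩ := hlin j i
      simp only [hc, map_sum, map_mul, eval_C, eval_X]
      apply Finset.sum_congr rfl
      intro k _
      simp [Pi.single_apply, mul_comm]
    simp only [e1, Finset.sum_mul]
    rw [Finset.sum_comm]
    apply Finset.sum_eq_zero
    intro k _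
    have := h4 k j y
    rw [← mul_zero (y' k), ← this, Finset.mul_sum]
    apply Finset.sum_congr rfl
    intro i _
    ring
  -- step 3
  have h6 : ∀ y : I → ℂ, ∃ ρ : ℂ, (fun i => eval y (pderiv i f)) = ρ • z := by
    intro y
    have h7 : (fun i => eval y (pderiv i f)) ∈ Zt := by
      rw [← ht0]
      apply mem_Es_one
      intro j
      exact h5 _ y j
    obtain ⟨w, hw0, hw⟩ := finrank_eq_one_iff'.1 hZ1
    obtain ⟨c1, hc1⟩ := hw ⟨z, hz⟩
    obtain ⟨c2, hc2⟩ := hw ⟨_, h7⟩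
    have e1 : c1 • (w : I → ℂ) = z := congrArg Subtype.val hc1
    have e2 : c2 • (w : I → ℂ) = fun i => eval y (pderiv i f) := congrArg Subtype.val hc2
    have hc10 : c1 ≠ 0 := by
      rintro rfl
      apply hz0
      rw [← e1, zero_smul]
    refine ⟨c2 / c1, ?_⟩
    rw [← e2, ← e1, smul_smul, div_mul_cancel₀ _ hc10]
  -- step 4
  by_contra hτ
  apply hz0
  apply GG_vanish hlin z _ hτ
  intro y hy
  apply factor_dvd hfac
  let q : (I → ℂ) × (I → ℂ) := (pt p r, fun i => y i - pt p r i)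
  have h7 : Polynomial.derivative (line q f) = 0 := by
    apply Polynomial.funext
    intro t
    rw [deriv_eval, Polynomial.eval_zero]
    obtain ⟨ρ, hρ⟩ := h6 (pt q t)
    have e1 : ∀ i, eval (pt q t) (pderiv i f) = ρ * z i := fun i => congrFun hρ i
    simp only [e1]
    have e2 : ∑ i, q.2 i * (ρ * z i) = ρ * (∑ i, z i * y i - ∑ i, z i * pt p r i) := by
      rw [← Finset.sum_sub_distrib, Finset.mul_sum]
      apply Finset.sum_congr rfl
      intro i _
      show (y i - pt p r i) * (ρ * z i) = _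
      ring
    rw [e2, hy, sub_self, mul_zero]
  have h8 := Polynomial.derivative_eq_zero.1 h7
  have h9 : ∀ t, eval (pt q t) f = (line q f).coeff 0 := by
    intro t
    rw [← eval_line, Polynomial.eq_C_of_natDegree_eq_zero h8]
    simp
  have e1 : pt q 1 = y := by
    funext i
    show pt p r i + 1 * (y i - pt p r i) = y i
    ring
  have e0 : pt q 0 = pt p r := by
    funext i
    show pt p r i + 0 * (y i - pt p r i) = pt p r i
    ring
  have h10 := h9 1
  have h11 := h9 0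
  rw [e1] at h10
  rw [e0, hr] at h11
  rw [h10, ← h11]

/-- Lemma B: the linear case. -/
theorem linear_root {f : MvPolynomial I ℂ} (hA : 𝒜.transpose = -𝒜)
    (hfac : f ∈ UniqueFactorizationMonoid.factors (GG 𝒜)) (hlin : Lin 𝒜) {Q : ℕ}
    (hF : Fact 𝒜 f Q p) {r : ℂ} (hr : eval (pt p r) f = 0)
    (huniq : ∀ r', eval (pt p r') f = 0 → r' = r)
    (hz : (fun i => eval (pt p r) (pderiv i f)) ∈ Zs (LL 𝒜 p) r) :
    ∃ (ℓ χ : I → ℂ), ∑ i, ℓ i * pt p r i = 0 ∧ ∑ i, ℓ i * p.2 i ≠ 0 ∧ ℓ ∈ Zs (LL 𝒜 p) r ∧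
      ∀ j y, ∑ i, ℓ i * eval y (𝒜 i j) = χ j * ∑ i, ℓ i * y i := by
  have h1 : (line p f).natDegree ≤ 1 := by
    apply natDegree_le_one (r := r)
    · rw [eval_line]; exact hr
    · exact hF.F3 r hr
    · intro r' hr'
      apply huniq
      rwa [eval_line] at hr'
  have h2 : HH f = 0 := by
    by_contra hc
    apply hF.F4 hc
    rw [← second_deriv_line]
    have h3 : Polynomial.derivative (Polynomial.derivative (line p f)) = 0 := by
      have h4 : (Polynomial.derivative (line p f)).natDegree = 0 := by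
        have := Polynomial.natDegree_derivative_le (line p f)
        omega
      rw [Polynomial.eq_C_of_natDegree_eq_zero h4, Polynomial.derivative_C]
    rw [h3, Polynomial.eval_zero]
  obtain ⟨ℓ, c, hf⟩ := linear_of_HH h2
  have hpd : ∀ i, pderiv i f = C (ℓ i) := by
    intro i
    rw [hf, map_add, pderiv_lf, pderiv_C, add_zero]
  simp only [hpd, eval_C] at hz
  have hℓa : ∑ i, ℓ i * p.2 i ≠ 0 := by
    have := hF.F3 r hr
    rw [deriv_eval] at this
    simp only [hpd, eval_C] at this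
    intro h0
    apply this
    rw [← h0]
    apply Finset.sum_congr rfl
    intro i _
    ring
  have hc : c = 0 := by
    by_contra hc
    have h3 : ℓ = 0 := by
      apply GG_vanish hlin ℓ (-c) (neg_ne_zero.2 hc)
      intro y hy
      apply factor_dvd hfac
      rw [hf, map_add, eval_lf, hy, eval_C]
      ring
    apply hℓa
    rw [h3]
    simp
  rw [hc, C_0, add_zero] at hf
  have hgj : ∀ j, f ∣ gj 𝒜 f j := by
    intro j
    by_contra hc
    apply hF.F5 j hc r hr
    rw [gj, map_sum]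
    simp only [map_mul, hpd, eval_C]
    have h3 := Es_one (Zs_le_Es _ _ 1 hz) j
    have h4 : ∀ i, eval (pt p r) (𝒜 i j) = - eval (pt p r) (𝒜 j i) := by
      intro i
      have := congrFun (congrFun hA j) i
      simp only [Matrix.transpose_apply, Matrix.neg_apply] at this
      rw [this, map_neg]
    simp only [h4, mul_neg, Finset.sum_neg_distrib, neg_eq_zero]
    rw [← h3]
    apply Finset.sum_congr rfl
    intro i _
    ring
  have hev : ∀ j y, eval y (gj 𝒜 f j) = ∑ i, ℓ i * eval y (𝒜 i j) := by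
    intro j y
    rw [gj, map_sum]
    simp only [map_mul, hpd, eval_C]
  refine ⟨ℓ, fun j => (∑ i, ℓ i * eval p.2 (𝒜 i j)) / (∑ i, ℓ i * p.2 i), ?_, hℓa, hz, ?_⟩
  · rw [hf, eval_lf] at hr
    exact hr
  · intro j y
    set s := ∑ i, ℓ i * p.2 i with hs
    set u := ∑ i, ℓ i * y i with hu
    -- the point on the hyperplane
    have h3 : eval (fun k => y k + (-(u / s)) * p.2 k) f = 0 := by
      rw [hf, eval_lf]
      have : ∑ i, ℓ i * (y i + (-(u / s)) * p.2 i) = u - (u / s) * s := by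
        rw [hu, hs, Finset.mul_sum, ← Finset.sum_sub_distrib]
        apply Finset.sum_congr rfl
        intro i _
        ring
      rw [this, div_mul_cancel₀ _ hℓa, sub_self]
    obtain ⟨h, hh⟩ := hgj j
    have h4 := hev j (fun k => y k + (-(u / s)) * p.2 k)
    rw [hh, map_mul, h3, zero_mul] at h4
    simp only [eval_add_smul hlin, mul_add, Finset.sum_add_distrib] at h4
    have h5 : ∑ i, ℓ i * (-(u / s) * eval p.2 (𝒜 i j)) =
        -(u / s) * ∑ i, ℓ i * eval p.2 (𝒜 i j) := by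
      rw [Finset.mul_sum]
      apply Finset.sum_congr rfl
      intro i _
      ring
    rw [h5] at h4
    field_simp at h4 ⊢
    linear_combination -h4

end atp

end Pool.Agent.H4.JK
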