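import Mathlib

set_option autoImplicit false

/-! Chain-level facts about flags and apartments. -/

namespace Pool.Agent.H4

open Finsupp

variable {K V : Type*} [Field K] [AddCommGroup V] [Module K V]

/-- Integral chains on `k`-tuples of subspaces. -/
abbrev Ch (K V : Type*) [Field K] [AddCommGroup V] [Module K V] (k : ℕ) :=
  (Fin k → Submodule K V) →₀ ℤ

/-- The flag of a tuple of vectors, relative to a subspace `U`. -/
def flag (U : Submodule K V) {k : ℕ} (b : Fin (k + 1) → V) : Fin k → Submodule K V :=
  fun l => U ⊔ Submodule.span K (b '' {m | m ≤ l.castSucc})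

/-- The apartment class of a tuple of vectors, relative to a subspace `U`. -/
noncomputable def apt (U : Submodule K V) {k : ℕ} (b : Fin (k + 1) → V) : Ch K V k :=
  ∑ σ : Equiv.Perm (Fin (k + 1)), Finsupp.single (flag U (b ∘ σ)) ((Equiv.Perm.sign σ : ℤˣ) : ℤ)

theorem apt_perm (U : Submodule K V) {k : ℕ} (b : Fin (k + 1) → V)
    (τ : Equiv.Perm (Fin (k + 1))) :
    apt U (b ∘ τ) = ((Equiv.Perm.sign τ : ℤˣ) : ℤ) • apt U b := by
  unfold apt
  rw [Finset.smul_sum]
  refine Fintype.sum_equiv (Equiv.mulLeft τ) _ _ ?_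
  intro σ
  simp only [Equiv.coe_mulLeft, Equiv.Perm.coe_mul, Function.comp_assoc, Finsupp.smul_single,
    map_mul, Units.val_mul, smul_eq_mul]
  congr 1
  rw [← mul_assoc, Int.units_coe_mul_self, one_mul]

theorem flag_eq_iSup (U : Submodule K V) {k : ℕ} (b : Fin (k + 1) → V) (l : Fin k) :
    flag U b l = U ⊔ ⨆ m : {m : Fin (k + 1) // m ≤ l.castSucc}, (U ⊔ Submodule.span K {b m}) := by
  unfold flag
  apply le_antisymm
  · apply sup_le le_sup_left
    rw [Submodule.span_le]
    rintro _ ⟨m, hm, rfl⟩
    have h1 : b m ∈ U ⊔ Submodule.span K {b m} :=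
      Submodule.mem_sup_right (Submodule.mem_span_singleton_self _)
    exact Submodule.mem_sup_right
      (Submodule.mem_iSup_of_mem (p := fun m : {m : Fin (k + 1) // m ≤ l.castSucc} =>
        (U ⊔ Submodule.span K {b m})) ⟨m, hm⟩ h1)
  · apply sup_le le_sup_left
    apply iSup_le
    rintro ⟨m, hm⟩
    apply sup_le le_sup_left
    apply le_sup_of_le_right
    apply Submodule.span_mono
    rintro _ ⟨⟩
    exact ⟨m, hm, rfl⟩

theorem flag_congr (U : Submodule K V) {k : ℕ} (b b' : Fin (k + 1) → V)
    (h : ∀ i, U ⊔ Submodule.span K {b i} = U ⊔ Submodule.span K {b' i}) :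
    flag U b = flag U b' := by
  funext l
  rw [flag_eq_iSup, flag_eq_iSup]
  simp only [h]

theorem apt_congr (U : Submodule K V) {k : ℕ} (b b' : Fin (k + 1) → V)
    (h : ∀ i, U ⊔ Submodule.span K {b i} = U ⊔ Submodule.span K {b' i}) :
    apt U b = apt U b' := by
  unfold apt
  refine Finset.sum_congr rfl fun σ _ => ?_
  rw [flag_congr U (b ∘ σ) (b' ∘ σ) (fun i => h (σ i))]

theorem map_flag (g : V →ₗ[K] V) (U : Submodule K V) {k : ℕ} (b : Fin (k + 1) → V) :
    (fun j => Submodule.map g (flag U b j)) = flag (Submodule.map g U) (g ∘ b) := by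
  funext l
  unfold flag
  rw [Submodule.map_sup, Submodule.map_span, Set.image_comp]

theorem apt_map (g : V →ₗ[K] V) (U : Submodule K V) {k : ℕ} (b : Fin (k + 1) → V) :
    Finsupp.mapDomain (fun (f : Fin k → Submodule K V) j => Submodule.map g (f j)) (apt U b)
      = apt (Submodule.map g U) (g ∘ b) := by
  unfold apt
  rw [Finsupp.mapDomain_finsetSum]
  refine Finset.sum_congr rfl fun σ _ => ?_
  rw [Finsupp.mapDomain_single, map_flag]
  rfl

/-- cons for flags -/
def fcons {k : ℕ} (L : Submodule K V) (f : Fin k → Submodule K V) : Fin (k + 1) → Submodule K V :=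
  Fin.cons (α := fun _ => Submodule K V) L f

@[simp] theorem fcons_zero {k : ℕ} (L : Submodule K V) (f : Fin k → Submodule K V) :
    fcons L f 0 = L := rfl

@[simp] theorem fcons_succ {k : ℕ} (L : Submodule K V) (f : Fin k → Submodule K V) (i : Fin k) :
    fcons L f i.succ = f i := rfl

theorem fcons_injective {k : ℕ} (L : Submodule K V) :
    Function.Injective (fcons (k := k) L) := by
  intro f g h
  funext i
  have := congrFun h i.succ
  simpa using this

theorem fcons_self_tail {k : ℕ} (f : Fin (k + 1) → Submodule K V) :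
    fcons (f 0) (Fin.tail f) = f := by
  funext i
  refine Fin.cases ?_ (fun j => ?_) i <;> simp [Fin.tail]

theorem flag_cons (U : Submodule K V) {k : ℕ} (v : V) (w : Fin (k + 1) → V) :
    flag U (Fin.cons (α := fun _ => V) v w : Fin (k + 2) → V)
      = fcons (U ⊔ Submodule.span K {v}) (flag (U ⊔ Submodule.span K {v}) w) := by
  funext l
  refine Fin.cases ?_ (fun j => ?_) l
  · rw [fcons_zero]
    unfold flag
    congr 2
    ext x
    simp only [Set.mem_image, Set.mem_ofPred_eq, Fin.castSucc_zero, Fin.le_zero_iff,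
      exists_eq_left, Fin.cons_zero, Set.mem_singleton_iff, eq_comm]
  · rw [fcons_succ]
    unfold flag
    rw [sup_assoc, ← Submodule.span_union]
    congr 2
    ext x
    simp only [Set.mem_image, Set.mem_ofPred_eq, Set.mem_union, Set.mem_singleton_iff]
    constructor
    · rintro ⟨m, hm, rfl⟩
      refine Fin.cases (fun _ => ?_) (fun m hm => ?_) m hm
      · left; simp
      · right
        refine ⟨m, ?_, by simp⟩
        rw [← Fin.succ_castSucc] at hm
        exact Fin.succ_le_succ_iff.mp hm
    · rintro (rfl | ⟨m, hm, rfl⟩)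
      · exact ⟨0, Fin.zero_le _, by simp⟩
      · refine ⟨m.succ, ?_, by simp⟩
        rw [← Fin.succ_castSucc]
        exact Fin.succ_le_succ_iff.mpr hm

/-- the boundary (alternating sum of faces) -/
noncomputable def bdry {k : ℕ} : Ch K V (k + 1) →+ Ch K V k :=
  Finsupp.liftAddHom (fun f => ∑ i : Fin (k + 1),
    (Finsupp.singleAddHom (f ∘ Fin.succAbove i)).comp (AddMonoidHom.mulLeft ((-1 : ℤ) ^ (i : ℕ))))

theorem bdry_apply {k : ℕ} (z : Ch K V (k + 1)) :
    bdry z = z.sum (fun f a => ∑ i : Fin (k + 1),
      Finsupp.single (f ∘ Fin.succAbove i) ((-1 : ℤ) ^ (i : ℕ) * a)) := by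
  unfold bdry
  rw [Finsupp.liftAddHom_apply]
  congr 1
  funext f a
  simp

theorem bdry_single {k : ℕ} (f : Fin (k + 1) → Submodule K V) (a : ℤ) :
    bdry (Finsupp.single f a) = ∑ i : Fin (k + 1),
      Finsupp.single (f ∘ Fin.succAbove i) ((-1 : ℤ) ^ (i : ℕ) * a) := by
  rw [bdry_apply, Finsupp.sum_single_index]
  simp

/-- residue at a first subspace -/
noncomputable def res {k : ℕ} (L : Submodule K V) : Ch K V (k + 1) →+ Ch K V k :=
  Finsupp.comapDomain.addMonoidHom (fcons_injective L)

theorem res_apply {k : ℕ} (L : Submodule K V) (z : Ch K V (k + 1)) (f : Fin k → Submodule K V) :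
    res L z f = z (fcons L f) := rfl

theorem res_single_of_ne {k : ℕ} (L : Submodule K V) (f : Fin (k + 1) → Submodule K V) (a : ℤ)
    (h : f 0 ≠ L) : res L (Finsupp.single f a) = 0 := by
  ext g
  rw [res_apply, Finsupp.single_apply, if_neg]
  · rfl
  · rintro rfl
    exact h rfl

theorem res_single_cons {k : ℕ} (L : Submodule K V) (f : Fin k → Submodule K V) (a : ℤ) :
    res L (Finsupp.single (fcons L f) a) = Finsupp.single f a := by
  ext g
  rw [res_apply, Finsupp.single_apply, Finsupp.single_apply]
  congr 1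
  exact propext (fcons_injective L).eq_iff

theorem flag_swap_face (U : Submodule K V) {k : ℕ} (b : Fin (k + 2) → V) (i : Fin (k + 1)) :
    flag U (b ∘ (Equiv.swap i.castSucc i.succ)) ∘ Fin.succAbove i
      = flag U b ∘ Fin.succAbove i := by
  funext l
  simp only [Function.comp_apply]
  unfold flag
  rw [Set.image_comp]
  congr 3
  have hne : i.succAbove l ≠ i := Fin.succAbove_ne i l
  ext m
  simp only [Set.mem_image, Set.mem_ofPred_eq]
  have key : ∀ m : Fin (k + 2), m ≤ (i.succAbove l).castSucc →
      Equiv.swap i.castSucc i.succ m ≤ (i.succAbove l).castSucc := by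
    intro m hm
    rw [Equiv.swap_apply_def]
    split_ifs with h1 h2
    · subst h1
      rw [Fin.castSucc_le_castSucc_iff] at hm
      have : i < i.succAbove l := lt_of_le_of_ne hm (Ne.symm hne)
      rw [Fin.le_def]
      rw [Fin.lt_def] at this
      simp only [Fin.val_succ, Fin.val_castSucc]
      omega
    · subst h2
      rw [Fin.le_def] at hm ⊢
      simp only [Fin.val_succ, Fin.val_castSucc] at hm ⊢
      omega
    · exact hm
  constructor
  · rintro ⟨x, hx, rfl⟩
    exact key x hx
  · intro hm
    exact ⟨Equiv.swap i.castSucc i.succ m, key m hm, Equiv.swap_apply_self _ _ _⟩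

theorem bdry_apt (U : Submodule K V) {k : ℕ} (b : Fin (k + 2) → V) : bdry (apt U b) = 0 := by
  unfold apt
  rw [map_sum]
  simp_rw [bdry_single]
  rw [Finset.sum_comm]
  refine Finset.sum_eq_zero fun i _ => ?_
  set S := ∑ σ : Equiv.Perm (Fin (k + 1 + 1)), (Finsupp.single (flag U (b ∘ ⇑σ) ∘ i.succAbove)
    ((-1 : ℤ) ^ (i : ℕ) * ((Equiv.Perm.sign σ : ℤˣ) : ℤ)) : Ch K V k) with hS
  have h1 : S = -S := by
    rw [hS, ← Finset.sum_neg_distrib]
    refine Fintype.sum_equiv (Equiv.mulRight (Equiv.swap i.castSucc i.succ)) _ _ ?_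
    intro σ
    simp only [Equiv.coe_mulRight, Equiv.Perm.coe_mul, ← Function.comp_assoc]
    rw [flag_swap_face]
    rw [← Finsupp.single_neg]
    congr 1
    rw [map_mul, Equiv.Perm.sign_swap (ne_of_lt (Fin.castSucc_lt_succ))]
    simp
  ext f
  have h2 : S f = - S f := by
    conv_lhs => rw [h1]
    rfl
  simp only [Finsupp.coe_zero, Pi.zero_apply]
  omega

theorem flag_le_of (U : Submodule K V) {k : ℕ} (c c' : Fin (k + 1) → V) (p q : Fin (k + 1))
    (hpq : p < q) (h : ∀ m, m ≠ q → c' m = c m)
    (h1 : c' q ∈ Submodule.span K {c p, c q}) (l : Fin k) : flag U c' l ≤ flag U c l := by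
  unfold flag
  apply sup_le le_sup_left
  apply le_sup_of_le_right
  rw [Submodule.span_le]
  rintro _ ⟨m, hm, rfl⟩
  by_cases hmq : m = q
  · subst hmq
    have : Submodule.span K {c p, c m} ≤ Submodule.span K (c '' {m | m ≤ l.castSucc}) := by
      apply Submodule.span_mono
      rintro x (rfl | rfl)
      · exact ⟨p, le_trans (le_of_lt hpq) hm, rfl⟩
      · exact ⟨m, hm, rfl⟩
    exact this h1
  · rw [h m hmq]
    exact Submodule.subset_span ⟨m, hm, rfl⟩

theorem flag_eq_of (U : Submodule K V) {k : ℕ} (c c' : Fin (k + 1) → V) (p q : Fin (k + 1))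
    (hpq : p < q) (h : ∀ m, m ≠ q → c' m = c m)
    (h1 : c' q ∈ Submodule.span K {c p, c q}) (h2 : c q ∈ Submodule.span K {c p, c' q}) :
    flag U c = flag U c' := by
  funext l
  apply le_antisymm
  · refine flag_le_of U c' c p q hpq (fun m hm => (h m hm).symm) ?_ l
    rw [h p (ne_of_lt hpq)]
    exact h2
  · exact flag_le_of U c c' p q hpq h h1 l

theorem mem_pair_of_eq (x y z : V) (a c : K) (h : a • y + c • z = x) :
    x ∈ Submodule.span K {y, z} := Submodule.mem_span_pair.mpr ⟨a, c, h⟩

theorem apt_three (U : Submodule K V) {k : ℕ} (b : Fin (k + 1) → V) (i j : Fin (k + 1))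
    (hij : i ≠ j) :
    apt U b - apt U (Function.update b i (b i + b j))
      + apt U (Function.update (Function.update b i (b i + b j)) j (b i)) = 0 := by
  set b2 := Function.update b i (b i + b j) with hb2
  set b3 := Function.update b2 j (b i) with hb3
  have e2i : b2 i = b i + b j := by simp [hb2]
  have e2j : b2 j = b j := by simp [hb2, hij.symm]
  have e3i : b3 i = b i + b j := by simp [hb3, hij, e2i]
  have e3j : b3 j = b i := by simp [hb3]
  have e2 : ∀ m, m ≠ i → m ≠ j → b2 m = b m := by
    intro m hi hj; simp [hb2, hi]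
  have e3 : ∀ m, m ≠ i → m ≠ j → b3 m = b m := by
    intro m hi hj; simp [hb3, hj, e2 m hi hj]
  have key : ∀ σ : Equiv.Perm (Fin (k + 1)), σ.symm i < σ.symm j →
      flag U (b ∘ (Equiv.swap i j * σ)) = flag U (b2 ∘ (Equiv.swap i j * σ)) ∧
      flag U (b2 ∘ σ) = flag U (b3 ∘ σ) ∧
      flag U (b ∘ σ) = flag U (b3 ∘ (Equiv.swap i j * σ)) := by
    intro σ hσ
    have hm : ∀ m, m ≠ σ.symm i → σ m ≠ i := by
      intro m hm h; apply hm; rw [← h]; simp
    have hm' : ∀ m, m ≠ σ.symm j → σ m ≠ j := by
      intro m hm h; apply hm; rw [← h]; simp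
    refine ⟨?_, ?_, ?_⟩
    · refine flag_eq_of U _ _ (σ.symm i) (σ.symm j) hσ ?_ ?_ ?_
      · intro m hmj
        simp only [Function.comp_apply, Equiv.Perm.coe_mul]
        by_cases hmi : m = σ.symm i
        · subst hmi; simp [e2j]
        · rw [Equiv.swap_apply_of_ne_of_ne (hm m hmi) (hm' m hmj), e2 _ (hm m hmi) (hm' m hmj)]
      · simp only [Function.comp_apply, Equiv.Perm.coe_mul, Equiv.apply_symm_apply,
          Equiv.swap_apply_right, Equiv.swap_apply_left]
        rw [e2i]
        exact mem_pair_of_eq _ _ _ 1 1 (by module)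
      · simp only [Function.comp_apply, Equiv.Perm.coe_mul, Equiv.apply_symm_apply,
          Equiv.swap_apply_right, Equiv.swap_apply_left]
        rw [e2i]
        exact mem_pair_of_eq _ _ _ (-1) 1 (by module)
    · refine flag_eq_of U _ _ (σ.symm i) (σ.symm j) hσ ?_ ?_ ?_
      · intro m hmj
        simp only [Function.comp_apply]
        by_cases hmi : m = σ.symm i
        · subst hmi; simp [e2i, e3i]
        · rw [e2 _ (hm m hmi) (hm' m hmj), e3 _ (hm m hmi) (hm' m hmj)]
      · simp only [Function.comp_apply, Equiv.apply_symm_apply]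
        rw [e2i, e3j, e2j]
        exact mem_pair_of_eq _ _ _ 1 (-1) (by module)
      · simp only [Function.comp_apply, Equiv.apply_symm_apply]
        rw [e2i, e3j, e2j]
        exact mem_pair_of_eq _ _ _ 1 (-1) (by module)
    · refine flag_eq_of U _ _ (σ.symm i) (σ.symm j) hσ ?_ ?_ ?_
      · intro m hmj
        simp only [Function.comp_apply, Equiv.Perm.coe_mul]
        by_cases hmi : m = σ.symm i
        · subst hmi; simp [e3j]
        · rw [Equiv.swap_apply_of_ne_of_ne (hm m hmi) (hm' m hmj), e3 _ (hm m hmi) (hm' m hmj)]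
      · simp only [Function.comp_apply, Equiv.Perm.coe_mul, Equiv.apply_symm_apply,
          Equiv.swap_apply_right]
        rw [e3i]
        exact mem_pair_of_eq _ _ _ 1 1 (by module)
      · simp only [Function.comp_apply, Equiv.Perm.coe_mul, Equiv.apply_symm_apply,
          Equiv.swap_apply_right]
        rw [e3i]
        exact mem_pair_of_eq _ _ _ (-1) 1 (by module)
  unfold apt
  rw [← Finset.sum_sub_distrib, ← Finset.sum_add_distrib]
  set T : Equiv.Perm (Fin (k + 1)) → Ch K V k := fun σ =>
    (Finsupp.single (flag U (b ∘ σ)) ((Equiv.Perm.sign σ : ℤˣ) : ℤ)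
      - Finsupp.single (flag U (b2 ∘ σ)) ((Equiv.Perm.sign σ : ℤˣ) : ℤ)
      + Finsupp.single (flag U (b3 ∘ σ)) ((Equiv.Perm.sign σ : ℤˣ) : ℤ)) with hT
  have hpair : ∀ σ, σ.symm i < σ.symm j → T σ + T (Equiv.swap i j * σ) = 0 := by
    intro σ hσ
    obtain ⟨h1, h2, h3⟩ := key σ hσ
    simp only [hT]
    rw [h1, h2, h3]
    have hs : ((Equiv.Perm.sign (Equiv.swap i j * σ) : ℤˣ) : ℤ)
        = -((Equiv.Perm.sign σ : ℤˣ) : ℤ) := by
      rw [map_mul, Equiv.Perm.sign_swap hij]; simp
    rw [hs]
    simp only [Finsupp.single_neg]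
    abel
  have hpair' : ∀ σ, T σ + T (Equiv.swap i j * σ) = 0 := by
    intro σ
    rcases lt_trichotomy (σ.symm i) (σ.symm j) with h | h | h
    · exact hpair σ h
    · exact absurd (σ.symm.injective h) hij
    · have h' : (Equiv.swap i j * σ).symm i < (Equiv.swap i j * σ).symm j := by
        have e1 : (Equiv.swap i j * σ).symm i = σ.symm j := by
          rw [Equiv.symm_apply_eq]; simp
        have e2 : (Equiv.swap i j * σ).symm j = σ.symm i := by
          rw [Equiv.symm_apply_eq]; simp
        rw [e1, e2]; exact h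
      have := hpair _ h'
      rw [Equiv.swap_mul_self_mul, add_comm] at this
      exact this
  have hsum : ∑ σ, T σ = ∑ σ, T (Equiv.swap i j * σ) := by
    exact (Fintype.sum_equiv (Equiv.mulLeft (Equiv.swap i j)) _ _ (fun σ => rfl)).symm
  have h2 : ∑ σ, T σ + ∑ σ, T σ = 0 := by
    conv_lhs => enter [2]; rw [hsum]
    rw [← Finset.sum_add_distrib]
    exact Finset.sum_eq_zero fun σ _ => hpair' σ
  ext f
  have h3 : (∑ σ, T σ) f + (∑ σ, T σ) f = 0 := by
    have := DFunLike.congr_fun h2 f
    exact this
  have h4 : (∑ σ, T σ) f = 0 := by omega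
  exact h4

theorem flag_zero (U : Submodule K V) {k : ℕ} (b : Fin (k + 2) → V) :
    flag U b 0 = U ⊔ Submodule.span K {b 0} := by
  unfold flag
  congr 2
  ext x
  simp only [Set.mem_image, Set.mem_ofPred_eq, Fin.castSucc_zero, Fin.le_zero_iff,
    exists_eq_left, Set.mem_singleton_iff, eq_comm]

theorem res_apt_of_ne (U L : Submodule K V) {k : ℕ} (b : Fin (k + 2) → V)
    (h : ∀ i, U ⊔ Submodule.span K {b i} ≠ L) : res L (apt U b) = 0 := by
  unfold apt
  rw [map_sum]
  refine Finset.sum_eq_zero fun σ _ => ?_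
  apply res_single_of_ne
  rw [flag_zero]
  exact h _

theorem res_apt_cons (U : Submodule K V) {k : ℕ} (v : V) (w : Fin (k + 1) → V)
    (h : ∀ i, U ⊔ Submodule.span K {w i} ≠ U ⊔ Submodule.span K {v}) :
    res (U ⊔ Submodule.span K {v}) (apt U (Fin.cons (α := fun _ => V) v w : Fin (k + 2) → V))
      = apt (U ⊔ Submodule.span K {v}) w := by
  unfold apt
  rw [map_sum]
  rw [← Equiv.sum_comp (Equiv.Perm.decomposeFin (n := k + 1)).symm]
  rw [Fintype.sum_prod_type]
  rw [Fin.sum_univ_succ]
  have h0 : ∀ (i : Fin (k + 1)) (e : Equiv.Perm (Fin (k + 1))),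
      res (U ⊔ Submodule.span K {v}) (Finsupp.single (flag U
        ((Fin.cons (α := fun _ => V) v w : Fin (k + 2) → V) ∘
          (Equiv.Perm.decomposeFin.symm (i.succ, e))))
        ((Equiv.Perm.sign (Equiv.Perm.decomposeFin.symm (i.succ, e)) : ℤˣ) : ℤ)) = 0 := by
    intro i e
    apply res_single_of_ne
    rw [flag_zero]
    simp only [Function.comp_apply, Equiv.Perm.decomposeFin_symm_apply_zero, Fin.cons_succ]
    exact h _
  simp only [h0, Finset.sum_const_zero, add_zero]
  refine Finset.sum_congr rfl fun e _ => ?_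
  have h1 : (Fin.cons (α := fun _ => V) v w : Fin (k + 2) → V) ∘
          (Equiv.Perm.decomposeFin.symm (0, e)) = (Fin.cons (α := fun _ => V) v (w ∘ e)) := by
    funext x
    refine Fin.cases ?_ (fun j => ?_) x
    · simp
    · simp [Equiv.Perm.decomposeFin_symm_apply_succ]
  rw [h1, flag_cons, res_single_cons]
  congr 1
  rw [Equiv.Perm.decomposeFin.symm_sign]
  simp

theorem apt_zero (U : Submodule K V) (b : Fin 1 → V) :
    apt U b = Finsupp.single (fun i => i.elim0) 1 := by
  unfold apt
  rw [Fintype.sum_subsingleton _ (1 : Equiv.Perm (Fin 1))]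
  rw [show flag U (b ∘ (1 : Equiv.Perm (Fin 1))) = (fun i => i.elim0) from Subsingleton.elim _ _]
  simp

open Module

/-- Full flags above `U`. -/
def Full : (k : ℕ) → (U : Submodule K V) → (Fin k → Submodule K V) → Prop
  | 0, _, _ => True
  | k + 1, U, f => U ≤ f 0 ∧ finrank K (f 0) = finrank K U + 1 ∧ Full k (f 0) (Fin.tail f)

/-- chains supported on full flags above `U` -/
def fullGrp (k : ℕ) (U : Submodule K V) : AddSubgroup (Ch K V k) where
  carrier := {z | ∀ f, z f ≠ 0 → Full k U f}
  zero_mem' := by intro f hf; exact absurd rfl hf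
  add_mem' := by
    intro a b ha hb f hf
    by_cases h : a f = 0
    · apply hb
      intro hb0
      apply hf
      rw [Finsupp.add_apply, h, hb0, add_zero]
    · exact ha f h
  neg_mem' := by
    intro a ha f hf
    apply ha
    intro h
    apply hf
    rw [Finsupp.neg_apply, h, neg_zero]

theorem mem_fullGrp {k : ℕ} {U : Submodule K V} {z : Ch K V k} :
    z ∈ fullGrp k U ↔ ∀ f, z f ≠ 0 → Full k U f := Iff.rfl

/-- cycles -/
noncomputable def cycGrp : (k : ℕ) → AddSubgroup (Ch K V k)
  | 0 => ⊤
  | _ + 1 => bdry.ker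

/-- the Steinberg group relative to `U` -/
noncomputable def St (k : ℕ) (U : Submodule K V) : AddSubgroup (Ch K V k) :=
  fullGrp k U ⊓ cycGrp k

theorem mem_St_succ {k : ℕ} {U : Submodule K V} {z : Ch K V (k + 1)} :
    z ∈ St (k + 1) U ↔ (∀ f, z f ≠ 0 → Full (k + 1) U f) ∧ bdry z = 0 := Iff.rfl

theorem mem_St_zero {U : Submodule K V} {z : Ch K V 0} : z ∈ St 0 U := by
  refine ⟨fun f _ => trivial, ?_⟩
  exact AddSubgroup.mem_top _

theorem res_bdry {k : ℕ} (L : Submodule K V) (z : Ch K V (k + 2)) :
    res L (bdry z) = res L (Finsupp.mapDomain Fin.tail z) - bdry (res L z) := by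
  induction z using Finsupp.induction_linear with
  | zero => simp
  | add f g hf hg =>
    simp only [map_add, Finsupp.mapDomain_add, hf, hg]
    abel
  | single f a =>
    rw [bdry_single, Fin.sum_univ_succ, map_add, map_sum]
    have e0 : f ∘ Fin.succAbove 0 = Fin.tail f := by
      funext i; simp [Fin.tail]
    rw [e0]
    simp only [Fin.val_zero, pow_zero, one_mul, Finsupp.mapDomain_single]
    rw [sub_eq_add_neg]
    congr 1
    have e1 : ∀ i : Fin (k + 1), f ∘ i.succ.succAbove = fcons (f 0) (Fin.tail f ∘ i.succAbove) := by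
      intro i
      funext j
      refine Fin.cases ?_ (fun j => ?_) j
      · simp
      · simp [Fin.tail]
    by_cases hL : f 0 = L
    · subst hL
      have e2 : res (f 0) (Finsupp.single f a) = Finsupp.single (Fin.tail f) a := by
        conv_lhs => rw [← fcons_self_tail f]
        rw [fcons_zero, res_single_cons]
      rw [e2, bdry_single, ← Finset.sum_neg_distrib]
      refine Finset.sum_congr rfl fun i _ => ?_
      rw [e1, res_single_cons, ← Finsupp.single_neg]
      congr 1
      simp [pow_succ]
    · rw [res_single_of_ne L f a hL, map_zero, neg_zero]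
      refine Finset.sum_eq_zero fun i _ => ?_
      rw [e1]
      apply res_single_of_ne
      simpa using hL

theorem res_mem_St {k : ℕ} {U : Submodule K V} (L : Submodule K V) {z : Ch K V (k + 1)}
    (hz : z ∈ St (k + 1) U) : res L z ∈ St k L := by
  have hfull : ∀ f, res L z f ≠ 0 → Full k L f := by
    intro f hf
    rw [res_apply] at hf
    have := (mem_St_succ.mp hz).1 _ hf
    exact this.2.2
  refine ⟨hfull, ?_⟩
  cases k with
  | zero => exact AddSubgroup.mem_top _
  | succ k =>
    show bdry (res L z) = 0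
    have h1 := res_bdry L z
    rw [(mem_St_succ.mp hz).2, map_zero] at h1
    by_cases hL : ∃ f, z f ≠ 0 ∧ f 0 = L
    · obtain ⟨f, hf, hfL⟩ := hL
      have hd : finrank K L = finrank K U + 1 := by
        rw [← hfL]; exact ((mem_St_succ.mp hz).1 f hf).2.1
      have h2 : res L (Finsupp.mapDomain Fin.tail z) = 0 := by
        rw [Finsupp.mapDomain, Finsupp.sum, map_sum]
        refine Finset.sum_eq_zero fun g hg => ?_
        apply res_single_of_ne
        intro h
        have hg' := (mem_St_succ.mp hz).1 g (Finsupp.mem_support_iff.mp hg)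
        have h3 := hg'.2.2.2.1
        rw [h, hg'.2.1, hd] at h3
        omega
      rw [h2, zero_sub] at h1
      exact neg_eq_zero.mp h1.symm
    · have h2 : res L z = 0 := by
        ext f
        by_contra h
        exact hL ⟨fcons L f, h, rfl⟩
      rw [h2, map_zero]

theorem St_eq_zero_aux [FiniteDimensional K V] (W : Submodule K V)
    (hW : finrank K W + 1 = finrank K V) :
    ∀ (k : ℕ) (U : Submodule K V), finrank K U + (k + 2) = finrank K V →
      ∀ z : Ch K V (k + 1), z ∈ St (k + 1) U → (∀ f, z f ≠ 0 → f 0 ≤ W) → z = 0 := by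
  intro k
  induction k with
  | zero =>
    intro U hU z hz hzW
    ext f
    by_contra hf
    have h0 := (mem_St_succ.mp hz).2
    have hone : ∀ g, z g ≠ 0 → g = f := by
      intro g hg
      have a1 : g 0 = W := by
        apply Submodule.eq_of_le_of_finrank_eq (hzW g hg)
        have := ((mem_St_succ.mp hz).1 g hg).2.1
        omega
      have a2 : f 0 = W := by
        apply Submodule.eq_of_le_of_finrank_eq (hzW f hf)
        have := ((mem_St_succ.mp hz).1 f hf).2.1
        omega
      funext i
      have hi0 : i = 0 := by omega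
      rw [hi0, a1, a2]
    have h1 := DFunLike.congr_fun h0 (Fin.tail f)
    rw [bdry_apply, Finsupp.sum_apply, Finsupp.sum, Finset.sum_eq_single f] at h1
    · rw [Finset.sum_eq_single 0] at h1
      · have e0 : f ∘ Fin.succAbove 0 = Fin.tail f := by
          funext i; simp [Fin.tail]
        rw [e0] at h1
        simp at h1
        exact hf h1
      · intro i _ hi
        exact absurd (by omega) hi
      · simp
    · intro g hg hgf
      exact absurd (hone g (Finsupp.mem_support_iff.mp hg)) hgf
    · intro hf'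
      exact absurd (Finsupp.mem_support_iff.mpr hf) hf'
  | succ k ih =>
    intro U hU z hz hzW
    have h1W : ∀ f, z f ≠ 0 → f 1 ≤ W := by
      intro f hf
      by_contra hfW
      have dims : ∀ g, z g ≠ 0 → finrank K (g 0) = finrank K U + 1 ∧ g 0 ≤ g 1 ∧
          finrank K (g 1) = finrank K U + 2 := by
        intro g hg
        obtain ⟨a, b, c, d, _⟩ := (mem_St_succ.mp hz).1 g hg
        refine ⟨b, c, ?_⟩
        have : finrank K (g 1) = finrank K (g 0) + 1 := d
        omega
      have key : ∀ g, z g ≠ 0 → g 1 = f 1 → g 0 = W ⊓ f 1 := by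
        intro g hg hgf
        obtain ⟨b, c, d⟩ := dims g hg
        apply Submodule.eq_of_le_of_finrank_eq (le_inf (hzW g hg) (hgf ▸ c))
        have e1 : W ⊓ f 1 < f 1 := by
          apply lt_of_le_of_ne inf_le_right
          intro h
          exact hfW (inf_eq_right.mp h)
        have e2 := Submodule.finrank_lt_finrank_of_lt e1
        have e3 : finrank K (g 0) ≤ finrank K ↥(W ⊓ f 1) :=
          Submodule.finrank_mono (le_inf (hzW g hg) (hgf ▸ c))
        rw [hgf] at d
        omega
      have h0 := (mem_St_succ.mp hz).2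
      have h1 := DFunLike.congr_fun h0 (Fin.tail f)
      rw [bdry_apply, Finsupp.sum_apply, Finsupp.sum, Finset.sum_eq_single f] at h1
      · rw [Finsupp.finsetSum_apply, Finset.sum_eq_single 0] at h1
        · have e0 : f ∘ Fin.succAbove 0 = Fin.tail f := by
            funext i; simp [Fin.tail]
          rw [e0] at h1
          simp at h1
          exact hf h1
        · intro i _ hi
          rw [Finsupp.single_apply, if_neg]
          intro h
          have h2 := congrFun h 0
          simp only [Function.comp_apply] at h2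
          rw [Fin.succAbove_ne_zero_zero hi] at h2
          have h3 : f 0 = f 1 := h2
          exact hfW (h3 ▸ hzW f hf)
        · simp
      · intro g hg hgf
        have hg' := Finsupp.mem_support_iff.mp hg
        rw [Finsupp.finsetSum_apply]
        refine Finset.sum_eq_zero fun i _ => ?_
        rw [Finsupp.single_apply, if_neg]
        intro h
        by_cases hi : i = 0
        · subst hi
          have h2 := congrFun h 0
          have h3 : g 1 = f 1 := h2
          apply hgf
          rw [← fcons_self_tail g, ← fcons_self_tail f]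
          have e0 : g ∘ Fin.succAbove 0 = Fin.tail g := by
            funext i; simp [Fin.tail]
          rw [← h, e0, key g hg' h3, key f hf rfl]
        · have h2 := congrFun h 0
          simp only [Function.comp_apply] at h2
          rw [Fin.succAbove_ne_zero_zero hi] at h2
          have h3 : g 0 = f 1 := h2
          exact hfW (h3 ▸ hzW g hg')
      · intro hf'
        exact absurd (Finsupp.mem_support_iff.mpr hf) hf'
    ext f
    by_contra hf
    have h2 : res (f 0) z = 0 := by
      apply ih (f 0) _ (res (f 0) z) (res_mem_St _ hz)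
      · intro g hg
        exact h1W _ hg
      · have := ((mem_St_succ.mp hz).1 f hf).2.1
        omega
    have h3 := DFunLike.congr_fun h2 (Fin.tail f)
    rw [res_apply, fcons_self_tail] at h3
    exact hf h3

end Pool.Agent.H4
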