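import Pool.Agent.H4.StA

set_option autoImplicit false

/-! Lattices, symbols and relations. -/

namespace Pool.Agent.H4

open Finsupp Module

/-- Euclidean data with the three extra facts about open discs that the argument needs. -/
structure Euc (O : Type*) [CommRing O] where
  N : O → ℕ
  N_zero : ∀ x, N x = 0 ↔ x = 0
  N_unit : ∀ (u : Oˣ) (x : O), N (u * x) = N x
  euclid : ∀ z r : O, r ≠ 0 → ∃ c, N (z + c * r) < N r
  same : ∀ z r : O, r ≠ 0 → N z = N r → ∃ u : Oˣ, N (z - u * r) < N r
  conn : ∀ r z z' : O, N z < N r → N z' < N r → (∃ c, z' = z + c * r) →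
    Relation.ReflTransGen (fun a b => ∃ u : Oˣ, b = a - u * r ∧ N b < N r) z z'
  two : ∀ r a b : O, r ≠ 0 → ∃ c d : O, N (a + c * r) < N r ∧ N (b + d * r) < N r ∧
    N ((a + c * r) + (b + d * r)) < N r

variable {O K V M : Type*} [CommRing O] [IsDomain O] [Field K] [Algebra O K]
  [AddCommGroup V] [Module K V] [AddCommGroup M] [Module O M]

/-- `M` is an `O`-lattice in `V` through `ι`. -/
structure LatHyp (O K V M : Type*) [CommRing O] [IsDomain O] [Field K] [Algebra O K]
    [AddCommGroup V] [Module K V] [AddCommGroup M] [Module O M] (ι : M →+ V) : Prop where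
  smul : ∀ (c : O) (m : M), ι (c • m) = algebraMap O K c • ι m
  inj : Function.Injective ι
  injA : Function.Injective (algebraMap O K)
  dense : ∀ x : V, ∃ c : O, c ≠ 0 ∧ ∃ m : M, ι m = algebraMap O K c • x
  func : ∀ U : Submodule K V, U ≠ ⊤ → ∃ (lK : V →ₗ[K] K) (l : M →ₗ[O] O),
    (∀ m, lK (ι m) = algebraMap O K (l m)) ∧ lK ≠ 0 ∧ U ≤ LinearMap.ker lK

variable {ι : M →+ V}

/-- the lattice points of a subspace -/
def UO (H : LatHyp O K V M ι) (U : Submodule K V) : Submodule O M where
  carrier := {m | ι m ∈ U}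
  zero_mem' := by simp
  add_mem' := by
    intro a b ha hb
    simp only [Set.mem_ofPred_eq, map_add] at *
    exact U.add_mem ha hb
  smul_mem' := by
    intro c m hm
    simp only [Set.mem_ofPred_eq] at *
    rw [H.smul]
    exact U.smul_mem _ hm

variable (H : LatHyp O K V M ι)

theorem mem_UO {U : Submodule K V} {m : M} : m ∈ UO H U ↔ ι m ∈ U := Iff.rfl

theorem UO_mono {U U' : Submodule K V} (h : U ≤ U') : UO H U ≤ UO H U' := fun _ hm => h hm

/-- `b` is a basis of the lattice modulo `U`. -/
def IsB (U : Submodule K V) {m : ℕ} (b : Fin m → M) : Prop :=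
  Submodule.span O (Set.range b) ⊔ UO H U = ⊤

variable {H}

theorem IsB.of_mem {U : Submodule K V} {m m' : ℕ} {b : Fin m → M} {b' : Fin m' → M} (hb : IsB H U b)
    (h : ∀ i, b i ∈ Submodule.span O (Set.range b') ⊔ UO H U) : IsB H U b' := by
  unfold IsB at *
  rw [eq_top_iff, ← hb]
  apply sup_le _ le_sup_right
  rw [Submodule.span_le]
  rintro _ ⟨i, rfl⟩
  exact h i

theorem IsB.perm {U : Submodule K V} {m : ℕ} {b : Fin m → M} (hb : IsB H U b)
    (σ : Equiv.Perm (Fin m)) : IsB H U (b ∘ σ) := by
  unfold IsB at *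
  rw [Set.range_comp, σ.surjective.range_eq, Set.image_univ]
  exact hb

theorem IsB.equiv {U : Submodule K V} {m : ℕ} {b b' : Fin m → M} (hb : IsB H U b)
    (h : ∀ i, ∃ u : Oˣ, b' i - u • b i ∈ UO H U) : IsB H U b' := by
  apply hb.of_mem
  intro i
  obtain ⟨u, hu⟩ := h i
  have h1 : b i = u⁻¹ • b' i - u⁻¹ • (b' i - u • b i) := by
    rw [smul_sub, inv_smul_smul]; abel
  rw [h1]
  apply Submodule.sub_mem
  · apply Submodule.mem_sup_left
    exact Submodule.smul_mem _ (u⁻¹ : Oˣ).val (Submodule.subset_span ⟨i, rfl⟩)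
  · apply Submodule.mem_sup_right
    exact Submodule.smul_mem _ (u⁻¹ : Oˣ).val hu

theorem IsB.add {U : Submodule K V} {m : ℕ} {b : Fin m → M} (hb : IsB H U b)
    {i j : Fin m} (hij : i ≠ j) : IsB H U (Function.update b i (b i + b j)) := by
  apply hb.of_mem
  intro l
  apply Submodule.mem_sup_left
  have hj : b j ∈ Submodule.span O (Set.range (Function.update b i (b i + b j))) :=
    Submodule.subset_span ⟨j, by simp [hij.symm]⟩
  by_cases hl : l = i
  · subst hl
    have hi : b l + b j ∈ Submodule.span O (Set.range (Function.update b l (b l + b j))) :=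
      Submodule.subset_span ⟨l, by simp⟩
    have := Submodule.sub_mem _ hi hj
    simpa using this
  · exact Submodule.subset_span ⟨l, by simp [hl]⟩

theorem IsB.add2 {U : Submodule K V} {m : ℕ} {b : Fin m → M} (hb : IsB H U b)
    {i j : Fin m} (hij : i ≠ j) :
    IsB H U (Function.update (Function.update b i (b i + b j)) j (b i)) := by
  apply hb.of_mem
  intro l
  apply Submodule.mem_sup_left
  have hj : b i ∈ Submodule.span O (Set.range
      (Function.update (Function.update b i (b i + b j)) j (b i))) :=
    Submodule.subset_span ⟨j, by simp⟩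
  by_cases hl : l = j
  · subst hl
    have hi : b i + b l ∈ Submodule.span O (Set.range
        (Function.update (Function.update b i (b i + b l)) l (b i))) :=
      Submodule.subset_span ⟨i, by simp [hij]⟩
    have := Submodule.sub_mem _ hi hj
    simpa using this
  · by_cases hl' : l = i
    · subst hl'; exact hj
    · exact Submodule.subset_span ⟨l, by simp [hl, hl']⟩

variable (H)

/-- The free abelian group on tuples. -/
abbrev Sy (M : Type*) (m : ℕ) := (Fin m → M) →₀ ℤ

/-- Generators of the relations among symbols. -/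
inductive RelGen (U : Submodule K V) {m : ℕ} : Sy M m → Prop
  | equiv (b b' : Fin m → M) (hb : IsB H U b) (h : ∀ i, ∃ u : Oˣ, b' i - u • b i ∈ UO H U) :
      RelGen U (Finsupp.single b' 1 - Finsupp.single b 1)
  | perm (b : Fin m → M) (hb : IsB H U b) (σ : Equiv.Perm (Fin m)) :
      RelGen U (Finsupp.single (b ∘ σ) 1 - Finsupp.single b ((Equiv.Perm.sign σ : ℤˣ) : ℤ))
  | three (b : Fin m → M) (hb : IsB H U b) (i j : Fin m) (hij : i ≠ j) :
      RelGen U (Finsupp.single b 1 - Finsupp.single (Function.update b i (b i + b j)) 1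
        + Finsupp.single (Function.update (Function.update b i (b i + b j)) j (b i)) 1)

/-- The relations among symbols. -/
noncomputable def Rel (U : Submodule K V) (m : ℕ) : AddSubgroup (Sy M m) :=
  AddSubgroup.closure {x | RelGen H U x}

/-- The apartment map on symbols. -/
noncomputable def aptL (ι : M →+ V) (U : Submodule K V) (k : ℕ) : Sy M (k + 1) →ₗ[ℤ] Ch K V k :=
  Finsupp.linearCombination ℤ (fun b => apt U (ι ∘ b))

theorem aptL_single (U : Submodule K V) {k : ℕ} (b : Fin (k + 1) → M) (c : ℤ) :
    aptL ι U k (Finsupp.single b c) = c • apt U (ι ∘ b) := by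
  unfold aptL
  rw [Finsupp.linearCombination_single]

variable {H}

theorem line_eq_of_equiv {U : Submodule K V} {v v' : M} {u : Oˣ} (h : v' - u • v ∈ UO H U) :
    U ⊔ Submodule.span K {ι v'} = U ⊔ Submodule.span K {ι v} := by
  have hu : algebraMap O K (u : O) ≠ 0 := by
    intro h0
    rw [← map_zero (algebraMap O K)] at h0
    exact u.ne_zero (H.injA h0)
  have h1 : ι v' - algebraMap O K (u : O) • ι v ∈ U := by
    have h2 : ι (v' - u • v) ∈ U := h
    rw [map_sub] at h2
    have h3 : ι (u • v) = algebraMap O K (u : O) • ι v := H.smul _ _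
    rwa [h3] at h2
  apply le_antisymm
  · apply sup_le le_sup_left
    rw [Submodule.span_singleton_le_iff_mem]
    have : ι v' = (ι v' - algebraMap O K (u : O) • ι v) + algebraMap O K (u : O) • ι v := by abel
    rw [this]
    exact Submodule.add_mem _ (Submodule.mem_sup_left h1)
      (Submodule.smul_mem _ _ (Submodule.mem_sup_right (Submodule.mem_span_singleton_self _)))
  · apply sup_le le_sup_left
    rw [Submodule.span_singleton_le_iff_mem]
    have : ι v = (algebraMap O K (u : O))⁻¹ • (ι v' - (ι v' - algebraMap O K (u : O) • ι v)) := by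
      rw [sub_sub_cancel, smul_smul, inv_mul_cancel₀ hu, one_smul]
    rw [this]
    apply Submodule.smul_mem
    exact Submodule.sub_mem _ (Submodule.mem_sup_right (Submodule.mem_span_singleton_self _))
      (Submodule.mem_sup_left h1)

theorem aptL_rel {U : Submodule K V} {k : ℕ} {x : Sy M (k + 1)} (hx : x ∈ Rel H U (k + 1)) :
    aptL ι U k x = 0 := by
  unfold Rel at hx
  induction hx using AddSubgroup.closure_induction with
  | zero => exact map_zero _
  | add x y _ _ hx hy => rw [map_add, hx, hy, add_zero]
  | neg x _ hx => rw [map_neg, hx, neg_zero]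
  | mem x hx =>
    obtain ⟨b, b', hb, h⟩ | ⟨b, hb, σ⟩ | ⟨b, hb, i, j, hij⟩ := hx
    · rw [map_sub, aptL_single, aptL_single, one_smul, one_smul, sub_eq_zero]
      apply apt_congr
      intro i
      obtain ⟨u, hu⟩ := h i
      exact line_eq_of_equiv hu
    · rw [map_sub, aptL_single, aptL_single, one_smul, ← Function.comp_assoc, apt_perm, sub_self]
    · rw [map_add, map_sub, aptL_single, aptL_single, aptL_single, one_smul, one_smul, one_smul]
      have h1 : ι ∘ Function.update b i (b i + b j)
          = Function.update (ι ∘ b) i ((ι ∘ b) i + (ι ∘ b) j) := by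
        rw [Function.comp_update]; simp
      have h2 : ι ∘ Function.update (Function.update b i (b i + b j)) j (b i)
          = Function.update (Function.update (ι ∘ b) i ((ι ∘ b) i + (ι ∘ b) j)) j ((ι ∘ b) i) := by
        rw [Function.comp_update, h1]; simp
      rw [h1, h2]
      exact apt_three U (ι ∘ b) i j hij

theorem map_span_le (U : Submodule K V) {m : ℕ} (b : Fin m → M) {x : M}
    (hx : x ∈ Submodule.span O (Set.range b) ⊔ UO H U) :
    ι x ∈ U ⊔ Submodule.span K (Set.range (ι ∘ b)) := by
  have h : Submodule.span O (Set.range b) ⊔ UO H U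
      ≤ UO H (U ⊔ Submodule.span K (Set.range (ι ∘ b))) := by
    apply sup_le
    · rw [Submodule.span_le]
      rintro _ ⟨i, rfl⟩
      exact Submodule.mem_sup_right (Submodule.subset_span ⟨i, rfl⟩)
    · exact UO_mono H le_sup_left
  exact h hx

theorem IsB.span_top {U : Submodule K V} {m : ℕ} {b : Fin m → M} (hb : IsB H U b) :
    U ⊔ Submodule.span K (Set.range (ι ∘ b)) = ⊤ := by
  rw [eq_top_iff]
  intro x _
  obtain ⟨c, hc, y, hy⟩ := H.dense x
  have hc' : algebraMap O K c ≠ 0 := by
    intro h0
    rw [← map_zero (algebraMap O K)] at h0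
    exact hc (H.injA h0)
  have h1 : ι y ∈ U ⊔ Submodule.span K (Set.range (ι ∘ b)) := by
    apply map_span_le (H := H)
    rw [show Submodule.span O (Set.range b) ⊔ UO H U = ⊤ from hb]
    trivial
  rw [hy] at h1
  have h2 := Submodule.smul_mem _ (algebraMap O K c)⁻¹ h1
  rwa [smul_smul, inv_mul_cancel₀ hc', one_smul] at h2

theorem finrank_sup_singleton_le [FiniteDimensional K V] (U : Submodule K V) (v : V) :
    finrank K ↥(U ⊔ Submodule.span K {v}) ≤ finrank K U + 1 := by
  refine le_trans (Submodule.finrank_add_le_finrank_add_finrank _ _) ?_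
  have := finrank_span_le_card (R := K) ({v} : Set V)
  simp only [Set.toFinset_singleton, Finset.card_singleton] at this
  omega

theorem finrank_sup_range_le [FiniteDimensional K V] (U : Submodule K V) {m : ℕ} (b : Fin m → V) :
    finrank K ↥(U ⊔ Submodule.span K (Set.range b)) ≤ finrank K U + m := by
  refine le_trans (Submodule.finrank_add_le_finrank_add_finrank _ _) ?_
  have := finrank_range_le_card (R := K) b
  simp only [Set.finrank, Fintype.card_fin] at this
  omega

/-- the family is linearly independent in the quotient -/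
theorem IsB.linInd [FiniteDimensional K V] {U : Submodule K V} {m : ℕ} {b : Fin m → M}
    (hb : IsB H U b) (hU : finrank K U + m = finrank K V) :
    LinearIndependent K (fun i => U.mkQ (ι (b i))) := by
  apply linearIndependent_of_top_le_span_of_card_eq_finrank
  · have h1 := hb.span_top
    have h2 : Submodule.map U.mkQ (U ⊔ Submodule.span K (Set.range (ι ∘ b))) = ⊤ := by
      rw [h1, Submodule.map_top, Submodule.range_mkQ]
    rw [Submodule.map_sup, Submodule.map_span, ← Set.range_comp] at h2
    have h3 : Submodule.map U.mkQ U = ⊥ := by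
      rw [eq_bot_iff]
      rintro _ ⟨x, hx, rfl⟩
      simpa using hx
    rw [h3, bot_sup_eq] at h2
    rw [← h2]
    exact le_rfl
  · rw [Fintype.card_fin]
    have := Submodule.finrank_quotient_add_finrank U
    omega

theorem IsB.not_mem [FiniteDimensional K V] {U : Submodule K V} {m : ℕ} {b : Fin m → M}
    (hb : IsB H U b) (hU : finrank K U + m = finrank K V) (i : Fin m) : ι (b i) ∉ U := by
  intro h
  apply (hb.linInd hU).ne_zero i
  simpa using h

/-- primitive vectors modulo `U` -/
def Prim (H : LatHyp O K V M ι) (U : Submodule K V) (v : M) : Prop :=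
  ι v ∉ U ∧ ∀ x : M, ι x ∈ U ⊔ Submodule.span K {ι v} → ∃ c : O, x - c • v ∈ UO H U

theorem IsB.prim [FiniteDimensional K V] {U : Submodule K V} {m : ℕ} {b : Fin m → M}
    (hb : IsB H U b) (hU : finrank K U + m = finrank K V) (i : Fin m) : Prim H U (b i) := by
  refine ⟨hb.not_mem hU i, ?_⟩
  intro x hx
  have hx' : x ∈ Submodule.span O (Set.range b) ⊔ UO H U := by
    rw [show Submodule.span O (Set.range b) ⊔ UO H U = ⊤ from hb]
    trivial
  obtain ⟨y, hy, z, hz, rfl⟩ := Submodule.mem_sup.mp hx'
  obtain ⟨c, rfl⟩ := (Submodule.mem_span_range_iff_exists_fun O).mp hy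
  have hl := hb.linInd hU
  obtain ⟨p, hp, q, hq, hpq⟩ := Submodule.mem_sup.mp hx
  obtain ⟨a, rfl⟩ := Submodule.mem_span_singleton.mp hq
  have h1 : ∑ j, algebraMap O K (c j) • U.mkQ (ι (b j)) = a • U.mkQ (ι (b i)) := by
    have h2 := congrArg U.mkQ hpq
    rw [map_add, map_add ι, map_add, map_sum] at h2
    have h3 : U.mkQ p = 0 := by simpa using hp
    have hz' : ι z ∈ U := hz
    have h4 : U.mkQ (ι z) = 0 := by simpa using hz'
    rw [h3, h4, zero_add, add_zero, map_smul] at h2
    rw [h2, map_sum]
    refine Finset.sum_congr rfl fun j _ => ?_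
    rw [H.smul, map_smul]
  have h5 : ∑ j, (algebraMap O K (c j) - (if j = i then a else 0)) • U.mkQ (ι (b j)) = 0 := by
    simp only [sub_smul, Finset.sum_sub_distrib, h1, ite_smul, zero_smul, Finset.sum_ite_eq',
      Finset.mem_univ, if_true, sub_self]
  have h6 := Fintype.linearIndependent_iff.mp hl _ h5
  have h7 : ∀ j, j ≠ i → c j = 0 := by
    intro j hj
    have := h6 j
    rw [if_neg hj, sub_zero] at this
    rw [← map_zero (algebraMap O K)] at this
    exact H.injA this
  refine ⟨c i, ?_⟩
  have h8 : ∑ j, c j • b j = c i • b i := by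
    apply Finset.sum_eq_single i
    · intro j _ hj; rw [h7 j hj, zero_smul]
    · simp
  rw [h8, add_sub_cancel_left]
  exact hz

theorem Prim.unique {U : Submodule K V} {v v' : M} (hv : Prim H U v) (hv' : Prim H U v')
    (h : U ⊔ Submodule.span K {ι v} = U ⊔ Submodule.span K {ι v'}) :
    ∃ u : Oˣ, v' - u • v ∈ UO H U := by
  obtain ⟨c, hc⟩ := hv.2 v' (by
    rw [h]; exact Submodule.mem_sup_right (Submodule.mem_span_singleton_self _))
  obtain ⟨d, hd⟩ := hv'.2 v (by
    rw [← h]; exact Submodule.mem_sup_right (Submodule.mem_span_singleton_self _))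
  have h1 : (1 - d * c) • v ∈ UO H U := by
    have : (1 - d * c) • v = (v - d • v') + d • (v' - c • v) := by
      rw [sub_smul, one_smul, mul_smul, smul_sub]; abel
    rw [this]
    exact Submodule.add_mem _ hd (Submodule.smul_mem _ _ hc)
  have h2 : 1 - d * c = 0 := by
    by_contra hne
    have h3 : algebraMap O K (1 - d * c) ≠ 0 := by
      intro h0
      rw [← map_zero (algebraMap O K)] at h0
      exact hne (H.injA h0)
    apply hv.1
    have h4 : ι ((1 - d * c) • v) ∈ U := h1
    rw [H.smul] at h4
    have h5 := U.smul_mem (algebraMap O K (1 - d * c))⁻¹ h4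
    rwa [smul_smul, inv_mul_cancel₀ h3, one_smul] at h5
  have h3 : c * d = 1 := by
    rw [mul_comm]; exact (sub_eq_zero.mp h2).symm
  refine ⟨Units.mkOfMulEqOne c d h3, ?_⟩
  exact hc

theorem finrank_line [FiniteDimensional K V] {U : Submodule K V} {v : V} (hv : v ∉ U) :
    finrank K ↥(U ⊔ Submodule.span K {v}) = finrank K U + 1 := by
  apply le_antisymm (finrank_sup_singleton_le U v)
  have : U < U ⊔ Submodule.span K {v} := by
    apply lt_of_le_of_ne le_sup_left
    intro h
    apply hv
    rw [h]
    exact Submodule.mem_sup_right (Submodule.mem_span_singleton_self _)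
  exact Submodule.finrank_lt_finrank_of_lt this

theorem IsB.tail {U : Submodule K V} {m : ℕ} {v : M} {w : Fin m → M}
    (hb : IsB H U (Fin.cons v w : Fin (m + 1) → M)) :
    IsB H (U ⊔ Submodule.span K {ι v}) w := by
  unfold IsB at *
  rw [eq_top_iff, ← hb]
  apply sup_le
  · rw [Submodule.span_le]
    rintro _ ⟨i, rfl⟩
    refine Fin.cases ?_ (fun j => ?_) i
    · apply Submodule.mem_sup_right
      simp only [Fin.cons_zero]
      exact Submodule.mem_sup_right (Submodule.mem_span_singleton_self _)
    · apply Submodule.mem_sup_left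
      exact Submodule.subset_span ⟨j, by simp⟩
  · exact le_sup_of_le_right (UO_mono H le_sup_left)

theorem Prim.cons {U : Submodule K V} {m : ℕ} {v : M} {w : Fin m → M} (hv : Prim H U v)
    (hw : IsB H (U ⊔ Submodule.span K {ι v}) w) :
    IsB H U (Fin.cons v w : Fin (m + 1) → M) := by
  unfold IsB at *
  rw [eq_top_iff, ← hw]
  apply sup_le
  · apply le_sup_of_le_left
    apply Submodule.span_mono
    rintro _ ⟨i, rfl⟩
    exact ⟨i.succ, by simp⟩
  · intro x hx
    obtain ⟨c, hc⟩ := hv.2 x hx
    have : x = c • v + (x - c • v) := by abel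
    rw [this]
    apply Submodule.add_mem
    · apply Submodule.mem_sup_left
      apply Submodule.smul_mem
      exact Submodule.subset_span ⟨0, by simp⟩
    · exact Submodule.mem_sup_right hc

/-- apartments of bases are in the Steinberg group -/
theorem full_flag_of_isB [FiniteDimensional K V] :
    ∀ (k : ℕ) (U : Submodule K V) (b : Fin (k + 1) → M), finrank K U + (k + 1) = finrank K V →
      IsB H U b → Full k U (flag U (ι ∘ b)) := by
  intro k
  induction k with
  | zero => intro U b _ _; trivial
  | succ k ih =>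
    intro U b hU hb
    have e : b = (Fin.cons (b 0) (Fin.tail b) : Fin (k + 2) → M) := (Fin.cons_self_tail b).symm
    rw [e] at hb ⊢
    have e2 : ι ∘ (Fin.cons (b 0) (Fin.tail b) : Fin (k + 2) → M)
        = (Fin.cons (α := fun _ => V) (ι (b 0)) (ι ∘ Fin.tail b)) := by
      funext i
      refine Fin.cases ?_ (fun j => ?_) i
      · simp
      · simp only [Function.comp_apply, Fin.cons_succ]
    rw [e2, flag_cons]
    have h0 : ι (b 0) ∉ U := by
      have := hb.not_mem hU 0
      simpa using this
    have h1 := finrank_line h0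
    refine ⟨?_, ?_, ?_⟩
    · rw [fcons_zero]; exact le_sup_left
    · rw [fcons_zero]; exact h1
    · rw [fcons_zero]
      have e3 : Fin.tail (fcons (U ⊔ Submodule.span K {ι (b 0)})
          (flag (U ⊔ Submodule.span K {ι (b 0)}) (ι ∘ Fin.tail b)))
          = flag (U ⊔ Submodule.span K {ι (b 0)}) (ι ∘ Fin.tail b) := by
        funext i; simp [Fin.tail]
      rw [e3]
      apply ih
      · omega
      · exact hb.tail

theorem apt_mem_St [FiniteDimensional K V] {k : ℕ} {U : Submodule K V} {b : Fin (k + 1) → M}
    (hU : finrank K U + (k + 1) = finrank K V) (hb : IsB H U b) :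
    apt U (ι ∘ b) ∈ St k U := by
  refine ⟨?_, ?_⟩
  · unfold apt
    apply AddSubgroup.sum_mem
    intro σ _
    rw [mem_fullGrp]
    intro f hf
    rw [Finsupp.single_apply] at hf
    split_ifs at hf with h
    · rw [← h]
      exact full_flag_of_isB k U (b ∘ σ) hU (hb.perm σ)
    · exact absurd rfl hf
  · cases k with
    | zero => exact AddSubgroup.mem_top _
    | succ k => exact bdry_apt U (ι ∘ b)

end Pool.Agent.H4
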