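import Pool.Agent.H4.StB

set_option autoImplicit false

/-! The reduction steps for symbols. -/

namespace Pool.Agent.H4

open Finsupp Module

variable {O K V M : Type*} [CommRing O] [IsDomain O] [Field K] [Algebra O K]
  [AddCommGroup V] [Module K V] [AddCommGroup M] [Module O M]
  {ι : M →+ V} {H : LatHyp O K V M ι}

theorem rel_equiv {U : Submodule K V} {m : ℕ} {b b' : Fin m → M} (hb : IsB H U b)
    (h : ∀ i, ∃ u : Oˣ, b' i - u • b i ∈ UO H U) :
    (Finsupp.single b' 1 - Finsupp.single b 1 : Sy M m) ∈ Rel H U m :=
  AddSubgroup.subset_closure (RelGen.equiv b b' hb h)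

theorem rel_perm {U : Submodule K V} {m : ℕ} {b : Fin m → M} (hb : IsB H U b)
    (σ : Equiv.Perm (Fin m)) :
    (Finsupp.single (b ∘ σ) 1 - Finsupp.single b ((Equiv.Perm.sign σ : ℤˣ) : ℤ) : Sy M m)
      ∈ Rel H U m :=
  AddSubgroup.subset_closure (RelGen.perm b hb σ)

theorem rel_three {U : Submodule K V} {m : ℕ} {b : Fin m → M} (hb : IsB H U b)
    {i j : Fin m} (hij : i ≠ j) :
    (Finsupp.single b 1 - Finsupp.single (Function.update b i (b i + b j)) 1
      + Finsupp.single (Function.update (Function.update b i (b i + b j)) j (b i)) 1 : Sy M m)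
      ∈ Rel H U m :=
  AddSubgroup.subset_closure (RelGen.three b hb i j hij)

theorem IsB.step1 {U : Submodule K V} {m : ℕ} {b : Fin m → M} (hb : IsB H U b)
    {i j : Fin m} (hij : i ≠ j) (c : O) : IsB H U (Function.update b j (b j - c • b i)) := by
  apply hb.of_mem
  intro l
  apply Submodule.mem_sup_left
  have hi : b i ∈ Submodule.span O (Set.range (Function.update b j (b j - c • b i))) :=
    Submodule.subset_span ⟨i, by simp [hij]⟩
  by_cases hl : l = j
  · subst hl
    have hj : b l - c • b i ∈ Submodule.span O (Set.range (Function.update b l (b l - c • b i))) :=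
      Submodule.subset_span ⟨l, by simp⟩
    have := Submodule.add_mem _ hj (Submodule.smul_mem _ c hi)
    simpa using this
  · exact Submodule.subset_span ⟨l, by simp [hl]⟩

theorem IsB.step2 {U : Submodule K V} {m : ℕ} {b : Fin m → M} (hb : IsB H U b)
    {i j : Fin m} (hij : i ≠ j) (u : Oˣ) :
    IsB H U (Function.update (Function.update b j (b j - u • b i)) i (b j)) := by
  apply hb.of_mem
  intro l
  apply Submodule.mem_sup_left
  have hi : b j ∈ Submodule.span O (Set.range
      (Function.update (Function.update b j (b j - u • b i)) i (b j))) :=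
    Submodule.subset_span ⟨i, by simp⟩
  have hj : b j - u • b i ∈ Submodule.span O (Set.range
      (Function.update (Function.update b j (b j - u • b i)) i (b j))) :=
    Submodule.subset_span ⟨j, by simp [hij.symm]⟩
  by_cases hl : l = j
  · subst hl; exact hi
  · by_cases hl' : l = i
    · subst hl'
      have h1 : (u⁻¹ : Oˣ).val • (b j - (b j - u • b l)) = b l := by
        rw [sub_sub_cancel]
        exact inv_smul_smul u (b l)
      have h2 := Submodule.smul_mem _ (u⁻¹ : Oˣ).val (Submodule.sub_mem _ hi hj)
      rwa [h1] at h2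
    · exact Submodule.subset_span ⟨l, by simp [hl, hl']⟩

theorem rel_step {U : Submodule K V} {m : ℕ} {b : Fin m → M} (hb : IsB H U b)
    {i j : Fin m} (hij : i ≠ j) (u : Oˣ) :
    (Finsupp.single b 1 - Finsupp.single (Function.update b j (b j - u • b i)) 1
      + Finsupp.single (Function.update (Function.update b j (b j - u • b i)) i (b j)) 1 : Sy M m)
      ∈ Rel H U m := by
  set w' := b j - u • b i with hw'
  set c1 := Function.update b j w' with hc1
  set c2 := Function.update c1 i (b j) with hc2
  have hb1 : IsB H U c1 := hb.step1 hij (u : O)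
  set bs := Function.update c1 i (u • b i) with hbs
  have e1 : ∀ l, ∃ u' : Oˣ, bs l - u' • c1 l ∈ UO H U := by
    intro l
    by_cases hl : l = i
    · subst hl
      refine ⟨u, ?_⟩
      have : bs l - u • c1 l = 0 := by simp [hbs, hc1, hij]
      rw [this]; exact Submodule.zero_mem _
    · refine ⟨1, ?_⟩
      have : bs l - (1 : Oˣ) • c1 l = 0 := by simp [hbs, hl]
      rw [this]; exact Submodule.zero_mem _
  have hbsB : IsB H U bs := hb1.equiv e1
  have r1 := rel_equiv hb1 e1
  have r2 := rel_three hbsB hij
  have bsi : bs i = u • b i := by simp [hbs]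
  have bsj : bs j = w' := by simp [hbs, hc1, hij.symm]
  have e2 : Function.update bs i (bs i + bs j) = c2 := by
    rw [bsi, bsj, hw', add_sub_cancel, hbs, hc2, Function.update_idem]
  rw [e2, bsi] at r2
  set c3 := Function.update c2 j (u • b i) with hc3
  have e3 : ∀ l, ∃ u' : Oˣ, c3 l - u' • (b ∘ Equiv.swap i j) l ∈ UO H U := by
    intro l
    by_cases hl : l = j
    · subst hl
      refine ⟨u, ?_⟩
      have : c3 l - u • (b ∘ Equiv.swap i l) l = 0 := by simp [hc3]
      rw [this]; exact Submodule.zero_mem _
    · refine ⟨1, ?_⟩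
      have : c3 l - (1 : Oˣ) • (b ∘ Equiv.swap i j) l = 0 := by
        by_cases hl' : l = i
        · subst hl'
          simp [hc3, hl, hc2]
        · simp [hc3, hl, hc2, hl', hc1, Equiv.swap_apply_of_ne_of_ne hl' hl]
      rw [this]; exact Submodule.zero_mem _
  have r3 := rel_equiv (hb.perm (Equiv.swap i j)) e3
  have r4 := rel_perm hb (Equiv.swap i j)
  rw [Equiv.Perm.sign_swap hij] at r4
  have r5 := AddSubgroup.sub_mem _ (AddSubgroup.add_mem _ r1 (AddSubgroup.add_mem _ r3 r4)) r2
  have key : (Finsupp.single b 1 - Finsupp.single c1 1 + Finsupp.single c2 1 : Sy M m)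
      = (Finsupp.single bs 1 - Finsupp.single c1 1
        + (Finsupp.single c3 1 - Finsupp.single (b ∘ ⇑(Equiv.swap i j)) 1
          + (Finsupp.single (b ∘ ⇑(Equiv.swap i j)) 1
            - Finsupp.single b (((-1 : ℤˣ) : ℤˣ) : ℤ)))
        - (Finsupp.single bs 1 - Finsupp.single c2 1 + Finsupp.single c3 1)) := by
    rw [show (((-1 : ℤˣ) : ℤˣ) : ℤ) = -1 by simp, Finsupp.single_neg]
    abel
  rw [key]
  exact r5

variable (H)

/-- Symbols all of whose heights are less than `R`. -/
noncomputable def Sm (E : Euc O) (l : M →ₗ[O] O) (U : Submodule K V) (R m : ℕ) :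
    AddSubgroup (Sy M m) :=
  AddSubgroup.closure {x | ∃ b : Fin m → M, IsB H U b ∧ (∀ i, E.N (l (b i)) < R) ∧
    x = Finsupp.single b 1}

/-- Symbols with a unique vector of maximal height `R`, in the first place. -/
noncomputable def Tp (E : Euc O) (l : M →ₗ[O] O) (U : Submodule K V) (R m : ℕ) :
    AddSubgroup (Sy M (m + 1)) :=
  AddSubgroup.closure {x | ∃ (v : M) (w : Fin m → M), IsB H U (Fin.cons v w : Fin (m + 1) → M) ∧
    E.N (l v) = R ∧ (∀ i, E.N (l (w i)) < R) ∧
    x = Finsupp.single (Fin.cons v w : Fin (m + 1) → M) 1}

/-- All symbols of bases. -/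
noncomputable def BS (U : Submodule K V) (m : ℕ) : AddSubgroup (Sy M m) :=
  AddSubgroup.closure {x | ∃ b : Fin m → M, IsB H U b ∧ x = Finsupp.single b 1}

variable {H}

theorem Sm_mono {E : Euc O} {l : M →ₗ[O] O} {U : Submodule K V} {R R' m : ℕ} (h : R ≤ R') :
    Sm H E l U R m ≤ Sm H E l U R' m := by
  apply AddSubgroup.closure_mono
  rintro x ⟨b, hb, h1, rfl⟩
  exact ⟨b, hb, fun i => lt_of_lt_of_le (h1 i) h, rfl⟩

omit [IsDomain O] in
theorem E_N_smul (E : Euc O) (l : M →ₗ[O] O) (u : Oˣ) (v : M) : E.N (l (u • v)) = E.N (l v) := by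
  have : l (u • v) = (u : O) * l v := by
    have h := l.map_smul (u : O) v
    exact h
  rw [this, E.N_unit]

/-- change one of the small vectors by a multiple of the big one -/
theorem change_one {E : Euc O} {l : M →ₗ[O] O} {U : Submodule K V} {R m : ℕ}
    {b : Fin (m + 1) → M} (hb : IsB H U b) (h0 : E.N (l (b 0)) = R) (hR : R ≠ 0)
    (hs : ∀ i : Fin m, E.N (l (b i.succ)) < R) (j : Fin m) (c : O)
    (hc : E.N (l (b j.succ + c • b 0)) < R) :
    (Finsupp.single b 1 - Finsupp.single (Function.update b j.succ (b j.succ + c • b 0)) 1 :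
      Sy M (m + 1)) ∈ Rel H U (m + 1) ⊔ Sm H E l U R (m + 1) := by
  have hr : l (b 0) ≠ 0 := by
    intro h
    apply hR
    rw [← h0, (E.N_zero _).mpr h]
  have hj0 : (0 : Fin (m + 1)) ≠ j.succ := (Fin.succ_ne_zero j).symm
  have hz : E.N (l (b j.succ)) < E.N (l (b 0)) := by rw [h0]; exact hs j
  have hz' : E.N (l (b j.succ + c • b 0)) < E.N (l (b 0)) := by rw [h0]; exact hc
  have hconn := E.conn (l (b 0)) (l (b j.succ)) (l (b j.succ + c • b 0)) hz hz'
    ⟨c, by rw [map_add, map_smul, smul_eq_mul]⟩
  have hclaim : ∀ y, Relation.ReflTransGen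
      (fun a b' => ∃ u : Oˣ, b' = a - u * (l (b 0)) ∧ E.N b' < E.N (l (b 0))) (l (b j.succ)) y →
      E.N y < R ∧ ∃ c' : O, y = l (b j.succ) + c' * l (b 0) ∧
        (Finsupp.single b 1 - Finsupp.single (Function.update b j.succ (b j.succ + c' • b 0)) 1 :
          Sy M (m + 1)) ∈ Rel H U (m + 1) ⊔ Sm H E l U R (m + 1) := by
    intro y hy
    induction hy with
    | refl =>
      refine ⟨hs j, 0, by simp, ?_⟩
      simp only [zero_smul, add_zero, Function.update_eq_self, sub_self]
      exact AddSubgroup.zero_mem _
    | tail hab hbc ih =>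
      rename_i y1 y2
      obtain ⟨hy1, c', hc', hmem⟩ := ih
      obtain ⟨u, hu, hN⟩ := hbc
      rw [h0] at hN
      refine ⟨hN, c' - u, ?_, ?_⟩
      · rw [hu, hc']; ring
      · set b1 := Function.update b j.succ (b j.succ + c' • b 0) with hb1
        have hb1B : IsB H U b1 := by
          have := hb.step1 hj0 (-c')
          rw [neg_smul, sub_neg_eq_add] at this
          exact this
        have b1j : b1 j.succ = b j.succ + c' • b 0 := by simp [hb1]
        have b10 : b1 0 = b 0 := by simp [hb1, hj0]
        have hstep := rel_step hb1B hj0 u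
        have e1 : Function.update b1 j.succ (b1 j.succ - u • b1 0)
            = Function.update b j.succ (b j.succ + (c' - (u : O)) • b 0) := by
          rw [b1j, b10, hb1, Function.update_idem]
          congr 1
          rw [sub_smul]
          have : (u : O) • b 0 = u • b 0 := rfl
          rw [this]; abel
        have hsm : (Finsupp.single (Function.update (Function.update b1 j.succ
            (b1 j.succ - u • b1 0)) 0 (b1 j.succ)) 1 : Sy M (m + 1))
            ∈ Sm H E l U R (m + 1) := by
          apply AddSubgroup.subset_closure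
          refine ⟨_, hb1B.step2 hj0 u, ?_, rfl⟩
          intro i
          refine Fin.cases ?_ (fun i => ?_) i
          · rw [Function.update_self, b1j, map_add, map_smul, smul_eq_mul, ← hc']
            exact hy1
          · rw [Function.update_of_ne (Fin.succ_ne_zero i)]
            by_cases hij : i = j
            · subst hij
              rw [Function.update_self, b1j, b10, map_sub, map_add, map_smul, smul_eq_mul, ← hc']
              have : l (u • b 0) = (u : O) * l (b 0) := l.map_smul (u : O) (b 0)
              rw [this, ← hu]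
              exact hN
            · have hne : i.succ ≠ j.succ := fun h => hij (Fin.succ_injective _ h)
              rw [Function.update_of_ne hne, hb1, Function.update_of_ne hne]
              exact hs i
        rw [e1] at hstep hsm
        have h3 : (Finsupp.single b 1 - Finsupp.single (Function.update b j.succ
              (b j.succ + (c' - (u : O)) • b 0)) 1 : Sy M (m + 1))
            = (Finsupp.single b 1 - Finsupp.single b1 1)
              + (Finsupp.single b1 1 - Finsupp.single (Function.update b j.succ
                  (b j.succ + (c' - (u : O)) • b 0)) 1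
                + Finsupp.single (Function.update (Function.update b j.succ
                  (b j.succ + (c' - (u : O)) • b 0)) 0 (b1 j.succ)) 1)
              - Finsupp.single (Function.update (Function.update b j.succ
                  (b j.succ + (c' - (u : O)) • b 0)) 0 (b1 j.succ)) 1 := by abel
        rw [h3]
        exact AddSubgroup.sub_mem _ (AddSubgroup.add_mem _ hmem
          ((le_sup_left : Rel H U (m + 1) ≤ _) hstep)) ((le_sup_right : Sm H E l U R (m + 1) ≤ _) hsm)
  obtain ⟨_, c', hc', hmem⟩ := hclaim _ hconn
  have hcc : c = c' := by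
    rw [map_add, map_smul, smul_eq_mul, add_right_inj] at hc'
    exact mul_right_cancel₀ hr hc'
  rw [hcc]
  exact hmem

theorem apply_of_equiv {l : M →ₗ[O] O} {U : Submodule K V} (hl : ∀ x ∈ UO H U, l x = 0)
    {u : Oˣ} {v v' : M} (h : v' - u • v ∈ UO H U) : l v' = l (u • v) := by
  have h1 := hl _ h
  rw [map_sub, sub_eq_zero] at h1
  exact h1

/-- change all the small vectors at once -/
theorem change_all {E : Euc O} {l : M →ₗ[O] O} {U : Submodule K V}
    (hl : ∀ x ∈ UO H U, l x = 0) {R m : ℕ} {v : M} {w w' : Fin m → M}
    (hb : IsB H U (Fin.cons v w : Fin (m + 1) → M)) (h0 : E.N (l v) = R) (hR : R ≠ 0)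
    (hs : ∀ i, E.N (l (w i)) < R) (hs' : ∀ i, E.N (l (w' i)) < R)
    (hd : ∀ i, ∃ c : O, w' i - w i - c • v ∈ UO H U) :
    (Finsupp.single (Fin.cons v w : Fin (m + 1) → M) 1
      - Finsupp.single (Fin.cons v w' : Fin (m + 1) → M) 1 : Sy M (m + 1))
      ∈ Rel H U (m + 1) ⊔ Sm H E l U R (m + 1) := by
  classical
  set ws : Finset (Fin m) → Fin m → M := fun s i => if i ∈ s then w' i else w i with hws
  have key : ∀ s : Finset (Fin m), IsB H U (Fin.cons v (ws s) : Fin (m + 1) → M) ∧
      (Finsupp.single (Fin.cons v w : Fin (m + 1) → M) 1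
      - Finsupp.single (Fin.cons v (ws s) : Fin (m + 1) → M) 1 : Sy M (m + 1))
      ∈ Rel H U (m + 1) ⊔ Sm H E l U R (m + 1) := by
    intro s
    induction s using Finset.induction_on with
    | empty =>
      have : ws ∅ = w := by funext i; simp [hws]
      rw [this, sub_self]
      exact ⟨hb, AddSubgroup.zero_mem _⟩
    | insert j s hj ih =>
      obtain ⟨hB, hmem⟩ := ih
      obtain ⟨c, hc⟩ := hd j
      have hsm : ∀ i, E.N (l (ws s i)) < R := by
        intro i
        simp only [hws]
        split_ifs
        · exact hs' i
        · exact hs i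
      have hwj : ws s j = w j := by simp [hws, hj]
      have hlj : l (w' j) = l (w j + c • v) := by
        have h1 := hl _ hc
        rw [sub_sub, map_sub, sub_eq_zero] at h1
        exact h1
      have h1 := change_one (E := E) (l := l) (b := (Fin.cons v (ws s) : Fin (m + 1) → M)) hB
        (by simpa using h0) hR (by intro i; simpa using hsm i) j c
        (by
          simp only [Fin.cons_succ, Fin.cons_zero, hwj]
          rw [← hlj]; exact hs' j)
      simp only [Fin.cons_succ, Fin.cons_zero, hwj] at h1
      have h2 : IsB H U (Function.update (Fin.cons v (ws s) : Fin (m + 1) → M) j.succ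
          (w j + c • v)) := by
        have := hB.step1 (i := 0) (j := j.succ) (Fin.succ_ne_zero j).symm (-c)
        simpa [hwj] using this
      have e1 : (Fin.cons v (ws (insert j s)) : Fin (m + 1) → M)
          = Function.update (Fin.cons v (ws s) : Fin (m + 1) → M) j.succ (w' j) := by
        rw [← Fin.cons_update]
        congr 1
        funext i
        by_cases hi : i = j
        · subst hi; simp [hws]
        · simp [hws, hi]
      have h3 : ∀ i, ∃ u : Oˣ, (Fin.cons v (ws (insert j s)) : Fin (m + 1) → M) i
          - u • (Function.update (Fin.cons v (ws s) : Fin (m + 1) → M) j.succ (w j + c • v)) i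
            ∈ UO H U := by
        intro i
        refine ⟨1, ?_⟩
        rw [e1, one_smul]
        by_cases hi : i = j.succ
        · subst hi
          rw [Function.update_self, Function.update_self, ← sub_sub]
          exact hc
        · rw [Function.update_of_ne hi, Function.update_of_ne hi, sub_self]
          exact Submodule.zero_mem _
      refine ⟨h2.equiv h3, ?_⟩
      have h4 := rel_equiv h2 h3
      have h5 : (Finsupp.single (Fin.cons v w : Fin (m + 1) → M) 1
          - Finsupp.single (Fin.cons v (ws (insert j s)) : Fin (m + 1) → M) 1 : Sy M (m + 1))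
          = (Finsupp.single (Fin.cons v w : Fin (m + 1) → M) 1
            - Finsupp.single (Fin.cons v (ws s) : Fin (m + 1) → M) 1)
            + (Finsupp.single (Fin.cons v (ws s) : Fin (m + 1) → M) 1
              - Finsupp.single (Function.update (Fin.cons v (ws s) : Fin (m + 1) → M) j.succ
                (w j + c • v)) 1)
            - (Finsupp.single (Fin.cons v (ws (insert j s)) : Fin (m + 1) → M) 1
              - Finsupp.single (Function.update (Fin.cons v (ws s) : Fin (m + 1) → M) j.succ
                (w j + c • v)) 1) := by abel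
      rw [h5]
      exact AddSubgroup.sub_mem _ (AddSubgroup.add_mem _ hmem h1)
        ((le_sup_left : Rel H U (m + 1) ≤ _) h4)
  have := (key Finset.univ).2
  have e : ws Finset.univ = w' := by funext i; simp [hws]
  rwa [e] at this

/-- a small representative modulo `v` -/
noncomputable def smv (E : Euc O) (l : M →ₗ[O] O) (v : M) (w : M) : M := by
  classical
  exact if h : l v ≠ 0 then w + (E.euclid (l w) (l v) h).choose • v else w

omit [IsDomain O] in
theorem smv_lt (E : Euc O) (l : M →ₗ[O] O) {v : M} (h : l v ≠ 0) (w : M) :
    E.N (l (smv E l v w)) < E.N (l v) := by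
  unfold smv
  rw [dif_pos h, map_add, map_smul, smul_eq_mul]
  exact (E.euclid (l w) (l v) h).choose_spec

omit [IsDomain O] in
theorem smv_eq (E : Euc O) (l : M →ₗ[O] O) (v : M) (w : M) :
    ∃ c : O, smv E l v w = w + c • v := by
  unfold smv
  split_ifs with h
  · exact ⟨_, rfl⟩
  · exact ⟨0, by simp⟩

/-- the comparison map from symbols modulo `U + K v` -/
noncomputable def sMap (E : Euc O) (l : M →ₗ[O] O) (v : M) (m : ℕ) : Sy M m →ₗ[ℤ] Sy M (m + 1) :=
  Finsupp.linearCombination ℤ (fun w =>
    (Finsupp.single (Fin.cons v (smv E l v ∘ w) : Fin (m + 1) → M) 1 : Sy M (m + 1)))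

omit [IsDomain O] in
theorem sMap_single (E : Euc O) (l : M →ₗ[O] O) (v : M) {m : ℕ} (w : Fin m → M) (c : ℤ) :
    sMap E l v m (Finsupp.single w c)
      = Finsupp.single (Fin.cons v (smv E l v ∘ w) : Fin (m + 1) → M) c := by
  unfold sMap
  rw [Finsupp.linearCombination_single, Finsupp.smul_single, smul_eq_mul, mul_one]

theorem smv_isB (E : Euc O) (l : M →ₗ[O] O) {U : Submodule K V} {v : M} {m : ℕ} {w : Fin m → M}
    (hw : IsB H (U ⊔ Submodule.span K {ι v}) w) :
    IsB H (U ⊔ Submodule.span K {ι v}) (smv E l v ∘ w) := by
  apply hw.equiv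
  intro i
  refine ⟨1, ?_⟩
  obtain ⟨c, hc⟩ := smv_eq E l v (w i)
  rw [one_smul, Function.comp_apply, hc, add_sub_cancel_left]
  apply Submodule.smul_mem
  exact Submodule.mem_sup_right (Submodule.mem_span_singleton_self _)

theorem sMap_rel {E : Euc O} {l : M →ₗ[O] O} {U : Submodule K V}
    (hl : ∀ x ∈ UO H U, l x = 0) {m : ℕ} {v : M} (hv : Prim H U v) (hlv : l v ≠ 0)
    {x : Sy M m} (hx : x ∈ Rel H (U ⊔ Submodule.span K {ι v}) m) :
    sMap E l v m x ∈ Rel H U (m + 1) ⊔ Sm H E l U (E.N (l v)) (m + 1) := by
  have hR : E.N (l v) ≠ 0 := fun h => hlv ((E.N_zero _).mp h)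
  unfold Rel at hx
  induction hx using AddSubgroup.closure_induction with
  | zero => rw [map_zero]; exact AddSubgroup.zero_mem _
  | add x y _ _ hx hy => rw [map_add]; exact AddSubgroup.add_mem _ hx hy
  | neg x _ hx => rw [map_neg]; exact AddSubgroup.neg_mem _ hx
  | mem x hx =>
    obtain ⟨b, b', hb, h⟩ | ⟨b, hb, σ⟩ | ⟨b, hb, i, j, hij⟩ := hx
    · -- equiv
      rw [map_sub, sMap_single, sMap_single]
      choose u hu using h
      set b'' : Fin m → M := fun i => u i • smv E l v (b i) with hb''
      have hB : IsB H U (Fin.cons v (smv E l v ∘ b) : Fin (m + 1) → M) := hv.cons (smv_isB E l hb)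
      have e1 : ∀ i, ∃ u : Oˣ, (Fin.cons v b'' : Fin (m + 1) → M) i
          - u • (Fin.cons v (smv E l v ∘ b) : Fin (m + 1) → M) i ∈ UO H U := by
        intro i
        refine Fin.cases ?_ (fun i => ?_) i
        · refine ⟨1, ?_⟩
          simp
        · refine ⟨u i, ?_⟩
          simp [hb'']
      have r1 := rel_equiv hB e1
      have r2 := change_all (E := E) (l := l) hl (v := v) (w := b'') (w' := smv E l v ∘ b')
        (hB.equiv e1) rfl hR
        (by intro i; rw [hb'', E_N_smul]; exact smv_lt E l hlv _)
        (by intro i; exact smv_lt E l hlv _)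
        (by
          intro i
          obtain ⟨c, hc⟩ := smv_eq E l v (b i)
          obtain ⟨c', hc'⟩ := smv_eq E l v (b' i)
          have h1 : smv E l v (b' i) - u i • smv E l v (b i)
              ∈ UO H (U ⊔ Submodule.span K {ι v}) := by
            rw [hc, hc', smul_add]
            have h2 : b' i + c' • v - (u i • b i + u i • c • v)
                = (b' i - u i • b i) + (c' • v - u i • c • v) := by abel
            rw [h2]
            have hvm : v ∈ UO H (U ⊔ Submodule.span K {ι v}) :=
              Submodule.mem_sup_right (Submodule.mem_span_singleton_self _)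
            apply Submodule.add_mem _ (hu i)
            apply Submodule.sub_mem _ (Submodule.smul_mem _ _ hvm)
            exact Submodule.smul_mem _ (u i : O) (Submodule.smul_mem _ _ hvm)
          obtain ⟨d, hd⟩ := hv.2 _ h1
          exact ⟨d, hd⟩)
      have h3 : (Finsupp.single (Fin.cons v (smv E l v ∘ b') : Fin (m + 1) → M) 1
          - Finsupp.single (Fin.cons v (smv E l v ∘ b) : Fin (m + 1) → M) 1 : Sy M (m + 1))
          = (Finsupp.single (Fin.cons v b'' : Fin (m + 1) → M) 1
            - Finsupp.single (Fin.cons v (smv E l v ∘ b) : Fin (m + 1) → M) 1)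
          - (Finsupp.single (Fin.cons v b'' : Fin (m + 1) → M) 1
            - Finsupp.single (Fin.cons v (smv E l v ∘ b') : Fin (m + 1) → M) 1) := by abel
      rw [h3]
      exact AddSubgroup.sub_mem _ ((le_sup_left : Rel H U (m + 1) ≤ _) r1) r2
    · -- perm
      rw [map_sub, sMap_single, sMap_single]
      have hB : IsB H U (Fin.cons v (smv E l v ∘ b) : Fin (m + 1) → M) := hv.cons (smv_isB E l hb)
      have e1 : (Fin.cons v (smv E l v ∘ b ∘ σ) : Fin (m + 1) → M)
          = (Fin.cons v (smv E l v ∘ b) : Fin (m + 1) → M) ∘ (Equiv.Perm.decomposeFin.symm (0, σ)) := by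
        funext i
        refine Fin.cases ?_ (fun i => ?_) i
        · simp
        · simp [Equiv.Perm.decomposeFin_symm_apply_succ]
      rw [e1]
      have := rel_perm hB (Equiv.Perm.decomposeFin.symm (0, σ))
      rw [Equiv.Perm.decomposeFin.symm_sign] at this
      simp only [if_true, one_mul] at this
      exact (le_sup_left : Rel H U (m + 1) ≤ _) this
    · -- three
      rw [map_add, map_sub, sMap_single, sMap_single, sMap_single]
      obtain ⟨c, d, hc, hd, hcd⟩ := E.two (l v) (l (b i)) (l (b j)) hlv
      have hlc : ∀ (c : O) (x : M), l x + c * l v = l (x + c • v) := by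
        intro c x; rw [map_add, map_smul, smul_eq_mul]
      rw [hlc] at hc hd
      rw [hlc, hlc, ← map_add] at hcd
      set zi := b i + c • v with hzi
      set zj := b j + d • v with hzj
      set b0 : Fin m → M := Function.update (Function.update (smv E l v ∘ b) i zi) j zj with hb0
      have b0i : b0 i = zi := by simp [hb0, hij]
      have b0j : b0 j = zj := by simp [hb0]
      have b0l : ∀ l', l' ≠ i → l' ≠ j → b0 l' = smv E l v (b l') := by
        intro l' h1 h2; simp [hb0, h1, h2]
      have hB : ∀ {b : Fin m → M}, IsB H (U ⊔ Submodule.span K {ι v}) b →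
          IsB H U (Fin.cons v (smv E l v ∘ b) : Fin (m + 1) → M) :=
        fun hb => hv.cons (smv_isB E l hb)
      have gen : ∀ (b1 b2 : Fin m → M), IsB H (U ⊔ Submodule.span K {ι v}) b1 →
          (∀ i, E.N (l (b2 i)) < E.N (l v)) → (∀ i, ∃ c : O, b2 i = b1 i + c • v) →
          (Finsupp.single (Fin.cons v (smv E l v ∘ b1) : Fin (m + 1) → M) 1
            - Finsupp.single (Fin.cons v b2 : Fin (m + 1) → M) 1 : Sy M (m + 1))
            ∈ Rel H U (m + 1) ⊔ Sm H E l U (E.N (l v)) (m + 1) := by
        intro b1 b2 hb1 hs2 hd2
        apply change_all hl (hB hb1) rfl hR (fun i => smv_lt E l hlv _) hs2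
        intro i
        obtain ⟨c1, hc1⟩ := smv_eq E l v (b1 i)
        obtain ⟨c2, hc2⟩ := hd2 i
        refine ⟨c2 - c1, ?_⟩
        have : b2 i - (smv E l v ∘ b1) i - (c2 - c1) • v = 0 := by
          rw [Function.comp_apply, hc1, hc2, sub_smul]; abel
        rw [this]; exact Submodule.zero_mem _
      have g1 := gen b b0 hb
        (by
          intro i'
          by_cases h1 : i' = i
          · subst h1; rw [b0i]; exact hc
          · by_cases h2 : i' = j
            · subst h2; rw [b0j]; exact hd
            · rw [b0l _ h1 h2]; exact smv_lt E l hlv _)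
        (by
          intro i'
          by_cases h1 : i' = i
          · subst h1; exact ⟨c, b0i⟩
          · by_cases h2 : i' = j
            · subst h2; exact ⟨d, b0j⟩
            · rw [b0l _ h1 h2]; exact smv_eq E l v _)
      have g2 := gen (Function.update b i (b i + b j)) (Function.update b0 i (zi + zj)) (hb.add hij)
        (by
          intro i'
          by_cases h1 : i' = i
          · subst h1; rw [Function.update_self]; exact hcd
          · rw [Function.update_of_ne h1]
            by_cases h2 : i' = j
            · subst h2; rw [b0j]; exact hd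
            · rw [b0l _ h1 h2]; exact smv_lt E l hlv _)
        (by
          intro i'
          by_cases h1 : i' = i
          · subst h1; rw [Function.update_self, Function.update_self]
            exact ⟨c + d, by rw [hzi, hzj, add_smul]; abel⟩
          · rw [Function.update_of_ne h1, Function.update_of_ne h1]
            by_cases h2 : i' = j
            · subst h2; exact ⟨d, b0j⟩
            · rw [b0l _ h1 h2]; exact smv_eq E l v _)
      have g3 := gen (Function.update (Function.update b i (b i + b j)) j (b i))
        (Function.update (Function.update b0 i (zi + zj)) j zi) (hb.add2 hij)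
        (by
          intro i'
          by_cases h2 : i' = j
          · subst h2; rw [Function.update_self]; exact hc
          · rw [Function.update_of_ne h2]
            by_cases h1 : i' = i
            · subst h1; rw [Function.update_self]; exact hcd
            · rw [Function.update_of_ne h1, b0l _ h1 h2]; exact smv_lt E l hlv _)
        (by
          intro i'
          by_cases h2 : i' = j
          · subst h2; rw [Function.update_self, Function.update_self]
            exact ⟨c, rfl⟩
          · rw [Function.update_of_ne h2, Function.update_of_ne h2]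
            by_cases h1 : i' = i
            · subst h1; rw [Function.update_self, Function.update_self]
              exact ⟨c + d, by rw [hzi, hzj, add_smul]; abel⟩
            · rw [Function.update_of_ne h1, Function.update_of_ne h1, b0l _ h1 h2]
              exact smv_eq E l v _)
      have hB0 : IsB H U (Fin.cons v b0 : Fin (m + 1) → M) := by
        apply hv.cons
        apply hb.equiv
        intro i'
        refine ⟨1, ?_⟩
        have hvm : v ∈ UO H (U ⊔ Submodule.span K {ι v}) :=
              Submodule.mem_sup_right (Submodule.mem_span_singleton_self _)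
        have hex : ∃ c : O, b0 i' = b i' + c • v := by
          by_cases h1 : i' = i
          · subst h1; exact ⟨c, b0i⟩
          · by_cases h2 : i' = j
            · subst h2; exact ⟨d, b0j⟩
            · rw [b0l _ h1 h2]; exact smv_eq E l v _
        obtain ⟨c', hc'⟩ := hex
        rw [hc', one_smul, add_sub_cancel_left]
        exact Submodule.smul_mem _ _ hvm
      have r := rel_three hB0 (i := i.succ) (j := j.succ) (fun h => hij (Fin.succ_injective _ h))
      simp only [Fin.cons_succ, b0i, b0j] at r
      rw [← Fin.cons_update, ← Fin.cons_update] at r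
      have h3 := AddSubgroup.add_mem _ (AddSubgroup.sub_mem _ g1 g2)
        (AddSubgroup.add_mem _ g3 ((le_sup_left : Rel H U (m + 1)
          ≤ Rel H U (m + 1) ⊔ Sm H E l U (E.N (l v)) (m + 1)) r))
      convert h3 using 1
      abel

end Pool.Agent.H4
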