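import Pool.Agent.H4.StC

set_option autoImplicit false

/-! The main induction: symbols modulo relations are the Steinberg group. -/

namespace Pool.Agent.H4

open Finsupp Module

variable {O K V M : Type*} [CommRing O] [IsDomain O] [Field K] [Algebra O K]
  [AddCommGroup V] [Module K V] [AddCommGroup M] [Module O M]
  {ι : M →+ V} {H : LatHyp O K V M ι}

theorem l_zero_of_mem {lK : V →ₗ[K] K} {l : M →ₗ[O] O} {U : Submodule K V}
    (hll : ∀ m, lK (ι m) = algebraMap O K (l m)) (hU : U ≤ LinearMap.ker lK)
    (x : M) (hx : x ∈ UO H U) : l x = 0 := by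
  have h1 : ι x ∈ LinearMap.ker lK := hU hx
  rw [LinearMap.mem_ker, hll, ← map_zero (algebraMap O K)] at h1
  exact H.injA h1

theorem exists_prim [FiniteDimensional K V] [IsPrincipalIdealRing O]
    {lK : V →ₗ[K] K} {l : M →ₗ[O] O} {U U' : Submodule K V}
    (hll : ∀ m, lK (ι m) = algebraMap O K (l m)) (hU : U ≤ LinearMap.ker lK)
    (hUU : U ≤ U') (hd : finrank K U' = finrank K U + 1) (hU' : ¬ U' ≤ LinearMap.ker lK) :
    ∃ v : M, Prim H U v ∧ U ⊔ Submodule.span K {ι v} = U' := by
  have hinter : U' ⊓ LinearMap.ker lK = U := by
    symm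
    apply Submodule.eq_of_le_of_finrank_le (le_inf hUU hU)
    have h1 : U' ⊓ LinearMap.ker lK < U' := by
      apply lt_of_le_of_ne inf_le_left
      intro h
      exact hU' (inf_eq_left.mp h)
    have := Submodule.finrank_lt_finrank_of_lt h1
    omega
  obtain ⟨d, hd'⟩ := (IsPrincipalIdealRing.principal (Submodule.map l (UO H U'))).principal
  have hdm : d ∈ Submodule.map l (UO H U') := by
    rw [hd']; exact Submodule.mem_span_singleton_self _
  obtain ⟨v, hv, rfl⟩ := hdm
  have hgen : ∀ x ∈ UO H U', ∃ c : O, x - c • v ∈ UO H U := by
    intro x hx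
    have h1 : l x ∈ Submodule.map l (UO H U') := ⟨x, hx, rfl⟩
    rw [hd', Submodule.mem_span_singleton] at h1
    obtain ⟨c, hc⟩ := h1
    refine ⟨c, ?_⟩
    have h2 : ι (x - c • v) ∈ U' ⊓ LinearMap.ker lK := by
      constructor
      · exact (UO H U').sub_mem hx ((UO H U').smul_mem _ hv)
      · rw [SetLike.mem_coe, LinearMap.mem_ker, hll, map_sub, map_smul, hc, sub_self, map_zero]
    rw [hinter] at h2
    exact h2
  have hvU : ι v ∉ U := by
    intro hvU
    apply hU'
    intro x hx
    obtain ⟨c, hc, y, hy⟩ := H.dense x
    have hc' : algebraMap O K c ≠ 0 := by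
      intro h0
      rw [← map_zero (algebraMap O K)] at h0
      exact hc (H.injA h0)
    have hyU' : y ∈ UO H U' := by
      show ι y ∈ U'
      rw [hy]; exact U'.smul_mem _ hx
    obtain ⟨e, he⟩ := hgen y hyU'
    have hyU : y ∈ UO H U := by
      have : y = (y - e • v) + e • v := by abel
      rw [this]
      exact (UO H U).add_mem he ((UO H U).smul_mem _ hvU)
    have h3 := hU hyU
    rw [hy, LinearMap.mem_ker, map_smul, smul_eq_mul] at h3
    rcases mul_eq_zero.mp h3 with h | h
    · exact absurd h hc'
    · exact h
  have hle : U ⊔ Submodule.span K {ι v} ≤ U' := by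
    apply sup_le hUU
    rw [Submodule.span_singleton_le_iff_mem]
    exact hv
  refine ⟨v, ⟨hvU, ?_⟩, ?_⟩
  · intro x hx
    exact hgen x (hle hx)
  · apply Submodule.eq_of_le_of_finrank_eq hle
    rw [finrank_line hvU, hd]

theorem exists_prim_top [FiniteDimensional K V] [IsPrincipalIdealRing O] {U : Submodule K V}
    (hd : finrank K U + 1 = finrank K V) :
    ∃ v : M, Prim H U v ∧ U ⊔ Submodule.span K {ι v} = ⊤ := by
  have hne : U ≠ ⊤ := by
    rintro rfl
    rw [finrank_top] at hd
    omega
  obtain ⟨lK, l, hll, hl0, hU⟩ := H.func U hne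
  apply exists_prim hll hU le_top
  · rw [finrank_top]; omega
  · intro h
    apply hl0
    ext x
    have : x ∈ LinearMap.ker lK := h trivial
    simpa using this

/-- reduction to a unique maximal vector -/
theorem reduce_max {E : Euc O} {l : M →ₗ[O] O} {U : Submodule K V} {R : ℕ} (hR : R ≠ 0) {m : ℕ} :
    ∀ (n : ℕ) (b : Fin (m + 1) → M), IsB H U b → (∀ i, E.N (l (b i)) ≤ R) →
      (Finset.univ.filter (fun i => E.N (l (b i)) = R)).card ≤ n →
      (Finsupp.single b 1 : Sy M (m + 1))
        ∈ Rel H U (m + 1) ⊔ Sm H E l U R (m + 1) ⊔ Tp H E l U R m := by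
  intro n
  induction n with
  | zero =>
    intro b hb hs hc
    apply AddSubgroup.mem_sup_left
    apply AddSubgroup.mem_sup_right
    apply AddSubgroup.subset_closure
    refine ⟨b, hb, ?_, rfl⟩
    intro i
    apply lt_of_le_of_ne (hs i)
    intro h
    have : i ∈ Finset.univ.filter (fun i => E.N (l (b i)) = R) := by simp [h]
    rw [Finset.card_eq_zero.mp (Nat.le_zero.mp hc)] at this
    simp at this
  | succ n ih =>
    intro b hb hs hc
    by_cases h1 : ∃ i, E.N (l (b i)) = R
    · obtain ⟨i, hi⟩ := h1
      by_cases h2 : ∃ j, j ≠ i ∧ E.N (l (b j)) = R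
      · obtain ⟨j, hji, hj⟩ := h2
        have hne : l (b i) ≠ 0 := by
          intro h
          apply hR
          rw [← hi, (E.N_zero _).mpr h]
        obtain ⟨u, hu⟩ := E.same (l (b j)) (l (b i)) hne (by rw [hi, hj])
        have hlw : l (b j - u • b i) = l (b j) - u * l (b i) := by
          rw [map_sub]
          congr 1
          exact l.map_smul (u : O) (b i)
        rw [← hlw, hi] at hu
        have r := rel_step hb (Ne.symm hji) u
        set c1 := Function.update b j (b j - u • b i) with hc1
        set c2 := Function.update c1 i (b j) with hc2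
        have k1 : (Finsupp.single c1 1 : Sy M (m + 1))
            ∈ Rel H U (m + 1) ⊔ Sm H E l U R (m + 1) ⊔ Tp H E l U R m := by
          apply ih c1 (hb.step1 (Ne.symm hji) _)
          · intro i'
            by_cases h : i' = j
            · subst h; rw [hc1, Function.update_self]; exact hu.le
            · rw [hc1, Function.update_of_ne h]; exact hs i'
          · have hsub : (Finset.univ.filter (fun i => E.N (l (c1 i)) = R))
                ⊂ (Finset.univ.filter (fun i => E.N (l (b i)) = R)) := by
              rw [Finset.ssubset_iff_of_subset]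
              · refine ⟨j, by simp [hj], ?_⟩
                simp only [Finset.mem_filter, Finset.mem_univ, true_and]
                rw [hc1, Function.update_self]
                exact hu.ne
              · intro i' hi'
                simp only [Finset.mem_filter, Finset.mem_univ, true_and] at hi' ⊢
                by_cases h : i' = j
                · subst h; exact hj
                · rwa [hc1, Function.update_of_ne h] at hi'
            have := Finset.card_lt_card hsub
            omega
        have k2 : (Finsupp.single c2 1 : Sy M (m + 1))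
            ∈ Rel H U (m + 1) ⊔ Sm H E l U R (m + 1) ⊔ Tp H E l U R m := by
          apply ih c2 (hb.step2 (Ne.symm hji) _)
          · intro i'
            by_cases h : i' = i
            · subst h; rw [hc2, Function.update_self]; exact hs j
            · rw [hc2, Function.update_of_ne h]
              by_cases h : i' = j
              · subst h; rw [hc1, Function.update_self]; exact hu.le
              · rw [hc1, Function.update_of_ne h]; exact hs i'
          · have hsub : (Finset.univ.filter (fun i => E.N (l (c2 i)) = R))
                ⊂ (Finset.univ.filter (fun i => E.N (l (b i)) = R)) := by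
              rw [Finset.ssubset_iff_of_subset]
              · refine ⟨j, by simp [hj], ?_⟩
                simp only [Finset.mem_filter, Finset.mem_univ, true_and]
                rw [hc2, Function.update_of_ne hji, hc1, Function.update_self]
                exact hu.ne
              · intro i' hi'
                simp only [Finset.mem_filter, Finset.mem_univ, true_and] at hi' ⊢
                by_cases h : i' = i
                · subst h; exact hi
                · rw [hc2, Function.update_of_ne h] at hi'
                  by_cases h : i' = j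
                  · subst h; exact hj
                  · rwa [hc1, Function.update_of_ne h] at hi'
            have := Finset.card_lt_card hsub
            omega
        have e : (Finsupp.single b 1 : Sy M (m + 1))
            = (Finsupp.single b 1 - Finsupp.single c1 1 + Finsupp.single c2 1)
              + Finsupp.single c1 1 - Finsupp.single c2 1 := by abel
        rw [e]
        exact AddSubgroup.sub_mem _ (AddSubgroup.add_mem _
          (AddSubgroup.mem_sup_left (AddSubgroup.mem_sup_left r)) k1) k2
      · -- a unique maximal vector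
        push Not at h2
        set σ := Equiv.swap (0 : Fin (m + 1)) i with hσ
        have e1 : b ∘ σ = (Fin.cons (b i) (Fin.tail (b ∘ σ)) : Fin (m + 1) → M) := by
          funext i'
          refine Fin.cases ?_ (fun i' => ?_) i'
          · simp [hσ]
          · simp [Fin.tail]
        have k1 : (Finsupp.single (b ∘ σ) 1 : Sy M (m + 1)) ∈ Tp H E l U R m := by
          apply AddSubgroup.subset_closure
          refine ⟨b i, Fin.tail (b ∘ σ), ?_, hi, ?_, ?_⟩
          · rw [← e1]; exact hb.perm σ
          · intro i'
            apply lt_of_le_of_ne (hs _)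
            apply h2
            intro h
            have : i'.succ = σ i := by
              rw [← h]; simp [hσ]
            rw [hσ, Equiv.swap_apply_right] at this
            exact Fin.succ_ne_zero _ this
          · rw [← e1]
        have r := rel_perm hb σ
        have hsq : ((Equiv.Perm.sign σ : ℤˣ) : ℤ) * ((Equiv.Perm.sign σ : ℤˣ) : ℤ) = 1 :=
          Int.units_coe_mul_self _
        have e2 : (Finsupp.single b 1 : Sy M (m + 1))
            = ((Equiv.Perm.sign σ : ℤˣ) : ℤ) • (Finsupp.single (b ∘ σ) 1)
              - ((Equiv.Perm.sign σ : ℤˣ) : ℤ) • (Finsupp.single (b ∘ σ) 1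
                - Finsupp.single b ((Equiv.Perm.sign σ : ℤˣ) : ℤ)) := by
          rw [smul_sub, sub_sub_cancel, Finsupp.smul_single, smul_eq_mul, hsq]
        rw [e2]
        apply AddSubgroup.sub_mem
        · exact AddSubgroup.mem_sup_right (AddSubgroup.zsmul_mem _ k1 _)
        · exact AddSubgroup.mem_sup_left (AddSubgroup.mem_sup_left (AddSubgroup.zsmul_mem _ r _))
    · push Not at h1
      apply AddSubgroup.mem_sup_left
      apply AddSubgroup.mem_sup_right
      apply AddSubgroup.subset_closure
      exact ⟨b, hb, fun i => lt_of_le_of_ne (hs i) (h1 i), rfl⟩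

/-- `L` is a line (modulo `U`) of height `R`. -/
def HtLine (H : LatHyp O K V M ι) (E : Euc O) (l : M →ₗ[O] O) (U : Submodule K V)
    (L : Submodule K V) (R : ℕ) : Prop :=
  ∃ v : M, Prim H U v ∧ U ⊔ Submodule.span K {ι v} = L ∧ E.N (l v) = R

theorem HtLine.unique {E : Euc O} {l : M →ₗ[O] O} {U L : Submodule K V} {R R' : ℕ}
    (hl : ∀ x ∈ UO H U, l x = 0)
    (h : HtLine H E l U L R) (h' : HtLine H E l U L R') : R = R' := by
  obtain ⟨v, hv, hL, rfl⟩ := h
  obtain ⟨v', hv', hL', rfl⟩ := h'
  obtain ⟨u, hu⟩ := hv.unique hv' (hL.trans hL'.symm)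
  have := apply_of_equiv (H := H) hl hu
  rw [this, E_N_smul]

/-- a representative of a line -/
noncomputable def rep (H : LatHyp O K V M ι) (U L : Submodule K V) : M := by
  classical
  exact if h : ∃ v : M, Prim H U v ∧ U ⊔ Submodule.span K {ι v} = L then h.choose else 0

theorem rep_spec {U L : Submodule K V} (h : ∃ v : M, Prim H U v ∧ U ⊔ Submodule.span K {ι v} = L) :
    Prim H U (rep H U L) ∧ U ⊔ Submodule.span K {ι (rep H U L)} = L := by
  unfold rep
  rw [dif_pos h]
  exact h.choose_spec

theorem rep_ht {E : Euc O} {l : M →ₗ[O] O} {U L : Submodule K V} {R : ℕ}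
    (hl : ∀ x ∈ UO H U, l x = 0) (h : HtLine H E l U L R) :
    E.N (l (rep H U L)) = R := by
  have h1 : ∃ v : M, Prim H U v ∧ U ⊔ Submodule.span K {ι v} = L := by
    obtain ⟨v, hv, hL, _⟩ := h
    exact ⟨v, hv, hL⟩
  obtain ⟨hp, hL⟩ := rep_spec h1
  exact (HtLine.unique hl h ⟨_, hp, hL, rfl⟩).symm

theorem comp_cons (ι : M →+ V) {m : ℕ} (v : M) (w : Fin m → M) :
    ι ∘ (Fin.cons v w : Fin (m + 1) → M) = (Fin.cons (α := fun _ => V) (ι v) (ι ∘ w)) := by
  funext i
  refine Fin.cases ?_ (fun j => ?_) i
  · simp
  · simp only [Function.comp_apply, Fin.cons_succ]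

theorem res_cons [FiniteDimensional K V] {E : Euc O} {l : M →ₗ[O] O} {U L : Submodule K V}
    {k R' : ℕ} (hl : ∀ x ∈ UO H U, l x = 0) (hU : finrank K U + (k + 2) = finrank K V)
    {v : M} {w : Fin (k + 1) → M} (hb : IsB H U (Fin.cons v w : Fin (k + 2) → M))
    (hw : ∀ i, E.N (l (w i)) < E.N (l v)) (hL : HtLine H E l U L R') (hR : E.N (l v) ≤ R')
    [Decidable (U ⊔ Submodule.span K {ι v} = L)] :
    res L (apt U (ι ∘ (Fin.cons v w : Fin (k + 2) → M)))
      = if U ⊔ Submodule.span K {ι v} = L then apt L (ι ∘ w) else 0 := by
  have hwl : ∀ i, U ⊔ Submodule.span K {ι (w i)} ≠ L := by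
    intro i h
    have hp : Prim H U (w i) := by
      have := hb.prim hU i.succ
      simpa using this
    have := HtLine.unique hl hL ⟨w i, hp, h, rfl⟩
    have := hw i
    omega
  split_ifs with h
  · subst h
    rw [comp_cons]
    apply res_apt_cons
    intro i
    exact hwl i
  · apply res_apt_of_ne
    intro i
    refine Fin.cases ?_ (fun j => ?_) i
    · simpa using h
    · simpa using hwl j

theorem res_small [FiniteDimensional K V] {E : Euc O} {l : M →ₗ[O] O} {U L : Submodule K V}
    {k R R' : ℕ} (hl : ∀ x ∈ UO H U, l x = 0) (hU : finrank K U + (k + 2) = finrank K V)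
    {b : Fin (k + 2) → M} (hb : IsB H U b)
    (hw : ∀ i, E.N (l (b i)) < R) (hL : HtLine H E l U L R') (hR : R ≤ R') :
    res L (apt U (ι ∘ b)) = 0 := by
  apply res_apt_of_ne
  intro i h
  have := HtLine.unique hl hL ⟨b i, hb.prim hU i, h, rfl⟩
  have := hw i
  omega

theorem res_aptL_Sm [FiniteDimensional K V] {E : Euc O} {l : M →ₗ[O] O} {U L : Submodule K V}
    {k R R' : ℕ} (hl : ∀ x ∈ UO H U, l x = 0) (hU : finrank K U + (k + 2) = finrank K V)
    {g : Sy M (k + 2)} (hg : g ∈ Sm H E l U R (k + 2)) (hL : HtLine H E l U L R') (hR : R ≤ R') :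
    res L (aptL ι U (k + 1) g) = 0 := by
  unfold Sm at hg
  induction hg using AddSubgroup.closure_induction with
  | zero => rw [map_zero, map_zero]
  | add x y _ _ hx hy => rw [map_add, map_add, hx, hy, add_zero]
  | neg x _ hx => rw [map_neg, map_neg, hx, neg_zero]
  | mem x hx =>
    obtain ⟨b, hb, hs, rfl⟩ := hx
    rw [aptL_single, one_smul]
    exact res_small hl hU hb hs hL hR

theorem cons_equiv_head {U : Submodule K V} {m : ℕ} {v v' : M} {w : Fin m → M}
    (hb : IsB H U (Fin.cons v w : Fin (m + 1) → M)) {u : Oˣ} (h : v' - u • v ∈ UO H U) :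
    IsB H U (Fin.cons v' w : Fin (m + 1) → M) ∧
    (Finsupp.single (Fin.cons v' w : Fin (m + 1) → M) 1
      - Finsupp.single (Fin.cons v w : Fin (m + 1) → M) 1 : Sy M (m + 1)) ∈ Rel H U (m + 1) := by
  have e1 : ∀ i, ∃ u : Oˣ, (Fin.cons v' w : Fin (m + 1) → M) i
      - u • (Fin.cons v w : Fin (m + 1) → M) i ∈ UO H U := by
    intro i
    refine Fin.cases ?_ (fun i => ?_) i
    · exact ⟨u, by simpa using h⟩
    · exact ⟨1, by simp⟩
  exact ⟨hb.equiv e1, rel_equiv hb e1⟩

theorem Tp_decomp [FiniteDimensional K V] {E : Euc O} {l : M →ₗ[O] O} {U : Submodule K V}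
    {k R : ℕ} (hR0 : R ≠ 0) (hl : ∀ x ∈ UO H U, l x = 0)
    (hU : finrank K U + (k + 2) = finrank K V)
    {t : Sy M (k + 2)} (ht : t ∈ Tp H E l U R (k + 1)) :
    ∃ τ : Submodule K V →₀ Sy M (k + 1), (∀ L, τ L ≠ 0 → HtLine H E l U L R) ∧
      (∀ L, τ L ∈ BS H L (k + 1)) ∧
      t - τ.sum (fun L y => sMap E l (rep H U L) (k + 1) y)
        ∈ Rel H U (k + 2) ⊔ Sm H E l U R (k + 2) ∧
      ∀ L, HtLine H E l U L R → aptL ι L k (τ L) = res L (aptL ι U (k + 1) t) := by
  classical
  unfold Tp at ht
  induction ht using AddSubgroup.closure_induction with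
  | zero =>
    refine ⟨0, ?_, ?_, ?_, ?_⟩
    · intro L hL; exact absurd rfl hL
    · intro L; exact AddSubgroup.zero_mem _
    · rw [Finsupp.sum_zero_index, sub_zero]; exact AddSubgroup.zero_mem _
    · intro L _; simp
  | add x y _ _ hx hy =>
    obtain ⟨τ1, a1, b1, c1, d1⟩ := hx
    obtain ⟨τ2, a2, b2, c2, d2⟩ := hy
    refine ⟨τ1 + τ2, ?_, ?_, ?_, ?_⟩
    · intro L hL
      by_cases h : τ1 L = 0
      · apply a2
        intro h2
        apply hL
        rw [Finsupp.add_apply, h, h2, add_zero]
      · exact a1 L h
    · intro L
      rw [Finsupp.add_apply]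
      exact AddSubgroup.add_mem _ (b1 L) (b2 L)
    · rw [Finsupp.sum_add_index' (by intro a; simp) (by intro a b c; simp)]
      have := AddSubgroup.add_mem _ c1 c2
      convert this using 1
      abel
    · intro L hL
      rw [Finsupp.add_apply, map_add, d1 L hL, d2 L hL, map_add, map_add]
  | neg x _ hx =>
    obtain ⟨τ1, a1, b1, c1, d1⟩ := hx
    refine ⟨-τ1, ?_, ?_, ?_, ?_⟩
    · intro L hL
      apply a1
      intro h
      apply hL
      rw [Finsupp.neg_apply, h, neg_zero]
    · intro L
      rw [Finsupp.neg_apply]
      exact AddSubgroup.neg_mem _ (b1 L)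
    · rw [Finsupp.sum_neg_index (by intro a; simp)]
      have := AddSubgroup.neg_mem _ c1
      convert this using 1
      simp only [map_neg, Finsupp.sum_neg]
      abel
    · intro L hL
      rw [Finsupp.neg_apply, map_neg, d1 L hL, map_neg, map_neg]
  | mem x hx =>
    obtain ⟨v, w, hb, hv, hw, rfl⟩ := hx
    have hpv : Prim H U v := by
      have := hb.prim hU 0
      simpa using this
    set L0 := U ⊔ Submodule.span K {ι v} with hL0
    have hex : ∃ v : M, Prim H U v ∧ U ⊔ Submodule.span K {ι v} = L0 := ⟨v, hpv, rfl⟩
    obtain ⟨hpr, hrL⟩ := rep_spec hex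
    have hht : HtLine H E l U L0 R := ⟨v, hpv, rfl, hv⟩
    have hrR := rep_ht hl hht
    refine ⟨Finsupp.single L0 (Finsupp.single w 1), ?_, ?_, ?_, ?_⟩
    · intro L hL
      rw [Finsupp.single_apply] at hL
      split_ifs at hL with h
      · rw [← h]; exact hht
      · exact absurd rfl hL
    · intro L
      rw [Finsupp.single_apply]
      split_ifs with h
      · apply AddSubgroup.subset_closure
        refine ⟨w, ?_, rfl⟩
        rw [← h]
        exact hb.tail
      · exact AddSubgroup.zero_mem _
    · rw [Finsupp.sum_single_index (by simp), sMap_single]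
      obtain ⟨u, hu⟩ := hpv.unique hpr hrL.symm
      obtain ⟨hB', r1⟩ := cons_equiv_head hb hu
      have hlr : l (rep H U L0) ≠ 0 := by
        intro h
        apply hR0
        rw [← hrR, h, (E.N_zero _).mpr rfl]
      have r2 := change_all (E := E) (l := l) hl (v := rep H U L0) (w := w)
        (w' := smv E l (rep H U L0) ∘ w) hB' hrR hR0 hw
        (by intro i; rw [Function.comp_apply, ← hrR]; exact smv_lt E l hlr _)
        (by
          intro i
          obtain ⟨c, hc⟩ := smv_eq E l (rep H U L0) (w i)
          refine ⟨c, ?_⟩
          have : (smv E l (rep H U L0) ∘ w) i - w i - c • rep H U L0 = 0 := by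
            rw [Function.comp_apply, hc]; abel
          rw [this]; exact Submodule.zero_mem _)
      have := AddSubgroup.sub_mem _ r2 (AddSubgroup.mem_sup_left (T := Sm H E l U R (k + 2)) r1)
      convert this using 1
      abel
    · intro L hL
      rw [aptL_single, one_smul, res_cons hl hU hb (by intro i; rw [hv]; exact hw i) hL (le_of_eq hv),
        Finsupp.single_apply]
      split_ifs with h
      · rw [aptL_single, one_smul]
      · rw [map_zero]

theorem sMap_BS {E : Euc O} {l : M →ₗ[O] O} {U : Submodule K V} {m : ℕ} {v : M}
    (hv : Prim H U v) {y : Sy M m} (hy : y ∈ BS H (U ⊔ Submodule.span K {ι v}) m) :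
    sMap E l v m y ∈ BS H U (m + 1) := by
  unfold BS at hy
  induction hy using AddSubgroup.closure_induction with
  | zero => rw [map_zero]; exact AddSubgroup.zero_mem _
  | add x y _ _ hx hy => rw [map_add]; exact AddSubgroup.add_mem _ hx hy
  | neg x _ hx => rw [map_neg]; exact AddSubgroup.neg_mem _ hx
  | mem x hx =>
    obtain ⟨w, hw, rfl⟩ := hx
    rw [sMap_single]
    apply AddSubgroup.subset_closure
    exact ⟨_, hv.cons (smv_isB E l hw), rfl⟩

theorem res_sMap [FiniteDimensional K V] {E : Euc O} {l : M →ₗ[O] O} {U L : Submodule K V}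
    {k R' : ℕ} (hl : ∀ x ∈ UO H U, l x = 0) (hU : finrank K U + (k + 2) = finrank K V)
    {v : M} (hv : Prim H U v) (hlv : l v ≠ 0)
    {y : Sy M (k + 1)} (hy : y ∈ BS H (U ⊔ Submodule.span K {ι v}) (k + 1))
    (hL : HtLine H E l U L R') (hR : E.N (l v) ≤ R')
    [Decidable (U ⊔ Submodule.span K {ι v} = L)] :
    res L (aptL ι U (k + 1) (sMap E l v (k + 1) y))
      = if U ⊔ Submodule.span K {ι v} = L then aptL ι L k y else 0 := by
  unfold BS at hy
  induction hy using AddSubgroup.closure_induction with
  | zero => simp
  | add x y _ _ hx hy =>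
    rw [map_add, map_add, map_add, hx, hy, map_add]
    split_ifs
    · rfl
    · rw [add_zero]
  | neg x _ hx =>
    rw [map_neg, map_neg, map_neg, hx, map_neg]
    split_ifs
    · rfl
    · rw [neg_zero]
  | mem x hx =>
    obtain ⟨w, hw, rfl⟩ := hx
    rw [sMap_single, aptL_single, one_smul, aptL_single, one_smul,
      res_cons hl hU (hv.cons (smv_isB E l hw)) (fun i => smv_lt E l hlv _) hL hR]
    split_ifs with h
    · subst h
      apply apt_congr
      intro i
      apply line_eq_of_equiv (H := H) (u := 1)
      obtain ⟨c, hc⟩ := smv_eq E l v (w i)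
      rw [one_smul, Function.comp_apply, hc, add_sub_cancel_left]
      apply Submodule.smul_mem
      exact Submodule.mem_sup_right (Submodule.mem_span_singleton_self _)
    · rfl

theorem BS_le_Sm {E : Euc O} {l : M →ₗ[O] O} {U : Submodule K V} {m : ℕ} {x : Sy M m}
    (hx : x ∈ BS H U m) : ∃ R, x ∈ Sm H E l U R m := by
  unfold BS at hx
  induction hx using AddSubgroup.closure_induction with
  | zero => exact ⟨0, AddSubgroup.zero_mem _⟩
  | add x y _ _ hx hy =>
    obtain ⟨R1, h1⟩ := hx
    obtain ⟨R2, h2⟩ := hy
    exact ⟨max R1 R2, AddSubgroup.add_mem _ (Sm_mono (le_max_left _ _) h1)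
      (Sm_mono (le_max_right _ _) h2)⟩
  | neg x _ hx =>
    obtain ⟨R1, h1⟩ := hx
    exact ⟨R1, AddSubgroup.neg_mem _ h1⟩
  | mem x hx =>
    obtain ⟨b, hb, rfl⟩ := hx
    refine ⟨(Finset.univ.sup fun i => E.N (l (b i))) + 1, ?_⟩
    apply AddSubgroup.subset_closure
    refine ⟨b, hb, ?_, rfl⟩
    intro i
    have : E.N (l (b i)) ≤ Finset.univ.sup fun i => E.N (l (b i)) :=
      Finset.le_sup (f := fun i => E.N (l (b i))) (Finset.mem_univ i)
    omega

theorem Sm_le_BS {E : Euc O} {l : M →ₗ[O] O} {U : Submodule K V} {R m : ℕ} {x : Sy M m}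
    (hx : x ∈ Sm H E l U R m) : x ∈ BS H U m := by
  have : Sm H E l U R m ≤ BS H U m := by
    apply AddSubgroup.closure_mono
    rintro x ⟨b, hb, _, rfl⟩
    exact ⟨b, hb, rfl⟩
  exact this hx

theorem not_all_zero {lK : V →ₗ[K] K} {l : M →ₗ[O] O} {U : Submodule K V} {m : ℕ}
    (hll : ∀ m, lK (ι m) = algebraMap O K (l m)) (hl0 : lK ≠ 0) (hU : U ≤ LinearMap.ker lK)
    {b : Fin m → M} (hb : IsB H U b) : ∃ i, l (b i) ≠ 0 := by
  by_contra h
  push Not at h
  apply hl0
  have h1 : (⊤ : Submodule K V) ≤ LinearMap.ker lK := by
    rw [← hb.span_top]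
    apply sup_le hU
    rw [Submodule.span_le]
    rintro _ ⟨i, rfl⟩
    rw [SetLike.mem_coe, LinearMap.mem_ker, Function.comp_apply, hll, h i, map_zero]
  ext x
  have : x ∈ LinearMap.ker lK := h1 trivial
  simpa using this

theorem finrank_ker_add_one [FiniteDimensional K V] {lK : V →ₗ[K] K} (h : lK ≠ 0) :
    finrank K (LinearMap.ker lK) + 1 = finrank K V := by
  have h1 := LinearMap.finrank_range_add_finrank_ker lK
  have h2 : finrank K (LinearMap.range lK) = 1 := by
    have : LinearMap.range lK = ⊤ := LinearMap.range_eq_top.mpr (LinearMap.surjective h)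
    rw [this, finrank_top, finrank_self]
  omega

/-- The presentation theorem. -/
theorem main_ind [FiniteDimensional K V] [IsPrincipalIdealRing O] (E : Euc O)
    (H : LatHyp O K V M ι) :
    ∀ (k : ℕ) (U : Submodule K V), finrank K U + (k + 1) = finrank K V →
      (∀ x ∈ BS H U (k + 1), aptL ι U k x = 0 → x ∈ Rel H U (k + 1)) ∧
      (∀ z ∈ St k U, ∃ x ∈ BS H U (k + 1), aptL ι U k x = z) := by
  classical
  intro k
  induction k with
  | zero =>
    intro U hU
    obtain ⟨v, hv, hvt⟩ := exists_prim_top (H := H) hU
    set b0 : Fin 1 → M := fun _ => v with hb0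
    have hb0B : IsB H U b0 := by
      unfold IsB
      rw [eq_top_iff]
      intro x _
      obtain ⟨c, hc⟩ := hv.2 x (by rw [hvt]; trivial)
      have : x = c • v + (x - c • v) := by abel
      rw [this]
      apply Submodule.add_mem
      · apply Submodule.mem_sup_left
        apply Submodule.smul_mem
        exact Submodule.subset_span ⟨0, rfl⟩
      · exact Submodule.mem_sup_right hc
    constructor
    · intro x hx
      have hex : ∃ n : ℤ, x - n • (Finsupp.single b0 1 : Sy M 1) ∈ Rel H U 1 := by
        unfold BS at hx
        induction hx using AddSubgroup.closure_induction with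
        | zero => exact ⟨0, by rw [zero_smul, sub_zero]; exact AddSubgroup.zero_mem _⟩
        | add x y _ _ hx hy =>
          obtain ⟨n1, h1⟩ := hx
          obtain ⟨n2, h2⟩ := hy
          refine ⟨n1 + n2, ?_⟩
          have := AddSubgroup.add_mem _ h1 h2
          convert this using 1
          rw [add_smul]; abel
        | neg x _ hx =>
          obtain ⟨n1, h1⟩ := hx
          refine ⟨-n1, ?_⟩
          have := AddSubgroup.neg_mem _ h1
          convert this using 1
          rw [neg_smul]; abel
        | mem x hx =>
          obtain ⟨b, hb, rfl⟩ := hx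
          refine ⟨1, ?_⟩
          rw [one_smul]
          apply rel_equiv hb0B
          intro i
          have hbp := hb.prim hU i
          have hbt : U ⊔ Submodule.span K {ι (b i)} = ⊤ := by
            apply Submodule.eq_top_of_finrank_eq
            rw [finrank_line hbp.1, hU]
          exact hv.unique hbp (hvt.trans hbt.symm)
      obtain ⟨n, hn⟩ := hex
      intro h0
      have h1 := aptL_rel hn
      rw [map_sub, h0, zero_sub, neg_eq_zero, map_smul, aptL_single, one_smul, apt_zero,
        Finsupp.smul_single, smul_eq_mul, mul_one, Finsupp.single_eq_zero] at h1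
      rw [h1, zero_smul, sub_zero] at hn
      exact hn
    · intro z _
      refine ⟨z (fun i => i.elim0) • Finsupp.single b0 1, ?_, ?_⟩
      · apply AddSubgroup.zsmul_mem
        apply AddSubgroup.subset_closure
        exact ⟨b0, hb0B, rfl⟩
      · rw [map_smul, aptL_single, one_smul, apt_zero, Finsupp.smul_single, smul_eq_mul, mul_one]
        refine Finsupp.ext fun f => ?_
        have : f = fun i => i.elim0 := Subsingleton.elim _ _
        rw [this, Finsupp.single_eq_same]
  | succ k ih =>
    intro U hU
    have hUne : U ≠ ⊤ := by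
      rintro rfl
      rw [finrank_top] at hU
      omega
    obtain ⟨lK, l, hll, hl0, hUk⟩ := H.func U hUne
    have hl : ∀ x ∈ UO H U, l x = 0 := l_zero_of_mem hll hUk
    constructor
    · -- injectivity
      have hQ : ∀ R, ∀ x ∈ Sm H E l U R (k + 2), aptL ι U (k + 1) x = 0 → x ∈ Rel H U (k + 2) := by
        intro R
        induction R with
        | zero =>
          intro x hx _
          have hbot : Sm H E l U 0 (k + 2) ≤ ⊥ := by
            unfold Sm
            rw [AddSubgroup.closure_le]
            rintro x ⟨b, _, hb, _⟩
            exact absurd (hb 0) (Nat.not_lt_zero _)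
          have := hbot hx
          rw [AddSubgroup.mem_bot] at this
          rw [this]; exact AddSubgroup.zero_mem _
        | succ R ihR =>
          intro x hx h0
          by_cases hR : R = 0
          · subst hR
            have hbot : Sm H E l U (0 + 1) (k + 2) ≤ ⊥ := by
              unfold Sm
              rw [AddSubgroup.closure_le]
              rintro x ⟨b, hB, hb, _⟩
              obtain ⟨i, hi⟩ := not_all_zero hll hl0 hUk hB
              have := hb i
              have h2 : E.N (l (b i)) = 0 := by omega
              exact absurd ((E.N_zero _).mp h2) hi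
            have := hbot hx
            rw [AddSubgroup.mem_bot] at this
            rw [this]; exact AddSubgroup.zero_mem _
          · have h1 : Sm H E l U (R + 1) (k + 2)
                ≤ Rel H U (k + 2) ⊔ Sm H E l U R (k + 2) ⊔ Tp H E l U R (k + 1) := by
              unfold Sm
              rw [AddSubgroup.closure_le]
              rintro x ⟨b, hB, hb, rfl⟩
              exact reduce_max hR _ b hB (fun i => Nat.lt_succ_iff.mp (hb i)) le_rfl
            have h2 := h1 hx
            obtain ⟨y, hy, t, ht, rfl⟩ := AddSubgroup.mem_sup.mp h2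
            obtain ⟨r, hr, g, hg, rfl⟩ := AddSubgroup.mem_sup.mp hy
            obtain ⟨τ, a, b, c, d⟩ := Tp_decomp hR hl hU ht
            have hτ : ∀ L, HtLine H E l U L R → aptL ι L k (τ L) = 0 := by
              intro L hL
              rw [d L hL]
              have e1 : aptL ι U (k + 1) t = - aptL ι U (k + 1) g := by
                rw [map_add, map_add, aptL_rel hr, zero_add] at h0
                exact eq_neg_of_add_eq_zero_right h0
              rw [e1, map_neg, res_aptL_Sm hl hU hg hL le_rfl, neg_zero]
            have hsum : τ.sum (fun L y => sMap E l (rep H U L) (k + 1) y)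
                ∈ Rel H U (k + 2) ⊔ Sm H E l U R (k + 2) := by
              apply AddSubgroup.sum_mem
              intro L hL
              rw [Finsupp.mem_support_iff] at hL
              have hht := a L hL
              have hex : ∃ v : M, Prim H U v ∧ U ⊔ Submodule.span K {ι v} = L := by
                obtain ⟨v, hv, hL, _⟩ := hht
                exact ⟨v, hv, hL⟩
              obtain ⟨hp, hrL⟩ := rep_spec hex
              have hN := rep_ht hl hht
              have hlr : l (rep H U L) ≠ 0 := by
                intro h
                apply hR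
                rw [← hN, h, (E.N_zero _).mpr rfl]
              have hLd : finrank K L + (k + 1) = finrank K V := by
                rw [← hrL, finrank_line hp.1]; omega
              have h3 := (ih L hLd).1 (τ L) (b L) (hτ L hht)
              have h4 := sMap_rel (E := E) hl hp hlr (x := τ L) (by rw [hrL]; exact h3)
              rw [hN] at h4
              exact h4
            have ht' : t ∈ Rel H U (k + 2) ⊔ Sm H E l U R (k + 2) := by
              have := AddSubgroup.add_mem _ c hsum
              rwa [sub_add_cancel] at this
            obtain ⟨r', hr', g', hg', rfl⟩ := AddSubgroup.mem_sup.mp ht'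
            have h5 : aptL ι U (k + 1) (g + g') = 0 := by
              rw [map_add, map_add, map_add, aptL_rel hr, aptL_rel hr', zero_add, zero_add] at h0
              rw [map_add]; exact h0
            have h6 := ihR (g + g') (AddSubgroup.add_mem _ hg hg') h5
            have e : r + g + (r' + g') = r + r' + (g + g') := by abel
            rw [e]
            exact AddSubgroup.add_mem _ (AddSubgroup.add_mem _ hr hr') h6
      intro x hx h0
      obtain ⟨R, hR⟩ := BS_le_Sm (E := E) (l := l) hx
      exact hQ R x hR h0
    · -- surjectivity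
      have hQ : ∀ R : ℕ, ∀ z ∈ St (k + 1) U,
          (∀ f, z f ≠ 0 → ∀ R', HtLine H E l U (f 0) R' → R' ≠ 0 → R' < R) →
          ∃ x ∈ BS H U (k + 2), aptL ι U (k + 1) x = z := by
        intro R
        induction R with
        | zero =>
          intro z hz hzR
          have hz0 : z = 0 := by
            apply St_eq_zero_aux (LinearMap.ker lK) (finrank_ker_add_one hl0) k U hU z hz
            intro f hf
            by_contra hfW
            obtain ⟨h1, h2, _⟩ := (mem_St_succ.mp hz).1 f hf
            obtain ⟨v, hv, hvL⟩ := exists_prim (H := H) hll hUk h1 h2 hfW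
            refine absurd (hzR f hf (E.N (l v)) ⟨v, hv, hvL, rfl⟩ ?_) (Nat.not_lt_zero _)
            intro h
            apply hfW
            rw [← hvL]
            apply sup_le hUk
            rw [Submodule.span_singleton_le_iff_mem, LinearMap.mem_ker, hll,
              (E.N_zero _).mp h, map_zero]
          exact ⟨0, AddSubgroup.zero_mem _, by rw [map_zero, hz0]⟩
        | succ R ihR =>
          intro z hz hzR
          by_cases hR : R = 0
          · subst hR
            apply ihR z hz
            intro f hf R' hR' hR'0
            have := hzR f hf R' hR' hR'0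
            omega
          set S : Finset (Submodule K V) := (z.support.image (fun f => f 0)).filter
            (fun L => HtLine H E l U L R) with hS
          have hSspec : ∀ L ∈ S, HtLine H E l U L R := by
            intro L hL
            exact (Finset.mem_filter.mp hL).2
          have hch : ∀ L : Submodule K V, ∃ x : Sy M (k + 1), HtLine H E l U L R →
              (x ∈ BS H L (k + 1) ∧ aptL ι L k x = res L z) := by
            intro L
            by_cases hL : HtLine H E l U L R
            · obtain ⟨v, hv, hvL, _⟩ := hL
              have hLd : finrank K L + (k + 1) = finrank K V := by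
                rw [← hvL, finrank_line hv.1]; omega
              obtain ⟨x, hx, hx'⟩ := (ih L hLd).2 (res L z) (res_mem_St L hz)
              exact ⟨x, fun _ => ⟨hx, hx'⟩⟩
            · exact ⟨0, fun h => absurd h hL⟩
          choose xL hxL using hch
          have hrep : ∀ L, HtLine H E l U L R → Prim H U (rep H U L) ∧
              U ⊔ Submodule.span K {ι (rep H U L)} = L ∧ E.N (l (rep H U L)) = R ∧
              l (rep H U L) ≠ 0 := by
            intro L hht
            have hex : ∃ v : M, Prim H U v ∧ U ⊔ Submodule.span K {ι v} = L := by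
              obtain ⟨v, hv, hL, _⟩ := hht
              exact ⟨v, hv, hL⟩
            obtain ⟨hp, hrL⟩ := rep_spec hex
            have hN := rep_ht hl hht
            refine ⟨hp, hrL, hN, ?_⟩
            intro h
            apply hR
            rw [← hN, h, (E.N_zero _).mpr rfl]
          set x1 : Sy M (k + 2) := ∑ L ∈ S, sMap E l (rep H U L) (k + 1) (xL L) with hx1
          have hx1B : x1 ∈ BS H U (k + 2) := by
            apply AddSubgroup.sum_mem
            intro L hL
            obtain ⟨hp, hrL, _, _⟩ := hrep L (hSspec L hL)
            apply sMap_BS hp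
            rw [hrL]
            exact (hxL L (hSspec L hL)).1
          have hx1St : ∀ x ∈ BS H U (k + 2), aptL ι U (k + 1) x ∈ St (k + 1) U := by
            intro x hx
            unfold BS at hx
            induction hx using AddSubgroup.closure_induction with
            | zero => rw [map_zero]; exact AddSubgroup.zero_mem _
            | add x y _ _ hx hy => rw [map_add]; exact AddSubgroup.add_mem _ hx hy
            | neg x _ hx => rw [map_neg]; exact AddSubgroup.neg_mem _ hx
            | mem x hx =>
              obtain ⟨b, hb, rfl⟩ := hx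
              rw [aptL_single, one_smul]
              exact apt_mem_St hU hb
          have hz' : z - aptL ι U (k + 1) x1 ∈ St (k + 1) U :=
            AddSubgroup.sub_mem _ hz (hx1St x1 hx1B)
          have hres : ∀ L R', HtLine H E l U L R' → R ≤ R' →
              res L (z - aptL ι U (k + 1) x1) = 0 := by
            intro L R' hL hRR
            have e1 : res L (aptL ι U (k + 1) x1) = ∑ L' ∈ S, if L' = L then res L z else 0 := by
              rw [hx1, map_sum, map_sum]
              refine Finset.sum_congr rfl fun L' hL' => ?_
              obtain ⟨hp, hrL, hN, hne⟩ := hrep L' (hSspec L' hL')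
              rw [res_sMap hl hU hp hne (by rw [hrL]; exact (hxL L' (hSspec L' hL')).1) hL
                (by rw [hN]; exact hRR), hrL]
              split_ifs with h
              · subst h
                exact (hxL L' (hSspec L' hL')).2
              · rfl
            rw [map_sub, e1, Finset.sum_ite_eq' S L]
            split_ifs with hLS
            · rw [sub_self]
            · rw [sub_zero]
              by_contra hne
              obtain ⟨f, hf⟩ := Finsupp.ne_iff.mp hne
              have hf' : z (fcons L f) ≠ 0 := hf
              have h1 := hzR _ hf' R' hL (by omega)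
              have h2 : R' = R := by omega
              subst h2
              apply hLS
              rw [hS, Finset.mem_filter]
              exact ⟨Finset.mem_image.mpr ⟨fcons L f, Finsupp.mem_support_iff.mpr hf', rfl⟩, hL⟩
          obtain ⟨x2, hx2, hx2'⟩ := ihR (z - aptL ι U (k + 1) x1) hz' (by
            intro f hf R' hR' hR'0
            by_contra hlt
            have h1 := hres (f 0) R' hR' (by omega)
            have h2 := DFunLike.congr_fun h1 (Fin.tail f)
            rw [res_apply, fcons_self_tail] at h2
            exact hf h2)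
          refine ⟨x1 + x2, AddSubgroup.add_mem _ hx1B hx2, ?_⟩
          rw [map_add, hx2']
          abel
      intro z hz
      -- a bound for the heights
      have hbd : ∀ s : Finset (Fin (k + 1) → Submodule K V), ∃ R, ∀ f ∈ s, ∀ R',
          HtLine H E l U (f 0) R' → R' < R := by
        intro s
        induction s using Finset.induction_on with
        | empty => exact ⟨0, by simp⟩
        | insert f s hf ihs =>
          obtain ⟨R, hR⟩ := ihs
          by_cases h : ∃ R', HtLine H E l U (f 0) R'
          · obtain ⟨R1, hR1⟩ := h
            refine ⟨max R (R1 + 1), ?_⟩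
            intro g hg R' hR'
            rcases Finset.mem_insert.mp hg with rfl | hg
            · have := HtLine.unique hl hR' hR1
              subst this
              exact lt_of_lt_of_le (Nat.lt_succ_self _) (le_max_right _ _)
            · exact lt_of_lt_of_le (hR g hg R' hR') (le_max_left _ _)
          · refine ⟨R, ?_⟩
            intro g hg R' hR'
            rcases Finset.mem_insert.mp hg with rfl | hg
            · exact absurd ⟨R', hR'⟩ h
            · exact hR g hg R' hR'
      obtain ⟨R, hR⟩ := hbd z.support
      apply hQ R z hz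
      intro f hf R' hR' _
      exact hR f (Finsupp.mem_support_iff.mpr hf) R' hR'

end Pool.Agent.H4
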