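import Pool.Agent.H4.StD

set_option autoImplicit false
set_option linter.unusedSectionVars false
set_option linter.unusedVariables false

/-! The homological argument. -/

namespace Pool.Agent.H4

open Finsupp Module

variable {O K V M : Type*} [CommRing O] [IsDomain O] [Field K] [Algebra O K]
  [AddCommGroup V] [Module K V] [AddCommGroup M] [Module O M]
  {ι : M →+ V}

/-- The group-theoretic data. -/
structure Dat (H : LatHyp O K V M ι) (G : Type*) [Group G] (k : ℕ) where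
  aM : G →* Module.End O M
  aV : G →* Module.End K V
  compat : ∀ g m, aV g (ι m) = ι (aM g m)
  e : Fin (k + 1) → M
  eB : IsB H ⊥ e
  faith : ∀ g h : G, (∀ i, aM g (e i) = aM h (e i)) → g = h
  trans : ∀ b : Fin (k + 1) → M, IsB H ⊥ b → ∃ h : G,
    (∀ i, i ≠ Fin.last k → aM h (e i) = b i) ∧ ∃ u : Oˣ, aM h (e (Fin.last k)) = u • b (Fin.last k)
  el : ∀ i j : Fin (k + 1), i ≠ j → ∃ g : G, aM g (e i) = e i + e j ∧
    ∀ l, l ≠ i → aM g (e l) = e l
  mon : ∀ (τ : Equiv.Perm (Fin (k + 1))) (w : Fin (k + 1) → Oˣ),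
    (((Equiv.Perm.sign τ : ℤˣ) : ℤ) : O) * ∏ i, (w i : O) = 1 →
    ∃ g : G, ∀ i, aM g (e i) = w i • e (τ i)

variable {H : LatHyp O K V M ι} {G : Type*} [Group G] {k : ℕ}

namespace Dat

variable (D : Dat H G k)

/-- action on chains -/
noncomputable def rho (g : G) : Ch K V k →+ Ch K V k :=
  Finsupp.mapDomain.addMonoidHom (fun (f : Fin k → Submodule K V) j => Submodule.map (D.aV g) (f j))

theorem rho_apply (g : G) (x : Ch K V k) : D.rho g x =
    Finsupp.mapDomain (fun (f : Fin k → Submodule K V) j => Submodule.map (D.aV g) (f j)) x := rfl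

theorem rho_mul (g h : G) (x : Ch K V k) : D.rho (g * h) x = D.rho g (D.rho h x) := by
  rw [rho_apply, rho_apply, rho_apply, ← Finsupp.mapDomain_comp]
  congr 1
  funext f j
  simp only [Function.comp_apply]
  rw [map_mul, Module.End.mul_eq_comp, Submodule.map_comp]

theorem rho_one (x : Ch K V k) : D.rho 1 x = x := by
  rw [rho_apply]
  have : (fun (f : Fin k → Submodule K V) j => Submodule.map (D.aV 1) (f j)) = id := by
    funext f j
    rw [map_one, Module.End.one_eq_id, Submodule.map_id]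
    rfl
  rw [this, Finsupp.mapDomain_id]

theorem aM_inv_aM (g : G) (m : M) : D.aM g⁻¹ (D.aM g m) = m := by
  have : D.aM (g⁻¹ * g) m = m := by rw [inv_mul_cancel, map_one]; rfl
  rw [map_mul] at this
  exact this

theorem aM_aM_inv (g : G) (m : M) : D.aM g (D.aM g⁻¹ m) = m := by
  have : D.aM (g * g⁻¹) m = m := by rw [mul_inv_cancel, map_one]; rfl
  rw [map_mul] at this
  exact this

theorem aM_mul (g h : G) (m : M) : D.aM (g * h) m = D.aM g (D.aM h m) := by
  rw [map_mul]; rfl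

/-- the apartment of a tuple -/
noncomputable def ap (ι : M →+ V) {k : ℕ} (b : Fin (k + 1) → M) : Ch K V k := apt ⊥ (ι ∘ b)

theorem rho_ap (g : G) (b : Fin (k + 1) → M) :
    D.rho g (ap (K := K) ι b) = ap ι (fun i => D.aM g (b i)) := by
  unfold ap
  rw [rho_apply, apt_map, Submodule.map_bot]
  congr 1
  funext i
  simp only [Function.comp_apply]
  exact D.compat g (b i)

theorem UO_bot {m : M} (h : m ∈ UO H (⊥ : Submodule K V)) : m = 0 := by
  have h1 : ι m = 0 := h
  rw [← map_zero ι] at h1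
  exact H.inj h1

theorem isB_act (g : G) {m : ℕ} {b : Fin m → M} (hb : IsB H ⊥ b) :
    IsB H ⊥ (fun i => D.aM g (b i)) := by
  unfold IsB
  rw [eq_top_iff]
  intro x _
  have hx : D.aM g⁻¹ x ∈ Submodule.span O (Set.range b) ⊔ UO H ⊥ := by
    rw [show Submodule.span O (Set.range b) ⊔ UO H ⊥ = ⊤ from hb]; trivial
  obtain ⟨y, hy, z, hz, hyz⟩ := Submodule.mem_sup.mp hx
  have hz0 : z = 0 := UO_bot hz
  rw [hz0, add_zero] at hyz
  rw [hyz] at hy
  apply Submodule.mem_sup_left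
  have h1 : D.aM g (D.aM g⁻¹ x) ∈ Submodule.map (D.aM g) (Submodule.span O (Set.range b)) :=
    ⟨_, hy, rfl⟩
  rw [D.aM_aM_inv, Submodule.map_span, ← Set.range_comp] at h1
  exact h1

/-- bar differential -/
noncomputable def D2 : ((G × G) →₀ Ch K V k) →+ (G →₀ Ch K V k) :=
  Finsupp.liftAddHom (fun p =>
    (Finsupp.singleAddHom p.2).comp (D.rho p.1⁻¹) - Finsupp.singleAddHom (p.1 * p.2)
      + Finsupp.singleAddHom p.1)

theorem D2_apply (w : (G × G) →₀ Ch K V k) : D.D2 w = w.sum (fun p x =>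
    Finsupp.single p.2 (D.rho p.1⁻¹ x) - Finsupp.single (p.1 * p.2) x + Finsupp.single p.1 x) := by
  unfold D2
  rw [Finsupp.liftAddHom_apply]
  congr 1

/-- chains with coefficients in the Steinberg group -/
def stG (T : Type*) (A : AddSubgroup (Ch K V k)) : AddSubgroup (T →₀ Ch K V k) where
  carrier := {w | ∀ p, w p ∈ A}
  zero_mem' := by intro p; exact A.zero_mem
  add_mem' := by
    intro a b ha hb p
    rw [Finsupp.add_apply]; exact A.add_mem (ha p) (hb p)
  neg_mem' := by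
    intro a ha p
    rw [Finsupp.neg_apply]; exact A.neg_mem (ha p)

/-- boundaries -/
noncomputable def Bd : AddSubgroup (G →₀ Ch K V k) :=
  AddSubgroup.map D.D2 (stG (G × G) (St k (⊥ : Submodule K V)))

/-- chains modulo boundaries -/
def Q : Type _ := (G →₀ Ch K V k) ⧸ D.Bd

noncomputable instance : AddCommGroup D.Q :=
  inferInstanceAs (AddCommGroup ((G →₀ Ch K V k) ⧸ D.Bd))

/-- the quotient map -/
noncomputable def q : (G →₀ Ch K V k) →+ D.Q := QuotientAddGroup.mk' D.Bd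

theorem q_eq_zero {x : G →₀ Ch K V k} : D.q x = 0 ↔ x ∈ D.Bd := by
  unfold q
  exact QuotientAddGroup.eq_zero_iff x

/-- the class of `[g] ⊗ x` -/
noncomputable def c (g : G) : Ch K V k →+ D.Q :=
  D.q.comp (Finsupp.singleAddHom g)

theorem c_mul (g h : G) {x : Ch K V k} (hx : x ∈ St k (⊥ : Submodule K V)) :
    D.c (g * h) x = D.c g x + D.c h (D.rho g⁻¹ x) := by
  classical
  have h1 : D.D2 (Finsupp.single (g, h) x) ∈ D.Bd := by
    refine ⟨Finsupp.single (g, h) x, ?_, rfl⟩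
    intro p
    rw [Finsupp.single_apply]
    split_ifs
    · exact hx
    · exact AddSubgroup.zero_mem _
  rw [D2_apply, Finsupp.sum_single_index (by simp)] at h1
  have h2 : D.q (Finsupp.single h (D.rho g⁻¹ x)
      - Finsupp.single (g * h) x + Finsupp.single g x) = 0 := D.q_eq_zero.mpr h1
  rw [map_add, map_sub] at h2
  have h3 : D.c h (D.rho g⁻¹ x) - D.c (g * h) x + D.c g x = 0 := h2
  have h4 : D.c (g * h) x = D.c h (D.rho g⁻¹ x) + D.c g x := by
    rw [← sub_eq_zero, ← neg_eq_zero, ← h3]; abel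
  rw [h4, add_comm]

theorem c_one {x : Ch K V k} (hx : x ∈ St k (⊥ : Submodule K V)) : D.c 1 x = 0 := by
  have h := D.c_mul 1 1 hx
  rw [inv_one, rho_one, mul_one] at h
  have h2 : D.c 1 x + D.c 1 x = D.c 1 x := h.symm
  exact add_eq_left.mp h2

variable [FiniteDimensional K V]

theorem ap_mem (hV : finrank K V = k + 1) {b : Fin (k + 1) → M} (hb : IsB H ⊥ b) :
    ap (K := K) ι b ∈ St k (⊥ : Submodule K V) := by
  apply apt_mem_St (H := H) _ hb
  rw [finrank_bot]; omega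

/-- the class `[g] ⊗ apt e` -/
noncomputable def A (g : G) : D.Q := D.c g (ap ι D.e)

theorem c_rho (hV : finrank K V = k + 1) (g h : G) :
    D.c g (D.rho h (ap ι D.e)) = D.A (h⁻¹ * g) - D.A h⁻¹ := by
  have hm : D.rho h (ap ι D.e) ∈ St k (⊥ : Submodule K V) := by
    rw [rho_ap]
    exact ap_mem hV (D.isB_act h D.eB)
  have h1 := D.c_mul h (h⁻¹ * g) hm
  rw [mul_inv_cancel_left, ← rho_mul, inv_mul_cancel, rho_one] at h1
  have h2 := D.c_mul h h⁻¹ hm
  rw [mul_inv_cancel, D.c_one hm, ← rho_mul, inv_mul_cancel, rho_one] at h2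
  have h3 : D.c h (D.rho h (ap ι D.e)) = - D.A h⁻¹ := eq_neg_of_add_eq_zero_left h2.symm
  rw [h1, h3]
  unfold A
  abel

/-- `g` is monomial with permutation `σ` and units `w`. -/
def Mon (g : G) (σ : Equiv.Perm (Fin (k + 1))) (w : Fin (k + 1) → Oˣ) : Prop :=
  ∀ i, D.aM g (D.e i) = w i • D.e (σ i)

theorem Mon.mul {D : Dat H G k} {g h : G} {σ τ : Equiv.Perm (Fin (k + 1))}
    {w x : Fin (k + 1) → Oˣ} (hg : D.Mon g σ w) (hh : D.Mon h τ x) :
    D.Mon (g * h) (σ * τ) (fun i => x i * w (τ i)) := by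
  intro i
  rw [D.aM_mul, hh i]
  have : D.aM g (x i • D.e (τ i)) = x i • D.aM g (D.e (τ i)) := by
    exact map_smul (D.aM g) (x i : O) (D.e (τ i))
  rw [this, hg (τ i), smul_smul]
  rfl

theorem Mon.inv {D : Dat H G k} {g : G} {σ : Equiv.Perm (Fin (k + 1))}
    {w : Fin (k + 1) → Oˣ} (hg : D.Mon g σ w) :
    D.Mon g⁻¹ σ⁻¹ (fun i => (w (σ⁻¹ i))⁻¹) := by
  intro i
  have h1 := hg (σ⁻¹ i)
  have hσ : σ (σ⁻¹ i) = i := by simp
  rw [hσ] at h1
  have h2 : D.e i = (w (σ⁻¹ i))⁻¹ • D.aM g (D.e (σ⁻¹ i)) := by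
    rw [h1, inv_smul_smul]
  rw [h2]
  have : D.aM g⁻¹ ((w (σ⁻¹ i))⁻¹ • D.aM g (D.e (σ⁻¹ i)))
      = (w (σ⁻¹ i))⁻¹ • D.aM g⁻¹ (D.aM g (D.e (σ⁻¹ i))) := by
    exact map_smul (D.aM g⁻¹) (((w (σ⁻¹ i))⁻¹ : Oˣ) : O) _
  rw [this, D.aM_inv_aM]

omit [FiniteDimensional K V] in
theorem smul_line (H : LatHyp O K V M ι) {v : M} (u : Oˣ) :
    (⊥ : Submodule K V) ⊔ Submodule.span K {ι (u • v)} = ⊥ ⊔ Submodule.span K {ι v} := by
  apply line_eq_of_equiv (H := H) (u := u)
  rw [sub_self]; exact Submodule.zero_mem _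

theorem rho_mon {g : G} {σ : Equiv.Perm (Fin (k + 1))} {w : Fin (k + 1) → Oˣ}
    (hg : D.Mon g σ w) :
    D.rho g (ap ι D.e) = ((Equiv.Perm.sign σ : ℤˣ) : ℤ) • (ap (K := K) ι D.e) := by
  rw [rho_ap]
  unfold ap
  rw [← apt_perm]
  apply apt_congr
  intro i
  simp only [Function.comp_apply]
  rw [hg i]
  exact smul_line H (w i)

theorem A_mul_of_mon (hV : finrank K V = k + 1) {g : G} {σ : Equiv.Perm (Fin (k + 1))}
    {w : Fin (k + 1) → Oˣ} (hg : D.Mon g σ w) (h : G) :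
    D.A (g * h) = D.A g + ((Equiv.Perm.sign σ : ℤˣ) : ℤ) • D.A h := by
  unfold A
  rw [D.c_mul g h (ap_mem hV D.eB), D.rho_mon hg.inv, map_zsmul, Equiv.Perm.sign_inv]

theorem A_one (hV : finrank K V = k + 1) : D.A 1 = 0 := D.c_one (ap_mem hV D.eB)

theorem sign_mul_self' (σ : Equiv.Perm (Fin (k + 1))) :
    ((Equiv.Perm.sign σ : ℤˣ) : ℤ) * ((Equiv.Perm.sign σ : ℤˣ) : ℤ) = 1 :=
  Int.units_coe_mul_self _

theorem A_inv_of_mon (hV : finrank K V = k + 1) {g : G} {σ : Equiv.Perm (Fin (k + 1))}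
    {w : Fin (k + 1) → Oˣ} (hg : D.Mon g σ w) :
    D.A g⁻¹ = -(((Equiv.Perm.sign σ : ℤˣ) : ℤ) • D.A g) := by
  have h := D.A_mul_of_mon hV hg g⁻¹
  rw [mul_inv_cancel, D.A_one hV] at h
  have h2 : ((Equiv.Perm.sign σ : ℤˣ) : ℤ) • (D.A g + ((Equiv.Perm.sign σ : ℤˣ) : ℤ) • D.A g⁻¹)
      = 0 := by rw [← h, smul_zero]
  rw [zsmul_add, smul_smul, sign_mul_self', one_smul] at h2
  exact eq_neg_of_add_eq_zero_right h2


/-! ### The element `psi0` -/

/-- Two distinguished indices together with the group elements of the three term relation. -/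
structure Pq (D : Dat H G k) where
  p : Fin (k + 1)
  q : Fin (k + 1)
  hpq : p ≠ q
  hp : p ≠ Fin.last k
  hq : q ≠ Fin.last k
  g1 : G
  g2 : G
  g1p : D.aM g1 (D.e p) = D.e p + D.e q
  g1n : ∀ l, l ≠ p → D.aM g1 (D.e l) = D.e l
  g2p : D.aM g2 (D.e p) = D.e p + D.e q
  g2q : D.aM g2 (D.e q) = - D.e p
  g2n : ∀ l, l ≠ p → l ≠ q → D.aM g2 (D.e l) = D.e l

variable {D} (P : Pq D)

noncomputable def psi0 : D.Q := D.A P.g1⁻¹ - D.A P.g2⁻¹

omit [FiniteDimensional K V] in
theorem rel0 : ap (K := K) ι D.e - D.rho P.g1 (ap ι D.e) + D.rho P.g2 (ap ι D.e) = 0 := by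
  rw [rho_ap, rho_ap]
  have h := apt_three (⊥ : Submodule K V) (ι ∘ D.e) P.p P.q P.hpq
  have e1 : ap (K := K) ι (fun i => D.aM P.g1 (D.e i))
      = apt ⊥ (Function.update (ι ∘ D.e) P.p ((ι ∘ D.e) P.p + (ι ∘ D.e) P.q)) := by
    unfold ap
    congr 1
    funext i
    by_cases hi : i = P.p
    · subst hi
      rw [Function.update_self, Function.comp_apply, P.g1p, map_add]
      rfl
    · rw [Function.update_of_ne hi, Function.comp_apply, P.g1n i hi]
      rfl
  have e2 : ap (K := K) ι (fun i => D.aM P.g2 (D.e i))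
      = apt ⊥ (Function.update (Function.update (ι ∘ D.e) P.p ((ι ∘ D.e) P.p + (ι ∘ D.e) P.q))
        P.q ((ι ∘ D.e) P.p)) := by
    unfold ap
    apply apt_congr
    intro i
    by_cases hq : i = P.q
    · subst hq
      rw [Function.update_self, Function.comp_apply, P.g2q]
      have := smul_line (K := K) H (v := D.e P.p) (-1)
      rw [Units.neg_smul, one_smul] at this
      exact this
    · rw [Function.update_of_ne hq]
      by_cases hi : i = P.p
      · subst hi
        rw [Function.update_self, Function.comp_apply, P.g2p, map_add]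
        rfl
      · rw [Function.update_of_ne hi, Function.comp_apply, P.g2n i hi hq]
        rfl
  rw [e1, e2]
  exact h

theorem A_fix (hV : finrank K V = k + 1) {s : G} {σ : Equiv.Perm (Fin (k + 1))}
    {w : Fin (k + 1) → Oˣ} (hs : D.Mon s σ w) (h1 : σ P.p = P.p) (h2 : σ P.q = P.q)
    (h3 : w P.p = 1) (h4 : w P.q = 1) :
    D.A s = (((Equiv.Perm.sign σ : ℤˣ) : ℤ) - 1) • psi0 P := by
  have hsp : D.aM s (D.e P.p) = D.e P.p := by rw [hs P.p, h1, h3, one_smul]
  have hsq : D.aM s (D.e P.q) = D.e P.q := by rw [hs P.q, h2, h4, one_smul]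
  have hsm : ∀ (g : G) (u : Oˣ) (v : M), D.aM g (u • v) = u • D.aM g v := by
    intro g u v
    exact map_smul (D.aM g) (u : O) v
  have c1 : s * P.g1 = P.g1 * s := by
    apply D.faith
    intro i
    rw [D.aM_mul, D.aM_mul]
    by_cases hi : i = P.p
    · subst hi
      rw [P.g1p, map_add, hsp, hsq, P.g1p]
    · rw [P.g1n i hi, hs i, hsm, P.g1n]
      intro h
      apply hi
      rw [← h1] at h
      exact σ.injective h
  have c2 : s * P.g2 = P.g2 * s := by
    apply D.faith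
    intro i
    rw [D.aM_mul, D.aM_mul]
    by_cases hi : i = P.p
    · subst hi
      rw [P.g2p, map_add, hsp, hsq, P.g2p]
    · by_cases hq : i = P.q
      · subst hq
        rw [P.g2q, map_neg, hsp, hsq, P.g2q]
      · rw [P.g2n i hi hq, hs i, hsm, P.g2n]
        · intro h
          apply hi
          rw [← h1] at h
          exact σ.injective h
        · intro h
          apply hq
          rw [← h2] at h
          exact σ.injective h
  have r := congrArg (D.c s) (rel0 P)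
  rw [map_add, map_sub, map_zero, D.c_rho hV, D.c_rho hV] at r
  have d1 : P.g1⁻¹ * s = s * P.g1⁻¹ := by
    rw [inv_mul_eq_iff_eq_mul, ← mul_assoc, ← c1, mul_assoc, mul_inv_cancel, mul_one]
  have d2 : P.g2⁻¹ * s = s * P.g2⁻¹ := by
    rw [inv_mul_eq_iff_eq_mul, ← mul_assoc, ← c2, mul_assoc, mul_inv_cancel, mul_one]
  rw [d1, d2, D.A_mul_of_mon hV hs, D.A_mul_of_mon hV hs] at r
  have h0 : D.c s (ap ι D.e) = D.A s := rfl
  rw [h0] at r
  unfold psi0
  rw [← sub_eq_zero, ← r]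
  rw [sub_smul, one_smul, zsmul_sub]
  abel


/-- units correcting the determinant -/
theorem exists_units (τ : Equiv.Perm (Fin (k + 1))) (l0 : Fin (k + 1)) :
    ∃ x : Fin (k + 1) → Oˣ, (∀ i, i ≠ l0 → x i = 1) ∧
      (((Equiv.Perm.sign τ : ℤˣ) : ℤ) : O) * ∏ i, (x i : O) = 1 := by
  set u : Oˣ := Units.map (Int.castRingHom O).toMonoidHom (Equiv.Perm.sign τ) with hu
  refine ⟨Function.update (fun _ => 1) l0 u, ?_, ?_⟩
  · intro i hi
    rw [Function.update_of_ne hi]
  · rw [Finset.prod_eq_single l0]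
    · rw [Function.update_self]
      have : (u : O) = (((Equiv.Perm.sign τ : ℤˣ) : ℤ) : O) := by
        rw [hu]; rfl
      rw [this, ← Int.cast_mul, Int.units_coe_mul_self, Int.cast_one]
    · intro i _ hi
      rw [Function.update_of_ne hi]; rfl
    · intro h; exact absurd (Finset.mem_univ _) h

theorem exists_perm {p q i j : Fin (k + 1)} (hpq : p ≠ q) (hij : i ≠ j) :
    ∃ τ : Equiv.Perm (Fin (k + 1)), τ p = i ∧ τ q = j := by
  refine ⟨Equiv.swap (Equiv.swap p i q) j * Equiv.swap p i, ?_, ?_⟩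
  · rw [Equiv.Perm.mul_apply, Equiv.swap_apply_left]
    apply Equiv.swap_apply_of_ne_of_ne
    · intro h
      have : Equiv.swap p i p = Equiv.swap p i q := by rw [Equiv.swap_apply_left]; exact h
      exact hpq ((Equiv.swap p i).injective this)
    · exact hij
  · rw [Equiv.Perm.mul_apply, Equiv.swap_apply_left]

theorem exists_third (hk : 5 ≤ k) (a b c : Fin (k + 1)) : ∃ l, l ≠ a ∧ l ≠ b ∧ l ≠ c := by
  by_contra h
  push Not at h
  have h1 : (Finset.univ : Finset (Fin (k + 1))) ⊆ {a, b, c} := by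
    intro l _
    by_cases ha : l = a
    · simp [ha]
    · by_cases hb : l = b
      · simp [hb]
      · simp [h l ha hb]
  have h2 := Finset.card_le_card h1
  have h3 : ({a, b, c} : Finset (Fin (k + 1))).card ≤ 3 := Finset.card_le_three
  rw [Finset.card_univ, Fintype.card_fin] at h2
  omega

theorem exists_two_more (hk : 5 ≤ k) (a b c : Fin (k + 1)) :
    ∃ l m, l ≠ m ∧ l ≠ a ∧ l ≠ b ∧ l ≠ c ∧ m ≠ a ∧ m ≠ b ∧ m ≠ c := by
  obtain ⟨l, hl⟩ := exists_third hk a b c
  have : ∃ m, m ≠ a ∧ m ≠ b ∧ m ≠ c ∧ m ≠ l := by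
    by_contra h
    push Not at h
    have h1 : (Finset.univ : Finset (Fin (k + 1))) ⊆ {a, b, c, l} := by
      intro m _
      by_cases ha : m = a
      · simp [ha]
      · by_cases hb : m = b
        · simp [hb]
        · by_cases hc : m = c
          · simp [hc]
          · simp [h m ha hb hc]
    have h2 := Finset.card_le_card h1
    have h3 : ({a, b, c, l} : Finset (Fin (k + 1))).card ≤ 4 := Finset.card_le_four
    rw [Finset.card_univ, Fintype.card_fin] at h2
    omega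
  obtain ⟨m, ha, hb, hc, hm⟩ := this
  exact ⟨l, m, hm.symm, hl.1, hl.2.1, hl.2.2, ha, hb, hc⟩

/-- even monomial elements fixing two basis vectors -/
theorem A_fix_two (P : Pq D) (hk : 5 ≤ k) (hV : finrank K V = k + 1) {s : G} {σ : Equiv.Perm (Fin (k + 1))}
    {w : Fin (k + 1) → Oˣ} (hs : D.Mon s σ w) {i j : Fin (k + 1)} (hij : i ≠ j)
    (hi : σ i = i) (hj : σ j = j) (hwi : w i = 1) (hwj : w j = 1)
    (hsg : Equiv.Perm.sign σ = 1) : D.A s = 0 := by
  obtain ⟨τ, hτp, hτq⟩ := exists_perm P.hpq hij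
  obtain ⟨l0, hl0, hl0', _⟩ := exists_third hk P.p P.q P.q
  obtain ⟨x, hx1, hx2⟩ := exists_units (O := O) τ l0
  obtain ⟨t, ht⟩ := D.mon τ x hx2
  have htM : D.Mon t τ x := ht
  have hc := (htM.inv.mul (hs.mul htM))
  have e1 : τ⁻¹ i = P.p := by rw [Equiv.Perm.inv_eq_iff_eq]; exact hτp.symm
  have e2 : τ⁻¹ j = P.q := by rw [Equiv.Perm.inv_eq_iff_eq]; exact hτq.symm
  have h1 := A_fix P hV hc
    (by simp only [Equiv.Perm.mul_apply]; rw [hτp, hi, e1])
    (by simp only [Equiv.Perm.mul_apply]; rw [hτq, hj, e2])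
    (by
      simp only [Equiv.Perm.mul_apply]
      rw [hτp, hi, e1, hwi, hx1 _ hl0.symm]; simp)
    (by
      simp only [Equiv.Perm.mul_apply]
      rw [hτq, hj, e2, hwj, hx1 _ hl0'.symm]; simp)
  have hsgn : Equiv.Perm.sign (τ⁻¹ * (σ * τ)) = 1 := by
    rw [map_mul, map_mul, hsg, one_mul, Equiv.Perm.sign_inv]
    exact Int.units_mul_self _
  rw [hsgn] at h1
  simp only [Units.val_one, sub_self, zero_smul] at h1
  -- now s = t (t⁻¹ s t) t⁻¹
  have e3 : s = t * ((t⁻¹ * (s * t)) * t⁻¹) := by group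
  rw [e3, D.A_mul_of_mon hV htM, D.A_mul_of_mon hV hc, h1, hsgn, D.A_inv_of_mon hV htM]
  simp only [Units.val_one, one_smul, zero_add, zsmul_neg, smul_smul, sign_mul_self']
  abel

/-- correcting one basis vector -/
theorem exists_correct (P : Pq D) (hk : 5 ≤ k) (hV : finrank K V = k + 1) {s : G}
    {σ : Equiv.Perm (Fin (k + 1))} {w : Fin (k + 1) → Oˣ} (hs : D.Mon s σ w) (i c : Fin (k + 1))
    (hci : c ≠ i) : ∃ (h : G) (τ : Equiv.Perm (Fin (k + 1))) (x : Fin (k + 1) → Oˣ),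
      D.Mon h τ x ∧ Equiv.Perm.sign τ = 1 ∧ D.A h = 0 ∧ τ (σ i) = i ∧ w i * x (σ i) = 1 ∧
      (σ c = c → τ c = c ∧ x c = 1) := by
  classical
  obtain ⟨l, hli, hlj, hlc⟩ := exists_third hk i (σ i) c
  obtain ⟨m1, m2, hm, h1a, h1b, h1c, h2a, h2b, h2c⟩ := exists_two_more hk i (σ i) l
  set x : Fin (k + 1) → Oˣ := Function.update (Function.update (fun _ => 1) (σ i) (w i)⁻¹) l (w i)
    with hx
  have xl : x l = w i := by simp [hx]
  have xj : x (σ i) = (w i)⁻¹ := by simp [hx, hlj.symm]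
  have xo : ∀ m, m ≠ σ i → m ≠ l → x m = 1 := by
    intro m h1 h2; simp [hx, h1, h2]
  have hprod : ∏ m, (x m : O) = 1 := by
    rw [← Finset.prod_subset (s₁ := {σ i, l}) (Finset.subset_univ _)]
    · rw [Finset.prod_pair hlj.symm, xl, xj]; simp
    · intro m _ hm'
      simp only [Finset.mem_insert, Finset.mem_singleton, not_or] at hm'
      rw [xo m hm'.1 hm'.2]; rfl
  set τ : Equiv.Perm (Fin (k + 1)) :=
    if σ i = i then 1 else Equiv.swap i (σ i) * Equiv.swap i l with hτ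
  have hsg : Equiv.Perm.sign τ = 1 := by
    rw [hτ]
    split_ifs with h
    · exact map_one _
    · rw [map_mul, Equiv.Perm.sign_swap (Ne.symm h), Equiv.Perm.sign_swap hli.symm]; rfl
  have hτj : τ (σ i) = i := by
    rw [hτ]
    split_ifs with h
    · rw [Equiv.Perm.one_apply]; exact h
    · rw [Equiv.Perm.mul_apply, Equiv.swap_apply_of_ne_of_ne h hlj.symm, Equiv.swap_apply_right]
  have hτo : ∀ m, m ≠ i → m ≠ σ i → m ≠ l → τ m = m := by
    intro m h1 h2 h3
    rw [hτ]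
    split_ifs with h
    · rfl
    · rw [Equiv.Perm.mul_apply, Equiv.swap_apply_of_ne_of_ne h1 h3,
        Equiv.swap_apply_of_ne_of_ne h1 h2]
  obtain ⟨h, hh⟩ := D.mon τ x (by rw [hsg, hprod]; simp)
  have hM : D.Mon h τ x := hh
  refine ⟨h, τ, x, hM, hsg, ?_, hτj, ?_, ?_⟩
  · exact A_fix_two P hk hV hM hm (hτo m1 h1a h1b h1c) (hτo m2 h2a h2b h2c)
      (xo m1 h1b h1c) (xo m2 h2b h2c) hsg
  · rw [xj, mul_inv_cancel]
  · intro hσc
    have hcj : c ≠ σ i := by
      intro h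
      apply hci
      rw [← hσc] at h
      exact σ.injective h
    exact ⟨hτo c hci hcj hlc.symm, xo c hcj hlc.symm⟩

/-- even monomial elements -/
theorem A_even (P : Pq D) (hk : 5 ≤ k) (hV : finrank K V = k + 1) {s : G}
    {σ : Equiv.Perm (Fin (k + 1))} {w : Fin (k + 1) → Oˣ} (hs : D.Mon s σ w)
    (hsg : Equiv.Perm.sign σ = 1) : D.A s = 0 := by
  obtain ⟨h1, τ1, x1, hM1, hs1, hA1, ha1, hb1, _⟩ :=
    exists_correct P hk hV hs P.p P.q P.hpq.symm
  have hs' := hM1.mul hs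
  obtain ⟨h2, τ2, x2, hM2, hs2, hA2, ha2, hb2, hc2⟩ :=
    exists_correct P hk hV hs' P.q P.p P.hpq
  have hs'' := hM2.mul hs'
  have hfix : (τ1 * σ) P.p = P.p := ha1
  obtain ⟨hc2a, hc2b⟩ := hc2 hfix
  have hA : D.A (h2 * (h1 * s)) = 0 := by
    apply A_fix_two P hk hV hs'' P.hpq
    · rw [Equiv.Perm.mul_apply, hfix, hc2a]
    · exact ha2
    · simp only [Equiv.Perm.mul_apply]
      rw [ha1, hc2b, mul_one, hb1]
    · exact hb2
    · rw [map_mul, map_mul, hs2, hs1, hsg]; rfl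
  rw [D.A_mul_of_mon hV hM2, D.A_mul_of_mon hV hM1, hA1, hA2, hs1, hs2] at hA
  simpa using hA

theorem A_mon (P : Pq D) (hk : 5 ≤ k) (hV : finrank K V = k + 1) {s : G}
    {σ : Equiv.Perm (Fin (k + 1))} {w : Fin (k + 1) → Oˣ} (hs : D.Mon s σ w) :
    D.A s = (((Equiv.Perm.sign σ : ℤˣ) : ℤ) - 1) • psi0 P := by
  rcases Int.units_eq_one_or (Equiv.Perm.sign σ) with hsg | hsg
  · rw [A_even P hk hV hs hsg, hsg]; simp
  · obtain ⟨l, m, hlm, h1a, h1b, _, h2a, h2b, _⟩ := exists_two_more hk P.p P.q P.q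
    obtain ⟨x, hx1, hx2⟩ := exists_units (O := O) (Equiv.swap l m) l
    obtain ⟨t, ht⟩ := D.mon _ x hx2
    have htM : D.Mon t (Equiv.swap l m) x := ht
    have hAt := A_fix P hV htM (Equiv.swap_apply_of_ne_of_ne h1a.symm h2a.symm)
      (Equiv.swap_apply_of_ne_of_ne h1b.symm h2b.symm) (hx1 _ h1a.symm) (hx1 _ h1b.symm)
    have hst := hs.mul htM
    have h0 := A_even P hk hV hst (by
      rw [map_mul, hsg, Equiv.Perm.sign_swap hlm]; rfl)
    rw [D.A_mul_of_mon hV hs, hAt, hsg, Equiv.Perm.sign_swap hlm] at h0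
    rw [hsg]
    simp only [Units.val_neg, Units.val_one] at h0 ⊢
    rw [← sub_eq_zero, ← h0, neg_smul, one_smul]
    abel


/-! ### The inverse map on symbols -/

theorem smul_aM (g : G) (u : Oˣ) (v : M) : D.aM g (u • v) = u • D.aM g v :=
  map_smul (D.aM g) (u : O) v

/-- the value on a basis symbol -/
noncomputable def F (P : Pq D) (b : Fin (k + 1) → M) : D.Q := by
  classical
  exact if h : IsB H ⊥ b then psi0 P + D.A (D.trans b h).choose⁻¹ else 0

theorem F_eq (P : Pq D) (hk : 5 ≤ k) (hV : finrank K V = k + 1) {b : Fin (k + 1) → M}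
    (hb : IsB H ⊥ b) {h : G} (hh : ∀ i, ∃ u : Oˣ, D.aM h (D.e i) = u • b i) :
    F P b = psi0 P + D.A h⁻¹ := by
  unfold F
  rw [dif_pos hb]
  congr 1
  obtain ⟨h1, u1, h2⟩ := (D.trans b hb).choose_spec
  set h' := (D.trans b hb).choose
  have hh' : ∀ i, ∃ u : Oˣ, D.aM h' (D.e i) = u • b i := by
    intro i
    by_cases hi : i = Fin.last k
    · subst hi; exact ⟨u1, h2⟩
    · exact ⟨1, by rw [one_smul]; exact h1 i hi⟩
  choose u hu using hh
  choose u' hu' using hh'
  -- s = h⁻¹ h'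
  have hs : D.Mon (h⁻¹ * h') 1 (fun i => u' i * (u i)⁻¹) := by
    intro i
    rw [D.aM_mul, hu' i]
    have h3 : b i = (u i)⁻¹ • D.aM h (D.e i) := by rw [hu i, inv_smul_smul]
    rw [h3, smul_smul, smul_aM, D.aM_inv_aM]
    rfl
  have e1 : h'⁻¹ = (h⁻¹ * h')⁻¹ * h⁻¹ := by group
  have hsi := hs.inv
  rw [e1, D.A_mul_of_mon hV hsi, A_mon P hk hV hsi]
  simp

theorem F_equiv (P : Pq D) (hk : 5 ≤ k) (hV : finrank K V = k + 1) {b b' : Fin (k + 1) → M}
    (hb : IsB H ⊥ b) (h : ∀ i, ∃ u : Oˣ, b' i - u • b i ∈ UO H ⊥) : F P b' = F P b := by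
  have hb' := hb.equiv h
  obtain ⟨g, h1, u1, h2⟩ := D.trans b hb
  have hg : ∀ i, ∃ u : Oˣ, D.aM g (D.e i) = u • b i := by
    intro i
    by_cases hi : i = Fin.last k
    · subst hi; exact ⟨u1, h2⟩
    · exact ⟨1, by rw [one_smul]; exact h1 i hi⟩
  rw [F_eq P hk hV hb hg, F_eq P hk hV hb']
  intro i
  obtain ⟨u, hu⟩ := hg i
  obtain ⟨u', hu'⟩ := h i
  have h3 : b' i = u' • b i := sub_eq_zero.mp (UO_bot hu')
  refine ⟨u * u'⁻¹, ?_⟩
  rw [h3, smul_smul, inv_mul_cancel_right, hu]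

theorem F_perm (P : Pq D) (hk : 5 ≤ k) (hV : finrank K V = k + 1) {b : Fin (k + 1) → M}
    (hb : IsB H ⊥ b) (τ : Equiv.Perm (Fin (k + 1))) :
    F P (b ∘ τ) = ((Equiv.Perm.sign τ : ℤˣ) : ℤ) • F P b := by
  obtain ⟨g, h1, u1, h2⟩ := D.trans b hb
  have hg : ∀ i, ∃ u : Oˣ, D.aM g (D.e i) = u • b i := by
    intro i
    by_cases hi : i = Fin.last k
    · subst hi; exact ⟨u1, h2⟩
    · exact ⟨1, by rw [one_smul]; exact h1 i hi⟩
  obtain ⟨x, hx1, hx2⟩ := exists_units (O := O) τ (Fin.last k)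
  obtain ⟨t, ht⟩ := D.mon _ x hx2
  have htM : D.Mon t τ x := ht
  rw [F_eq P hk hV hb hg, F_eq P hk hV (hb.perm τ) (h := g * t)]
  · rw [mul_inv_rev, D.A_mul_of_mon hV htM.inv, A_mon P hk hV htM.inv, Equiv.Perm.sign_inv,
      sub_smul, one_smul, zsmul_add]
    abel
  · intro i
    obtain ⟨u, hu⟩ := hg (τ i)
    refine ⟨x i * u, ?_⟩
    rw [D.aM_mul, ht i, smul_aM, hu, smul_smul, Function.comp_apply]

theorem F_three_pq (P : Pq D) (hk : 5 ≤ k) (hV : finrank K V = k + 1) {b : Fin (k + 1) → M}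
    (hb : IsB H ⊥ b) :
    F P b - F P (Function.update b P.p (b P.p + b P.q))
      + F P (Function.update (Function.update b P.p (b P.p + b P.q)) P.q (b P.p)) = 0 := by
  obtain ⟨g, h1, u1, h2⟩ := D.trans b hb
  have hgp := h1 P.p P.hp
  have hgq := h1 P.q P.hq
  have hg : ∀ i, ∃ u : Oˣ, D.aM g (D.e i) = u • b i := by
    intro i
    by_cases hi : i = Fin.last k
    · subst hi; exact ⟨u1, h2⟩
    · exact ⟨1, by rw [one_smul]; exact h1 i hi⟩
  have f1 := F_eq P hk hV hb hg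
  have f2 := F_eq P hk hV (hb.add P.hpq) (h := g * P.g1) (by
    intro i
    rw [D.aM_mul]
    by_cases hi : i = P.p
    · subst hi
      refine ⟨1, ?_⟩
      rw [P.g1p, map_add, hgp, hgq, Function.update_self, one_smul]
    · rw [P.g1n i hi, Function.update_of_ne hi]
      exact hg i)
  have f3 := F_eq P hk hV (hb.add2 P.hpq) (h := g * P.g2) (by
    intro i
    rw [D.aM_mul]
    by_cases hq : i = P.q
    · subst hq
      refine ⟨-1, ?_⟩
      rw [P.g2q, map_neg, hgp, Function.update_self, Units.neg_smul, one_smul]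
    · rw [Function.update_of_ne hq]
      by_cases hi : i = P.p
      · subst hi
        refine ⟨1, ?_⟩
        rw [P.g2p, map_add, hgp, hgq, Function.update_self, one_smul]
      · rw [P.g2n i hi hq, Function.update_of_ne hi]
        exact hg i)
  rw [f1, f2, f3]
  have hm : ap (K := K) ι D.e ∈ St k (⊥ : Submodule K V) := ap_mem hV D.eB
  have a1 : D.A (g * P.g1)⁻¹ = D.A P.g1⁻¹ + D.c g⁻¹ (D.rho P.g1 (ap ι D.e)) := by
    unfold A
    rw [mul_inv_rev, D.c_mul _ _ hm, inv_inv]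
  have a2 : D.A (g * P.g2)⁻¹ = D.A P.g2⁻¹ + D.c g⁻¹ (D.rho P.g2 (ap ι D.e)) := by
    unfold A
    rw [mul_inv_rev, D.c_mul _ _ hm, inv_inv]
  have a3 : D.A g⁻¹ = D.c g⁻¹ (ap ι D.e) := rfl
  have r := congrArg (D.c g⁻¹) (rel0 P)
  rw [map_add, map_sub, map_zero] at r
  rw [a1, a2, a3]
  unfold psi0
  rw [← r]
  abel

theorem F_three (P : Pq D) (hk : 5 ≤ k) (hV : finrank K V = k + 1) {b : Fin (k + 1) → M}
    (hb : IsB H ⊥ b) {i j : Fin (k + 1)} (hij : i ≠ j) :
    F P b - F P (Function.update b i (b i + b j))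
      + F P (Function.update (Function.update b i (b i + b j)) j (b i)) = 0 := by
  obtain ⟨τ, hτp, hτq⟩ := exists_perm P.hpq hij
  have hinj : ∀ m, m ≠ P.p → τ m ≠ i := by
    intro m hm h
    apply hm
    rw [← hτp] at h
    exact τ.injective h
  have hinj' : ∀ m, m ≠ P.q → τ m ≠ j := by
    intro m hm h
    apply hm
    rw [← hτq] at h
    exact τ.injective h
  have e1 : Function.update (b ∘ τ) P.p ((b ∘ τ) P.p + (b ∘ τ) P.q)
      = (Function.update b i (b i + b j)) ∘ τ := by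
    funext m
    by_cases hm : m = P.p
    · subst hm
      simp [hτp, hτq]
    · simp [hm, hinj m hm]
  have e2 : Function.update (Function.update (b ∘ τ) P.p ((b ∘ τ) P.p + (b ∘ τ) P.q)) P.q
      ((b ∘ τ) P.p) = (Function.update (Function.update b i (b i + b j)) j (b i)) ∘ τ := by
    rw [e1]
    funext m
    by_cases hm : m = P.q
    · subst hm
      simp [hτp, hτq]
    · simp [hm, hinj' m hm]
  have h := F_three_pq P hk hV (hb.perm τ)
  rw [e2, e1, F_perm P hk hV hb, F_perm P hk hV (hb.add hij), F_perm P hk hV (hb.add2 hij),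
    ← zsmul_sub, ← zsmul_add] at h
  have h2 := congrArg (fun y => ((Equiv.Perm.sign τ : ℤˣ) : ℤ) • y) h
  simp only [smul_smul, sign_mul_self', one_smul, smul_zero] at h2
  exact h2

/-- the inverse map on symbols -/
noncomputable def Fh (P : Pq D) : Sy M (k + 1) →ₗ[ℤ] D.Q := Finsupp.linearCombination ℤ (F P)

theorem Fh_single (P : Pq D) (b : Fin (k + 1) → M) (n : ℤ) :
    Fh P (Finsupp.single b n) = n • F P b := by
  unfold Fh
  rw [Finsupp.linearCombination_single]

theorem Fh_rel (P : Pq D) (hk : 5 ≤ k) (hV : finrank K V = k + 1) {x : Sy M (k + 1)}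
    (hx : x ∈ Rel H ⊥ (k + 1)) : Fh P x = 0 := by
  unfold Rel at hx
  induction hx using AddSubgroup.closure_induction with
  | zero => exact map_zero _
  | add x y _ _ hx hy => rw [map_add, hx, hy, add_zero]
  | neg x _ hx => rw [map_neg, hx, neg_zero]
  | mem x hx =>
    obtain ⟨b, b', hb, h⟩ | ⟨b, hb, σ⟩ | ⟨b, hb, i, j, hij⟩ := hx
    · rw [map_sub, Fh_single, Fh_single, one_smul, one_smul, sub_eq_zero]
      exact F_equiv P hk hV hb h
    · rw [map_sub, Fh_single, Fh_single, one_smul, F_perm P hk hV hb, sub_self]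
    · rw [map_add, map_sub, Fh_single, Fh_single, Fh_single, one_smul, one_smul, one_smul]
      exact F_three P hk hV hb hij

/-- action on symbols -/
noncomputable def act (D : Dat H G k) (g : G) : Sy M (k + 1) →+ Sy M (k + 1) :=
  Finsupp.mapDomain.addMonoidHom (fun b i => D.aM g (b i))

theorem act_single (g : G) (b : Fin (k + 1) → M) (n : ℤ) :
    D.act g (Finsupp.single b n) = Finsupp.single (fun i => D.aM g (b i)) n := by
  unfold act
  exact Finsupp.mapDomain_single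

theorem act_BS (g : G) {x : Sy M (k + 1)} (hx : x ∈ BS H ⊥ (k + 1)) :
    D.act g x ∈ BS H ⊥ (k + 1) := by
  unfold BS at hx
  induction hx using AddSubgroup.closure_induction with
  | zero => rw [map_zero]; exact AddSubgroup.zero_mem _
  | add x y _ _ hx hy => rw [map_add]; exact AddSubgroup.add_mem _ hx hy
  | neg x _ hx => rw [map_neg]; exact AddSubgroup.neg_mem _ hx
  | mem x hx =>
    obtain ⟨b, hb, rfl⟩ := hx
    rw [act_single]
    apply AddSubgroup.subset_closure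
    exact ⟨_, D.isB_act g hb, rfl⟩

theorem aptL_act (g : G) (x : Sy M (k + 1)) :
    aptL ι ⊥ k (D.act g x) = D.rho g (aptL ι (⊥ : Submodule K V) k x) := by
  induction x using Finsupp.induction_linear with
  | zero => simp
  | add x y hx hy => simp only [map_add, hx, hy]
  | single b n =>
    rw [act_single, aptL_single, aptL_single, map_zsmul]
    congr 1
    exact (D.rho_ap g b).symm

theorem c_aptL (P : Pq D) (hk : 5 ≤ k) (hV : finrank K V = k + 1) (g : G) {x : Sy M (k + 1)}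
    (hx : x ∈ BS H ⊥ (k + 1)) :
    D.c g (aptL ι (⊥ : Submodule K V) k x) = Fh P (D.act g⁻¹ x) - Fh P x := by
  unfold BS at hx
  induction hx using AddSubgroup.closure_induction with
  | zero => simp
  | add x y _ _ hx hy => rw [map_add, map_add, hx, hy, map_add, map_add, map_add]; abel
  | neg x _ hx => rw [map_neg, map_neg, hx, map_neg, map_neg, map_neg]; abel
  | mem x hx =>
    obtain ⟨b, hb, rfl⟩ := hx
    obtain ⟨h, h1, u1, h2⟩ := D.trans b hb
    have hg : ∀ i, ∃ u : Oˣ, D.aM h (D.e i) = u • b i := by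
      intro i
      by_cases hi : i = Fin.last k
      · subst hi; exact ⟨u1, h2⟩
      · exact ⟨1, by rw [one_smul]; exact h1 i hi⟩
    rw [act_single, Fh_single, Fh_single, one_smul, one_smul, aptL_single, one_smul,
      F_eq P hk hV hb hg, F_eq P hk hV (D.isB_act g⁻¹ hb) (h := g⁻¹ * h)]
    · have e1 : apt (⊥ : Submodule K V) (ι ∘ b) = D.rho h (ap ι D.e) := by
        rw [rho_ap]
        unfold ap
        apply apt_congr
        intro i
        simp only [Function.comp_apply]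
        obtain ⟨u, hu⟩ := hg i
        rw [hu]
        exact (smul_line H u).symm
      rw [e1, D.c_rho hV, mul_inv_rev, inv_inv]
      abel
    · intro i
      obtain ⟨u, hu⟩ := hg i
      exact ⟨u, by rw [D.aM_mul, hu, smul_aM]⟩

/-- The vanishing theorem. -/
theorem vanishing [IsPrincipalIdealRing O] (E : Euc O) (P : Pq D) (hk : 5 ≤ k)
    (hV : finrank K V = k + 1) (z : G →₀ Ch K V k) (hz : ∀ g, z g ∈ St k (⊥ : Submodule K V))
    (hd : z.sum (fun g x => D.rho g⁻¹ x - x) = 0) : z ∈ D.Bd := by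
  have hU : finrank K (⊥ : Submodule K V) + (k + 1) = finrank K V := by
    rw [finrank_bot]; omega
  obtain ⟨hinj, hsurj⟩ := main_ind E H k ⊥ hU
  have hex : ∀ g, ∃ x ∈ BS H ⊥ (k + 1), aptL ι (⊥ : Submodule K V) k x = z g :=
    fun g => hsurj (z g) (hz g)
  choose x hx hxz using hex
  rw [← D.q_eq_zero]
  have h1 : D.q z = ∑ g ∈ z.support, D.c g (z g) := by
    conv_lhs => rw [← Finsupp.sum_single z]
    rw [Finsupp.sum, map_sum]
    rfl
  rw [h1]
  set X : Sy M (k + 1) := ∑ g ∈ z.support, (D.act g⁻¹ (x g) - x g) with hX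
  have h2 : ∑ g ∈ z.support, D.c g (z g) = Fh P X := by
    rw [hX, map_sum]
    refine Finset.sum_congr rfl fun g _ => ?_
    rw [← hxz g, c_aptL P hk hV g (hx g), map_sub]
  rw [h2]
  apply Fh_rel P hk hV
  apply hinj
  · apply AddSubgroup.sum_mem
    intro g _
    exact AddSubgroup.sub_mem _ (act_BS _ (hx g)) (hx g)
  · rw [hX, map_sum, ← hd, Finsupp.sum]
    refine Finset.sum_congr rfl fun g _ => ?_
    rw [map_sub, aptL_act, hxz]

end Dat

end Pool.Agent.H4
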