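import Pool.Agent.H4.StE

set_option autoImplicit false
set_option linter.unusedSectionVars false

/-! Instantiation with matrices. -/

namespace Pool.Agent.H4

open Finsupp Module

/-! ### full flags versus strict flags -/

section flags

variable {K V : Type*} [Field K] [AddCommGroup V] [Module K V]

theorem full_spec : ∀ (k : ℕ) (U : Submodule K V) (f : Fin k → Submodule K V), Full k U f →
    (∀ i : Fin k, U ≤ f i ∧ finrank K (f i) = finrank K U + i + 1) ∧ Monotone f := by
  intro k
  induction k with
  | zero =>
    intro U f _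
    exact ⟨fun i => i.elim0, fun i => i.elim0⟩
  | succ k ih =>
    intro U f hf
    obtain ⟨h1, h2, h3⟩ := hf
    obtain ⟨h4, h5⟩ := ih (f 0) (Fin.tail f) h3
    refine ⟨?_, ?_⟩
    · intro i
      refine Fin.cases ?_ (fun j => ?_) i
      · exact ⟨h1, by rw [h2]; simp⟩
      · obtain ⟨a, b⟩ := h4 j
        refine ⟨le_trans h1 a, ?_⟩
        have : finrank K (f j.succ) = finrank K (f 0) + j + 1 := b
        rw [this, h2, Fin.val_succ]; ring
    · intro i j
      refine Fin.cases ?_ (fun i' => ?_) i
      · refine Fin.cases (fun _ => le_rfl) (fun j' _ => ?_) j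
        exact (h4 j').1
      · refine Fin.cases (fun h => ?_) (fun j' h => ?_) j
        · exact absurd h (by simp)
        · exact h5 (Fin.succ_le_succ_iff.mp h)

theorem full_of : ∀ (k : ℕ) (U : Submodule K V) (f : Fin k → Submodule K V),
    (∀ i : Fin k, U ≤ f i ∧ finrank K (f i) = finrank K U + i + 1) → Monotone f →
    Full k U f := by
  intro k
  induction k with
  | zero => intro U f _ _; trivial
  | succ k ih =>
    intro U f h1 h2
    refine ⟨(h1 0).1, ?_, ?_⟩
    · have := (h1 0).2; simpa using this
    · apply ih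
      · intro i
        refine ⟨h2 (Fin.zero_le _), ?_⟩
        have a := (h1 i.succ).2
        have b := (h1 0).2
        show finrank K (f i.succ) = _
        rw [a, b, Fin.val_succ]
        simp
        ring
      · intro i j hij
        exact h2 (Fin.succ_le_succ_iff.mpr hij)

theorem strictMono_add {k : ℕ} {g : Fin k → ℕ} (hg : StrictMono g) (i j : Fin k) (hij : i ≤ j) :
    g i + ((j : ℕ) - (i : ℕ)) ≤ g j := by
  obtain ⟨d, hd⟩ : ∃ d, (j : ℕ) = i + d := ⟨j - i, by rw [Fin.le_def] at hij; omega⟩
  induction d generalizing j with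
  | zero =>
    have : i = j := Fin.ext (by omega)
    subst this; omega
  | succ d ih =>
    have hlt : (i : ℕ) + d < k := by have := j.isLt; omega
    have h1 := ih ⟨i + d, hlt⟩ (by rw [Fin.le_def]; simp) rfl
    have h2 : g ⟨i + d, hlt⟩ < g j := hg (by rw [Fin.lt_def]; simp; omega)
    simp only at h1
    omega

theorem full_of_strict [FiniteDimensional K V] {k : ℕ} (hV : finrank K V = k + 1)
    {f : Fin k → Submodule K V} (hf : StrictMono f) (h : ∀ i, f i ≠ ⊥ ∧ f i ≠ ⊤) :
    Full k ⊥ f := by
  apply full_of _ _ _ _ hf.monotone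
  intro i
  refine ⟨bot_le, ?_⟩
  have hg : StrictMono (fun i => finrank K (f i)) := by
    intro a b hab
    exact Submodule.finrank_lt_finrank_of_lt (hf hab)
  have hk : 0 < k := by have := i.isLt; omega
  have h1 := strictMono_add hg ⟨0, hk⟩ i (by rw [Fin.le_def]; simp)
  have h2 := strictMono_add hg i ⟨k - 1, by omega⟩ (by rw [Fin.le_def]; simp; have := i.isLt; omega)
  have h3 : 0 < finrank K (f ⟨0, hk⟩) := by
    rw [Nat.pos_iff_ne_zero]
    intro h0
    exact (h ⟨0, hk⟩).1 (Submodule.finrank_eq_zero.mp h0)
  have h4 : finrank K (f ⟨k - 1, by omega⟩) < k + 1 := by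
    rw [← hV]
    exact Submodule.finrank_lt (h _).2
  simp only at h1 h2
  rw [finrank_bot]
  have := i.isLt
  omega

theorem strict_of_full [FiniteDimensional K V] {k : ℕ} (hV : finrank K V = k + 1)
    {f : Fin k → Submodule K V} (hf : Full k ⊥ f) : StrictMono f ∧ ∀ i, f i ≠ ⊥ ∧ f i ≠ ⊤ := by
  obtain ⟨h1, h2⟩ := full_spec k ⊥ f hf
  refine ⟨?_, ?_⟩
  · intro a b hab
    apply lt_of_le_of_ne (h2 hab.le)
    intro h
    have ha := (h1 a).2
    have hb := (h1 b).2
    rw [h, hb] at ha
    rw [Fin.lt_def] at hab
    omega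
  · intro i
    have ha := (h1 i).2
    rw [finrank_bot] at ha
    refine ⟨?_, ?_⟩
    · intro h
      rw [h, finrank_bot] at ha
      omega
    · intro h
      rw [h, finrank_top, hV] at ha
      have := i.isLt
      omega

theorem mem_St_iff [FiniteDimensional K V] {k : ℕ} (hV : finrank K V = k + 2)
    (z : Ch K V (k + 1)) : z ∈ St (k + 1) (⊥ : Submodule K V) ↔
      (∀ f ∈ z.support, StrictMono f ∧ ∀ i, f i ≠ ⊥ ∧ f i ≠ ⊤) ∧
      z.sum (fun f a => ∑ i : Fin (k + 1),
        Finsupp.single (f ∘ Fin.succAbove i) ((-1 : ℤ) ^ (i : ℕ) * a)) = 0 := by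
  rw [mem_St_succ, bdry_apply]
  constructor
  · rintro ⟨h1, h2⟩
    exact ⟨fun f hf => strict_of_full hV (h1 f (Finsupp.mem_support_iff.mp hf)), h2⟩
  · rintro ⟨h1, h2⟩
    refine ⟨fun f hf => ?_, h2⟩
    obtain ⟨a, b⟩ := h1 f (Finsupp.mem_support_iff.mpr hf)
    exact full_of_strict hV a b

end flags

/-! ### the standard lattice -/

section lattice

variable (O K : Type*) [CommRing O] [IsDomain O] [Field K] [Algebra O K] [IsFractionRing O K]
  (N : ℕ)

/-- the standard lattice -/
def iota : (Fin N → O) →+ (Fin N → K) where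
  toFun m i := algebraMap O K (m i)
  map_zero' := by funext i; simp
  map_add' a b := by funext i; simp

theorem latHyp : LatHyp O K (Fin N → K) (Fin N → O) (iota O K N) where
  smul c m := by
    funext i
    simp [iota]
  inj := by
    intro a b h
    funext i
    exact IsFractionRing.injective O K (congrFun h i)
  injA := IsFractionRing.injective O K
  dense x := by
    obtain ⟨c, hc⟩ := IsLocalization.exist_integer_multiples_of_finite (nonZeroDivisors O) x
    choose m hm using hc
    refine ⟨c, nonZeroDivisors.ne_zero c.2, m, ?_⟩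
    funext i
    show algebraMap O K (m i) = algebraMap O K c * x i
    rw [hm i, Algebra.smul_def]
  func U hU := by
    obtain ⟨f, hf, hfU⟩ := Submodule.exists_le_ker_of_lt_top U (lt_top_iff_ne_top.mpr hU)
    obtain ⟨c, hc⟩ := IsLocalization.exist_integer_multiples_of_finite (nonZeroDivisors O)
      (fun i : Fin N => f (Pi.single i 1))
    choose a ha using hc
    have hc0 : algebraMap O K c ≠ 0 := by
      intro h0
      rw [← map_zero (algebraMap O K)] at h0
      exact nonZeroDivisors.ne_zero c.2 (IsFractionRing.injective O K h0)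
    refine ⟨algebraMap O K c • f, Fintype.linearCombination O a, ?_, ?_, ?_⟩
    · intro m
      rw [LinearMap.smul_apply, Fintype.linearCombination_apply, map_sum]
      have h1 : iota O K N m = ∑ i, algebraMap O K (m i) • (Pi.single i (1 : K) : Fin N → K) := by
        funext j
        simp [iota, Finset.sum_apply, Pi.single_apply, Algebra.smul_def]
      rw [h1, map_sum, Finset.smul_sum]
      refine Finset.sum_congr rfl fun i _ => ?_
      rw [map_smul, smul_eq_mul, smul_eq_mul, smul_eq_mul, map_mul, ha i, Algebra.smul_def]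
      ring
    · intro h0
      apply hf
      ext x
      have h1 : (algebraMap O K c • f) (Pi.single x 1) = 0 := by rw [h0]; rfl
      rw [LinearMap.smul_apply, smul_eq_mul] at h1
      rcases mul_eq_zero.mp h1 with h | h
      · exact absurd h hc0
      · simpa using h
    · intro x hx
      have := hfU hx
      rw [LinearMap.mem_ker] at this ⊢
      rw [LinearMap.smul_apply, this, smul_zero]

end lattice

/-! ### the matrix data -/

section matrices

variable {O K : Type*} [CommRing O] [IsDomain O] [Field K] [Algebra O K] [IsFractionRing O K]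
  {k : ℕ} {G : Type*} [Group G] (φ : G →* Matrix.GeneralLinearGroup (Fin (k + 1)) O)

/-- action on the lattice -/
noncomputable def actM : G →* Module.End O (Fin (k + 1) → O) where
  toFun g := Matrix.toLin' (φ g).val
  map_one' := by rw [map_one, Units.val_one, Matrix.toLin'_one]; rfl
  map_mul' g h := by rw [map_mul, Units.val_mul, Matrix.toLin'_mul]; rfl

variable (K) in
/-- action on the vector space -/
noncomputable def actV : G →* Module.End K (Fin (k + 1) → K) where
  toFun g := Matrix.toLin' ((φ g).val.map (algebraMap O K))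
  map_one' := by
    rw [map_one, Units.val_one]
    rw [Matrix.map_one _ (map_zero _) (map_one _), Matrix.toLin'_one]; rfl
  map_mul' g h := by
    rw [map_mul, Units.val_mul, Matrix.map_mul, Matrix.toLin'_mul]; rfl

/-- the standard basis -/
def stdE (O : Type*) [CommRing O] (k : ℕ) : Fin (k + 1) → (Fin (k + 1) → O) := fun i => Pi.single i 1

theorem actM_stdE (g : G) (i : Fin (k + 1)) :
    actM φ g (stdE O k i) = fun r => (φ g).val r i := by
  show Matrix.toLin' (φ g).val (Pi.single i 1) = _
  rw [Matrix.toLin'_apply, Matrix.mulVec_single_one]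
  rfl

theorem isB_iff_span {m : ℕ} (b : Fin m → (Fin (k + 1) → O)) :
    IsB (latHyp O K (k + 1)) ⊥ b ↔ Submodule.span O (Set.range b) = ⊤ := by
  unfold IsB
  have : UO (latHyp O K (k + 1)) ⊥ = ⊥ := by
    rw [eq_bot_iff]
    intro x hx
    exact Dat.UO_bot hx
  rw [this, sup_bot_eq]

theorem stdE_isB : IsB (latHyp O K (k + 1)) ⊥ (stdE O k) := by
  rw [isB_iff_span]
  have h := (Pi.basisFun O (Fin (k + 1))).span_eq
  convert h using 3
  funext i
  rw [Pi.basisFun_apply]
  rfl

/-- the matrix with given columns -/
theorem det_isUnit_of_isB {b : Fin (k + 1) → (Fin (k + 1) → O)}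
    (hb : IsB (latHyp O K (k + 1)) ⊥ b) :
    IsUnit (Matrix.of (fun r c => b c r)).det := by
  rw [isB_iff_span] at hb
  rw [← Matrix.isUnit_iff_isUnit_det, ← Matrix.mulVec_surjective_iff_isUnit]
  intro x
  have hx : x ∈ Submodule.span O (Set.range b) := by rw [hb]; trivial
  obtain ⟨c, hc⟩ := (Submodule.mem_span_range_iff_exists_fun O).mp hx
  refine ⟨c, ?_⟩
  rw [← hc]
  funext r
  simp [Matrix.mulVec, dotProduct, Finset.sum_apply, mul_comm]

variable (hinj : Function.Injective φ)
  (hdet : ∀ A : Matrix (Fin (k + 1)) (Fin (k + 1)) O, A.det = 1 → ∃ g : G, (φ g).val = A)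

include hdet in
theorem exists_of_cols (b : Fin (k + 1) → (Fin (k + 1) → O))
    (hb : (Matrix.of (fun r c => b c r)).det = 1) :
    ∃ g : G, ∀ i, actM φ g (stdE O k i) = b i := by
  obtain ⟨g, hg⟩ := hdet _ hb
  refine ⟨g, fun i => ?_⟩
  rw [actM_stdE, hg]
  rfl

/-- the data -/
noncomputable def matDat : Dat (latHyp O K (k + 1)) G k where
  aM := actM φ
  aV := actV K φ
  compat g m := by
    show Matrix.toLin' ((φ g).val.map (algebraMap O K)) (iota O K (k + 1) m) = _
    funext i
    rw [Matrix.toLin'_apply]
    show _ = algebraMap O K (Matrix.toLin' (φ g).val m i)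
    rw [Matrix.toLin'_apply, RingHom.map_mulVec]
    rfl
  e := stdE O k
  eB := stdE_isB
  faith g h hgh := by
    apply hinj
    apply Units.ext
    ext r i
    have := congrFun (hgh i) r
    rw [actM_stdE, actM_stdE] at this
    exact this
  trans b hb := by
    obtain ⟨u, hu⟩ := det_isUnit_of_isB hb
    obtain ⟨g, hg⟩ := exists_of_cols φ hdet
      (Function.update b (Fin.last k) ((u⁻¹ : Oˣ) • b (Fin.last k))) (by
        have h1 := Matrix.det_updateCol_smul (Matrix.of (fun r c => b c r)) (Fin.last k)
          ((u⁻¹ : Oˣ) : O) (b (Fin.last k))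
        have h2 : (Matrix.of (fun r c => Function.update b (Fin.last k)
            ((u⁻¹ : Oˣ) • b (Fin.last k)) c r))
            = Matrix.updateCol (Matrix.of (fun r c => b c r)) (Fin.last k)
              (((u⁻¹ : Oˣ) : O) • b (Fin.last k)) := by
          ext r c
          rw [Matrix.of_apply, Matrix.updateCol_apply]
          by_cases hc : c = Fin.last k
          · subst hc; rw [Function.update_self, if_pos rfl]; rfl
          · rw [Function.update_of_ne hc, if_neg hc]; rfl
        have h3 : Matrix.updateCol (Matrix.of (fun r c => b c r)) (Fin.last k) (b (Fin.last k))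
            = Matrix.of (fun r c => b c r) := by
          ext r c
          rw [Matrix.updateCol_apply]
          split_ifs with hc
          · subst hc; rfl
          · rfl
        rw [h2, h1, h3, ← hu]
        simp)
    refine ⟨g, ?_, u⁻¹, ?_⟩
    · intro i hi
      rw [hg i, Function.update_of_ne hi]
    · rw [hg, Function.update_self]
  el i j hij := by
    obtain ⟨g, hg⟩ := hdet (Matrix.transvection j i 1) (Matrix.det_transvection_of_ne _ _ hij.symm 1)
    refine ⟨g, ?_, ?_⟩
    · rw [actM_stdE, hg]
      funext r
      simp only [Matrix.transvection, Matrix.add_apply, Matrix.one_apply, Matrix.single_apply, stdE,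
        Pi.add_apply, Pi.single_apply]
      simp only [and_true, eq_comm]
    · intro l hl
      rw [actM_stdE, hg]
      funext r
      simp only [Matrix.transvection, Matrix.add_apply, Matrix.one_apply, Matrix.single_apply, stdE,
        Pi.single_apply]
      have hn : ¬ (j = r ∧ i = l) := by
        rintro ⟨_, h⟩
        exact hl h.symm
      rw [if_neg hn, add_zero]
  mon τ w hw := by
    obtain ⟨g, hg⟩ := exists_of_cols φ hdet (fun i => w i • stdE O k (τ i)) (by
      have h1 : (Matrix.of (fun r c => (w c • stdE O k (τ c)) r))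
          = (τ⁻¹.permMatrix O) * Matrix.diagonal (fun i => (w i : O)) := by
        ext r c
        rw [Matrix.mul_diagonal, Matrix.of_apply, Equiv.Perm.permMatrix, PEquiv.toMatrix_apply]
        simp only [Equiv.toPEquiv_apply, Option.mem_def, Option.some.injEq]
        have h2 : (τ⁻¹ r = c) ↔ (r = τ c) := by
          rw [Equiv.Perm.inv_eq_iff_eq]
        rw [show (w c • stdE O k (τ c)) r = (w c : O) * (stdE O k (τ c)) r from rfl]
        unfold stdE
        rw [Pi.single_apply]
        simp only [h2]
        rw [mul_comm]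
      rw [h1, Matrix.det_mul, Matrix.det_permutation, Matrix.det_diagonal, Equiv.Perm.sign_inv]
      exact hw)
    exact ⟨g, hg⟩

end matrices

end Pool.Agent.H4
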