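import Pool.Agent.H4.StF

set_option autoImplicit false
set_option linter.unusedSectionVars false

/-! Arithmetic of the Gaussian and Eisenstein integers. -/

namespace Pool.Agent.H4

/-- a norm form with a polar form -/
structure PreEuc (O : Type*) [CommRing O] where
  N : O → ℕ
  T : O → O → ℤ
  N_zero : ∀ x, N x = 0 ↔ x = 0
  N_mul : ∀ x y, N (x * y) = N x * N y
  N_one : N 1 = 1
  N_add : ∀ x y, (N (x + y) : ℤ) = N x + N y + T x y
  T_add : ∀ x y z, T (x + y) z = T x z + T y z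
  T_neg : ∀ x z, T x (-z) = - T x z
  star : ∀ x r, ∃ u : Oˣ, 0 ≤ T x (u * r) ∧ 2 * (N x : ℤ) * N r ≤ T x (u * r) ^ 2
  cls : ∀ c, N c < 4 → c = 0 ∨ IsUnit c ∨ ∃ u u' : Oˣ, c = u + u' ∧ 2 ≤ N c

namespace PreEuc

variable {O : Type*} [CommRing O] (P : PreEuc O)

theorem N_unit (u : Oˣ) : P.N u = 1 := by
  have h : P.N u * P.N (u⁻¹ : Oˣ) = 1 := by
    rw [← P.N_mul, Units.mul_inv, P.N_one]
  exact Nat.eq_one_of_mul_eq_one_right h

theorem N_unit_mul (u : Oˣ) (x : O) : P.N (u * x) = P.N x := by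
  rw [P.N_mul, P.N_unit, one_mul]

theorem N_neg (x : O) : P.N (-x) = P.N x := by
  have : -x = ((-1 : Oˣ) : O) * x := by simp
  rw [this, P.N_unit_mul]

theorem N_sub (x y : O) : (P.N (x - y) : ℤ) = P.N x + P.N y - P.T x y := by
  rw [sub_eq_add_neg, P.N_add, P.N_neg, P.T_neg]; ring

theorem euclid (z r : O) (hr : r ≠ 0) : ∃ c, P.N (z + c * r) < P.N r := by
  -- minimise the norm
  obtain ⟨c, hc⟩ : ∃ c, ∀ c', P.N (z + c * r) ≤ P.N (z + c' * r) := by
    have h : ∃ n, ∃ c, P.N (z + c * r) = n := ⟨_, 0, rfl⟩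
    classical
    obtain ⟨c, hc⟩ := Nat.find_spec h
    refine ⟨c, fun c' => ?_⟩
    rw [hc]
    exact Nat.find_min' h ⟨c', rfl⟩
  refine ⟨c, ?_⟩
  set X := z + c * r with hX
  obtain ⟨u, h0, h1⟩ := P.star X r
  have h2 := hc (c - u)
  have h3 : z + (c - u) * r = X - u * r := by rw [hX]; ring
  rw [h3] at h2
  have h4 : (P.N X : ℤ) ≤ P.N (X - u * r) := by exact_mod_cast h2
  rw [P.N_sub, P.N_unit_mul] at h4
  have hD : 0 < P.N r := Nat.pos_of_ne_zero (fun h => hr ((P.N_zero r).mp h))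
  have hD' : (0 : ℤ) < P.N r := by exact_mod_cast hD
  by_contra hcon
  push Not at hcon
  have h5 : (P.N r : ℤ) ≤ P.N X := by exact_mod_cast hcon
  nlinarith

theorem same (z r : O) (hr : r ≠ 0) (h : P.N z = P.N r) : ∃ u : Oˣ, P.N (z - u * r) < P.N r := by
  obtain ⟨u, h0, h1⟩ := P.star z r
  refine ⟨u, ?_⟩
  have hD : 0 < P.N r := Nat.pos_of_ne_zero (fun h => hr ((P.N_zero r).mp h))
  have hD' : (0 : ℤ) < P.N r := by exact_mod_cast hD
  have h2 : (P.N (z - u * r) : ℤ) < P.N r := by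
    rw [P.N_sub, P.N_unit_mul, h]
    rw [h] at h1
    nlinarith
  exact_mod_cast h2

theorem conn (r z z' : O) (hz : P.N z < P.N r) (hz' : P.N z' < P.N r)
    (hc : ∃ c, z' = z + c * r) :
    Relation.ReflTransGen (fun a b => ∃ u : Oˣ, b = a - u * r ∧ P.N b < P.N r) z z' := by
  obtain ⟨c, rfl⟩ := hc
  have hD' : (0 : ℤ) < P.N r := by
    have : 0 < P.N r := lt_of_le_of_lt (Nat.zero_le _) hz
    exact_mod_cast this
  have e1 := P.N_add z (c * r)
  have e2 := P.N_add (z + c * r) z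
  have e3 := P.N_sub (z + c * r) z
  have e4 : z + c * r - z = c * r := by ring
  rw [e4, P.N_mul] at e3
  have a1 : (P.N z : ℤ) < P.N r := by exact_mod_cast hz
  have a2 : (P.N (z + c * r) : ℤ) < P.N r := by exact_mod_cast hz'
  have hNc : P.N c < 4 := by
    have h1 : (P.N c : ℤ) * P.N r < 4 * P.N r := by
      have h2 : (0 : ℤ) ≤ P.N (z + c * r + z) := Int.natCast_nonneg _
      push_cast at e3
      nlinarith
    have h2 : (P.N c : ℤ) < 4 := lt_of_mul_lt_mul_right h1 hD'.le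
    exact_mod_cast h2
  rcases P.cls c hNc with rfl | hu | ⟨u, u', rfl, hN⟩
  · rw [zero_mul, add_zero]
  · obtain ⟨u, rfl⟩ := hu
    exact Relation.ReflTransGen.single ⟨-u, by simp, hz'⟩
  · -- one of the two intermediate points is small
    have key : P.N (z + u * r) < P.N r ∨ P.N (z + u' * r) < P.N r := by
      by_contra hcon
      push Not at hcon
      have b1 : (P.N r : ℤ) ≤ P.N (z + u * r) := by exact_mod_cast hcon.1
      have b2 : (P.N r : ℤ) ≤ P.N (z + u' * r) := by exact_mod_cast hcon.2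
      have s1 := P.N_add (z + u * r) (z + u' * r)
      have s2 := P.N_sub (z + u * r) (z + u' * r)
      have s3 : z + u * r + (z + u' * r) = z + (u + u') * r + z := by ring
      have s4 : z + u * r - (z + u' * r) = (u - u') * r := by ring
      rw [s3] at s1
      rw [s4, P.N_mul] at s2
      have s5 := P.N_add (u : O) (u' : O)
      have s6 := P.N_sub (u : O) (u' : O)
      rw [P.N_unit, P.N_unit] at s5 s6
      have hN' : (2 : ℤ) ≤ P.N ((u : O) + u') := by exact_mod_cast hN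
      push_cast at *
      nlinarith
    rcases key with h | h
    · refine Relation.ReflTransGen.trans (b := z + u * r) ?_ ?_
      · exact Relation.ReflTransGen.single ⟨-u, by simp, h⟩
      · exact Relation.ReflTransGen.single ⟨-u', by simp; ring, hz'⟩
    · refine Relation.ReflTransGen.trans (b := z + u' * r) ?_ ?_
      · exact Relation.ReflTransGen.single ⟨-u', by simp, h⟩
      · exact Relation.ReflTransGen.single ⟨-u, by simp; ring, hz'⟩

theorem small_of (X r : O) (hr : r ≠ 0) (h : ∀ u : Oˣ, 3 * P.T X (u * r) ≤ 4 * P.N r) :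
    P.N X < P.N r := by
  obtain ⟨u, h0, h1⟩ := P.star X r
  have h2 := h u
  have hD : 0 < P.N r := Nat.pos_of_ne_zero (fun h => hr ((P.N_zero r).mp h))
  have hD' : (0 : ℤ) < P.N r := by exact_mod_cast hD
  by_contra hcon
  push Not at hcon
  have h5 : (P.N r : ℤ) ≤ P.N X := by exact_mod_cast hcon
  have h6 : 9 * P.T X (u * r) ^ 2 ≤ 16 * (P.N r : ℤ) ^ 2 := by nlinarith
  nlinarith

theorem two (r a b : O) (hr : r ≠ 0) : ∃ c d : O, P.N (a + c * r) < P.N r ∧
    P.N (b + d * r) < P.N r ∧ P.N ((a + c * r) + (b + d * r)) < P.N r := by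
  obtain ⟨c, d, hcd⟩ : ∃ c d, ∀ c' d', P.N (a + c * r) + P.N (b + d * r)
      + P.N ((a + c * r) + (b + d * r)) ≤ P.N (a + c' * r) + P.N (b + d' * r)
      + P.N ((a + c' * r) + (b + d' * r)) := by
    have h : ∃ n, ∃ c d, P.N (a + c * r) + P.N (b + d * r)
      + P.N ((a + c * r) + (b + d * r)) = n := ⟨_, 0, 0, rfl⟩
    classical
    obtain ⟨c, d, hc⟩ := Nat.find_spec h
    refine ⟨c, d, fun c' d' => ?_⟩
    rw [hc]
    exact Nat.find_min' h ⟨c', d', rfl⟩
  refine ⟨c, d, ?_⟩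
  set X := a + c * r with hX
  set Y := b + d * r with hY
  have tneg : ∀ (x : O) (u : Oˣ), P.T x ((-u : Oˣ) * r) = - P.T x (u * r) := by
    intro x u
    rw [← P.T_neg]
    congr 1
    simp
  have m1 : ∀ u : Oˣ, P.T Y (u * r) - P.T X (u * r) ≤ 2 * P.N r := by
    intro u
    have h := hcd (c + u) (d - u)
    have e1 : a + (c + u) * r = X + u * r := by rw [hX]; ring
    have e2 : b + (d - u) * r = Y - u * r := by rw [hY]; ring
    rw [e1, e2] at h
    have e3 : X + u * r + (Y - u * r) = X + Y := by ring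
    rw [e3] at h
    have h' : (P.N X : ℤ) + P.N Y + P.N (X + Y)
        ≤ P.N (X + u * r) + P.N (Y - u * r) + P.N (X + Y) := by exact_mod_cast h
    rw [P.N_add X (u * r), P.N_sub Y (u * r), P.N_unit_mul] at h'
    linarith
  have m2 : ∀ u : Oˣ, -(2 * P.T X (u * r) + P.T Y (u * r)) ≤ 2 * P.N r := by
    intro u
    have h := hcd (c + u) d
    have e1 : a + (c + u) * r = X + u * r := by rw [hX]; ring
    rw [e1] at h
    have e3 : X + u * r + Y = (X + Y) + u * r := by ring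
    rw [e3] at h
    have h' : (P.N X : ℤ) + P.N Y + P.N (X + Y)
        ≤ P.N (X + u * r) + P.N Y + P.N (X + Y + u * r) := by exact_mod_cast h
    rw [P.N_add X (u * r), P.N_add (X + Y) (u * r), P.N_unit_mul, P.T_add X Y] at h'
    linarith
  have m3 : ∀ u : Oˣ, -(2 * P.T Y (u * r) + P.T X (u * r)) ≤ 2 * P.N r := by
    intro u
    have h := hcd c (d + u)
    have e1 : b + (d + u) * r = Y + u * r := by rw [hY]; ring
    rw [e1] at h
    have e3 : X + (Y + u * r) = (X + Y) + u * r := by ring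
    rw [e3] at h
    have h' : (P.N X : ℤ) + P.N Y + P.N (X + Y)
        ≤ P.N X + P.N (Y + u * r) + P.N (X + Y + u * r) := by exact_mod_cast h
    rw [P.N_add Y (u * r), P.N_add (X + Y) (u * r), P.N_unit_mul, P.T_add X Y] at h'
    linarith
  refine ⟨?_, ?_, ?_⟩
  · apply P.small_of X r hr
    intro u
    have h1 := m1 (-u)
    have h2 := m2 (-u)
    rw [tneg, tneg] at h1 h2
    linarith
  · apply P.small_of Y r hr
    intro u
    have h1 := m1 u
    have h2 := m3 (-u)
    rw [tneg, tneg] at h2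
    linarith
  · apply P.small_of (X + Y) r hr
    intro u
    have h1 := m2 (-u)
    have h2 := m3 (-u)
    rw [tneg, tneg] at h1 h2
    rw [P.T_add X Y]
    linarith

/-- the Euclidean data -/
def toEuc : Euc O where
  N := P.N
  N_zero := P.N_zero
  N_unit := P.N_unit_mul
  euclid := P.euclid
  same := P.same
  conn := P.conn
  two := P.two

end PreEuc

theorem Euc.pid {O : Type*} [CommRing O] [IsDomain O] (E : Euc O) : IsPrincipalIdealRing O := by
  refine ⟨fun I => ?_⟩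
  by_cases hI : I = ⊥
  · subst hI; exact bot_isPrincipal
  obtain ⟨x, hx, hx0⟩ := Submodule.exists_mem_ne_zero_of_ne_bot hI
  have h : ∃ n, ∃ r ∈ I, r ≠ 0 ∧ E.N r = n := ⟨_, x, hx, hx0, rfl⟩
  classical
  obtain ⟨r, hr, hr0, hrn⟩ := Nat.find_spec h
  refine ⟨r, ?_⟩
  apply le_antisymm
  · intro y hy
    obtain ⟨c, hc⟩ := E.euclid y r hr0
    have h1 : y + c * r = 0 := by
      by_contra hne
      have h2 := Nat.find_min' h ⟨y + c * r, I.add_mem hy (I.mul_mem_left c hr), hne, rfl⟩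
      omega
    rw [Submodule.mem_span_singleton]
    exact ⟨-c, by rw [smul_eq_mul, neg_mul]; exact (eq_neg_of_add_eq_zero_left h1).symm⟩
  · rw [Submodule.span_singleton_le_iff_mem]
    exact hr

/-- Coordinates: `O` is the ring generated by a root of `θ² = tθ - 1`. -/
structure Coord (O : Type*) [CommRing O] (t : ℤ) where
  θ : O
  sq : θ * θ = t * θ - 1
  ex : ∀ x : O, ∃ a b : ℤ, x = a + b * θ
  uniq : ∀ a b : ℤ, (a : O) + b * θ = 0 → a = 0 ∧ b = 0

namespace Coord

variable {O : Type*} [CommRing O] {t : ℤ} (C : Coord O t)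

noncomputable def fa (x : O) : ℤ := (C.ex x).choose

noncomputable def fb (x : O) : ℤ := (C.ex x).choose_spec.choose

theorem eq (x : O) : x = C.fa x + C.fb x * C.θ := (C.ex x).choose_spec.choose_spec

theorem fa_fb {x : O} {a b : ℤ} (h : x = a + b * C.θ) : C.fa x = a ∧ C.fb x = b := by
  have h1 := C.eq x
  have h2 : ((C.fa x - a : ℤ) : O) + ((C.fb x - b : ℤ) : O) * C.θ = 0 := by
    have h3 : (C.fa x : O) + C.fb x * C.θ = a + b * C.θ := by rw [← h1, ← h]
    push_cast
    linear_combination h3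
  obtain ⟨h4, h5⟩ := C.uniq _ _ h2
  exact ⟨by linarith, by linarith⟩

theorem fa_add (x y : O) : C.fa (x + y) = C.fa x + C.fa y ∧ C.fb (x + y) = C.fb x + C.fb y := by
  apply C.fa_fb
  push_cast
  linear_combination (C.eq x) + (C.eq y)

theorem fa_neg (x : O) : C.fa (-x) = - C.fa x ∧ C.fb (-x) = - C.fb x := by
  apply C.fa_fb
  push_cast
  linear_combination -(C.eq x)

theorem fa_mul (x y : O) : C.fa (x * y) = C.fa x * C.fa y - C.fb x * C.fb y ∧
    C.fb (x * y) = C.fa x * C.fb y + C.fb x * C.fa y + t * C.fb x * C.fb y := by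
  apply C.fa_fb
  have hx := C.eq x
  have hy := C.eq y
  have h := C.sq
  calc x * y = (C.fa x + C.fb x * C.θ) * (C.fa y + C.fb y * C.θ) := by rw [← hx, ← hy]
    _ = _ := by
      push_cast
      linear_combination ((C.fb x : O) * C.fb y) * h

/-- integral norm form -/
noncomputable def Nz (x : O) : ℤ := C.fa x ^ 2 + t * C.fa x * C.fb x + C.fb x ^ 2

theorem Nz_nonneg (ht : t = 0 ∨ t = -1) (x : O) : 0 ≤ C.Nz x := by
  unfold Nz
  rcases ht with rfl | rfl
  · nlinarith [sq_nonneg (C.fa x), sq_nonneg (C.fb x)]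
  · nlinarith [sq_nonneg (2 * C.fa x - C.fb x), sq_nonneg (C.fb x)]

theorem Nz_zero (ht : t = 0 ∨ t = -1) (x : O) : C.Nz x = 0 ↔ x = 0 := by
  constructor
  · intro h
    unfold Nz at h
    have h1 : C.fa x = 0 ∧ C.fb x = 0 := by
      rcases ht with rfl | rfl
      · constructor <;> nlinarith [sq_nonneg (C.fa x), sq_nonneg (C.fb x)]
      · constructor <;>
          nlinarith [sq_nonneg (2 * C.fa x - C.fb x), sq_nonneg (C.fb x),
            sq_nonneg (2 * C.fb x - C.fa x), sq_nonneg (C.fa x)]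
    rw [C.eq x, h1.1, h1.2]; simp
  · rintro rfl
    have h : (0 : O) = ((0 : ℤ) : O) + ((0 : ℤ) : O) * C.θ := by simp
    obtain ⟨h1, h2⟩ := C.fa_fb h
    unfold Nz
    rw [h1, h2]; ring

theorem Nz_mul (x y : O) : C.Nz (x * y) = C.Nz x * C.Nz y := by
  unfold Nz
  rw [(C.fa_mul x y).1, (C.fa_mul x y).2]
  ring

/-- polar form -/
noncomputable def Tz (x y : O) : ℤ :=
  2 * C.fa x * C.fa y + t * (C.fa x * C.fb y + C.fb x * C.fa y) + 2 * C.fb x * C.fb y


theorem Nz_add (x y : O) : C.Nz (x + y) = C.Nz x + C.Nz y + C.Tz x y := by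
  unfold Nz Tz
  rw [(C.fa_add x y).1, (C.fa_add x y).2]
  ring

theorem Tz_add (x y z : O) : C.Tz (x + y) z = C.Tz x z + C.Tz y z := by
  unfold Tz
  rw [(C.fa_add x y).1, (C.fa_add x y).2]
  ring

theorem Tz_neg (x z : O) : C.Tz x (-z) = - C.Tz x z := by
  unfold Tz
  rw [(C.fa_neg z).1, (C.fa_neg z).2]
  ring

theorem fa_one : C.fa 1 = 1 ∧ C.fb 1 = 0 := C.fa_fb (by simp)

/-- `θ` as a unit -/
def uθ : Oˣ := Units.mkOfMulEqOne C.θ (t - C.θ) (by linear_combination -C.sq)

theorem star_aux (x r : O) (h : ∃ u : Oˣ, 2 * C.Nz x * C.Nz r ≤ C.Tz x (u * r) ^ 2) :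
    ∃ u : Oˣ, 0 ≤ C.Tz x (u * r) ∧ 2 * C.Nz x * C.Nz r ≤ C.Tz x (u * r) ^ 2 := by
  obtain ⟨u, hu⟩ := h
  rcases le_total 0 (C.Tz x (u * r)) with h | h
  · exact ⟨u, h, hu⟩
  · refine ⟨-u, ?_, ?_⟩
    · rw [Units.val_neg, neg_mul, C.Tz_neg]; linarith
    · rw [Units.val_neg, neg_mul, C.Tz_neg, neg_sq]; exact hu

theorem star (ht : t = 0 ∨ t = -1) (x r : O) :
    ∃ u : Oˣ, 0 ≤ C.Tz x (u * r) ∧ 2 * C.Nz x * C.Nz r ≤ C.Tz x (u * r) ^ 2 := by
  apply C.star_aux
  have hθ : (C.uθ : O) = C.θ := rfl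
  have hθ1 : C.fa C.θ = 0 ∧ C.fb C.θ = 1 := C.fa_fb (by simp)
  have e1 := C.fa_mul C.θ r
  rw [hθ1.1, hθ1.2] at e1
  by_contra hcon
  push Not at hcon
  have h1 := hcon 1
  have h2 := hcon C.uθ
  rw [hθ] at h2
  rw [Units.val_one, one_mul] at h1
  rcases ht with rfl | rfl
  · unfold Tz Nz at h1 h2
    rw [e1.1, e1.2] at h2
    nlinarith
  · have h3 := hcon (C.uθ * C.uθ)
    rw [Units.val_mul, hθ] at h3
    have e2 := C.fa_mul (C.θ * C.θ) r
    have e3 := C.fa_mul C.θ C.θ
    rw [hθ1.1, hθ1.2] at e3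
    rw [e3.1, e3.2] at e2
    unfold Tz Nz at h1 h2 h3
    rw [e1.1, e1.2] at h2
    rw [e2.1, e2.2] at h3
    nlinarith

theorem cls (ht : t = 0 ∨ t = -1) (c : O) (hc : C.Nz c < 4) :
    c = 0 ∨ IsUnit c ∨ ∃ u u' : Oˣ, c = u + u' ∧ 2 ≤ C.Nz c := by
  have hθ : (C.uθ : O) = C.θ := rfl
  have h := C.eq c
  unfold Nz at *
  set a := C.fa c
  set b := C.fb c
  rcases ht with rfl | rfl
  · have ha1 : a ≤ 1 := by nlinarith [sq_nonneg b]
    have ha2 : -1 ≤ a := by nlinarith [sq_nonneg b]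
    have hb1 : b ≤ 1 := by nlinarith [sq_nonneg a]
    have hb2 : -1 ≤ b := by nlinarith [sq_nonneg a]
    clear_value a b
    interval_cases a <;> interval_cases b <;> simp only [Int.cast_neg, Int.cast_one, Int.cast_zero] at h
    · right; right; exact ⟨-1, -C.uθ, by rw [h]; push_cast; rw [hθ]; ring, by norm_num⟩
    · right; left; exact ⟨-1, by rw [h]; push_cast; ring⟩
    · right; right; exact ⟨-1, C.uθ, by rw [h]; push_cast; rw [hθ]; ring, by norm_num⟩
    · right; left; exact ⟨-C.uθ, by rw [h]; push_cast; rw [hθ]; ring⟩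
    · left; rw [h]; ring
    · right; left; exact ⟨C.uθ, by rw [h, hθ]; ring⟩
    · right; right; exact ⟨1, -C.uθ, by rw [h]; push_cast; rw [hθ]; ring, by norm_num⟩
    · right; left; exact ⟨1, by rw [h]; push_cast; ring⟩
    · right; right; exact ⟨1, C.uθ, by rw [h]; push_cast; rw [hθ]; ring, by norm_num⟩
  · have hsq : C.θ * C.θ = -C.θ - 1 := by have := C.sq; push_cast at this; rw [this]; ring
    have ha1 : a ≤ 2 := by nlinarith [sq_nonneg (2 * b - a)]
    have ha2 : -2 ≤ a := by nlinarith [sq_nonneg (2 * b - a)]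
    have hb1 : b ≤ 2 := by nlinarith [sq_nonneg (2 * a - b)]
    have hb2 : -2 ≤ b := by nlinarith [sq_nonneg (2 * a - b)]
    clear_value a b
    have hsq' : ((C.uθ * C.uθ : Oˣ) : O) = -C.θ - 1 := by rw [Units.val_mul, hθ, hsq]
    interval_cases a <;> interval_cases b <;> first
      | (exfalso; norm_num at hc; done)
      | (left; rw [h]; push_cast; ring1)
      | (right; left; refine ⟨1, ?_⟩; rw [h]; push_cast; ring1)
      | (right; left; refine ⟨-1, ?_⟩; rw [h]; push_cast; ring1)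
      | (right; left; refine ⟨C.uθ, ?_⟩; rw [h, hθ]; push_cast; ring1)
      | (right; left; refine ⟨-C.uθ, ?_⟩; rw [h, Units.val_neg, hθ]; push_cast; ring1)
      | (right; left; refine ⟨C.uθ * C.uθ, ?_⟩; rw [h, hsq']; push_cast; ring1)
      | (right; left; refine ⟨-(C.uθ * C.uθ), ?_⟩; rw [h, Units.val_neg, hsq']; push_cast; ring1)
      | (right; right; refine ⟨1, -C.uθ, ?_, by norm_num⟩; rw [h, Units.val_neg, hθ]; push_cast
         ring1)
      | (right; right; refine ⟨-1, C.uθ, ?_, by norm_num⟩; rw [h, hθ]; push_cast; ring1)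
      | (right; right; refine ⟨1, -(C.uθ * C.uθ), ?_, by norm_num⟩; rw [h, Units.val_neg, hsq']
         push_cast; ring1)
      | (right; right; refine ⟨-1, (C.uθ * C.uθ), ?_, by norm_num⟩; rw [h, hsq']; push_cast; ring1)
      | (right; right; refine ⟨C.uθ, -(C.uθ * C.uθ), ?_, by norm_num⟩
         rw [h, Units.val_neg, hsq', hθ]; push_cast; ring1)
      | (right; right; refine ⟨-C.uθ, (C.uθ * C.uθ), ?_, by norm_num⟩
         rw [h, Units.val_neg, hsq', hθ]; push_cast; ring1)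

/-- the norm form data -/
noncomputable def toPreEuc (ht : t = 0 ∨ t = -1) : PreEuc O where
  N x := (C.Nz x).toNat
  T := C.Tz
  N_zero x := by
    have := C.Nz_nonneg ht x
    rw [← C.Nz_zero ht x]
    omega
  N_mul x y := by
    rw [C.Nz_mul, Int.toNat_mul (C.Nz_nonneg ht x) (C.Nz_nonneg ht y)]
  N_one := by
    unfold Nz
    rw [C.fa_one.1, C.fa_one.2]
    norm_num
  N_add x y := by
    rw [Int.toNat_of_nonneg (C.Nz_nonneg ht _), Int.toNat_of_nonneg (C.Nz_nonneg ht _),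
      Int.toNat_of_nonneg (C.Nz_nonneg ht _), C.Nz_add]
  T_add := C.Tz_add
  T_neg := C.Tz_neg
  star x r := by
    rw [Int.toNat_of_nonneg (C.Nz_nonneg ht _), Int.toNat_of_nonneg (C.Nz_nonneg ht _)]
    exact C.star ht x r
  cls c hc := by
    have h1 : C.Nz c < 4 := by
      have := C.Nz_nonneg ht c
      omega
    rcases C.cls ht c h1 with h | h | ⟨u, u', h, h2⟩
    · exact Or.inl h
    · exact Or.inr (Or.inl h)
    · exact Or.inr (Or.inr ⟨u, u', h, by omega⟩)

end Coord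

end Pool.Agent.H4
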