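import Pool.Agent.H4.StG

set_option autoImplicit false

/-! Rings of integers of the two cyclotomic fields. -/

namespace Pool.Agent.H4

open NumberField

theorem coord_uniq {O : Type*} [CommRing O] [CharZero O] {t : ℤ} (ht : t = 0 ∨ t = -1) {θ : O}
    (sq : θ * θ = t * θ - 1) (a b : ℤ) (h : (a : O) + b * θ = 0) : a = 0 ∧ b = 0 := by
  have h1 : ((a ^ 2 + t * a * b + b ^ 2 : ℤ) : O) = 0 := by
    have : ((a : O) + b * θ) * (a + b * (t - θ)) = 0 := by rw [h, zero_mul]
    push_cast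
    linear_combination this + (b : O) ^ 2 * sq
  have h2 : a ^ 2 + t * a * b + b ^ 2 = 0 := by exact_mod_cast h1
  rcases ht with rfl | rfl
  · constructor <;> nlinarith [sq_nonneg a, sq_nonneg b]
  · constructor <;>
      nlinarith [sq_nonneg (2 * a - b), sq_nonneg b, sq_nonneg (2 * b - a), sq_nonneg a]

theorem coord_ex {K : Type} [Field K] [NumberField K] {n : ℕ} [NeZero n]
    [IsCyclotomicExtension {n} ℚ K] {ζ : K} (hζ : IsPrimitiveRoot ζ n) (hn : n.totient = 2)
    (x : 𝓞 K) : ∃ a b : ℤ, x = a + b * hζ.toInteger := by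
  obtain ⟨f, hf, hx⟩ := hζ.integralPowerBasis.exists_eq_aeval x
  rw [IsPrimitiveRoot.integralPowerBasis_dim, hn] at hf
  have hf1 : f.natDegree ≤ 1 := by omega
  obtain ⟨a, b, hab⟩ := Polynomial.exists_eq_X_add_C_of_natDegree_le_one hf1
  refine ⟨b, a, ?_⟩
  rw [hx, hab, IsPrimitiveRoot.integralPowerBasis_gen]
  simp [add_comm]

theorem cyc_of_ringEquiv {K : Type} [Field K] [NumberField K] {n : ℕ} [NeZero n]
    (e : K ≃+* CyclotomicField n ℚ) : IsCyclotomicExtension {n} ℚ K := by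
  have f : CyclotomicField n ℚ ≃ₐ[ℚ] K := AlgEquiv.ofRingEquiv (f := e.symm) (by intro r; simp)
  have : NeZero (n : ℚ) := NeZero.charZero
  have hc : IsCyclotomicExtension {n} ℚ (CyclotomicField n ℚ) :=
    CyclotomicField.isCyclotomicExtension n ℚ
  exact IsCyclotomicExtension.equiv {n} ℚ (CyclotomicField n ℚ) f

/-- Coordinates for the Gaussian integers. -/
theorem coord_four {K : Type} [Field K] [NumberField K] (e : K ≃+* CyclotomicField 4 ℚ) :
    Nonempty (Coord (𝓞 K) 0) := by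
  have := cyc_of_ringEquiv e
  have hζ := IsCyclotomicExtension.zeta_spec 4 ℚ K
  have hp := hζ.toInteger_isPrimitiveRoot
  set θ := hζ.toInteger with hθ
  have h1 : θ ^ 4 = 1 := hp.pow_eq_one
  have h2 : θ ^ 2 ≠ 1 := hp.pow_ne_one_of_pos_of_lt (by norm_num) (by norm_num)
  have h3 : (θ ^ 2 - 1) * (θ ^ 2 + 1) = 0 := by linear_combination h1
  have h4 : θ ^ 2 + 1 = 0 := by
    rcases mul_eq_zero.mp h3 with h | h
    · exact absurd (sub_eq_zero.mp h) h2
    · exact h
  have hsq : θ * θ = ((0 : ℤ) : 𝓞 K) * θ - 1 := by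
    push_cast
    linear_combination h4
  exact ⟨{
    θ := θ
    sq := hsq
    ex := coord_ex hζ (by decide)
    uniq := coord_uniq (Or.inl rfl) hsq }⟩

/-- Coordinates for the Eisenstein integers. -/
theorem coord_three {K : Type} [Field K] [NumberField K] (e : K ≃+* CyclotomicField 3 ℚ) :
    Nonempty (Coord (𝓞 K) (-1)) := by
  have := cyc_of_ringEquiv e
  have hζ := IsCyclotomicExtension.zeta_spec 3 ℚ K
  have hp := hζ.toInteger_isPrimitiveRoot
  set θ := hζ.toInteger with hθ
  have h1 : θ ^ 3 = 1 := hp.pow_eq_one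
  have h2 : θ ≠ 1 := hp.ne_one (by norm_num)
  have h3 : (θ - 1) * (θ ^ 2 + θ + 1) = 0 := by linear_combination h1
  have h4 : θ ^ 2 + θ + 1 = 0 := by
    rcases mul_eq_zero.mp h3 with h | h
    · exact absurd (sub_eq_zero.mp h) h2
    · exact h
  have hsq : θ * θ = ((-1 : ℤ) : 𝓞 K) * θ - 1 := by
    push_cast
    linear_combination h4
  exact ⟨{
    θ := θ
    sq := hsq
    ex := coord_ex hζ (by decide)
    uniq := coord_uniq (Or.inr rfl) hsq }⟩

theorem euc_of {K : Type} [Field K] [NumberField K]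
    (h : Nonempty (K ≃+* CyclotomicField 4 ℚ) ∨ Nonempty (K ≃+* CyclotomicField 3 ℚ)) :
    Nonempty (Euc (𝓞 K)) := by
  rcases h with ⟨⟨e⟩⟩ | ⟨⟨e⟩⟩
  · obtain ⟨C⟩ := coord_four e
    exact ⟨(C.toPreEuc (Or.inl rfl)).toEuc⟩
  · obtain ⟨C⟩ := coord_three e
    exact ⟨(C.toPreEuc (Or.inr rfl)).toEuc⟩

namespace Dat

variable {O K V M : Type*} [CommRing O] [IsDomain O] [Field K] [Algebra O K]
  [AddCommGroup V] [Module K V] [AddCommGroup M] [Module O M]
  {ι : M →+ V} {H : LatHyp O K V M ι} {G : Type*} [Group G] {k : ℕ}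

theorem exists_Pq (D : Dat H G k) (hk : 5 ≤ k) : Nonempty (Pq D) := by
  set p : Fin (k + 1) := ⟨0, by omega⟩ with hp
  set q : Fin (k + 1) := ⟨1, by omega⟩ with hq
  have hpq : p ≠ q := by
    intro h
    have := congrArg Fin.val h
    simp [hp, hq] at this
  obtain ⟨g1, hg1, hg1'⟩ := D.el p q hpq
  obtain ⟨T, hT, hT'⟩ := D.el q p hpq.symm
  obtain ⟨r, hr⟩ := D.mon (Equiv.swap p q) (Function.update (fun _ => 1) q (-1)) (by
    rw [Equiv.Perm.sign_swap hpq, Finset.prod_eq_single q]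
    · rw [Function.update_self]; simp
    · intro i _ hi
      rw [Function.update_of_ne hi]; rfl
    · intro h; exact absurd (Finset.mem_univ _) h)
  refine ⟨{
    p := p
    q := q
    hpq := hpq
    hp := ?_
    hq := ?_
    g1 := g1
    g2 := T * r
    g1p := hg1
    g1n := hg1'
    g2p := ?_
    g2q := ?_
    g2n := ?_ }⟩
  · intro h
    have := congrArg Fin.val h
    simp [hp] at this
    omega
  · intro h
    have := congrArg Fin.val h
    simp [hq] at this
    omega
  · rw [D.aM_mul, hr, Equiv.swap_apply_left, Function.update_of_ne hpq, one_smul, hT, add_comm]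
  · rw [D.aM_mul, hr, Equiv.swap_apply_right, Function.update_self, Units.neg_smul, one_smul,
      map_neg, hT' p hpq]
  · intro l h1 h2
    rw [D.aM_mul, hr, Equiv.swap_apply_of_ne_of_ne h1 h2, Function.update_of_ne h2, one_smul,
      hT' l h2]

end Dat

end Pool.Agent.H4
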