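import Pool.Agent.H4.StH

set_option autoImplicit false
set_option linter.unusedSectionVars false
set_option linter.unusedVariables false

/-! The homological argument of `StE` for `n = k + 1 ≥ 4` instead of `n ≥ 6`. The new ingredient is
`A_cyc`: an apartment class is the norm, under the cyclic permutation of three basis vectors
`x, y, z`, of the apartment class with `x` replaced by `x + y + z`. -/

namespace Pool.Agent.H4

open Finsupp Module

variable {O K V M : Type*} [CommRing O] [IsDomain O] [Field K] [Algebra O K]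
  [AddCommGroup V] [Module K V] [AddCommGroup M] [Module O M]
  {ι : M →+ V}

variable {H : LatHyp O K V M ι} {G : Type*} [Group G] {k : ℕ}

namespace Dat

namespace N4

variable {D : Dat H G k} [FiniteDimensional K V]

theorem exists_third (hk : 3 ≤ k) (a b c : Fin (k + 1)) : ∃ l, l ≠ a ∧ l ≠ b ∧ l ≠ c := by
  by_contra h
  push Not at h
  have h1 : (Finset.univ : Finset (Fin (k + 1))) ⊆ {a, b, c} := by
    intro l _
    by_cases ha : l = a
    · simp [ha]
    · by_cases hb : l = b
      · simp [hb]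
      · simp [h l ha hb]
  have h2 := Finset.card_le_card h1
  have h3 : ({a, b, c} : Finset (Fin (k + 1))).card ≤ 3 := Finset.card_le_three
  rw [Finset.card_univ, Fintype.card_fin] at h2
  omega

theorem exists_other (hk : 3 ≤ k) (a b : Fin (k + 1)) :
    ∃ l m, l ≠ m ∧ l ≠ a ∧ l ≠ b ∧ m ≠ a ∧ m ≠ b := by
  obtain ⟨l, hla, hlb, _⟩ := exists_third hk a b b
  obtain ⟨m, hma, hmb, hml⟩ := exists_third hk a b l
  exact ⟨l, m, hml.symm, hla, hlb, hma, hmb⟩

/-- even monomial elements fixing two basis vectors -/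
theorem A_fix_two (P : Pq D) (hk : 3 ≤ k) (hV : finrank K V = k + 1) {s : G} {σ : Equiv.Perm (Fin (k + 1))}
    {w : Fin (k + 1) → Oˣ} (hs : D.Mon s σ w) {i j : Fin (k + 1)} (hij : i ≠ j)
    (hi : σ i = i) (hj : σ j = j) (hwi : w i = 1) (hwj : w j = 1)
    (hsg : Equiv.Perm.sign σ = 1) : D.A s = 0 := by
  obtain ⟨τ, hτp, hτq⟩ := exists_perm P.hpq hij
  obtain ⟨l0, hl0, hl0', _⟩ := exists_third hk P.p P.q P.q
  obtain ⟨x, hx1, hx2⟩ := exists_units (O := O) τ l0
  obtain ⟨t, ht⟩ := D.mon τ x hx2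
  have htM : D.Mon t τ x := ht
  have hc := (htM.inv.mul (hs.mul htM))
  have e1 : τ⁻¹ i = P.p := by rw [Equiv.Perm.inv_eq_iff_eq]; exact hτp.symm
  have e2 : τ⁻¹ j = P.q := by rw [Equiv.Perm.inv_eq_iff_eq]; exact hτq.symm
  have h1 := A_fix P hV hc
    (by simp only [Equiv.Perm.mul_apply]; rw [hτp, hi, e1])
    (by simp only [Equiv.Perm.mul_apply]; rw [hτq, hj, e2])
    (by
      simp only [Equiv.Perm.mul_apply]
      rw [hτp, hi, e1, hwi, hx1 _ hl0.symm]; simp)
    (by
      simp only [Equiv.Perm.mul_apply]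
      rw [hτq, hj, e2, hwj, hx1 _ hl0'.symm]; simp)
  have hsgn : Equiv.Perm.sign (τ⁻¹ * (σ * τ)) = 1 := by
    rw [map_mul, map_mul, hsg, one_mul, Equiv.Perm.sign_inv]
    exact Int.units_mul_self _
  rw [hsgn] at h1
  simp only [Units.val_one, sub_self, zero_smul] at h1
  -- now s = t (t⁻¹ s t) t⁻¹
  have e3 : s = t * ((t⁻¹ * (s * t)) * t⁻¹) := by group
  rw [e3, D.A_mul_of_mon hV htM, D.A_mul_of_mon hV hc, h1, hsgn, D.A_inv_of_mon hV htM]
  simp only [Units.val_one, one_smul, zero_add, zsmul_neg, smul_smul, sign_mul_self']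
  abel

/-- the apartment of a tuple with three prescribed members -/
private noncomputable def W3 (v : Fin (k + 1) → V) (a b c : Fin (k + 1)) (x y z : V) : Ch K V k :=
  apt (⊥ : Submodule K V) (Function.update (Function.update (Function.update v a x) b y) c z)

omit [FiniteDimensional K V] in
private theorem W3_ab (v : Fin (k + 1) → V) {a b c : Fin (k + 1)} (hab : a ≠ b) (hac : a ≠ c)
    (hbc : b ≠ c) (x y z : V) :
    W3 (K := K) v a b c x y z - W3 v a b c (x + y) y z + W3 v a b c (x + y) x z = 0 := by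
  have h := apt_three (⊥ : Submodule K V)
    (Function.update (Function.update (Function.update v a x) b y) c z) a b hab
  have e1 : Function.update (Function.update (Function.update (Function.update v a x) b y) c z) a
      ((Function.update (Function.update (Function.update v a x) b y) c z) a +
        (Function.update (Function.update (Function.update v a x) b y) c z) b) =
      Function.update (Function.update (Function.update v a (x + y)) b y) c z := by
    funext i
    by_cases ha : i = a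
    · subst ha; simp [hab, hac, hbc]
    · by_cases hb : i = b
      · subst hb; simp [ha, hbc]
      · by_cases hc : i = c
        · subst hc; simp [ha]
        · simp [ha, hb, hc]
  have e2 : Function.update (Function.update (Function.update (Function.update v a (x + y)) b y) c z)
      b ((Function.update (Function.update (Function.update v a x) b y) c z) a) =
      Function.update (Function.update (Function.update v a (x + y)) b x) c z := by
    funext i
    by_cases ha : i = a
    · subst ha; simp [hab, hac]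
    · by_cases hb : i = b
      · subst hb; simp [hac, hbc, hab]
      · by_cases hc : i = c
        · subst hc; simp [hb]
        · simp [ha, hb, hc]
  rw [e1, e2] at h
  exact h

omit [FiniteDimensional K V] in
private theorem W3_bc (v : Fin (k + 1) → V) {a b c : Fin (k + 1)} (hab : a ≠ b) (hac : a ≠ c)
    (hbc : b ≠ c) (x y z : V) :
    W3 (K := K) v a b c x y z - W3 v a b c x (y + z) z + W3 v a b c x (y + z) y = 0 := by
  have h := apt_three (⊥ : Submodule K V)
    (Function.update (Function.update (Function.update v a x) b y) c z) b c hbc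
  have e1 : Function.update (Function.update (Function.update (Function.update v a x) b y) c z) b
      ((Function.update (Function.update (Function.update v a x) b y) c z) b +
        (Function.update (Function.update (Function.update v a x) b y) c z) c) =
      Function.update (Function.update (Function.update v a x) b (y + z)) c z := by
    funext i
    by_cases ha : i = a
    · subst ha; simp [hab, hac]
    · by_cases hb : i = b
      · subst hb; simp [hbc]
      · by_cases hc : i = c
        · subst hc; simp [hb]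
        · simp [ha, hb, hc]
  have e2 : Function.update (Function.update (Function.update (Function.update v a x) b (y + z)) c z)
      c ((Function.update (Function.update (Function.update v a x) b y) c z) b) =
      Function.update (Function.update (Function.update v a x) b (y + z)) c y := by
    funext i
    by_cases ha : i = a
    · subst ha; simp [hab, hac]
    · by_cases hb : i = b
      · subst hb; simp [hbc]
      · by_cases hc : i = c
        · subst hc; simp [hbc]
        · simp [ha, hb, hc]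
  rw [e1, e2] at h
  exact h

omit [FiniteDimensional K V] in
private theorem W3_swap_ab (v : Fin (k + 1) → V) {a b c : Fin (k + 1)} (hab : a ≠ b) (hac : a ≠ c)
    (hbc : b ≠ c) (x y z : V) : W3 (K := K) v a b c y x z = -W3 v a b c x y z := by
  have h := apt_perm (⊥ : Submodule K V)
    (Function.update (Function.update (Function.update v a x) b y) c z) (Equiv.swap a b)
  rw [Equiv.Perm.sign_swap hab] at h
  have e1 : (Function.update (Function.update (Function.update v a x) b y) c z) ∘
      (Equiv.swap a b) = Function.update (Function.update (Function.update v a y) b x) c z := by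
    funext i
    rw [Function.comp_apply]
    by_cases ha : i = a
    · subst ha; simp [hab, hac, hbc]
    · by_cases hb : i = b
      · subst hb; simp [hab, hac, hbc]
      · rw [Equiv.swap_apply_of_ne_of_ne ha hb]
        by_cases hc : i = c
        · subst hc; simp
        · simp [ha, hb, hc]
  rw [e1] at h
  unfold W3
  rw [h]
  simp

omit [FiniteDimensional K V] in
private theorem W3_swap_bc (v : Fin (k + 1) → V) {a b c : Fin (k + 1)} (hab : a ≠ b) (hac : a ≠ c)
    (hbc : b ≠ c) (x y z : V) : W3 (K := K) v a b c x z y = -W3 v a b c x y z := by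
  have h := apt_perm (⊥ : Submodule K V)
    (Function.update (Function.update (Function.update v a x) b y) c z) (Equiv.swap b c)
  rw [Equiv.Perm.sign_swap hbc] at h
  have e1 : (Function.update (Function.update (Function.update v a x) b y) c z) ∘
      (Equiv.swap b c) = Function.update (Function.update (Function.update v a x) b z) c y := by
    funext i
    rw [Function.comp_apply]
    by_cases hb : i = b
    · subst hb; simp [hbc]
    · by_cases hc : i = c
      · subst hc; simp [hbc]
      · rw [Equiv.swap_apply_of_ne_of_ne hb hc]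
        by_cases ha : i = a
        · subst ha; simp [hab, hac]
        · simp [ha, hb, hc]
  rw [e1] at h
  unfold W3
  rw [h]
  simp

omit [FiniteDimensional K V] in
/-- subdivision of an apartment by the barycentre of three vertices -/
private theorem W3_sub (v : Fin (k + 1) → V) {a b c : Fin (k + 1)} (hab : a ≠ b) (hac : a ≠ c)
    (hbc : b ≠ c) (x y z : V) : W3 (K := K) v a b c x y z =
      W3 v a b c (x + y + z) y z + W3 v a b c x (x + y + z) z +
        W3 v a b c x y (x + y + z) := by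
  have h1 := W3_bc (K := K) v hab hac hbc x y z
  have h2 := W3_ab (K := K) v hab hac hbc x (y + z) z
  have h3 := W3_ab (K := K) v hab hac hbc x (y + z) y
  have h4 := W3_bc (K := K) v hab hac hbc (x + y + z) y z
  have h5 := W3_swap_ab (K := K) v hab hac hbc x (x + y + z) z
  have h6 := W3_swap_ab (K := K) v hab hac hbc x (x + y + z) y
  have h7 := W3_swap_bc (K := K) v hab hac hbc x (x + y + z) y
  rw [← add_assoc] at h2 h3
  rw [h5] at h2
  rw [h6] at h3
  rw [h7]
  have e : W3 (K := K) v a b c x y z - (W3 v a b c (x + y + z) y z +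
      W3 v a b c x (x + y + z) z + -W3 v a b c x (x + y + z) y) =
      (W3 v a b c x y z - W3 v a b c x (y + z) z + W3 v a b c x (y + z) y) +
      (W3 v a b c x (y + z) z - W3 v a b c (x + y + z) (y + z) z +
        -W3 v a b c x (x + y + z) z) -
      (W3 v a b c x (y + z) y - W3 v a b c (x + y + z) (y + z) y +
        -W3 v a b c x (x + y + z) y) -
      (W3 v a b c (x + y + z) y z - W3 v a b c (x + y + z) (y + z) z +
        W3 v a b c (x + y + z) (y + z) y) := by abel
  rw [h1, h2, h3, h4] at e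
  rw [← sub_eq_zero, e]
  simp

/-- pure three-cycles -/
theorem A_cyc (hV : finrank K V = k + 1) {h : G} {a b c : Fin (k + 1)} (hab : a ≠ b)
    (hac : a ≠ c) (hbc : b ≠ c) (ha : D.aM h (D.e a) = D.e b) (hb : D.aM h (D.e b) = D.e c)
    (hc : D.aM h (D.e c) = D.e a) (ho : ∀ l, l ≠ a → l ≠ b → l ≠ c → D.aM h (D.e l) = D.e l) :
    D.A h = 0 := by
  obtain ⟨g1, hg1, hg1'⟩ := D.el a b hab
  obtain ⟨g2, hg2, hg2'⟩ := D.el a c hac
  have hga : D.aM (g1 * g2) (D.e a) = D.e a + D.e b + D.e c := by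
    rw [D.aM_mul, hg2, map_add, hg1, hg1' c hac.symm]
  have hgo : ∀ l, l ≠ a → D.aM (g1 * g2) (D.e l) = D.e l := by
    intro l hl
    rw [D.aM_mul, hg2' l hl, hg1' l hl]
  obtain ⟨g, hg⟩ : ∃ g, g = g1 * g2 := ⟨_, rfl⟩
  rw [← hg] at hga hgo
  obtain ⟨f, hf⟩ : ∃ f, f = D.e a + D.e b + D.e c := ⟨_, rfl⟩
  rw [← hf] at hga
  have hhf : D.aM h f = f := by
    rw [hf, map_add, map_add, ha, hb, hc]; abel
  have hιf : ι f = ι (D.e a) + ι (D.e b) + ι (D.e c) := by rw [hf, map_add, map_add]
  -- the four apartments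
  have key : ∀ (m : Fin (k + 1) → M) (x y z : M), m a = x → m b = y → m c = z →
      (∀ l, l ≠ a → l ≠ b → l ≠ c → m l = D.e l) →
      ap (K := K) ι m = W3 (ι ∘ D.e) a b c (ι x) (ι y) (ι z) := by
    intro m x y z h1 h2 h3 h4
    unfold ap W3
    congr 1
    funext l
    rw [Function.comp_apply]
    by_cases hlc : l = c
    · subst hlc; rw [Function.update_self, h3]
    · rw [Function.update_of_ne hlc]
      by_cases hlb : l = b
      · subst hlb; rw [Function.update_self, h2]
      · rw [Function.update_of_ne hlb]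
        by_cases hla : l = a
        · subst hla; rw [Function.update_self, h1]
        · rw [Function.update_of_ne hla, h4 l hla hlb hlc, Function.comp_apply]
  have x0 : ap (K := K) ι D.e =
      W3 (ι ∘ D.e) a b c (ι (D.e a)) (ι (D.e b)) (ι (D.e c)) :=
    key D.e _ _ _ rfl rfl rfl fun _ _ _ _ => rfl
  have y0 : D.rho g (ap ι D.e) =
      W3 (K := K) (ι ∘ D.e) a b c (ι f) (ι (D.e b)) (ι (D.e c)) := by
    rw [rho_ap]
    exact key _ _ _ _ hga (hgo b hab.symm) (hgo c hac.symm) fun l h1 _ _ => hgo l h1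
  have y1 : D.rho h (D.rho g (ap ι D.e)) =
      W3 (K := K) (ι ∘ D.e) a b c (ι (D.e a)) (ι f) (ι (D.e c)) := by
    rw [rho_ap, rho_ap]
    rw [key _ f (D.e c) (D.e a) (by rw [hga, hhf]) (by rw [hgo b hab.symm, hb])
      (by rw [hgo c hac.symm, hc]) (fun l h1 h2 h3 => by rw [hgo l h1, ho l h1 h2 h3])]
    rw [W3_swap_bc (K := K) (ι ∘ D.e) hab hac hbc (ι f) (ι (D.e a)) (ι (D.e c)),
      W3_swap_ab (K := K) (ι ∘ D.e) hab hac hbc (ι (D.e a)) (ι f) (ι (D.e c)), neg_neg]
  have y2 : D.rho h (D.rho h (D.rho g (ap ι D.e))) =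
      W3 (K := K) (ι ∘ D.e) a b c (ι (D.e a)) (ι (D.e b)) (ι f) := by
    rw [rho_ap, rho_ap, rho_ap]
    rw [key _ f (D.e a) (D.e b) (by rw [hga, hhf, hhf]) (by rw [hgo b hab.symm, hb, hc])
      (by rw [hgo c hac.symm, hc, ha]) (fun l h1 h2 h3 => by
        rw [hgo l h1, ho l h1 h2 h3, ho l h1 h2 h3])]
    rw [W3_swap_ab (K := K) (ι ∘ D.e) hab hac hbc (ι (D.e a)) (ι f) (ι (D.e b)),
      W3_swap_bc (K := K) (ι ∘ D.e) hab hac hbc (ι (D.e a)) (ι (D.e b)) (ι f), neg_neg]
  have hsub := W3_sub (K := K) (ι ∘ D.e) hab hac hbc (ι (D.e a)) (ι (D.e b)) (ι (D.e c))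
  rw [← hιf, ← x0, ← y0, ← y1, ← y2] at hsub
  have h3 : h * h * h = 1 := by
    apply D.faith
    intro l
    rw [D.aM_mul, D.aM_mul, map_one, Module.End.one_apply]
    by_cases hla : l = a
    · subst hla; rw [ha, hb, hc]
    · by_cases hlb : l = b
      · subst hlb; rw [hb, hc, ha]
      · by_cases hlc : l = c
        · subst hlc; rw [hc, ha, hb]
        · rw [ho l hla hlb hlc, ho l hla hlb hlc, ho l hla hlb hlc]
  have hm : D.rho g (ap ι D.e) ∈ St k (⊥ : Submodule K V) := by
    rw [rho_ap]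
    exact ap_mem hV (D.isB_act g D.eB)
  have r1 := D.c_mul (h * h) h hm
  rw [h3, D.c_one hm, D.c_mul h h hm] at r1
  have i1 : (h * h)⁻¹ = h := by
    rw [inv_eq_iff_mul_eq_one]; exact h3
  have i2 : h⁻¹ = h * h := by
    rw [inv_eq_iff_mul_eq_one, ← mul_assoc]; exact h3
  rw [i1, i2, rho_mul] at r1
  unfold A
  rw [hsub, map_add, map_add]
  rw [eq_comm] at r1
  rw [← r1]
  abel

/-- even monomial elements with trivial permutation -/
theorem A_diag (P : Pq D) (hk : 3 ≤ k) (hV : finrank K V = k + 1) {h : G}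
    {x : Fin (k + 1) → Oˣ} (hh : D.Mon h 1 x) {j l : Fin (k + 1)}
    (hx : ∀ m, m ≠ j → m ≠ l → x m = 1) : D.A h = 0 := by
  obtain ⟨m1, m2, hm, h1a, h1b, h2a, h2b⟩ := exists_other hk j l
  exact A_fix_two P hk hV hh hm rfl rfl (hx m1 h1a h1b) (hx m2 h2a h2b) (map_one _)

/-- correcting one basis vector -/
theorem exists_correct (P : Pq D) (hk : 3 ≤ k) (hV : finrank K V = k + 1) {s : G}
    {σ : Equiv.Perm (Fin (k + 1))} {w : Fin (k + 1) → Oˣ} (hs : D.Mon s σ w) (i c : Fin (k + 1))
    (hci : c ≠ i) : ∃ (h : G) (τ : Equiv.Perm (Fin (k + 1))) (x : Fin (k + 1) → Oˣ),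
      D.Mon h τ x ∧ Equiv.Perm.sign τ = 1 ∧ D.A h = 0 ∧ τ (σ i) = i ∧ w i * x (σ i) = 1 ∧
      (σ c = c → τ c = c ∧ x c = 1) := by
  classical
  obtain ⟨l, hli, hlj, hlc⟩ := exists_third hk i (σ i) c
  set x : Fin (k + 1) → Oˣ := Function.update (Function.update (fun _ => 1) (σ i) (w i)⁻¹) l (w i)
    with hx
  have xl : x l = w i := by simp [hx]
  have xj : x (σ i) = (w i)⁻¹ := by simp [hx, hlj.symm]
  have xo : ∀ m, m ≠ σ i → m ≠ l → x m = 1 := by
    intro m h1 h2; simp [hx, h1, h2]
  have hprod : ∏ m, (x m : O) = 1 := by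
    rw [← Finset.prod_subset (s₁ := {σ i, l}) (Finset.subset_univ _)]
    · rw [Finset.prod_pair hlj.symm, xl, xj]; simp
    · intro m _ hm'
      simp only [Finset.mem_insert, Finset.mem_singleton, not_or] at hm'
      rw [xo m hm'.1 hm'.2]; rfl
  obtain ⟨hd, hhd⟩ := D.mon 1 x (by rw [hprod]; simp)
  have hMd : D.Mon hd 1 x := hhd
  have hAd : D.A hd = 0 := A_diag P hk hV hMd xo
  by_cases hσi : σ i = i
  · refine ⟨hd, 1, x, hMd, map_one _, hAd, by rw [hσi]; rfl, by rw [xj, mul_inv_cancel], ?_⟩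
    intro hσc
    have hcj : c ≠ σ i := by rw [hσi]; exact hci
    exact ⟨rfl, xo c hcj hlc.symm⟩
  · set τ : Equiv.Perm (Fin (k + 1)) := Equiv.swap i (σ i) * Equiv.swap i l with hτ
    have hsg : Equiv.Perm.sign τ = 1 := by
      rw [hτ, map_mul, Equiv.Perm.sign_swap (Ne.symm hσi), Equiv.Perm.sign_swap hli.symm]; rfl
    have hτj : τ (σ i) = i := by
      rw [hτ, Equiv.Perm.mul_apply, Equiv.swap_apply_of_ne_of_ne hσi hlj.symm,
        Equiv.swap_apply_right]
    have hτi : τ i = l := by
      rw [hτ, Equiv.Perm.mul_apply, Equiv.swap_apply_left, Equiv.swap_apply_of_ne_of_ne hli hlj]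
    have hτl : τ l = σ i := by
      rw [hτ, Equiv.Perm.mul_apply, Equiv.swap_apply_right, Equiv.swap_apply_left]
    have hτo : ∀ m, m ≠ i → m ≠ σ i → m ≠ l → τ m = m := by
      intro m h1 h2 h3
      rw [hτ, Equiv.Perm.mul_apply, Equiv.swap_apply_of_ne_of_ne h1 h3,
        Equiv.swap_apply_of_ne_of_ne h1 h2]
    obtain ⟨hc, hhc⟩ := D.mon τ (fun _ => 1) (by rw [hsg]; simp)
    have hMc : D.Mon hc τ (fun _ => 1) := hhc
    have hAc : D.A hc = 0 := by
      refine A_cyc hV (a := i) (b := l) (c := σ i) hli.symm (Ne.symm hσi) hlj ?_ ?_ ?_ ?_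
      · rw [hMc i, hτi, one_smul]
      · rw [hMc l, hτl, one_smul]
      · rw [hMc (σ i), hτj, one_smul]
      · intro m h1 h2 h3
        rw [hMc m, hτo m h1 h3 h2, one_smul]
    have hM := hMc.mul hMd
    refine ⟨hc * hd, τ * 1, _, hM, by rw [mul_one]; exact hsg, ?_, ?_, ?_, ?_⟩
    · rw [D.A_mul_of_mon hV hMc, hAc, hAd, smul_zero, add_zero]
    · rw [mul_one]; exact hτj
    · simp only [mul_one]
      rw [xj, mul_inv_cancel]
    · intro hσc
      have hcj : c ≠ σ i := by
        intro h
        apply hci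
        rw [← hσc] at h
        exact σ.injective h
      refine ⟨by rw [mul_one]; exact hτo c hci hcj hlc.symm, ?_⟩
      simp only [mul_one]
      exact xo c hcj hlc.symm

/-- even monomial elements -/
theorem A_even (P : Pq D) (hk : 3 ≤ k) (hV : finrank K V = k + 1) {s : G}
    {σ : Equiv.Perm (Fin (k + 1))} {w : Fin (k + 1) → Oˣ} (hs : D.Mon s σ w)
    (hsg : Equiv.Perm.sign σ = 1) : D.A s = 0 := by
  obtain ⟨h1, τ1, x1, hM1, hs1, hA1, ha1, hb1, _⟩ :=
    exists_correct P hk hV hs P.p P.q P.hpq.symm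
  have hs' := hM1.mul hs
  obtain ⟨h2, τ2, x2, hM2, hs2, hA2, ha2, hb2, hc2⟩ :=
    exists_correct P hk hV hs' P.q P.p P.hpq
  have hs'' := hM2.mul hs'
  have hfix : (τ1 * σ) P.p = P.p := ha1
  obtain ⟨hc2a, hc2b⟩ := hc2 hfix
  have hA : D.A (h2 * (h1 * s)) = 0 := by
    apply A_fix_two P hk hV hs'' P.hpq
    · rw [Equiv.Perm.mul_apply, hfix, hc2a]
    · exact ha2
    · simp only [Equiv.Perm.mul_apply]
      rw [ha1, hc2b, mul_one, hb1]
    · exact hb2
    · rw [map_mul, map_mul, hs2, hs1, hsg]; rfl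
  rw [D.A_mul_of_mon hV hM2, D.A_mul_of_mon hV hM1, hA1, hA2, hs1, hs2] at hA
  simpa using hA

theorem A_mon (P : Pq D) (hk : 3 ≤ k) (hV : finrank K V = k + 1) {s : G}
    {σ : Equiv.Perm (Fin (k + 1))} {w : Fin (k + 1) → Oˣ} (hs : D.Mon s σ w) :
    D.A s = (((Equiv.Perm.sign σ : ℤˣ) : ℤ) - 1) • psi0 P := by
  rcases Int.units_eq_one_or (Equiv.Perm.sign σ) with hsg | hsg
  · rw [A_even P hk hV hs hsg, hsg]; simp
  · obtain ⟨l, m, hlm, h1a, h1b, h2a, h2b⟩ := exists_other hk P.p P.q
    obtain ⟨x, hx1, hx2⟩ := exists_units (O := O) (Equiv.swap l m) l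
    obtain ⟨t, ht⟩ := D.mon _ x hx2
    have htM : D.Mon t (Equiv.swap l m) x := ht
    have hAt := A_fix P hV htM (Equiv.swap_apply_of_ne_of_ne h1a.symm h2a.symm)
      (Equiv.swap_apply_of_ne_of_ne h1b.symm h2b.symm) (hx1 _ h1a.symm) (hx1 _ h1b.symm)
    have hst := hs.mul htM
    have h0 := A_even P hk hV hst (by
      rw [map_mul, hsg, Equiv.Perm.sign_swap hlm]; rfl)
    rw [D.A_mul_of_mon hV hs, hAt, hsg, Equiv.Perm.sign_swap hlm] at h0
    rw [hsg]
    simp only [Units.val_neg, Units.val_one] at h0 ⊢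
    rw [← sub_eq_zero, ← h0, neg_smul, one_smul]
    abel


/-! ### The inverse map on symbols -/

theorem F_eq (P : Pq D) (hk : 3 ≤ k) (hV : finrank K V = k + 1) {b : Fin (k + 1) → M}
    (hb : IsB H ⊥ b) {h : G} (hh : ∀ i, ∃ u : Oˣ, D.aM h (D.e i) = u • b i) :
    F P b = psi0 P + D.A h⁻¹ := by
  unfold F
  rw [dif_pos hb]
  congr 1
  obtain ⟨h1, u1, h2⟩ := (D.trans b hb).choose_spec
  set h' := (D.trans b hb).choose
  have hh' : ∀ i, ∃ u : Oˣ, D.aM h' (D.e i) = u • b i := by
    intro i
    by_cases hi : i = Fin.last k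
    · subst hi; exact ⟨u1, h2⟩
    · exact ⟨1, by rw [one_smul]; exact h1 i hi⟩
  choose u hu using hh
  choose u' hu' using hh'
  -- s = h⁻¹ h'
  have hs : D.Mon (h⁻¹ * h') 1 (fun i => u' i * (u i)⁻¹) := by
    intro i
    rw [D.aM_mul, hu' i]
    have h3 : b i = (u i)⁻¹ • D.aM h (D.e i) := by rw [hu i, inv_smul_smul]
    rw [h3, smul_smul, smul_aM, D.aM_inv_aM]
    rfl
  have e1 : h'⁻¹ = (h⁻¹ * h')⁻¹ * h⁻¹ := by group
  have hsi := hs.inv
  rw [e1, D.A_mul_of_mon hV hsi, A_mon P hk hV hsi]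
  simp

theorem F_equiv (P : Pq D) (hk : 3 ≤ k) (hV : finrank K V = k + 1) {b b' : Fin (k + 1) → M}
    (hb : IsB H ⊥ b) (h : ∀ i, ∃ u : Oˣ, b' i - u • b i ∈ UO H ⊥) : F P b' = F P b := by
  have hb' := hb.equiv h
  obtain ⟨g, h1, u1, h2⟩ := D.trans b hb
  have hg : ∀ i, ∃ u : Oˣ, D.aM g (D.e i) = u • b i := by
    intro i
    by_cases hi : i = Fin.last k
    · subst hi; exact ⟨u1, h2⟩
    · exact ⟨1, by rw [one_smul]; exact h1 i hi⟩
  rw [F_eq P hk hV hb hg, F_eq P hk hV hb']
  intro i
  obtain ⟨u, hu⟩ := hg i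
  obtain ⟨u', hu'⟩ := h i
  have h3 : b' i = u' • b i := sub_eq_zero.mp (UO_bot hu')
  refine ⟨u * u'⁻¹, ?_⟩
  rw [h3, smul_smul, inv_mul_cancel_right, hu]

theorem F_perm (P : Pq D) (hk : 3 ≤ k) (hV : finrank K V = k + 1) {b : Fin (k + 1) → M}
    (hb : IsB H ⊥ b) (τ : Equiv.Perm (Fin (k + 1))) :
    F P (b ∘ τ) = ((Equiv.Perm.sign τ : ℤˣ) : ℤ) • F P b := by
  obtain ⟨g, h1, u1, h2⟩ := D.trans b hb
  have hg : ∀ i, ∃ u : Oˣ, D.aM g (D.e i) = u • b i := by
    intro i
    by_cases hi : i = Fin.last k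
    · subst hi; exact ⟨u1, h2⟩
    · exact ⟨1, by rw [one_smul]; exact h1 i hi⟩
  obtain ⟨x, hx1, hx2⟩ := exists_units (O := O) τ (Fin.last k)
  obtain ⟨t, ht⟩ := D.mon _ x hx2
  have htM : D.Mon t τ x := ht
  rw [F_eq P hk hV hb hg, F_eq P hk hV (hb.perm τ) (h := g * t)]
  · rw [mul_inv_rev, D.A_mul_of_mon hV htM.inv, A_mon P hk hV htM.inv, Equiv.Perm.sign_inv,
      sub_smul, one_smul, zsmul_add]
    abel
  · intro i
    obtain ⟨u, hu⟩ := hg (τ i)
    refine ⟨x i * u, ?_⟩
    rw [D.aM_mul, ht i, smul_aM, hu, smul_smul, Function.comp_apply]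

theorem F_three_pq (P : Pq D) (hk : 3 ≤ k) (hV : finrank K V = k + 1) {b : Fin (k + 1) → M}
    (hb : IsB H ⊥ b) :
    F P b - F P (Function.update b P.p (b P.p + b P.q))
      + F P (Function.update (Function.update b P.p (b P.p + b P.q)) P.q (b P.p)) = 0 := by
  obtain ⟨g, h1, u1, h2⟩ := D.trans b hb
  have hgp := h1 P.p P.hp
  have hgq := h1 P.q P.hq
  have hg : ∀ i, ∃ u : Oˣ, D.aM g (D.e i) = u • b i := by
    intro i
    by_cases hi : i = Fin.last k
    · subst hi; exact ⟨u1, h2⟩
    · exact ⟨1, by rw [one_smul]; exact h1 i hi⟩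
  have f1 := F_eq P hk hV hb hg
  have f2 := F_eq P hk hV (hb.add P.hpq) (h := g * P.g1) (by
    intro i
    rw [D.aM_mul]
    by_cases hi : i = P.p
    · subst hi
      refine ⟨1, ?_⟩
      rw [P.g1p, map_add, hgp, hgq, Function.update_self, one_smul]
    · rw [P.g1n i hi, Function.update_of_ne hi]
      exact hg i)
  have f3 := F_eq P hk hV (hb.add2 P.hpq) (h := g * P.g2) (by
    intro i
    rw [D.aM_mul]
    by_cases hq : i = P.q
    · subst hq
      refine ⟨-1, ?_⟩
      rw [P.g2q, map_neg, hgp, Function.update_self, Units.neg_smul, one_smul]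
    · rw [Function.update_of_ne hq]
      by_cases hi : i = P.p
      · subst hi
        refine ⟨1, ?_⟩
        rw [P.g2p, map_add, hgp, hgq, Function.update_self, one_smul]
      · rw [P.g2n i hi hq, Function.update_of_ne hi]
        exact hg i)
  rw [f1, f2, f3]
  have hm : ap (K := K) ι D.e ∈ St k (⊥ : Submodule K V) := ap_mem hV D.eB
  have a1 : D.A (g * P.g1)⁻¹ = D.A P.g1⁻¹ + D.c g⁻¹ (D.rho P.g1 (ap ι D.e)) := by
    unfold A
    rw [mul_inv_rev, D.c_mul _ _ hm, inv_inv]
  have a2 : D.A (g * P.g2)⁻¹ = D.A P.g2⁻¹ + D.c g⁻¹ (D.rho P.g2 (ap ι D.e)) := by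
    unfold A
    rw [mul_inv_rev, D.c_mul _ _ hm, inv_inv]
  have a3 : D.A g⁻¹ = D.c g⁻¹ (ap ι D.e) := rfl
  have r := congrArg (D.c g⁻¹) (rel0 P)
  rw [map_add, map_sub, map_zero] at r
  rw [a1, a2, a3]
  unfold psi0
  rw [← r]
  abel

theorem F_three (P : Pq D) (hk : 3 ≤ k) (hV : finrank K V = k + 1) {b : Fin (k + 1) → M}
    (hb : IsB H ⊥ b) {i j : Fin (k + 1)} (hij : i ≠ j) :
    F P b - F P (Function.update b i (b i + b j))
      + F P (Function.update (Function.update b i (b i + b j)) j (b i)) = 0 := by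
  obtain ⟨τ, hτp, hτq⟩ := exists_perm P.hpq hij
  have hinj : ∀ m, m ≠ P.p → τ m ≠ i := by
    intro m hm h
    apply hm
    rw [← hτp] at h
    exact τ.injective h
  have hinj' : ∀ m, m ≠ P.q → τ m ≠ j := by
    intro m hm h
    apply hm
    rw [← hτq] at h
    exact τ.injective h
  have e1 : Function.update (b ∘ τ) P.p ((b ∘ τ) P.p + (b ∘ τ) P.q)
      = (Function.update b i (b i + b j)) ∘ τ := by
    funext m
    by_cases hm : m = P.p
    · subst hm
      simp [hτp, hτq]
    · simp [hm, hinj m hm]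
  have e2 : Function.update (Function.update (b ∘ τ) P.p ((b ∘ τ) P.p + (b ∘ τ) P.q)) P.q
      ((b ∘ τ) P.p) = (Function.update (Function.update b i (b i + b j)) j (b i)) ∘ τ := by
    rw [e1]
    funext m
    by_cases hm : m = P.q
    · subst hm
      simp [hτp, hτq]
    · simp [hm, hinj' m hm]
  have h := F_three_pq P hk hV (hb.perm τ)
  rw [e2, e1, F_perm P hk hV hb, F_perm P hk hV (hb.add hij), F_perm P hk hV (hb.add2 hij),
    ← zsmul_sub, ← zsmul_add] at h
  have h2 := congrArg (fun y => ((Equiv.Perm.sign τ : ℤˣ) : ℤ) • y) h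
  simp only [smul_smul, sign_mul_self', one_smul, smul_zero] at h2
  exact h2

theorem Fh_rel (P : Pq D) (hk : 3 ≤ k) (hV : finrank K V = k + 1) {x : Sy M (k + 1)}
    (hx : x ∈ Rel H ⊥ (k + 1)) : Fh P x = 0 := by
  unfold Rel at hx
  induction hx using AddSubgroup.closure_induction with
  | zero => exact map_zero _
  | add x y _ _ hx hy => rw [map_add, hx, hy, add_zero]
  | neg x _ hx => rw [map_neg, hx, neg_zero]
  | mem x hx =>
    obtain ⟨b, b', hb, h⟩ | ⟨b, hb, σ⟩ | ⟨b, hb, i, j, hij⟩ := hx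
    · rw [map_sub, Fh_single, Fh_single, one_smul, one_smul, sub_eq_zero]
      exact F_equiv P hk hV hb h
    · rw [map_sub, Fh_single, Fh_single, one_smul, F_perm P hk hV hb, sub_self]
    · rw [map_add, map_sub, Fh_single, Fh_single, Fh_single, one_smul, one_smul, one_smul]
      exact F_three P hk hV hb hij

theorem c_aptL (P : Pq D) (hk : 3 ≤ k) (hV : finrank K V = k + 1) (g : G) {x : Sy M (k + 1)}
    (hx : x ∈ BS H ⊥ (k + 1)) :
    D.c g (aptL ι (⊥ : Submodule K V) k x) = Fh P (D.act g⁻¹ x) - Fh P x := by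
  unfold BS at hx
  induction hx using AddSubgroup.closure_induction with
  | zero => simp
  | add x y _ _ hx hy => rw [map_add, map_add, hx, hy, map_add, map_add, map_add]; abel
  | neg x _ hx => rw [map_neg, map_neg, hx, map_neg, map_neg, map_neg]; abel
  | mem x hx =>
    obtain ⟨b, hb, rfl⟩ := hx
    obtain ⟨h, h1, u1, h2⟩ := D.trans b hb
    have hg : ∀ i, ∃ u : Oˣ, D.aM h (D.e i) = u • b i := by
      intro i
      by_cases hi : i = Fin.last k
      · subst hi; exact ⟨u1, h2⟩
      · exact ⟨1, by rw [one_smul]; exact h1 i hi⟩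
    rw [act_single, Fh_single, Fh_single, one_smul, one_smul, aptL_single, one_smul,
      F_eq P hk hV hb hg, F_eq P hk hV (D.isB_act g⁻¹ hb) (h := g⁻¹ * h)]
    · have e1 : apt (⊥ : Submodule K V) (ι ∘ b) = D.rho h (ap ι D.e) := by
        rw [rho_ap]
        unfold ap
        apply apt_congr
        intro i
        simp only [Function.comp_apply]
        obtain ⟨u, hu⟩ := hg i
        rw [hu]
        exact (smul_line H u).symm
      rw [e1, D.c_rho hV, mul_inv_rev, inv_inv]
      abel
    · intro i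
      obtain ⟨u, hu⟩ := hg i
      exact ⟨u, by rw [D.aM_mul, hu, smul_aM]⟩

/-- The vanishing theorem. -/
theorem vanishing [IsPrincipalIdealRing O] (E : Euc O) (P : Pq D) (hk : 3 ≤ k)
    (hV : finrank K V = k + 1) (z : G →₀ Ch K V k) (hz : ∀ g, z g ∈ St k (⊥ : Submodule K V))
    (hd : z.sum (fun g x => D.rho g⁻¹ x - x) = 0) : z ∈ D.Bd := by
  have hU : finrank K (⊥ : Submodule K V) + (k + 1) = finrank K V := by
    rw [finrank_bot]; omega
  obtain ⟨hinj, hsurj⟩ := main_ind E H k ⊥ hU
  have hex : ∀ g, ∃ x ∈ BS H ⊥ (k + 1), aptL ι (⊥ : Submodule K V) k x = z g :=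
    fun g => hsurj (z g) (hz g)
  choose x hx hxz using hex
  rw [← D.q_eq_zero]
  have h1 : D.q z = ∑ g ∈ z.support, D.c g (z g) := by
    conv_lhs => rw [← Finsupp.sum_single z]
    rw [Finsupp.sum, map_sum]
    rfl
  rw [h1]
  set X : Sy M (k + 1) := ∑ g ∈ z.support, (D.act g⁻¹ (x g) - x g) with hX
  have h2 : ∑ g ∈ z.support, D.c g (z g) = Fh P X := by
    rw [hX, map_sum]
    refine Finset.sum_congr rfl fun g _ => ?_
    rw [← hxz g, c_aptL P hk hV g (hx g), map_sub]
  rw [h2]
  apply Fh_rel P hk hV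
  apply hinj
  · apply AddSubgroup.sum_mem
    intro g _
    exact AddSubgroup.sub_mem _ (act_BS _ (hx g)) (hx g)
  · rw [hX, map_sum, ← hd, Finsupp.sum]
    refine Finset.sum_congr rfl fun g _ => ?_
    rw [map_sub, aptL_act, hxz]

/-- Distinguished indices and group elements. -/
theorem exists_Pq (D : Dat H G k) (hk : 3 ≤ k) : Nonempty (Pq D) := by
  set p : Fin (k + 1) := ⟨0, by omega⟩ with hp
  set q : Fin (k + 1) := ⟨1, by omega⟩ with hq
  have hpq : p ≠ q := by
    intro h
    have := congrArg Fin.val h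
    simp [hp, hq] at this
  obtain ⟨g1, hg1, hg1'⟩ := D.el p q hpq
  obtain ⟨T, hT, hT'⟩ := D.el q p hpq.symm
  obtain ⟨r, hr⟩ := D.mon (Equiv.swap p q) (Function.update (fun _ => 1) q (-1)) (by
    rw [Equiv.Perm.sign_swap hpq, Finset.prod_eq_single q]
    · rw [Function.update_self]; simp
    · intro i _ hi
      rw [Function.update_of_ne hi]; rfl
    · intro h; exact absurd (Finset.mem_univ _) h)
  refine ⟨{
    p := p
    q := q
    hpq := hpq
    hp := ?_
    hq := ?_
    g1 := g1
    g2 := T * r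
    g1p := hg1
    g1n := hg1'
    g2p := ?_
    g2q := ?_
    g2n := ?_ }⟩
  · intro h
    have := congrArg Fin.val h
    simp [hp] at this
    omega
  · intro h
    have := congrArg Fin.val h
    simp [hq] at this
    omega
  · rw [D.aM_mul, hr, Equiv.swap_apply_left, Function.update_of_ne hpq, one_smul, hT, add_comm]
  · rw [D.aM_mul, hr, Equiv.swap_apply_right, Function.update_self, Units.neg_smul, one_smul,
      map_neg, hT' p hpq]
  · intro l h1 h2
    rw [D.aM_mul, hr, Equiv.swap_apply_of_ne_of_ne h1 h2, Function.update_of_ne h2, one_smul,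
      hT' l h2]

end N4

end Dat

end Pool.Agent.H4
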