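import Mathlib

set_option autoImplicit false

/-! The Tits building of a vector space and the Steinberg module of `GL_n(K)`: definitions. -/

namespace Pool.Agent.H4.Tits

section homology

variable {A B C : Type} [AddCommGroup A] [AddCommGroup B] [AddCommGroup C]

/-- The homology at `B` of `A → B → C`, the maps being `f` and `g`: the kernel of `g` modulo the
elements of the kernel of `g` that lie in the range of `f`. -/
def Homology (f : A →+ B) (g : B →+ C) : Type := g.ker ⧸ f.range.addSubgroupOf g.ker

noncomputable instance instGroupH (f : A →+ B) (g : B →+ C) : AddCommGroup (Homology f g) :=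
  QuotientAddGroup.Quotient.addCommGroup (f.range.addSubgroupOf g.ker)

/-- The restriction to the kernel of `g` of an endomorphism `b` that preserves this kernel. -/
def restr (g : B →+ C) (b : B →+ B) (hk : ∀ x : g.ker, b x ∈ g.ker) : g.ker →+ g.ker :=
  (b.comp g.ker.subtype).codRestrict g.ker hk

theorem range_le (f : A →+ B) (g : B →+ C) (b : B →+ B) (hk : ∀ x : g.ker, b x ∈ g.ker)
    (hr : ∀ x, b (f x) ∈ f.range) :
    f.range.addSubgroupOf g.ker ≤ (f.range.addSubgroupOf g.ker).comap (restr g b hk) := by
  rintro ⟨x, hx⟩ ⟨y, hy⟩
  subst hy
  exact hr y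

/-- The endomorphism of the homology at `B` induced by an endomorphism `b` of `B` that preserves the
kernel of `g` and the range of `f`: the class of `x` is mapped to the class of `b x`. -/
noncomputable def mapH (f : A →+ B) (g : B →+ C) (b : B →+ B) (hk : ∀ x : g.ker, b x ∈ g.ker)
    (hr : ∀ x, b (f x) ∈ f.range) : Homology f g →+ Homology f g :=
  QuotientAddGroup.map _ _ (restr g b hk) (range_le f g b hk hr)

end homology

/-- The `q`-tuples `x_0 < ... < x_(q-1)` of the partially ordered set `P`: the simplices with `q`
vertices (of dimension `q - 1`) of its order complex. For `q = 0` this is the empty simplex. -/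
abbrev Simplex (P : Type) [PartialOrder P] (q : ℕ) : Type := {f : Fin q → P // StrictMono f}

/-- The group of integral chains on the simplices with `q` vertices. -/
abbrev Chains (P : Type) [PartialOrder P] (q : ℕ) : Type := Simplex P q →₀ ℤ

/-- The face opposite to the `i`-th vertex. -/
def face {P : Type} [PartialOrder P] {q : ℕ} (f : Simplex P (q + 1)) (i : Fin (q + 1)) :
    Simplex P q :=
  ⟨f.1 ∘ i.succAbove, f.2.comp (Fin.strictMono_succAbove i)⟩

/-- The boundary map of the augmented simplicial chain complex of the order complex of `P`, from
the chains on simplices with `q + 1` vertices to those on simplices with `q` vertices: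
`∂ f = ∑ i, (-1)^i (face f i)`. -/
noncomputable def boundary (P : Type) [PartialOrder P] (q : ℕ) :
    Chains P (q + 1) →+ Chains P q :=
  (Finsupp.linearCombination ℤ fun f =>
    ∑ i : Fin (q + 1), Finsupp.single (face f i) ((-1) ^ (i : ℕ))).toAddMonoidHom

/-- The reduced simplicial homology group, in degree `q`, of the order complex of `P`, with integral
coefficients: cycles modulo boundaries, both made of chains on simplices with `q + 1` vertices. -/
def RedHomology (P : Type) [PartialOrder P] (q : ℕ) : Type :=
  Homology (boundary P (q + 1)) (boundary P q)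

noncomputable instance instGroup (P : Type) [PartialOrder P] (q : ℕ) :
    AddCommGroup (RedHomology P q) :=
  instGroupH (boundary P (q + 1)) (boundary P q)

/-- The map of chains induced by an automorphism of `P`. -/
noncomputable def chainMap {P : Type} [PartialOrder P] (q : ℕ) (e : P ≃o P) :
    Chains P q →+ Chains P q :=
  Finsupp.mapDomain.addMonoidHom fun f => ⟨e ∘ f.1, e.strictMono.comp f.2⟩

theorem boundary_single {P : Type} [PartialOrder P] (q : ℕ) (f : Simplex P (q + 1)) (a : ℤ) :
    boundary P q (Finsupp.single f a) =
      ∑ i : Fin (q + 1), (-1 : ℤ) ^ (i : ℕ) • Finsupp.single (face f i) a := by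
  change Finsupp.linearCombination ℤ _ (Finsupp.single f a) = _
  rw [Finsupp.linearCombination_single, Finset.smul_sum]
  refine Finset.sum_congr rfl fun i _ => ?_
  rw [Finsupp.smul_single, Finsupp.smul_single, smul_eq_mul, smul_eq_mul, mul_comm]

theorem chainMap_single {P : Type} [PartialOrder P] (q : ℕ) (e : P ≃o P) (f : Simplex P q)
    (a : ℤ) : chainMap q e (Finsupp.single f a) =
      Finsupp.single ⟨e ∘ f.1, e.strictMono.comp f.2⟩ a := by
  change Finsupp.mapDomain _ (Finsupp.single f a) = _
  rw [Finsupp.mapDomain_single]

theorem boundary_chainMap {P : Type} [PartialOrder P] (q : ℕ) (e : P ≃o P)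
    (x : Chains P (q + 1)) :
    boundary P q (chainMap (q + 1) e x) = chainMap q e (boundary P q x) := by
  induction x using Finsupp.induction_linear with
  | zero => simp
  | add x y hx hy => simp only [map_add, hx, hy]
  | single f a =>
    rw [chainMap_single, boundary_single, boundary_single, map_sum]
    refine Finset.sum_congr rfl fun i _ => ?_
    rw [map_zsmul, chainMap_single]
    rfl

theorem chainMap_ker {P : Type} [PartialOrder P] (q : ℕ) (e : P ≃o P)
    (x : (boundary P q).ker) : chainMap (q + 1) e x ∈ (boundary P q).ker := by
  rw [AddMonoidHom.mem_ker, boundary_chainMap, x.2, map_zero]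

theorem chainMap_range {P : Type} [PartialOrder P] (q : ℕ) (e : P ≃o P)
    (x : Chains P (q + 1 + 1)) :
    chainMap (q + 1) e (boundary P (q + 1) x) ∈ (boundary P (q + 1)).range :=
  ⟨chainMap (q + 1 + 1) e x, boundary_chainMap _ _ _⟩

/-- The map of reduced homology groups induced by an automorphism of `P`. -/
noncomputable def homologyMap {P : Type} [PartialOrder P] (q : ℕ) (e : P ≃o P) :
    RedHomology P q →+ RedHomology P q :=
  mapH (boundary P (q + 1)) (boundary P q) (chainMap (q + 1) e) (chainMap_ker q e)
    (chainMap_range q e)

/-- The class of a cycle. -/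
noncomputable def cls {P : Type} [PartialOrder P] (q : ℕ) (x : (boundary P q).ker) :
    RedHomology P q :=
  QuotientAddGroup.mk x

theorem cls_surjective {P : Type} [PartialOrder P] (q : ℕ) (x : RedHomology P q) :
    ∃ y, cls q y = x := QuotientAddGroup.mk_surjective x

/-- The map of cycles induced by an automorphism of `P`. -/
noncomputable def cycleMap {P : Type} [PartialOrder P] (q : ℕ) (e : P ≃o P) :
    (boundary P q).ker →+ (boundary P q).ker :=
  restr (boundary P q) (chainMap (q + 1) e) (chainMap_ker q e)

theorem homologyMap_cls {P : Type} [PartialOrder P] (q : ℕ) (e : P ≃o P)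
    (x : (boundary P q).ker) :
    homologyMap q e (cls q x) = cls q (cycleMap q e x) := rfl

theorem chainMap_one {P : Type} [PartialOrder P] (q : ℕ) (x : Chains P q) :
    chainMap q (1 : P ≃o P) x = x := by
  induction x using Finsupp.induction_linear with
  | zero => simp
  | add x y hx hy => simp only [map_add, hx, hy]
  | single f a => rw [chainMap_single]; rfl

theorem chainMap_mul {P : Type} [PartialOrder P] (q : ℕ) (e e' : P ≃o P)
    (x : Chains P q) : chainMap q (e * e') x = chainMap q e (chainMap q e' x) := by
  induction x using Finsupp.induction_linear with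
  | zero => simp
  | add x y hx hy => simp only [map_add, hx, hy]
  | single f a => rw [chainMap_single, chainMap_single, chainMap_single]; rfl

theorem homologyMap_one {P : Type} [PartialOrder P] (q : ℕ) :
    (homologyMap q (1 : P ≃o P)).toIntLinearMap = 1 := by
  refine LinearMap.ext fun x => ?_
  obtain ⟨y, rfl⟩ := cls_surjective _ x
  have h : cycleMap q (1 : P ≃o P) y = y := Subtype.ext (chainMap_one (q + 1) y.1)
  change homologyMap q (1 : P ≃o P) (cls q y) = cls q y
  rw [homologyMap_cls, h]

theorem homologyMap_mul {P : Type} [PartialOrder P] (q : ℕ) (e e' : P ≃o P) :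
    (homologyMap q (e * e')).toIntLinearMap =
      (homologyMap q e).toIntLinearMap * (homologyMap q e').toIntLinearMap := by
  refine LinearMap.ext fun x => ?_
  obtain ⟨y, rfl⟩ := cls_surjective _ x
  have h : cycleMap q (e * e') y = cycleMap q e (cycleMap q e' y) :=
    Subtype.ext (chainMap_mul (q + 1) e e' y.1)
  change homologyMap q (e * e') (cls q y) = homologyMap q e (homologyMap q e' (cls q y))
  rw [homologyMap_cls, homologyMap_cls, homologyMap_cls, h]

/-- The group of automorphisms of `P` acts on the reduced homology group in degree `q` of the
order complex of `P`. -/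
noncomputable def homologyRep (P : Type) [PartialOrder P] (q : ℕ) :
    Representation ℤ (P ≃o P) (RedHomology P q) where
  toFun e := (homologyMap q e).toIntLinearMap
  map_one' := homologyMap_one q
  map_mul' := homologyMap_mul q

section building

variable {K V : Type} [Field K] [AddCommGroup V] [Module K V]

variable (K V) in
/-- The Tits building of the vector space `V`, as a partially ordered set: the proper nonzero
subspaces of `V`, ordered by inclusion. The simplices of its order complex are the flags. -/
def Building : Type := {W : Submodule K V // W ≠ ⊥ ∧ W ≠ ⊤}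

instance instOrder : PartialOrder (Building K V) := Subtype.partialOrder _

theorem map_inv_map (g : LinearMap.GeneralLinearGroup K V) (W : Submodule K V) :
    (W.map g.val).map g⁻¹.val = W := by
  rw [← Submodule.map_comp]
  change W.map (g⁻¹.val * g.val) = W
  rw [Units.inv_mul]
  exact Submodule.map_id W

theorem map_map_inv (g : LinearMap.GeneralLinearGroup K V) (W : Submodule K V) :
    (W.map g⁻¹.val).map g.val = W := by
  have h := map_inv_map g⁻¹ W
  rwa [inv_inv] at h

theorem map_ne (g : LinearMap.GeneralLinearGroup K V) (W : Building K V) :
    W.1.map g.val ≠ ⊥ ∧ W.1.map g.val ≠ ⊤ := by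
  refine ⟨fun h => W.2.1 ?_, fun h => W.2.2 ?_⟩
  · rw [← map_inv_map g W.1, h, Submodule.map_bot]
  · rw [← map_inv_map g W.1, h, Submodule.map_top, LinearMap.range_eq_top]
    intro x
    refine ⟨g.val x, ?_⟩
    change (g⁻¹.val * g.val) x = x
    rw [Units.inv_mul]
    rfl

/-- The subspace `g W`. -/
def translate (g : LinearMap.GeneralLinearGroup K V) (W : Building K V) : Building K V :=
  ⟨W.1.map g.val, map_ne g W⟩

theorem translate_inv_left (g : LinearMap.GeneralLinearGroup K V) (W : Building K V) :
    translate g⁻¹ (translate g W) = W := Subtype.ext (map_inv_map g W.1)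

theorem translate_inv_right (g : LinearMap.GeneralLinearGroup K V) (W : Building K V) :
    translate g (translate g⁻¹ W) = W := Subtype.ext (map_map_inv g W.1)

theorem translate_le (g : LinearMap.GeneralLinearGroup K V) {W W' : Building K V} :
    translate g W ≤ translate g W' ↔ W ≤ W' := by
  refine ⟨fun h => ?_, fun h => Submodule.map_mono h⟩
  have h1 : (W.1.map g.val).map g⁻¹.val ≤ (W'.1.map g.val).map g⁻¹.val := Submodule.map_mono h
  rw [map_inv_map, map_inv_map] at h1
  exact h1

/-- The automorphism `W ↦ g W` of the Tits building. -/
def translateIso (g : LinearMap.GeneralLinearGroup K V) : Building K V ≃o Building K V where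
  toFun := translate g
  invFun := translate g⁻¹
  left_inv := translate_inv_left g
  right_inv := translate_inv_right g
  map_rel_iff' := translate_le g

theorem translateIso_one : translateIso (1 : LinearMap.GeneralLinearGroup K V) = 1 :=
  DFunLike.ext _ _ fun W => Subtype.ext (Submodule.map_id W.1)

theorem translateIso_mul (g h : LinearMap.GeneralLinearGroup K V) :
    translateIso (g * h) = translateIso g * translateIso h :=
  DFunLike.ext _ _ fun W => Subtype.ext (Submodule.map_comp h.val g.val W.1)

variable (K V) in
/-- The action of `GL(V)` on the Tits building of `V` by automorphisms: `g` maps the subspace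
`W` to `g W`. -/
def buildingAction : LinearMap.GeneralLinearGroup K V →* (Building K V ≃o Building K V) where
  toFun := translateIso
  map_one' := translateIso_one
  map_mul' := translateIso_mul

end building

/-- The group `G`, acting on `P` by means of `α`, acts on the reduced homology of `P`. -/
noncomputable def actRep {P G : Type} [PartialOrder P] [Group G] (α : G →* (P ≃o P)) (q : ℕ) :
    Representation ℤ G (RedHomology P q) :=
  (homologyRep P q).comp α

/-- The action of the group `G` on the Tits building of `V` given by `ψ : G → GL(V)`. -/
def actBuilding {K V G : Type} [Field K] [AddCommGroup V] [Module K V] [Group G]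
    (ψ : G →* LinearMap.GeneralLinearGroup K V) : G →* (Building K V ≃o Building K V) :=
  (buildingAction K V).comp ψ

/-- The homomorphism `GL_n(O) → GL_n(K) → GL(K^n)`, for an `O`-algebra `K`. -/
noncomputable def toGLK (O K : Type) [CommRing O] [Field K] [Algebra O K] (n : ℕ) :
    Matrix.GeneralLinearGroup (Fin n) O →* LinearMap.GeneralLinearGroup K (Fin n → K) :=
  Matrix.GeneralLinearGroup.toLin.toMonoidHom.comp
    (Matrix.GeneralLinearGroup.map (algebraMap O K))

/-- The Steinberg module `St_n(K)`, the reduced homology group in degree `n - 2` of the Tits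
building of `K^n`, as a module over a group `G` by means of a homomorphism `φ : G → GL_n(O)`, where
`K` is an `O`-algebra. -/
noncomputable def steinberg {O G : Type} [CommRing O] [Group G] {n : ℕ}
    (φ : G →* Matrix.GeneralLinearGroup (Fin n) O) (K : Type) [Field K] [Algebra O K] :
    Representation ℤ G (RedHomology (Building K (Fin n → K)) (n - 2)) :=
  actRep (actBuilding ((toGLK O K n).comp φ)) (n - 2)

/-- The ring `O` is isomorphic to the subring `ℤ[ζ]` of `ℂ`. -/
def IsoAdjoin (O : Type) [CommRing O] (ζ : ℂ) : Prop := Nonempty (O ≃+* Algebra.adjoin ℤ {ζ})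

end Pool.Agent.H4.Tits
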