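import Pool.Agent.H4.StN
import Pool.Agent.H4.TitsDefs

set_option autoImplicit false

/-! The comparison with group homology and with the homology of the Tits building. -/

namespace Pool.Agent.H4

open Finsupp Module CategoryTheory

theorem isZero_H1 {G : Type} [Group G] (A : Rep.{0} ℤ G)
    (h : ∀ z : G →₀ A, (z.sum fun g a => A.ρ g⁻¹ a - a) = 0 → ∃ w : (G × G) →₀ A,
      (w.sum fun p a => single p.2 (A.ρ p.1⁻¹ a) - single (p.1 * p.2) a + single p.1 a) = z) :
    Limits.IsZero (groupHomology A 1) := by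
  have h0 : ∀ x : groupHomology.H1 A, x = 0 := fun x =>
    groupHomology.H1_induction_on x fun y => by
      rw [groupHomology.H1π_eq_zero_iff]
      obtain ⟨w, hw⟩ := h y.1 y.2
      exact ⟨w, hw⟩
  have h1 : Subsingleton (groupHomology A 1) := ⟨fun a b => (h0 a).trans (h0 b).symm⟩
  exact ModuleCat.isZero_of_subsingleton _

section dat

variable {O K V M : Type*} [CommRing O] [IsDomain O] [Field K] [Algebra O K]
  [AddCommGroup V] [Module K V] [AddCommGroup M] [Module O M]
  {ι : M →+ V} {H : LatHyp O K V M ι} {G : Type} [Group G] {k : ℕ}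

theorem isZero_of_dat [FiniteDimensional K V] [IsPrincipalIdealRing O] (D : Dat H G k)
    (E : Euc O) (hk : 3 ≤ k) (hV : finrank K V = k + 1) {S : Type} [AddCommGroup S]
    [Module ℤ S] (ρ : Representation ℤ G S) (j : S →+ Ch K V k) (hj : Function.Injective j)
    (hj' : ∀ x, x ∈ St k (⊥ : Submodule K V) ↔ ∃ s, j s = x)
    (hρ : ∀ g s, j (ρ g s) = D.rho g (j s)) :
    Limits.IsZero (groupHomology (Rep.of ρ) 1) := by
  apply isZero_H1
  intro z hz
  change G →₀ S at z
  change (z.sum fun g a => ρ g⁻¹ a - a) = 0 at hz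
  obtain ⟨P⟩ := Dat.N4.exists_Pq D hk
  have h := Dat.N4.vanishing E P hk hV (z.mapRange j (map_zero j))
    (fun g => (hj' _).mpr ⟨z g, by rw [Finsupp.mapRange_apply]⟩) (by
      rw [Finsupp.sum_mapRange_index (fun g => by rw [map_zero, sub_zero])]
      have h1 := congrArg j hz
      rw [map_zero, map_finsuppSum] at h1
      rw [← h1]
      refine Finsupp.sum_congr fun g _ => ?_
      rw [map_sub, hρ])
  obtain ⟨w, hw, hwz⟩ := h
  have hex : ∀ p, ∃ s, j s = w p := fun p => (hj' (w p)).mp (hw p)
  choose s hs using hex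
  have hs0 : ∀ p, s p ≠ 0 → p ∈ w.support := by
    intro p hp
    rw [Finsupp.mem_support_iff]
    intro h0
    apply hp
    apply hj
    rw [hs, h0, map_zero]
  set w' : (G × G) →₀ S := Finsupp.onFinset w.support s hs0 with hw'
  have hww : w'.mapRange j (map_zero j) = w := by
    ext p : 1
    rw [Finsupp.mapRange_apply, hw', Finsupp.onFinset_apply, hs]
  refine ⟨w', ?_⟩
  change (w'.sum fun p a => single p.2 (ρ p.1⁻¹ a) - single (p.1 * p.2) a + single p.1 a) = z
  apply Finsupp.mapRange_injective j (map_zero j) hj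
  rw [← hwz, Dat.D2_apply, ← hww,
    Finsupp.sum_mapRange_index (fun g => by simp)]
  have h2 := map_finsuppSum (Finsupp.mapRange.addMonoidHom (ι := G) j) w'
    (fun p a => single p.2 (ρ p.1⁻¹ a) - single (p.1 * p.2) a + single p.1 a)
  refine Eq.trans h2 ?_
  refine Finsupp.sum_congr fun p _ => ?_
  rw [map_add, map_sub]
  simp only [Finsupp.mapRange.addMonoidHom_apply, Finsupp.mapRange_single, hρ]

end dat

section tits

open Tits

variable {K V : Type} [Field K] [AddCommGroup V] [Module K V]

/-- The underlying tuple of subspaces of a simplex of the building. -/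
def under {q : ℕ} (f : Simplex (Building K V) q) : Fin q → Submodule K V :=
  fun i => (f.1 i).1

theorem under_injective {q : ℕ} :
    Function.Injective (under : Simplex (Building K V) q → _) := by
  intro f g h
  apply Subtype.ext
  funext i
  exact Subtype.ext (congrFun h i)

theorem mem_range_under {q : ℕ} {f : Fin q → Submodule K V} (h : StrictMono f)
    (h' : ∀ i, f i ≠ ⊥ ∧ f i ≠ ⊤) : f ∈ Set.range (under (K := K) (V := V) (q := q)) :=
  ⟨⟨fun i => ⟨f i, h' i⟩, fun _ _ hij => h hij⟩, rfl⟩

theorem under_spec {q : ℕ} (f : Simplex (Building K V) q) :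
    StrictMono (under f) ∧ ∀ i, under f i ≠ ⊥ ∧ under f i ≠ ⊤ :=
  ⟨fun _ _ hij => f.2 hij, fun i => (f.1 i).2⟩

/-- A simplex of the building of `V` has at most `dim V - 1` vertices. -/
theorem simplex_empty {q : ℕ} (hV : finrank K V = q + 2) :
    IsEmpty (Simplex (Building K V) (q + 1 + 1)) := by
  refine ⟨fun f => ?_⟩
  have : FiniteDimensional K V := Module.finite_of_finrank_eq_succ hV
  have hg : StrictMono fun i : Fin (q + 1 + 1) => finrank K (f.1 i).1 := fun a b hab =>
    Submodule.finrank_lt_finrank_of_lt (f.2 hab)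
  have h1 := strictMono_add hg 0 (Fin.last _) (Fin.zero_le _)
  have h2 : finrank K (f.1 (Fin.last (q + 1))).1 < finrank K V :=
    Submodule.finrank_lt (f.1 (Fin.last _)).2.2
  have h3 : 0 < finrank K (f.1 0).1 := by
    rw [Module.finrank_pos_iff]
    exact (Submodule.nontrivial_iff_ne_bot).mpr (f.1 0).2.1
  simp only [Fin.val_last, Fin.val_zero] at h1
  omega

theorem bdry_under {q : ℕ} (x : Simplex (Building K V) (q + 1) →₀ ℤ) :
    bdry (Finsupp.mapDomain under x) = Finsupp.mapDomain under (boundary (Building K V) q x) := by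
  induction x using Finsupp.induction_linear with
  | zero => simp
  | add x y hx hy => simp only [Finsupp.mapDomain_add, map_add, hx, hy]
  | single f a =>
    rw [Finsupp.mapDomain_single, bdry_single, boundary_single, Finsupp.mapDomain_finsetSum]
    refine Finset.sum_congr rfl fun i _ => ?_
    rw [Finsupp.mapDomain_smul, Finsupp.mapDomain_single, Finsupp.smul_single, smul_eq_mul]
    rfl

/-- The map from the homology of the building to the chains. -/
noncomputable def jmap {q : ℕ} (hV : finrank K V = q + 2) :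
    RedHomology (Building K V) q →+ Ch K V (q + 1) :=
  QuotientAddGroup.lift _ ((Finsupp.mapDomain.addMonoidHom under).comp
    (boundary (Building K V) q).ker.subtype) (by
      have := simplex_empty hV
      rintro ⟨x, hx⟩ ⟨y, hy⟩
      have h0 : y = 0 := Subsingleton.elim _ _
      subst hy
      subst h0
      simp)

theorem jmap_cls {q : ℕ} (hV : finrank K V = q + 2) (x : (boundary (Building K V) q).ker) :
    jmap hV (cls q x) = Finsupp.mapDomain under x.1 := rfl

theorem jmap_injective {q : ℕ} (hV : finrank K V = q + 2) : Function.Injective (jmap hV) := by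
  intro a b h
  obtain ⟨x, rfl⟩ := cls_surjective _ a
  obtain ⟨y, rfl⟩ := cls_surjective _ b
  rw [jmap_cls, jmap_cls] at h
  rw [Subtype.ext (Finsupp.mapDomain_injective under_injective h)]

theorem finrank_fin (q : ℕ) : finrank K (Fin (q + 2) → K) = q + 2 := by
  rw [Module.finrank_fintype_fun_eq_card, Fintype.card_fin]

theorem mem_St_iff_jmap {q : ℕ} (hV : finrank K V = q + 2) (x : Ch K V (q + 1)) :
    x ∈ St (q + 1) (⊥ : Submodule K V) ↔ ∃ s, jmap hV s = x := by
  have : FiniteDimensional K V := Module.finite_of_finrank_eq_succ hV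
  rw [mem_St_iff hV, ← bdry_apply]
  constructor
  · rintro ⟨h1, h2⟩
    have h3 : ↑x.support ⊆ Set.range (under (K := K) (V := V) (q := q + 1)) := fun f hf =>
      mem_range_under (h1 f hf).1 (h1 f hf).2
    set y := Finsupp.comapDomain under x under_injective.injOn with hy
    have hyx : Finsupp.mapDomain under y = x :=
      Finsupp.mapDomain_comapDomain _ under_injective x h3
    have hker : boundary (Building K V) q y = 0 := by
      apply Finsupp.mapDomain_injective under_injective
      rw [← bdry_under, hyx, h2, Finsupp.mapDomain_zero]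
    exact ⟨cls q ⟨y, hker⟩, hyx⟩
  · rintro ⟨s, rfl⟩
    obtain ⟨⟨y, hy⟩, rfl⟩ := cls_surjective _ s
    rw [jmap_cls]
    refine ⟨fun f hf => ?_, ?_⟩
    · classical
      obtain ⟨g, _, rfl⟩ := Finset.mem_image.mp (Finsupp.mapDomain_support hf)
      exact under_spec g
    · have hy' : boundary (Building K V) q y = 0 := hy
      rw [bdry_under, hy', Finsupp.mapDomain_zero]

end tits

section main

open Tits

variable {O K : Type} [CommRing O] [IsDomain O] [Field K] [Algebra O K] [IsFractionRing O K]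

theorem isZero_steinberg (E : Euc O) (n : ℕ) (hn : 4 ≤ n) {G : Type} [Group G]
    (φ : G →* Matrix.GeneralLinearGroup (Fin n) O) (hinj : Function.Injective φ)
    (hdet : ∀ A : Matrix.GeneralLinearGroup (Fin n) O, Matrix.det A.val = 1 →
      A ∈ Set.range φ) :
    Limits.IsZero (groupHomology (Rep.of (steinberg φ K)) 1) := by
  obtain ⟨q, rfl⟩ : ∃ q, n = q + 2 := ⟨n - 2, by omega⟩
  have hpid : IsPrincipalIdealRing O := E.pid
  have hdet' : ∀ A : Matrix (Fin (q + 1 + 1)) (Fin (q + 1 + 1)) O, A.det = 1 →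
      ∃ g : G, (φ g).val = A := by
    intro A hA
    obtain ⟨g, hg⟩ := hdet (Matrix.SpecialLinearGroup.toGL ⟨A, hA⟩) hA
    exact ⟨g, by rw [hg]; rfl⟩
  refine isZero_of_dat (matDat (K := K) (k := q + 1) φ hinj hdet') E (by omega) (finrank_fin q)
    (S := RedHomology (Building K (Fin (q + 2) → K)) q) _ (jmap (finrank_fin q))
    (jmap_injective (finrank_fin q)) (mem_St_iff_jmap (finrank_fin q)) ?_
  intro g s
  obtain ⟨y, rfl⟩ := cls_surjective _ s
  rw [jmap_cls]
  change jmap (finrank_fin q) (cls q (cycleMap q _ y)) = _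
  rw [jmap_cls, Dat.rho_apply]
  change Finsupp.mapDomain under (Finsupp.mapDomain _ y.1) = _
  rw [← Finsupp.mapDomain_comp, ← Finsupp.mapDomain_comp]
  rfl

end main

section rings

open Complex

theorem I_sq : (I : ℂ) * I = ((0 : ℤ) : ℂ) * I - 1 := by
  rw [I_mul_I]; push_cast; ring

theorem exp_sq : exp (2 * Real.pi * I / 3) * exp (2 * Real.pi * I / 3) =
    ((-1 : ℤ) : ℂ) * exp (2 * Real.pi * I / 3) - 1 := by
  have h := isPrimitiveRoot_exp 3 (by norm_num)
  have hz : exp (2 * Real.pi * I / ((3 : ℕ) : ℂ)) = exp (2 * Real.pi * I / 3) := by norm_num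
  rw [hz] at h
  set z := exp (2 * Real.pi * I / 3) with hzdef
  have h1 : z ^ 3 = 1 := h.pow_eq_one
  have h2 : z ≠ 1 := h.ne_one (by norm_num)
  have h3 : (z - 1) * (z ^ 2 + z + 1) = 0 := by linear_combination h1
  rcases mul_eq_zero.mp h3 with h4 | h4
  · exact absurd (sub_eq_zero.mp h4) h2
  · push_cast
    linear_combination h4

theorem adjoin_coord {t : ℤ} (ht : t = 0 ∨ t = -1) {ζ : ℂ} (hζ : ζ * ζ = (t : ℂ) * ζ - 1) :
    Nonempty (Coord (Algebra.adjoin ℤ {ζ}) t) := by
  set θ : Algebra.adjoin ℤ {ζ} := ⟨ζ, Algebra.subset_adjoin rfl⟩ with hθ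
  have hsq : θ * θ = (t : Algebra.adjoin ℤ {ζ}) * θ - 1 := by
    apply Subtype.ext
    push_cast
    exact hζ
  have hex : ∀ x ∈ Algebra.adjoin ℤ {ζ}, ∃ a b : ℤ, x = (a : ℂ) + b * ζ := by
    intro x hx
    induction hx using Algebra.adjoin_induction with
    | mem x hx =>
      rw [Set.mem_singleton_iff] at hx
      exact ⟨0, 1, by rw [hx]; push_cast; ring⟩
    | algebraMap r => exact ⟨r, 0, by simp⟩
    | add x y _ _ hx hy =>
      obtain ⟨a, b, rfl⟩ := hx
      obtain ⟨c, d, rfl⟩ := hy
      exact ⟨a + c, b + d, by push_cast; ring⟩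
    | mul x y _ _ hx hy =>
      obtain ⟨a, b, rfl⟩ := hx
      obtain ⟨c, d, rfl⟩ := hy
      refine ⟨a * c - b * d, a * d + b * c + t * b * d, ?_⟩
      push_cast
      linear_combination ((b : ℂ) * d) * hζ
  refine ⟨{
    θ := θ
    sq := hsq
    ex := ?_
    uniq := coord_uniq ht hsq }⟩
  rintro ⟨x, hx⟩
  obtain ⟨a, b, hab⟩ := hex x hx
  refine ⟨a, b, Subtype.ext ?_⟩
  push_cast
  exact hab

/-- Transport of coordinates along an isomorphism of rings. -/
def Coord.trans {O O' : Type*} [CommRing O] [CommRing O'] {t : ℤ} (C : Coord O' t)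
    (e : O ≃+* O') : Coord O t where
  θ := e.symm C.θ
  sq := by
    have h := congrArg e.symm C.sq
    rw [map_mul, map_sub, map_mul, map_one, map_intCast] at h
    exact h
  ex x := by
    obtain ⟨a, b, h⟩ := C.ex (e x)
    refine ⟨a, b, ?_⟩
    have h2 := congrArg e.symm h
    rw [RingEquiv.symm_apply_apply, map_add, map_mul, map_intCast, map_intCast] at h2
    exact h2
  uniq a b h := by
    apply C.uniq
    have h2 := congrArg e h
    rw [map_add, map_mul, map_intCast, map_intCast, map_zero, RingEquiv.apply_symm_apply] at h2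
    exact h2

/-- Euclidean data for a ring isomorphic to the Gaussian or the Eisenstein integers. -/
theorem euc_equiv {O : Type} [CommRing O]
    (h : Tits.IsoAdjoin O I ∨ Tits.IsoAdjoin O (exp (2 * Real.pi * I / 3))) :
    IsDomain O ∧ Nonempty (Euc O) := by
  rcases h with ⟨⟨e⟩⟩ | ⟨⟨e⟩⟩
  · have hd : IsDomain O := e.isDomain_iff.mpr inferInstance
    obtain ⟨C⟩ := adjoin_coord (Or.inl rfl) I_sq
    exact ⟨hd, ⟨((C.trans e).toPreEuc (Or.inl rfl)).toEuc⟩⟩
  · have hd : IsDomain O := e.isDomain_iff.mpr inferInstance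
    obtain ⟨C⟩ := adjoin_coord (Or.inr rfl) exp_sq
    exact ⟨hd, ⟨((C.trans e).toPreEuc (Or.inr rfl)).toEuc⟩⟩

end rings

end Pool.Agent.H4
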